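import Mathlib
import Pool.Agent.H251.SP.Stm

/-!
# Type II sums (`S_tii`)
-/

set_option autoImplicit false
set_option linter.all false

open Polynomial Finset
open scoped Classical
open Pool.Agent.H985.Chow (mob)
open Pool.Agent.H985.KP (PA mobg)
open Pool.Agent.H694.Typ (Mn Irn mem_Mn mem_Irn card_Mn pol pol_inj pol_degree exists_pol
  irn_wt_ge irn_one_le wt q_ge)

namespace Pool.Agent.H251.SP

namespace TII

variable {K : Type} [Field K] [Fintype K]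

/-- polynomials of degree less than `L` -/
noncomputable def Pl (K : Type) [Field K] [Fintype K] (L : ℕ) : Finset K[X] :=
  univ.image (pol : (Fin L → K) → K[X])

theorem mem_Pl {L : ℕ} {t : K[X]} : t ∈ Pl K L ↔ t.degree < (L : WithBot ℕ) := by
  unfold Pl
  rw [mem_image]
  constructor
  · rintro ⟨c, -, rfl⟩
    exact pol_degree c
  · intro h
    obtain ⟨c, hc⟩ := exists_pol h
    exact ⟨c, mem_univ _, hc⟩

theorem card_Pl (L : ℕ) : (Pl K L).card = Fintype.card K ^ L := by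
  unfold Pl
  rw [card_image_of_injective _ pol_inj, card_univ, Fintype.card_fun, Fintype.card_fin]

theorem mob_abs (f : K[X]) : |(mob f : ℝ)| ≤ 1 := by
  unfold mob
  split_ifs
  · push_cast
    rw [abs_pow, abs_neg, abs_one, one_pow]
  · simp

theorem mobg_abs (g f : K[X]) : |(mobg g f : ℝ)| ≤ 1 := by
  unfold mobg
  split_ifs
  · exact mob_abs _
  · simp

theorem card_Irn_le {d : ℕ} : ((Irn K d).card : ℝ) ≤ (Fintype.card K : ℝ) ^ d := by
  have h : (Irn K d).card ≤ (Mn K d).card := card_le_card (filter_subset _ _)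
  rw [card_Mn] at h
  exact_mod_cast h

section shift

variable [CharP K 2]

theorem shift_mem {n L j u : ℕ} (hL : 2 * L + j + u = n + 1) {m t B : K[X]}
    (hm : m.natDegree = u) (ht : t ∈ Pl K L) (hB : B ∈ Mn K (n - j)) :
    B + m * t ^ 2 ∈ Mn K (n - j) := by
  rw [mem_Mn] at hB ⊢
  rw [mem_Pl] at ht
  by_cases h0 : t = 0
  · rw [h0]; simpa using hB
  · have h1 : t.natDegree < L := (natDegree_lt_iff_degree_lt h0).2 ht
    have h2 : (m * t ^ 2).natDegree ≤ u + 2 * t.natDegree := by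
      refine natDegree_mul_le.trans ?_
      rw [hm]
      exact Nat.add_le_add_left natDegree_pow_le _
    have h3 : (m * t ^ 2).degree < B.degree := by
      rw [degree_eq_natDegree hB.1.ne_zero, hB.2]
      refine lt_of_le_of_lt degree_le_natDegree ?_
      have : (m * t ^ 2).natDegree < n - j := by omega
      exact_mod_cast this
    exact ⟨hB.1.add_of_left h3, by rw [natDegree_add_eq_left_of_degree_lt h3, hB.2]⟩

theorem sum_shift {n L j u : ℕ} (hL : 2 * L + j + u = n + 1) {m t : K[X]}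
    (hm : m.natDegree = u) (ht : t ∈ Pl K L) (F : K[X] → ℝ) :
    ∑ B ∈ Mn K (n - j), F (B + m * t ^ 2) = ∑ B ∈ Mn K (n - j), F B := by
  have hc : ∀ B : K[X], B + m * t ^ 2 + m * t ^ 2 = B := fun B => by
    rw [add_assoc, CharTwo.add_self_eq_zero, add_zero]
  apply sum_nbij' (fun B => B + m * t ^ 2) (fun B => B + m * t ^ 2)
  · intro B hB; exact shift_mem hL hm ht hB
  · intro B hB; exact shift_mem hL hm ht hB
  · intro B _; exact hc B
  · intro B _; exact hc B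
  · intro B _; rfl

theorem Ds_shift (m A h B t : K[X]) : Ds m A h (B + m * t ^ 2) = Ds m A h B := by
  unfold Ds
  have h1 : m * A * (A * (B + m * t ^ 2) + h) = m * A * (A * B + h) + (m * A * t) ^ 2 := by ring
  rw [h1, derivative_add, derivative_sq]
  have h2 : (2 : K[X]) = 0 := CharTwo.two_eq_zero
  have h3 : (C (2 : K) : K[X]) = 0 := by
    rw [CharTwo.two_eq_zero, C_0]
  simp [h2, h3]

theorem Gw_shift (a : ℕ) (m A h B t : K[X]) : Gw a m A h (B + m * t ^ 2) = Gw a m A h B := by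
  unfold Gw
  rw [Ds_shift]

end shift

/-- the form is monic of degree `u + j + n` -/
theorem form_monic {n j u : ℕ} (hjn : j ≤ n) {m A h B : K[X]} (hm : m.Monic)
    (hmu : m.natDegree = u) (hA : A.Monic) (hAj : A.natDegree = j) (hh : h.natDegree < n)
    (hB : B ∈ Mn K (n - j)) :
    (m * A * (A * B + h)).Monic ∧ (m * A * (A * B + h)).natDegree = n + j + u := by
  rw [mem_Mn] at hB
  have h1 : (A * B).Monic := hA.mul hB.1
  have h2 : (A * B).natDegree = n := by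
    rw [hA.natDegree_mul hB.1, hAj, hB.2]; omega
  have h3 : h.degree < (A * B).degree := by
    rw [degree_eq_natDegree h1.ne_zero, h2]
    refine lt_of_le_of_lt degree_le_natDegree ?_
    exact_mod_cast hh
  have h4 : (A * B + h).Monic := h1.add_of_left h3
  have h5 : (A * B + h).natDegree = n := by rw [natDegree_add_eq_left_of_degree_lt h3, h2]
  refine ⟨(hm.mul hA).mul h4, ?_⟩
  rw [(hm.mul hA).natDegree_mul h4, hm.natDegree_mul hA, hmu, hAj, h5]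
  ring

theorem Ds_ne [CharP K 2] {n j u : ℕ} (hjn : j ≤ n) (hodd : (n + j + u) % 2 = 1) {m A h B : K[X]}
    (hm : m.Monic) (hmu : m.natDegree = u) (hA : A.Monic) (hAj : A.natDegree = j)
    (hh : h.natDegree < n) (hB : B ∈ Mn K (n - j)) :
    Ds m A h B ≠ 0 ∧ (Ds m A h B).natDegree ≤ n + j + u := by
  obtain ⟨h1, h2⟩ := form_monic hjn hm hmu hA hAj hh hB
  constructor
  · intro h0
    have h3 : (Ds m A h B).coeff (n + j + u - 1) = 0 := by rw [h0, coeff_zero]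
    unfold Ds at h3
    rw [coeff_derivative] at h3
    have h4 : n + j + u - 1 + 1 = n + j + u := by omega
    have h5 : (m * A * (A * B + h)).coeff (n + j + u) = 1 := by
      rw [← h2]; exact h1.coeff_natDegree
    rw [h4, h5, one_mul] at h3
    have h6 : ((n + j + u - 1 : ℕ) : K) + 1 = ((n + j + u : ℕ) : K) := by
      have : ((n + j + u : ℕ) : K) = ((n + j + u - 1 + 1 : ℕ) : K) := by rw [h4]
      rw [this]; push_cast; ring
    rw [h6, CharP.cast_eq_zero_iff K 2] at h3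
    omega
  · unfold Ds
    exact (natDegree_derivative_le _).trans (by omega)

/-- distinct monic irreducible polynomials are coprime -/
theorem irr_cop {P Q : K[X]} (hP : P.Monic) (hP' : Irreducible P) (hQ : Q.Monic)
    (hQ' : Irreducible Q) (hPQ : P ≠ Q) : IsCoprime P Q := by
  rw [hP'.coprime_iff_not_dvd]
  intro hd
  exact hPQ (eq_of_monic_of_associated hP hQ (hP'.associated_of_dvd hQ' hd))

theorem card_irn_dvd {a : ℕ} (ha : 1 ≤ a) {D : K[X]} (hD : D ≠ 0) :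
    ((Irn K a).filter (fun P => P ∣ D)).card ≤ D.natDegree := by
  set s := (Irn K a).filter (fun P => P ∣ D) with hs
  have h1 : ∏ P ∈ s, P ∣ D := by
    apply Finset.prod_dvd_of_coprime
    · intro P hP Q hQ hPQ
      have hP2 := mem_Irn.1 (mem_filter.1 hP).1
      have hQ2 := mem_Irn.1 (mem_filter.1 hQ).1
      exact irr_cop hP2.1 hP2.2.2 hQ2.1 hQ2.2.2 hPQ
    · intro P hP
      exact (mem_filter.1 hP).2
  have h2 := natDegree_le_of_dvd h1 hD
  rw [natDegree_prod_of_monic _ _ (fun P hP => (mem_Irn.1 (mem_filter.1 hP).1).1),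
    sum_congr rfl (fun P hP => (mem_Irn.1 (mem_filter.1 hP).1).2.1), sum_const, smul_eq_mul] at h2
  nlinarith

theorem nu_ge {a : ℕ} (ha : 4 ≤ a) :
    1 / (2 * (a : ℝ)) ≤ ((Irn K a).card : ℝ) / (Fintype.card K : ℝ) ^ a := by
  have h := irn_wt_ge (k := K) ha
  rw [sum_congr rfl (fun P hP => by rw [(mem_Irn.1 hP).2.1]), sum_const, nsmul_eq_mul] at h
  unfold wt at h
  rw [← div_eq_mul_inv] at h
  exact h

theorem Gw_nonneg (a : ℕ) (m A h B : K[X]) : 0 ≤ Gw a m A h B := by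
  unfold Gw; positivity

theorem Gw_le [CharP K 2] {n j u a : ℕ} (hjn : j ≤ n) (hun : u ≤ n) (ha : 4 ≤ a) (han : a ≤ n)
    (hodd : (n + j + u) % 2 = 1) {m A h B : K[X]}
    (hm : m.Monic) (hmu : m.natDegree = u) (hA : A.Monic) (hAj : A.natDegree = j)
    (hh : h.natDegree < n) (hB : B ∈ Mn K (n - j)) : Gw a m A h B ≤ 6 * (n : ℝ) ^ 2 := by
  obtain ⟨h1, h2⟩ := Ds_ne hjn hodd hm hmu hA hAj hh hB
  have h3 := card_irn_dvd (a := a) (by omega) h1
  have h4 : (((Irn K a).filter (fun P => P ∣ Ds m A h B)).card : ℝ) ≤ 3 * n := by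
    have : ((Irn K a).filter (fun P => P ∣ Ds m A h B)).card ≤ 3 * n := by omega
    exact_mod_cast this
  have h5 := nu_ge (K := K) ha
  have ha0 : (0 : ℝ) < a := by exact_mod_cast (by omega : 0 < a)
  have han' : (a : ℝ) ≤ n := by exact_mod_cast han
  have hpos : 0 < ((Irn K a).card : ℝ) / (Fintype.card K : ℝ) ^ a := lt_of_lt_of_le (by positivity) h5
  unfold Gw
  rw [div_le_iff₀ hpos]
  have h6 : (3 * (n : ℝ)) ≤ 6 * (n : ℝ) ^ 2 * (1 / (2 * (a : ℝ))) := by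
    rw [mul_one_div, le_div_iff₀ (by positivity)]
    have hn0 : (0 : ℝ) ≤ n := by positivity
    nlinarith
  exact h4.trans (h6.trans (mul_le_mul_of_nonneg_left h5 (by positivity)))

/-- a prime divisor of degree `a` -/
theorem exists_P {a : ℕ} {m A h B : K[X]} (hG : Gw a m A h B ≠ 0) :
    ∃ P ∈ Irn K a, P ∣ Ds m A h B := by
  by_contra hcon
  push Not at hcon
  apply hG
  unfold Gw
  rw [filter_false_of_mem hcon]
  simp

/-- the number of the prime divisors of degree `j` of `h` -/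
theorem card_bad {n j : ℕ} (hj : 1 ≤ j) {h : K[X]} (h0 : h ≠ 0) (hh : h.natDegree < n) :
    (((Irn K j).filter (fun A => A ∣ h)).card : ℝ) ≤ n := by
  have := card_irn_dvd (a := j) hj h0
  have h2 : ((Irn K j).filter (fun A => A ∣ h)).card ≤ n := by omega
  exact_mod_cast h2

/-- the sum for one multiplier -/
theorem W_bound [CharP K 2] {n L j u a : ℕ} (hL : 2 * L + j + u = n + 1) (hjn : j ≤ n)
    (hun : u ≤ n) (ha : 4 ≤ a) (han : a ≤ n) {m A₁ A₂ g h : K[X]} (hm : m.Monic)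
    (hmu : m.natDegree = u) (hA₁ : A₁.Monic) (hAj₁ : A₁.natDegree = j) (hA₂ : A₂.Monic)
    (hAj₂ : A₂.natDegree = j) (hh : h.natDegree < n) {X₁ X₂ : ℝ} (hX₁ : 0 ≤ X₁)
    (T : K[X] → Prop)
    (hFB : ∀ B ∈ Mn K (n - j), T B → Gw a m A₁ h B ≠ 0 → Gw a m A₂ h B ≠ 0 →
      |∑ t ∈ Pl K L, (mobg g (A₁ * (B + m * t ^ 2) + h) : ℝ) *
        (mobg g (A₂ * (B + m * t ^ 2) + h) : ℝ)| ≤ X₁)
    (hBF : (((Mn K (n - j)).filter (fun B => ¬ T B)).card : ℝ) ≤ X₂) :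
    |∑ B ∈ Mn K (n - j), (mobg g (A₁ * B + h) : ℝ) * (mobg g (A₂ * B + h) : ℝ) *
      (Gw a m A₁ h B * Gw a m A₂ h B)| * (Fintype.card K : ℝ) ^ L ≤
    36 * (n : ℝ) ^ 4 * ((Fintype.card K : ℝ) ^ (n - j) * X₁ + X₂ * (Fintype.card K : ℝ) ^ L) := by
  set F : K[X] → ℝ := fun B => (mobg g (A₁ * B + h) : ℝ) * (mobg g (A₂ * B + h) : ℝ) with hF
  set w : K[X] → ℝ := fun B => Gw a m A₁ h B * Gw a m A₂ h B with hw
  have hodd : (n + j + u) % 2 = 1 := by omega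
  have hF1 : ∀ B, |F B| ≤ 1 := fun B => by
    rw [hF]; simp only
    rw [abs_mul]
    exact mul_le_one₀ (mobg_abs _ _) (abs_nonneg _) (mobg_abs _ _)
  have hw1 : ∀ B ∈ Mn K (n - j), 0 ≤ w B ∧ w B ≤ 36 * (n : ℝ) ^ 4 := by
    intro B hB
    have h1 := Gw_le hjn hun ha han hodd hm hmu hA₁ hAj₁ hh hB
    have h2 := Gw_le hjn hun ha han hodd hm hmu hA₂ hAj₂ hh hB
    have h3 := Gw_nonneg a m A₁ h B
    have h4 := Gw_nonneg a m A₂ h B
    refine ⟨mul_nonneg h3 h4, ?_⟩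
    calc w B ≤ (6 * (n : ℝ) ^ 2) * (6 * (n : ℝ) ^ 2) := mul_le_mul h1 h2 h4 (by positivity)
      _ = _ := by ring
  have hws : ∀ B t, w (B + m * t ^ 2) = w B := fun B t => by
    rw [hw]; simp only [Gw_shift]
  have key : (Fintype.card K : ℝ) ^ L * ∑ B ∈ Mn K (n - j), F B * w B =
      ∑ B ∈ Mn K (n - j), w B * ∑ t ∈ Pl K L, F (B + m * t ^ 2) := by
    have h1 : (Fintype.card K : ℝ) ^ L * ∑ B ∈ Mn K (n - j), F B * w B =
        ∑ t ∈ Pl K L, ∑ B ∈ Mn K (n - j), F B * w B := by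
      rw [sum_const, card_Pl, nsmul_eq_mul]; push_cast; ring
    rw [h1, sum_congr rfl (fun t ht => (sum_shift hL hmu ht (fun B => F B * w B)).symm), sum_comm]
    refine sum_congr rfl fun B _ => ?_
    rw [mul_sum]
    refine sum_congr rfl fun t _ => ?_
    rw [hws]; ring
  have h2 : |∑ B ∈ Mn K (n - j), F B * w B| * (Fintype.card K : ℝ) ^ L =
      |∑ B ∈ Mn K (n - j), w B * ∑ t ∈ Pl K L, F (B + m * t ^ 2)| := by
    rw [← key, abs_mul, abs_of_nonneg (by positivity : (0:ℝ) ≤ (Fintype.card K : ℝ) ^ L), mul_comm]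
  show |∑ B ∈ Mn K (n - j), F B * w B| * (Fintype.card K : ℝ) ^ L ≤ _
  rw [h2]
  have hS : ∀ B, |∑ t ∈ Pl K L, F (B + m * t ^ 2)| ≤ (Fintype.card K : ℝ) ^ L := by
    intro B
    refine (abs_sum_le_sum_abs _ _).trans ((sum_le_sum fun t _ => hF1 _).trans ?_)
    rw [sum_const, card_Pl, nsmul_eq_mul, mul_one]
    push_cast; exact le_rfl
  have hterm : ∀ B ∈ Mn K (n - j), |w B * ∑ t ∈ Pl K L, F (B + m * t ^ 2)| ≤
      36 * (n : ℝ) ^ 4 * (X₁ + if ¬ T B then (Fintype.card K : ℝ) ^ L else 0) := by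
    intro B hB
    obtain ⟨h3, h4⟩ := hw1 B hB
    rw [abs_mul, abs_of_nonneg h3]
    by_cases hT : T B
    · rw [if_neg (not_not.2 hT), add_zero]
      by_cases hz : w B = 0
      · rw [hz, zero_mul]; positivity
      · have h5 : Gw a m A₁ h B ≠ 0 := fun h => hz (by rw [hw]; simp only; rw [h, zero_mul])
        have h6 : Gw a m A₂ h B ≠ 0 := fun h => hz (by rw [hw]; simp only; rw [h, mul_zero])
        exact mul_le_mul h4 (hFB B hB hT h5 h6) (abs_nonneg _) (by positivity)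
    · rw [if_pos hT]
      calc w B * |∑ t ∈ Pl K L, F (B + m * t ^ 2)| ≤
          36 * (n : ℝ) ^ 4 * (Fintype.card K : ℝ) ^ L :=
            mul_le_mul h4 (hS B) (abs_nonneg _) (by positivity)
        _ ≤ _ := by
            apply mul_le_mul_of_nonneg_left _ (by positivity)
            linarith
  refine (abs_sum_le_sum_abs _ _).trans ((sum_le_sum hterm).trans ?_)
  rw [← mul_sum, sum_add_distrib, sum_const, card_Mn, nsmul_eq_mul, ← sum_filter, sum_const,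
    nsmul_eq_mul]
  apply mul_le_mul_of_nonneg_left _ (by positivity)
  push_cast
  have h5 : (((Mn K (n - j)).filter (fun B => ¬ T B)).card : ℝ) * (Fintype.card K : ℝ) ^ L ≤
      X₂ * (Fintype.card K : ℝ) ^ L := mul_le_mul_of_nonneg_right hBF (by positivity)
  linarith

/-- the mean over the multipliers -/
theorem V_bound {ι : Type*} {Bn : Finset ι} {κ : Type*} {I : Finset κ} (hI : 0 < I.card)
    {F : ι → ℝ} (hF : ∀ B ∈ Bn, |F B| ≤ 1) (G : κ → ι → ℝ) {Y : ℝ}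
    (hY : ∀ m ∈ I, |∑ B ∈ Bn, F B * G m B| ≤ Y) :
    |∑ B ∈ Bn, F B| ≤ Y + ∑ B ∈ Bn, |1 - (∑ m ∈ I, G m B) / (I.card : ℝ)| := by
  have hI' : (0 : ℝ) < I.card := by exact_mod_cast hI
  have h1 : ∑ B ∈ Bn, F B = (∑ m ∈ I, ∑ B ∈ Bn, F B * G m B) / I.card +
      ∑ B ∈ Bn, F B * (1 - (∑ m ∈ I, G m B) / (I.card : ℝ)) := by
    rw [sum_comm, sum_div, ← sum_add_distrib]
    refine sum_congr rfl fun B _ => ?_
    rw [← mul_sum]
    ring
  rw [h1]
  refine (abs_add_le _ _).trans (add_le_add ?_ ?_)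
  · rw [abs_div, abs_of_pos hI', div_le_iff₀ hI']
    refine (abs_sum_le_sum_abs _ _).trans ((sum_le_sum hY).trans ?_)
    rw [sum_const, nsmul_eq_mul, mul_comm]
  · refine (abs_sum_le_sum_abs _ _).trans (sum_le_sum fun B hB => ?_)
    rw [abs_mul]
    exact mul_le_of_le_one_left (abs_nonneg _) (hF B hB)

/-- the bilinear form -/
theorem bilinear {ι κ : Type*} {IA : Finset κ} {Bn : Finset ι} {α : κ → ℝ} {β : ι → ℝ}
    {φ : κ → ι → ℝ} {R : κ → κ → ι → ℝ} {Y Z : ℝ} (hα : ∀ p, |α p| ≤ 1) (hβ : ∀ B, |β B| ≤ 1)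
    (hφ : ∀ p B, |φ p B| ≤ 1) (hY : 0 ≤ Y)
    (hV : ∀ p ∈ IA, ∀ p' ∈ IA, p ≠ p' → |∑ B ∈ Bn, φ p B * φ p' B| ≤ Y + ∑ B ∈ Bn, |R p p' B|)
    (hZ : ∑ p ∈ IA, ∑ p' ∈ IA, ∑ B ∈ Bn, R p p' B ^ 2 ≤ Z) :
    (∑ p ∈ IA, ∑ B ∈ Bn, α p * β B * φ p B) ^ 2 ≤
      Bn.card * ((IA.card : ℝ) * Bn.card + (IA.card : ℝ) ^ 2 * Y +
        √((IA.card : ℝ) ^ 2 * Bn.card * Z)) := by
  have h1 : ∑ p ∈ IA, ∑ B ∈ Bn, α p * β B * φ p B = ∑ B ∈ Bn, β B * ∑ p ∈ IA, α p * φ p B := by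
    rw [sum_comm]
    refine sum_congr rfl fun B _ => ?_
    rw [mul_sum]
    refine sum_congr rfl fun p _ => ?_
    ring
  rw [h1]
  refine (sq_sum_le_card_mul_sum_sq (s := Bn)).trans ?_
  apply mul_le_mul_of_nonneg_left _ (Nat.cast_nonneg _)
  have h2 : ∑ B ∈ Bn, (β B * ∑ p ∈ IA, α p * φ p B) ^ 2 ≤ ∑ B ∈ Bn, (∑ p ∈ IA, α p * φ p B) ^ 2 := by
    refine sum_le_sum fun B _ => ?_
    rw [mul_pow]
    apply mul_le_of_le_one_left (sq_nonneg _)
    rw [← sq_abs]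
    exact pow_le_one₀ (abs_nonneg _) (hβ B)
  have h3 : ∑ B ∈ Bn, (∑ p ∈ IA, α p * φ p B) ^ 2 =
      ∑ p ∈ IA, ∑ p' ∈ IA, α p * α p' * ∑ B ∈ Bn, φ p B * φ p' B := by
    have h4 : ∀ B, (∑ p ∈ IA, α p * φ p B) ^ 2 =
        ∑ p ∈ IA, ∑ p' ∈ IA, α p * α p' * (φ p B * φ p' B) := by
      intro B
      rw [sq, sum_mul_sum]
      refine sum_congr rfl fun p _ => sum_congr rfl fun p' _ => ?_
      ring
    rw [sum_congr rfl (fun B _ => h4 B), sum_comm]
    refine sum_congr rfl fun p _ => ?_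
    rw [sum_comm]
    refine sum_congr rfl fun p' _ => ?_
    rw [mul_sum]
  have h5 : ∀ p ∈ IA, ∀ p' ∈ IA, α p * α p' * ∑ B ∈ Bn, φ p B * φ p' B ≤
      (if p = p' then (Bn.card : ℝ) else 0) + Y + ∑ B ∈ Bn, |R p p' B| := by
    intro p hp p' hp'
    have h6 : α p * α p' * ∑ B ∈ Bn, φ p B * φ p' B ≤ |∑ B ∈ Bn, φ p B * φ p' B| := by
      refine (le_abs_self _).trans ?_
      rw [abs_mul]
      apply mul_le_of_le_one_left (abs_nonneg _)
      rw [abs_mul]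
      exact mul_le_one₀ (hα p) (abs_nonneg _) (hα p')
    refine h6.trans ?_
    have hR : 0 ≤ ∑ B ∈ Bn, |R p p' B| := sum_nonneg fun _ _ => abs_nonneg _
    by_cases hpp : p = p'
    · rw [if_pos hpp]
      have h7 : |∑ B ∈ Bn, φ p B * φ p' B| ≤ Bn.card := by
        refine (abs_sum_le_sum_abs _ _).trans ?_
        have h8 : ∀ B ∈ Bn, |φ p B * φ p' B| ≤ 1 := fun B _ => by
          rw [abs_mul]; exact mul_le_one₀ (hφ _ _) (abs_nonneg _) (hφ _ _)
        refine (sum_le_sum h8).trans ?_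
        simp
      linarith
    · rw [if_neg hpp, zero_add]
      exact hV p hp p' hp' hpp
  have h9 : ∑ p ∈ IA, ∑ p' ∈ IA, ((if p = p' then (Bn.card : ℝ) else 0) + Y +
      ∑ B ∈ Bn, |R p p' B|) = (IA.card : ℝ) * Bn.card + (IA.card : ℝ) ^ 2 * Y +
      ∑ p ∈ IA, ∑ p' ∈ IA, ∑ B ∈ Bn, |R p p' B| := by
    simp only [sum_add_distrib]
    congr 2
    · rw [sum_congr rfl (fun p hp => by rw [sum_ite_eq, if_pos hp]), sum_const, nsmul_eq_mul]
    · rw [sum_const, sum_const, nsmul_eq_mul, nsmul_eq_mul]; ring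
  have h10 : ∑ p ∈ IA, ∑ p' ∈ IA, ∑ B ∈ Bn, |R p p' B| ≤ √((IA.card : ℝ) ^ 2 * Bn.card * Z) := by
    apply Real.le_sqrt_of_sq_le
    have h11 : ∑ p ∈ IA, ∑ p' ∈ IA, ∑ B ∈ Bn, |R p p' B| =
        ∑ x ∈ IA ×ˢ (IA ×ˢ Bn), |R x.1 x.2.1 x.2.2| := by
      rw [sum_product]
      refine sum_congr rfl fun p _ => ?_
      rw [sum_product]
    have h12 : ∑ p ∈ IA, ∑ p' ∈ IA, ∑ B ∈ Bn, R p p' B ^ 2 =
        ∑ x ∈ IA ×ˢ (IA ×ˢ Bn), |R x.1 x.2.1 x.2.2| ^ 2 := by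
      rw [sum_product]
      refine sum_congr rfl fun p _ => ?_
      rw [sum_product]
      refine sum_congr rfl fun p' _ => sum_congr rfl fun B _ => ?_
      rw [sq_abs]
    rw [h11]
    refine (sq_sum_le_card_mul_sum_sq (s := IA ×ˢ (IA ×ˢ Bn))).trans ?_
    rw [← h12, card_product, card_product]
    push_cast
    have h13 : (IA.card : ℝ) * (IA.card * Bn.card) = (IA.card : ℝ) ^ 2 * Bn.card := by ring
    rw [h13]
    exact mul_le_mul_of_nonneg_left hZ (by positivity)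
  calc _ ≤ ∑ B ∈ Bn, (∑ p ∈ IA, α p * φ p B) ^ 2 := h2
    _ = _ := h3
    _ ≤ _ := sum_le_sum fun p hp => sum_le_sum fun p' hp' => h5 p hp p' hp'
    _ = _ := h9
    _ ≤ _ := by linarith

/-- the derivative condition -/
theorem der_ne {m A₁ A₂ h : K[X]} (hm : m.Monic) (hm' : Irreducible m) (hA₁ : A₁.Monic)
    (hA₁' : Irreducible A₁) (hA₂ : A₂.Monic) (hA₂' : Irreducible A₂) (hmA : m ≠ A₁)
    (hAA : A₁ ≠ A₂) (hh : ¬ A₁ ∣ h) :
    derivative (m * A₁ * h) * A₂ ^ 2 ≠ derivative (m * A₂ * h) * A₁ ^ 2 := by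
  intro he
  have hp : Prime A₁ := hA₁'.prime
  have h1 : A₁ ∣ derivative (m * A₁ * h) * A₂ ^ 2 := by
    rw [he]
    exact Dvd.dvd.mul_left (dvd_pow_self A₁ two_ne_zero) _
  have h2 : ¬ A₁ ∣ A₂ ^ 2 := by
    intro hd
    have h3 := hp.dvd_of_dvd_pow hd
    exact hAA (eq_of_monic_of_associated hA₁ hA₂ (hA₁'.associated_of_dvd hA₂' h3))
  have h4 : A₁ ∣ derivative (m * A₁ * h) := (hp.dvd_or_dvd h1).resolve_right h2
  have h5 : derivative (m * A₁ * h) = derivative (m * h) * A₁ + m * h * derivative A₁ := by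
    rw [show m * A₁ * h = (m * h) * A₁ by ring, derivative_mul]
  rw [h5] at h4
  have h6 : A₁ ∣ m * h * derivative A₁ :=
    (dvd_add_right (Dvd.intro_left _ rfl)).1 h4
  rcases hp.dvd_or_dvd h6 with h7 | h7
  · rcases hp.dvd_or_dvd h7 with h8 | h8
    · exact hmA (eq_of_monic_of_associated hm hA₁ (hA₁'.associated_of_dvd hm' h8).symm)
    · exact hh h8
  · have hsep : A₁.Separable := PerfectField.separable_of_irreducible hA₁'
    have h8 : IsUnit A₁ := hsep.isUnit_of_dvd' dvd_rfl h7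
    exact hA₁'.not_isUnit h8

/-- the estimate before the choice of the parameters -/
theorem main_ineq [CharP K 2] {n L j u a C : ℕ} (hL : 2 * L + j + u = n + 1) (hjn : j ≤ n)
    (hun : u ≤ n) (hu4 : 4 ≤ u) (huj : u < j) (hja : j < a) (h4a : 4 * a ≤ n) {h g : K[X]}
    (hh : h.natDegree < n) {c0 c1 η X : ℝ} {α β : K[X] → ℝ}
    (hα : ∀ p, |α p| ≤ 1) (hβ : ∀ B, |β B| ≤ 1)
    (hfb : ∀ (m B : K[X]) (A P : Fin 2 → K[X]), m ∈ Irn K u → B ∈ Mn K (n - j) →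
      Frm n j m A (fun _ => h) → Typ (η * n) m A (fun _ => h) B →
      (∀ i, P i ∈ Irn K a ∧ P i ∣ Ds m (A i) h B) →
      |∑ t ∈ Pl K L, ∏ i, (mobg g (A i * (B + m * t ^ 2) + h) : ℝ)| ≤
        (Fintype.card K : ℝ) ^ ((L : ℝ) - c0 * n))
    (hbf : ∀ (m : K[X]) (A : Fin 2 → K[X]), m ∈ Irn K u → Frm n j m A (fun _ => h) →
      (∀ i l, i ≠ l →
        derivative (m * A i * h) * A l ^ 2 ≠ derivative (m * A l * h) * A i ^ 2) →
      (((Mn K (n - j)).filter (fun f => ¬ Typ (η * n) m A (fun _ => h) f)).card : ℝ) ≤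
        (Fintype.card K : ℝ) ^ (n - j) *
          (2 / (Fintype.card K : ℝ) ^ u + (Fintype.card K : ℝ) ^ (-c1 * n)))
    (hwm : ∑ A₁ ∈ (Irn K j).filter (fun A => ¬ A ∣ h), ∑ A₂ ∈ (Irn K j).filter (fun A => ¬ A ∣ h),
      ∑ f ∈ Mn K (n - j),
        (1 - (∑ m ∈ Irn K u, Gw a m A₁ h f * Gw a m A₂ h f) / ((Irn K u).card : ℝ)) ^ 2 ≤
      (n : ℝ) ^ C * (Fintype.card K : ℝ) ^ (n + j) * X) :
    (∑ p ∈ (Irn K j).filter (fun A => ¬ A ∣ h), ∑ B ∈ Mn K (n - j),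
      α p * β B * (mobg g (p * B + h) : ℝ)) ^ 2 ≤
    ((Fintype.card K : ℝ) ^ n) ^ 2 * (1 / (Fintype.card K : ℝ) ^ j + 36 * (n : ℝ) ^ 4 *
      ((Fintype.card K : ℝ) ^ (-c0 * n) + (2 / (Fintype.card K : ℝ) ^ u +
        (Fintype.card K : ℝ) ^ (-c1 * n))) + √((n : ℝ) ^ C * X)) := by
  set Q : ℝ := (Fintype.card K : ℝ) with hQ
  have hQ2 : (2 : ℝ) ≤ Q := q_ge
  have hQ0 : (0 : ℝ) < Q := by linarith
  set IA := (Irn K j).filter (fun A => ¬ A ∣ h) with hIA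
  have ha4 : 4 ≤ a := by omega
  have han : a ≤ n := by omega
  have hMc : ((Mn K (n - j)).card : ℝ) = Q ^ (n - j) := by
    rw [card_Mn]; push_cast; rfl
  have hIAc : (IA.card : ℝ) ≤ Q ^ j := by
    have h1 : (IA.card : ℝ) ≤ (Irn K j).card := by
      exact_mod_cast card_le_card (filter_subset _ _)
    exact h1.trans card_Irn_le
  have hu0 : 0 < (Irn K u).card := by
    have h1 := nu_ge (K := K) hu4
    by_contra hcon
    have h2 : (Irn K u).card = 0 := by omega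
    rw [h2, Nat.cast_zero, zero_div] at h1
    have h3 : (0 : ℝ) < 1 / (2 * (u : ℝ)) := by
      have : (0 : ℝ) < u := by exact_mod_cast (by omega : 0 < u)
      positivity
    linarith
  set Y : ℝ := 36 * (n : ℝ) ^ 4 * (Q ^ (n - j) * (Q ^ (-c0 * n) + (2 / Q ^ u + Q ^ (-c1 * n))))
    with hY
  have hY0 : 0 ≤ Y := by
    rw [hY]
    have := Real.rpow_nonneg hQ0.le (-c0 * n)
    have := Real.rpow_nonneg hQ0.le (-c1 * n)
    positivity
  -- the pairs
  have hV : ∀ p ∈ IA, ∀ p' ∈ IA, p ≠ p' →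
      |∑ B ∈ Mn K (n - j), (mobg g (p * B + h) : ℝ) * (mobg g (p' * B + h) : ℝ)| ≤
      Y + ∑ B ∈ Mn K (n - j),
        |1 - (∑ m ∈ Irn K u, Gw a m p h B * Gw a m p' h B) / ((Irn K u).card : ℝ)| := by
    intro p hp p' hp' hpp
    have hp1 := mem_Irn.1 (mem_filter.1 hp).1
    have hp2 := mem_Irn.1 (mem_filter.1 hp').1
    have hph := (mem_filter.1 hp).2
    have hph' := (mem_filter.1 hp').2
    apply V_bound hu0
    · intro B _
      rw [abs_mul]
      exact mul_le_one₀ (mobg_abs _ _) (abs_nonneg _) (mobg_abs _ _)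
    · intro m hm
      have hm1 := mem_Irn.1 hm
      have hmp : ∀ x : K[X], x.natDegree = j → m ≠ x := by
        intro x hx hmx
        rw [hmx, hx] at hm1
        omega
      have hnd : ∀ x : K[X], x.Monic → Irreducible x → x.natDegree = j → ¬ m ∣ x := by
        intro x hx1 hx2 hx3 hd
        exact hmp x hx3 (eq_of_monic_of_associated hm1.1 hx1 (hm1.2.2.associated_of_dvd hx2 hd))
      have hFrm : Frm n j m ![p, p'] (fun _ => h) := by
        intro i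
        fin_cases i
        · exact ⟨hp1.1, hp1.2.1, hp1.2.2.squarefree, (hp1.2.2.coprime_iff_not_dvd).2 hph, hh,
            hnd p hp1.1 hp1.2.2 hp1.2.1⟩
        · exact ⟨hp2.1, hp2.2.1, hp2.2.2.squarefree, (hp2.2.2.coprime_iff_not_dvd).2 hph', hh,
            hnd p' hp2.1 hp2.2.2 hp2.2.1⟩
      have hder : ∀ i l : Fin 2, i ≠ l → derivative (m * (![p, p'] : Fin 2 → K[X]) i * h) *
          (![p, p'] : Fin 2 → K[X]) l ^ 2 ≠
          derivative (m * (![p, p'] : Fin 2 → K[X]) l * h) * (![p, p'] : Fin 2 → K[X]) i ^ 2 := by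
        intro i l hil
        fin_cases i <;> fin_cases l
        · exact absurd rfl hil
        · exact der_ne hm1.1 hm1.2.2 hp1.1 hp1.2.2 hp2.1 hp2.2.2 (hmp p hp1.2.1) hpp hph
        · exact der_ne hm1.1 hm1.2.2 hp2.1 hp2.2.2 hp1.1 hp1.2.2 (hmp p' hp2.2.1) (Ne.symm hpp) hph'
        · exact absurd rfl hil
      have h1 := W_bound (g := g) hL hjn hun ha4 han hm1.1 hm1.2.1 hp1.1 hp1.2.1 hp2.1 hp2.2.1 hh
        (Real.rpow_nonneg hQ0.le ((L : ℝ) - c0 * n)) (Typ (η * n) m ![p, p'] (fun _ => h))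
        (fun B hB hT hG1 hG2 => by
          obtain ⟨P1, hP1, hP1'⟩ := exists_P hG1
          obtain ⟨P2, hP2, hP2'⟩ := exists_P hG2
          have h2 := hfb m B ![p, p'] ![P1, P2] hm hB hFrm hT (by
            intro i
            fin_cases i
            · exact ⟨hP1, hP1'⟩
            · exact ⟨hP2, hP2'⟩)
          simp only [Fin.prod_univ_two] at h2
          exact h2)
        (hbf m ![p, p'] hm hFrm hder)
      have h2 : Q ^ ((L : ℝ) - c0 * n) = Q ^ L * Q ^ (-c0 * n) := by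
        rw [← Real.rpow_natCast Q L, ← Real.rpow_add hQ0]
        congr 1; ring
      rw [h2] at h1
      have hQL : (0 : ℝ) < Q ^ L := by positivity
      have h3 : 36 * (n : ℝ) ^ 4 * (Q ^ (n - j) * (Q ^ L * Q ^ (-c0 * n)) +
          Q ^ (n - j) * (2 / Q ^ u + Q ^ (-c1 * n)) * Q ^ L) = Y * Q ^ L := by
        rw [hY]; ring
      rw [h3] at h1
      exact le_of_mul_le_mul_right h1 hQL
  have hbil := bilinear (IA := IA) (Bn := Mn K (n - j)) (α := α) (β := β)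
    (φ := fun p B => (mobg g (p * B + h) : ℝ))
    (R := fun A₁ A₂ f =>
      1 - (∑ m ∈ Irn K u, Gw a m A₁ h f * Gw a m A₂ h f) / ((Irn K u).card : ℝ))
    (Y := Y) (Z := (n : ℝ) ^ C * Q ^ (n + j) * X) hα hβ (fun _ _ => mobg_abs _ _) hY0 hV hwm
  refine hbil.trans ?_
  rw [hMc]
  have hQn : Q ^ n = Q ^ j * Q ^ (n - j) := by
    rw [← pow_add]; congr 1; omega
  have hA0 : (0 : ℝ) < Q ^ (n - j) := by positivity
  have hB0 : (0 : ℝ) < Q ^ j := by positivity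
  have hX0 : 0 ≤ (n : ℝ) ^ C * Q ^ (n + j) * X := by
    refine le_trans ?_ hwm
    exact sum_nonneg fun _ _ => sum_nonneg fun _ _ => sum_nonneg fun _ _ => sq_nonneg _
  have h1 : √((IA.card : ℝ) ^ 2 * Q ^ (n - j) * ((n : ℝ) ^ C * Q ^ (n + j) * X)) ≤
      Q ^ (n + j) * √((n : ℝ) ^ C * X) := by
    have h2 : (IA.card : ℝ) ^ 2 * Q ^ (n - j) * ((n : ℝ) ^ C * Q ^ (n + j) * X) ≤
        (Q ^ (n + j)) ^ 2 * ((n : ℝ) ^ C * X) := by
      have h3 : (IA.card : ℝ) ^ 2 ≤ (Q ^ j) ^ 2 := pow_le_pow_left₀ (Nat.cast_nonneg _) hIAc 2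
      calc (IA.card : ℝ) ^ 2 * Q ^ (n - j) * ((n : ℝ) ^ C * Q ^ (n + j) * X) ≤
          (Q ^ j) ^ 2 * Q ^ (n - j) * ((n : ℝ) ^ C * Q ^ (n + j) * X) := by
            apply mul_le_mul_of_nonneg_right _ hX0
            exact mul_le_mul_of_nonneg_right h3 hA0.le
        _ = _ := by
            rw [pow_add, hQn]; ring
    refine (Real.sqrt_le_sqrt h2).trans ?_
    rw [Real.sqrt_mul (by positivity), Real.sqrt_sq (by positivity)]
  have h4 : (IA.card : ℝ) * Q ^ (n - j) ≤ Q ^ j * Q ^ (n - j) :=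
    mul_le_mul_of_nonneg_right hIAc hA0.le
  have h5 : (IA.card : ℝ) ^ 2 * Y ≤ (Q ^ j) ^ 2 * Y :=
    mul_le_mul_of_nonneg_right (pow_le_pow_left₀ (Nat.cast_nonneg _) hIAc 2) hY0
  calc Q ^ (n - j) * ((IA.card : ℝ) * Q ^ (n - j) + (IA.card : ℝ) ^ 2 * Y +
        √((IA.card : ℝ) ^ 2 * Q ^ (n - j) * ((n : ℝ) ^ C * Q ^ (n + j) * X))) ≤
      Q ^ (n - j) * (Q ^ j * Q ^ (n - j) + (Q ^ j) ^ 2 * Y + Q ^ (n + j) * √((n : ℝ) ^ C * X)) := by
        apply mul_le_mul_of_nonneg_left _ hA0.le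
        linarith
    _ = _ := by
        rw [hY, pow_add, hQn]
        field_simp

/-- the numerical part -/
theorem final_num {Q N J U A c0 c1 e1 ε c : ℝ} {n j u C : ℕ} (hQ : 2 ≤ Q) (hN : N = n)
    (hJ : J = j) (hU : U = u) (hN36 : 36 ≤ N) (hNQ : 2 * Q + 2 ≤ N)
    (hu1 : U ≤ J / 2) (hu2 : min (J / 2) (e1 * N / 2) - 2 ≤ U) (hA : A ≤ J + e1 * N + 1)
    (hj : J ≤ (1 / 4 - ε) * N) (he : e1 ≤ ε / 2) (hc0 : 2 * c ≤ c0) (hc1 : 2 * c ≤ c1)
    (hce : 2 * c ≤ e1 / 4) (hcε : 2 * c ≤ ε / 2) :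
    1 / Q ^ j + 36 * (n : ℝ) ^ 4 * (Q ^ (-c0 * n) + (2 / Q ^ u + Q ^ (-c1 * n))) +
      √((n : ℝ) ^ C * (Q ^ ((U - J) / 4) + Q ^ (-U) + Q ^ (2 * A - N / 2))) ≤
    (n : ℝ) ^ (C + 8) * (Q ^ (-J / 16) + Q ^ (-(2 * c) * N)) := by
  have hQ0 : 0 < Q := by linarith
  have hQ1 : 1 ≤ Q := by linarith
  have hJ0 : 0 ≤ J := by rw [hJ]; positivity
  have hU0 : 0 ≤ U := by rw [hU]; positivity
  have hN0 : 0 ≤ N := by linarith
  rw [← hN]
  set y1 := Q ^ (-J / 16) with hy1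
  set y2 := Q ^ (-(2 * c) * N) with hy2
  have hy10 : 0 < y1 := Real.rpow_pos_of_pos hQ0 _
  have hy20 : 0 < y2 := Real.rpow_pos_of_pos hQ0 _
  have hmono : ∀ {a b : ℝ}, a ≤ b → Q ^ a ≤ Q ^ b := fun h => Real.rpow_le_rpow_of_exponent_le hQ1 h
  have b1 : 1 / Q ^ j ≤ y1 := by
    rw [one_div, ← Real.rpow_natCast, ← Real.rpow_neg hQ0.le, ← hJ]
    exact hmono (by linarith)
  have b2 : Q ^ (-c0 * N) ≤ y2 := hmono (by nlinarith)
  have b4 : Q ^ (-c1 * N) ≤ y2 := hmono (by nlinarith)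
  -- the half power of `U`
  have bu : Q ^ (-U / 2) ≤ Q * (y1 + y2) := by
    rcases le_total (J / 2) (e1 * N / 2) with h | h
    · rw [min_eq_left h] at hu2
      have h1 : Q ^ (-U / 2) ≤ Q ^ (1 + -J / 16) := hmono (by linarith)
      rw [Real.rpow_add hQ0, Real.rpow_one] at h1
      nlinarith
    · rw [min_eq_right h] at hu2
      have h1 : Q ^ (-U / 2) ≤ Q ^ (1 + -(2 * c) * N) := hmono (by nlinarith)
      rw [Real.rpow_add hQ0, Real.rpow_one] at h1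
      nlinarith
  have b3 : 2 / Q ^ u ≤ 2 * Q * (y1 + y2) := by
    have h1 : 2 / Q ^ u = 2 * Q ^ (-U) := by
      rw [Real.rpow_neg hQ0.le, hU, Real.rpow_natCast]; ring
    have h2 : Q ^ (-U) ≤ Q ^ (-U / 2) := hmono (by linarith)
    rw [h1]; linarith
  have b6 : Q ^ ((U - J) / 8) ≤ y1 := hmono (by linarith)
  have b7 : Q ^ (A - N / 4) ≤ Q * y2 := by
    have h1 : Q ^ (A - N / 4) ≤ Q ^ (1 + -(2 * c) * N) := hmono (by nlinarith)
    rwa [Real.rpow_add hQ0, Real.rpow_one] at h1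
  have hNC : 1 ≤ N ^ C := one_le_pow₀ (by linarith)
  have b5 : √(N ^ C * (Q ^ ((U - J) / 4) + Q ^ (-U) + Q ^ (2 * A - N / 2))) ≤
      N ^ C * ((1 + 2 * Q) * (y1 + y2)) := by
    have e1' : Q ^ ((U - J) / 4) = (Q ^ ((U - J) / 8)) ^ 2 := by
      rw [← Real.rpow_natCast, ← Real.rpow_mul hQ0.le]; congr 1; push_cast; ring
    have e2' : Q ^ (-U) = (Q ^ (-U / 2)) ^ 2 := by
      rw [← Real.rpow_natCast, ← Real.rpow_mul hQ0.le]; congr 1; push_cast; ring
    have e3' : Q ^ (2 * A - N / 2) = (Q ^ (A - N / 4)) ^ 2 := by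
      rw [← Real.rpow_natCast, ← Real.rpow_mul hQ0.le]; congr 1; push_cast; ring
    rw [e1', e2', e3']
    set s1 := Q ^ ((U - J) / 8) with hs1
    set s2 := Q ^ (-U / 2) with hs2
    set s3 := Q ^ (A - N / 4) with hs3
    have h1 : 0 < s1 := Real.rpow_pos_of_pos hQ0 _
    have h2 : 0 < s2 := Real.rpow_pos_of_pos hQ0 _
    have h3 : 0 < s3 := Real.rpow_pos_of_pos hQ0 _
    have h4 : √(N ^ C * (s1 ^ 2 + s2 ^ 2 + s3 ^ 2)) ≤ N ^ C * (s1 + s2 + s3) := by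
      apply Real.sqrt_le_iff.2
      refine ⟨by positivity, ?_⟩
      rw [mul_pow]
      apply mul_le_mul _ _ (by positivity) (by positivity)
      · nlinarith
      · nlinarith [mul_pos h1 h2, mul_pos h1 h3, mul_pos h2 h3]
    refine h4.trans ?_
    apply mul_le_mul_of_nonneg_left _ (by positivity)
    nlinarith
  -- collect
  have hN4 : N ^ 4 * 36 * (2 * Q + 2) ≤ N ^ (C + 7) := by
    have h1 : N ^ (C + 7) = N ^ C * (N ^ 4 * (N * N * N)) := by rw [pow_add]; ring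
    rw [h1]
    have h2 : N ^ 4 * 36 * (2 * Q + 2) ≤ N ^ 4 * (N * N * N) := by
      have h3 : 36 * (2 * Q + 2) ≤ N * N := by nlinarith
      have h4 : N * N ≤ N * N * N := by nlinarith [mul_nonneg hN0 hN0]
      have h5 : 0 ≤ N ^ 4 := by positivity
      nlinarith
    have h3 : 0 ≤ N ^ 4 * (N * N * N) := by positivity
    nlinarith
  have hNC2 : N ^ C * (1 + 2 * Q) ≤ N ^ (C + 7) := by
    rw [pow_add]
    apply mul_le_mul_of_nonneg_left _ (by positivity)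
    have h1 : N ≤ N ^ 7 := le_self_pow₀ (by linarith) (by norm_num)
    linarith
  have hN1 : 1 ≤ N ^ (C + 7) := one_le_pow₀ (by linarith)
  have hC8 : N ^ (C + 8) = N ^ (C + 7) * N := by rw [← pow_succ]
  have hyy : 0 < y1 + y2 := by linarith
  have t1 : 1 / Q ^ j ≤ N ^ (C + 7) * (y1 + y2) := by
    calc 1 / Q ^ j ≤ 1 * (y1 + y2) := by linarith
      _ ≤ _ := mul_le_mul_of_nonneg_right hN1 hyy.le
  have t2 : 36 * N ^ 4 * (Q ^ (-c0 * N) + (2 / Q ^ u + Q ^ (-c1 * N))) ≤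
      N ^ (C + 7) * (y1 + y2) := by
    have h1 : Q ^ (-c0 * N) + (2 / Q ^ u + Q ^ (-c1 * N)) ≤ (2 * Q + 2) * (y1 + y2) := by linarith
    calc 36 * N ^ 4 * (Q ^ (-c0 * N) + (2 / Q ^ u + Q ^ (-c1 * N))) ≤
        36 * N ^ 4 * ((2 * Q + 2) * (y1 + y2)) := mul_le_mul_of_nonneg_left h1 (by positivity)
      _ = (N ^ 4 * 36 * (2 * Q + 2)) * (y1 + y2) := by ring
      _ ≤ _ := mul_le_mul_of_nonneg_right hN4 hyy.le
  have t3 : N ^ C * ((1 + 2 * Q) * (y1 + y2)) ≤ N ^ (C + 7) * (y1 + y2) := by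
    rw [← mul_assoc]
    exact mul_le_mul_of_nonneg_right hNC2 hyy.le
  rw [hC8]
  have h3 : 0 ≤ N ^ (C + 7) * (y1 + y2) := by positivity
  nlinarith

end TII

end Pool.Agent.H251.SP
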