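import Mathlib
import Pool.Agent.H251.SP.Stm
import Pool.Agent.H985.Chow.Typ

/-!
# Final assembly, first part (helper177 for helper251): finite sums over polynomials
-/

set_option autoImplicit false
set_option linter.all false

namespace Pool.Agent.H251.SP.Asm

open Polynomial Finset UniqueFactorizationMonoid
open scoped Classical
open Pool.Agent.H985.Chow (mob)
open Pool.Agent.H985.KP (PA mobg)
open Pool.Agent.H694.Typ (Mn Irn mem_Mn mem_Irn card_Mn card_dvd no_dvd irn_one_le q_ge exists_pol)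

section alg
variable {K : Type} [Field K]

theorem rgh_mono {z k : ℕ} (h : z ≤ k) {f : K[X]} (hf : Rgh k f) : Rgh z f :=
  fun P a b c => h.trans (hf P a b c)

theorem rgh_dvd {k : ℕ} {f g : K[X]} (h : g ∣ f) (hf : Rgh k f) : Rgh k g :=
  fun P a b c => hf P a b (c.trans h)

theorem rgh_mul {k : ℕ} {f g : K[X]} : Rgh k (f * g) ↔ Rgh k f ∧ Rgh k g := by
  constructor
  · intro h
    exact ⟨rgh_dvd (dvd_mul_right _ _) h, rgh_dvd (dvd_mul_left _ _) h⟩
  · rintro ⟨h1, h2⟩ P a b c
    rcases (b.prime.dvd_mul).1 c with c | c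
    · exact h1 P a b c
    · exact h2 P a b c

theorem rgh_irr {k : ℕ} {f : K[X]} (hf : f.Monic) (hi : Irreducible f) (h : k ≤ f.natDegree) :
    Rgh k f := by
  intro P a b c
  have h1 : P = f := eq_of_monic_of_associated a hf (b.associated_of_dvd hi c)
  rw [h1]
  exact h

theorem mob_abs (F : K[X]) : |(mob F : ℝ)| ≤ 1 := by
  unfold Pool.Agent.H985.Chow.mob
  split_ifs with h
  · push_cast
    rw [abs_pow, abs_neg, abs_one, one_pow]
  · simp

theorem mobg_abs (g F : K[X]) : |(mobg g F : ℝ)| ≤ 1 := by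
  unfold Pool.Agent.H985.KP.mobg
  split_ifs with h
  · exact mob_abs _
  · simp

theorem mob_mul (p B : K[X]) (hp : Irreducible p) (hB : B ≠ 0) :
    (mob (p * B) : ℝ) = if p ∣ B then 0 else - (mob B : ℝ) := by
  unfold Pool.Agent.H985.Chow.mob
  have h1 : Squarefree (p * B) ↔ ¬ p ∣ B ∧ Squarefree B := by
    rw [squarefree_mul_iff, hp.isRelPrime_iff_not_dvd]
    exact ⟨fun h => ⟨h.1, h.2.2⟩, fun h => ⟨h.1, hp.squarefree, h.2⟩⟩
  by_cases h2 : p ∣ B
  · rw [if_pos h2, if_neg (fun h => (h1.1 h).1 h2)]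
    simp
  · rw [if_neg h2]
    by_cases h3 : Squarefree B
    · rw [if_pos (h1.2 ⟨h2, h3⟩), if_pos h3]
      have h4 := Multiset.card_eq_card_of_rel (factors_mul hp.ne_zero hB)
      have h5 : Multiset.card (factors p) = 1 := by
        have h6 : factors p ≠ 0 := by
          intro h
          have h7 := factors_prod hp.ne_zero
          rw [h, Multiset.prod_zero] at h7
          exact hp.not_isUnit (h7.isUnit isUnit_one)
        obtain ⟨a, ha⟩ := Multiset.exists_mem_of_ne_zero h6
        obtain ⟨t, ht⟩ := Multiset.exists_cons_of_mem ha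
        have h7 := factors_prod hp.ne_zero
        have hai : Irreducible a := irreducible_of_factor a ha
        rw [ht, Multiset.prod_cons] at h7
        have h8 : Irreducible (a * t.prod) := h7.symm.irreducible hp
        have h9 : t = 0 := by
          rw [irreducible_mul_iff] at h8
          rcases h8 with h8 | h8
          · by_contra h10
            obtain ⟨b, hb⟩ := Multiset.exists_mem_of_ne_zero h10
            have hbi : Irreducible b := irreducible_of_factor b (by
              rw [ht]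
              exact Multiset.mem_cons_of_mem hb)
            exact hbi.not_isUnit (isUnit_of_dvd_unit (Multiset.dvd_prod hb) h8.2)
          · exact absurd h8.2 hai.not_isUnit
        rw [ht, h9]
        simp
      rw [h4, Multiset.card_add, h5]
      push_cast
      rw [pow_add, pow_one]
      ring
    · rw [if_neg (fun h => h3 (h1.1 h).2), if_neg h3]
      simp

theorem card_rough {n k : ℕ} {C : K[X]} (hC : C ≠ 0) (hn : C.natDegree ≤ n) (hk : n < 5 * k)
    (S : Finset K[X]) (hS : ∀ D ∈ S, D.Monic ∧ D ∣ C ∧ Rgh k D) : S.card ≤ 16 := by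
  set s : Multiset K[X] := (normalizedFactors C).filter (fun P => k ≤ P.natDegree) with hs
  have hmon : ∀ D : K[X], D ≠ 0 → ∀ P ∈ normalizedFactors D, P.Monic ∧ Irreducible P ∧ P ∣ D := by
    intro D hD P hP
    rw [mem_normalizedFactors_iff' hD] at hP
    refine ⟨?_, hP.1, hP.2.2⟩
    rw [← hP.2.1]
    exact monic_normalize hP.1.ne_zero
  have h1 : Multiset.card s * k ≤ n := by
    have h2 : Multiset.card (Multiset.map natDegree s) • k ≤ (Multiset.map natDegree s).sum := by
      refine Multiset.card_nsmul_le_sum ?_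
      intro x hx
      rw [Multiset.mem_map] at hx
      obtain ⟨P, hP, rfl⟩ := hx
      exact (Multiset.mem_filter.1 hP).2
    rw [Multiset.card_map, smul_eq_mul] at h2
    have h3 : (Multiset.map natDegree s).sum = s.prod.natDegree := by
      refine (natDegree_multiset_prod_of_monic s ?_).symm
      intro P hP
      exact (hmon C hC P (Multiset.mem_filter.1 hP).1).1
    have h4 : s.prod ∣ C := by
      refine (Multiset.prod_dvd_prod_of_le (Multiset.filter_le _ _)).trans ?_
      exact (prod_normalizedFactors hC).dvd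
    have h5 := natDegree_le_of_dvd h4 hC
    omega
  have h2 : Multiset.card s ≤ 4 := by
    by_contra h
    have h3 : 5 * k ≤ Multiset.card s * k := Nat.mul_le_mul_right _ (by omega)
    omega
  have h3 : S.card ≤ s.powerset.toFinset.card := by
    refine Finset.card_le_card_of_injOn (fun D => normalizedFactors D) ?_ ?_
    · intro D hD
      obtain ⟨a, b, c⟩ := hS D hD
      simp only [Finset.mem_coe, Multiset.mem_toFinset, Multiset.mem_powerset]
      have h4 : (normalizedFactors D).filter (fun P => k ≤ P.natDegree) = normalizedFactors D := by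
        rw [Multiset.filter_eq_self]
        intro P hP
        obtain ⟨u, v, w⟩ := hmon D a.ne_zero P hP
        exact c P u v w
      rw [← h4, hs]
      exact Multiset.filter_le_filter _
        ((dvd_iff_normalizedFactors_le_normalizedFactors a.ne_zero hC).1 b)
    · intro D hD D' hD' he
      have he' : normalizedFactors D = normalizedFactors D' := he
      have a := (hS D hD).1
      have a' := (hS D' hD').1
      refine eq_of_monic_of_associated a a' ?_
      have e1 := prod_normalizedFactors a.ne_zero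
      have e2 := prod_normalizedFactors a'.ne_zero
      rw [he'] at e1
      exact e1.symm.trans e2
  calc S.card ≤ s.powerset.toFinset.card := h3
    _ ≤ Multiset.card s.powerset := Multiset.toFinset_card_le _
    _ = 2 ^ Multiset.card s := Multiset.card_powerset _
    _ ≤ 2 ^ 4 := Nat.pow_le_pow_right (by norm_num) h2
    _ = 16 := by norm_num

theorem cf_abs (D : K[X]) : |cf D| ≤ 2 := by
  unfold cf
  split_ifs <;> norm_num

/-- the coefficient restricted to the squarefree rough divisors of small degree -/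
noncomputable def cc (n k : ℕ) (δ : ℝ) (D : K[X]) : ℝ :=
  if 2 * (D.natDegree : ℝ) ≤ (1 - δ) * n ∧ Squarefree D ∧ Rgh k D then cf D else 0

theorem cc_abs (n k : ℕ) (δ : ℝ) (D : K[X]) : |cc n k δ D| ≤ 2 := by
  unfold cc
  split_ifs
  · exact cf_abs D
  · simp

/-- the weight `φ` -/
noncomputable def ph (g Q h r f : K[X]) : ℝ := if Q ∣ f - r then (mobg g (f + h) : ℝ) else 0

theorem ph_abs (g Q h r f : K[X]) : |ph g Q h r f| ≤ 1 := by
  unfold ph
  split_ifs
  · exact mobg_abs _ _
  · simp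

end alg

section fin
variable {K : Type} [Field K] [Fintype K]

/-- the monic polynomials of degree less than `N` -/
noncomputable def MM (K : Type) [Field K] [Fintype K] (N : ℕ) : Finset K[X] :=
  (range N).biUnion (fun i => Mn K i)

theorem mem_MM {N : ℕ} {D : K[X]} : D ∈ MM K N ↔ D.Monic ∧ D.natDegree < N := by
  unfold MM
  rw [mem_biUnion]
  constructor
  · rintro ⟨i, hi, hD⟩
    rw [mem_Mn] at hD
    rw [mem_range] at hi
    exact ⟨hD.1, by omega⟩
  · rintro ⟨h1, h2⟩
    exact ⟨D.natDegree, mem_range.2 h2, mem_Mn.2 ⟨h1, rfl⟩⟩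

theorem sum_MM (N : ℕ) (F : K[X] → ℝ) : ∑ D ∈ MM K N, F D = ∑ i ∈ range N, ∑ D ∈ Mn K i, F D := by
  unfold MM
  rw [sum_biUnion]
  intro a _ b _ hab
  rw [Function.onFun, Finset.disjoint_left]
  intro P hP hP'
  exact hab ((mem_Mn.1 hP).2.symm.trans (mem_Mn.1 hP').2)

theorem sum_dvd {m : ℕ} {D : K[X]} (hD : D.Monic) (hm : D.natDegree ≤ m) (F : K[X] → ℝ) :
    ∑ C ∈ (Mn K m).filter (fun C => D ∣ C), F C = ∑ B ∈ Mn K (m - D.natDegree), F (D * B) := by
  symm
  refine Finset.sum_bij (fun B _ => D * B) ?_ ?_ ?_ ?_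
  · intro B hB
    rw [mem_Mn] at hB
    rw [mem_filter, mem_Mn]
    refine ⟨⟨hD.mul hB.1, ?_⟩, dvd_mul_right _ _⟩
    rw [hD.natDegree_mul hB.1, hB.2]
    omega
  · intro B _ B' _ h
    exact mul_left_cancel₀ hD.ne_zero h
  · intro C hC
    rw [mem_filter, mem_Mn] at hC
    obtain ⟨⟨h1, h2⟩, B, rfl⟩ := hC
    have h3 : B.Monic := hD.of_mul_monic_left h1
    rw [hD.natDegree_mul h3] at h2
    exact ⟨B, mem_Mn.2 ⟨h3, by omega⟩, rfl⟩
  · intro B _
    rfl

/-- at most 16 rough divisors -/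
theorem sum_cc_le {n k : ℕ} (δ : ℝ) {C : K[X]} (hC : C ≠ 0) (hn : C.natDegree ≤ n)
    (hk : n < 5 * k) (N : ℕ) (w : K[X] → ℝ) (hw : ∀ D, |w D| ≤ 1) :
    |∑ D ∈ (MM K N).filter (fun D => D ∣ C), cc n k δ D * w D| ≤ 32 := by
  have h1 : ∑ D ∈ (MM K N).filter (fun D => D ∣ C), cc n k δ D * w D =
      ∑ D ∈ ((MM K N).filter (fun D => D ∣ C)).filter (fun D => Rgh k D), cc n k δ D * w D := by
    symm
    refine sum_subset (filter_subset _ _) ?_
    intro D hD hD'
    have h2 : ¬ Rgh k D := fun h => hD' (mem_filter.2 ⟨hD, h⟩)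
    unfold cc
    rw [if_neg (fun h => h2 h.2.2), zero_mul]
  rw [h1]
  refine (abs_sum_le_sum_abs _ _).trans ?_
  have h2 : ∀ D ∈ ((MM K N).filter (fun D => D ∣ C)).filter (fun D => Rgh k D),
      |cc n k δ D * w D| ≤ 2 := by
    intro D _
    rw [abs_mul]
    calc |cc n k δ D| * |w D| ≤ 2 * 1 :=
          mul_le_mul (cc_abs _ _ _ _) (hw D) (abs_nonneg _) (by norm_num)
      _ = 2 := by norm_num
  refine (sum_le_sum h2).trans ?_
  rw [sum_const, nsmul_eq_mul]
  have h3 : (((MM K N).filter (fun D => D ∣ C)).filter (fun D => Rgh k D)).card ≤ 16 := by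
    refine card_rough hC hn hk _ ?_
    intro D hD
    rw [mem_filter, mem_filter, mem_MM] at hD
    exact ⟨hD.1.1.1, hD.1.2, hD.2⟩
  have h4 : ((((MM K N).filter (fun D => D ∣ C)).filter (fun D => Rgh k D)).card : ℝ) ≤ 16 := by
    exact_mod_cast h3
  linarith

theorem sum_MM_pow (n : ℕ) : ∑ D ∈ MM K (n + 1), (Fintype.card K : ℝ) ^ (n - D.natDegree) =
    (n + 1) * (Fintype.card K : ℝ) ^ n := by
  rw [sum_MM]
  have h : ∀ i ∈ range (n + 1), ∑ D ∈ Mn K i, (Fintype.card K : ℝ) ^ (n - D.natDegree) =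
      (Fintype.card K : ℝ) ^ n := by
    intro i hi
    rw [mem_range] at hi
    rw [sum_congr rfl (fun D hD => by rw [(mem_Mn.1 hD).2]), sum_const, nsmul_eq_mul, card_Mn]
    push_cast
    rw [← pow_add]
    congr 1
    omega
  rw [sum_congr rfl h, sum_const, card_range, nsmul_eq_mul]
  push_cast
  ring

/-- **Residue classes modulo `Q`.** -/
theorem tii_class {n j : ℕ} (g Q h r : K[X]) (hQ : Q.Monic) (X : ℝ) (α β : K[X] → ℝ)
    (hα : ∀ p, |α p| ≤ 1) (hβ : ∀ B, |β B| ≤ 1)
    (H : ∀ α β : K[X] → ℝ, (∀ p, |α p| ≤ 1) → (∀ B, |β B| ≤ 1) →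
      |∑ p ∈ Irn K j, ∑ B ∈ Mn K (n - j), α p * β B * (mobg g (p * B + h) : ℝ)| ≤ X) :
    |∑ p ∈ Irn K j, ∑ B ∈ Mn K (n - j), α p * β B * ph g Q h r (p * B)| ≤
      (Fintype.card K : ℝ) ^ (2 * Q.natDegree) * X := by
  set R : Finset K[X] := Finset.univ.image
    (Pool.Agent.H694.Typ.pol : (Fin Q.natDegree → K) → K[X]) with hR
  have hmem : ∀ f : K[X], f %ₘ Q ∈ R := by
    intro f
    have h1 : (f %ₘ Q).degree < (Q.natDegree : WithBot ℕ) := by
      rw [← degree_eq_natDegree hQ.ne_zero]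
      exact degree_modByMonic_lt f hQ
    obtain ⟨c, hc⟩ := exists_pol h1
    rw [hR, mem_image]
    exact ⟨c, mem_univ _, hc⟩
  have hcard : (R.card : ℝ) ≤ (Fintype.card K : ℝ) ^ Q.natDegree := by
    have h1 : R.card ≤ Fintype.card K ^ Q.natDegree := by
      refine card_image_le.trans ?_
      rw [card_univ, Fintype.card_fun, Fintype.card_fin]
    exact_mod_cast h1
  have hX : 0 ≤ X := (abs_nonneg _).trans (H α β hα hβ)
  have hph : ∀ p B : K[X], ph g Q h r (p * B) = ∑ a ∈ R, ∑ b ∈ R,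
      (if p %ₘ Q = a then (1 : ℝ) else 0) * ((if B %ₘ Q = b then (1 : ℝ) else 0) *
        (if Q ∣ a * b - r then (1 : ℝ) else 0)) * (mobg g (p * B + h) : ℝ) := by
    intro p B
    rw [sum_eq_single (p %ₘ Q), sum_eq_single (B %ₘ Q)]
    · rw [if_pos rfl, if_pos rfl, one_mul, one_mul]
      unfold ph
      have h1 : Q ∣ p * B - r ↔ Q ∣ (p %ₘ Q) * (B %ₘ Q) - r := by
        have h2 : Q ∣ p * B - (p %ₘ Q) * (B %ₘ Q) := by
          have e1 := modByMonic_add_div p Q
          have e2 := modByMonic_add_div B Q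
          refine ⟨(p /ₘ Q) * B + (p %ₘ Q) * (B /ₘ Q), ?_⟩
          calc p * B - (p %ₘ Q) * (B %ₘ Q) = (p %ₘ Q + Q * (p /ₘ Q)) * B - (p %ₘ Q) * (B %ₘ Q) := by
                rw [e1]
            _ = (p %ₘ Q) * B + Q * (p /ₘ Q) * B - (p %ₘ Q) * (B %ₘ Q) := by ring
            _ = (p %ₘ Q) * (B %ₘ Q + Q * (B /ₘ Q)) + Q * (p /ₘ Q) * B - (p %ₘ Q) * (B %ₘ Q) := by
                rw [e2]
            _ = _ := by ring
        have h3 : p * B - r = (p * B - (p %ₘ Q) * (B %ₘ Q)) + ((p %ₘ Q) * (B %ₘ Q) - r) := by ring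
        rw [h3]
        exact dvd_add_right h2
      by_cases h4 : Q ∣ p * B - r
      · rw [if_pos h4, if_pos (h1.1 h4), one_mul]
      · rw [if_neg h4, if_neg (fun h => h4 (h1.2 h)), zero_mul]
    · intro b _ hb
      have h1 : ¬ (B %ₘ Q = b) := fun h => hb h.symm
      rw [if_neg h1]
      ring
    · intro h1
      exact absurd (hmem B) h1
    · intro a _ ha
      refine sum_eq_zero fun b _ => ?_
      rw [if_neg (fun h => ha h.symm)]
      ring
    · intro h1
      exact absurd (hmem p) h1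
  have h1 : ∑ p ∈ Irn K j, ∑ B ∈ Mn K (n - j), α p * β B * ph g Q h r (p * B) =
      ∑ a ∈ R, ∑ b ∈ R, ∑ p ∈ Irn K j, ∑ B ∈ Mn K (n - j),
        (α p * (if p %ₘ Q = a then (1 : ℝ) else 0)) *
        (β B * ((if B %ₘ Q = b then (1 : ℝ) else 0) * (if Q ∣ a * b - r then (1 : ℝ) else 0))) *
        (mobg g (p * B + h) : ℝ) := by
    have e1 : ∀ p ∈ Irn K j, ∀ B ∈ Mn K (n - j), α p * β B * ph g Q h r (p * B) =
        ∑ a ∈ R, ∑ b ∈ R, (α p * (if p %ₘ Q = a then (1 : ℝ) else 0)) *
        (β B * ((if B %ₘ Q = b then (1 : ℝ) else 0) * (if Q ∣ a * b - r then (1 : ℝ) else 0))) *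
        (mobg g (p * B + h) : ℝ) := by
      intro p _ B _
      rw [hph, mul_sum]
      refine sum_congr rfl fun a _ => ?_
      rw [mul_sum]
      refine sum_congr rfl fun b _ => ?_
      ring
    rw [sum_congr rfl (fun p hp => sum_congr rfl (e1 p hp))]
    rw [sum_congr rfl (fun p hp => sum_comm)]
    rw [sum_comm]
    refine sum_congr rfl fun a _ => ?_
    rw [sum_congr rfl (fun p hp => sum_comm)]
    rw [sum_comm]
  rw [h1]
  have hi : ∀ (P : Prop) [Decidable P], |(if P then (1 : ℝ) else 0)| ≤ 1 := by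
    intro P _
    split_ifs <;> simp
  have hmul : ∀ x y : ℝ, |x| ≤ 1 → |y| ≤ 1 → |x * y| ≤ 1 := by
    intro x y hx hy
    rw [abs_mul]
    exact mul_le_one₀ hx (abs_nonneg _) hy
  have h2 : ∀ a ∈ R, ∀ b ∈ R, |∑ p ∈ Irn K j, ∑ B ∈ Mn K (n - j),
        (α p * (if p %ₘ Q = a then (1 : ℝ) else 0)) *
        (β B * ((if B %ₘ Q = b then (1 : ℝ) else 0) * (if Q ∣ a * b - r then (1 : ℝ) else 0))) *
        (mobg g (p * B + h) : ℝ)| ≤ X := by
    intro a _ b _
    exact H (fun p => α p * (if p %ₘ Q = a then (1 : ℝ) else 0))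
      (fun B => β B * ((if B %ₘ Q = b then (1 : ℝ) else 0) *
        (if Q ∣ a * b - r then (1 : ℝ) else 0)))
      (fun p => hmul _ _ (hα p) (hi _)) (fun B => hmul _ _ (hβ B) (hmul _ _ (hi _) (hi _)))
  refine (abs_sum_le_sum_abs _ _).trans ?_
  refine (sum_le_sum fun a ha => (abs_sum_le_sum_abs _ _).trans
    (sum_le_sum fun b hb => h2 a ha b hb)).trans ?_
  rw [sum_const, sum_const, nsmul_eq_mul, nsmul_eq_mul, two_mul, pow_add, mul_assoc]
  have hc0 : (0 : ℝ) ≤ R.card := Nat.cast_nonneg _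
  gcongr

end fin

end Pool.Agent.H251.SP.Asm
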