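import Pool.Agent.H251.SP.Stm

set_option autoImplicit false

/-!
Task FEW of the project SP (helper251), proved by helper166.
-/

namespace Pool.Agent.H251.SP

namespace FewN

open Polynomial Finset
open scoped Classical
open Pool.Agent.H985.KP (PA)
open Pool.Agent.H694.Typ (Mn Irn mem_Mn mem_Irn irn_one_le q_ge coprime_of_ne sq_bound)

variable {K : Type} [Field K]

theorem rgh_dvd {k : ℕ} {f D : K[X]} (h : Rgh k f) (hD : D ∣ f) : Rgh k D :=
  fun P hP hP' hd => h P hP hP' (hd.trans hD)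

theorem rgh_mono {k l : ℕ} {f : K[X]} (h : Rgh k f) (hl : l ≤ k) : Rgh l f :=
  fun P hP hP' hd => hl.trans (h P hP hP' hd)

theorem exists_fac {f : K[X]} (hf : f.Monic) (h1 : f ≠ 1) :
    ∃ P : K[X], P.Monic ∧ Irreducible P ∧ P ∣ f := by
  apply exists_monic_irreducible_factor
  intro h
  exact h1 (hf.eq_one_of_isUnit h)

/-- splitting off a prime factor -/
theorem split_fac {k : ℕ} {f : K[X]} (hf : f.Monic) (h1 : f ≠ 1) (hr : Rgh k f) :
    ∃ P E : K[X], P.Monic ∧ Irreducible P ∧ k ≤ P.natDegree ∧ E.Monic ∧ f = P * E ∧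
      P.natDegree + E.natDegree = f.natDegree ∧ Rgh k E := by
  obtain ⟨P, hP, hP', E, hE⟩ := exists_fac hf h1
  have hEm : E.Monic := by
    rw [hE] at hf
    exact hP.of_mul_monic_left hf
  refine ⟨P, E, hP, hP', hr P hP hP' ⟨E, hE⟩, hEm, hE, ?_, rgh_dvd hr ⟨P, by rw [hE, mul_comm]⟩⟩
  rw [hE, hP.natDegree_mul hEm]

variable [Fintype K]

theorem irn_real {d k : ℕ} (hk : 1 ≤ k) (hd : k ≤ d) :
    ((Irn K d).card : ℝ) ≤ (Fintype.card K : ℝ) ^ d / k := by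
  have hq := q_ge (k := K)
  have h := irn_one_le (k := K) (d := d) (by omega)
  have h' : (d : ℝ) * ((Irn K d).card : ℝ) ≤ (Fintype.card K : ℝ) ^ d := by exact_mod_cast h
  have hk' : (1 : ℝ) ≤ k := by exact_mod_cast hk
  have hd' : (k : ℝ) ≤ d := by exact_mod_cast hd
  rw [le_div_iff₀ (by linarith)]
  calc ((Irn K d).card : ℝ) * k ≤ ((Irn K d).card : ℝ) * d := by gcongr
    _ = (d : ℝ) * ((Irn K d).card : ℝ) := mul_comm _ _
    _ ≤ _ := h'

/-- the polynomials of degree `d` without small prime factors -/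
noncomputable def Ro (K : Type) [Field K] [Fintype K] (k d : ℕ) : Finset K[X] := (Mn K d).filter (Rgh k)

theorem ro_sub {k d : ℕ} (hd : 1 ≤ d) (h3 : d < 3 * k) :
    Ro K k d ⊆ Irn K d ∪ (Icc k (d - k)).biUnion (fun i =>
      (Irn K i ×ˢ Irn K (d - i)).image (fun x => x.1 * x.2)) := by
  intro f hf
  unfold Ro at hf
  rw [mem_filter, mem_Mn] at hf
  obtain ⟨⟨hm, hn⟩, hr⟩ := hf
  have h1 : f ≠ 1 := by
    rintro rfl
    rw [natDegree_one] at hn
    omega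
  obtain ⟨P, E, hP, hP', hk, hE, hfE, hdeg, hrE⟩ := split_fac hm h1 hr
  rw [mem_union]
  by_cases hE1 : E = 1
  · left
    rw [hE1, mul_one] at hfE
    rw [mem_Irn, hfE]
    exact ⟨hP, by rw [← hfE]; exact hn, hP'⟩
  right
  obtain ⟨P2, E2, hP2, hP2', hk2, hE2, hfE2, hdeg2, hrE2⟩ := split_fac hE hE1 hrE
  have hE21 : E2 = 1 := by
    by_contra hne
    obtain ⟨P3, E3, hP3, hP3', hk3, hE3, hfE3, hdeg3, hrE3⟩ := split_fac hE2 hne hrE2
    omega
  rw [hE21, mul_one] at hfE2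
  rw [hE21, natDegree_one] at hdeg2
  rw [mem_biUnion]
  refine ⟨P.natDegree, ?_, ?_⟩
  · rw [mem_Icc]; omega
  · rw [mem_image]
    refine ⟨(P, P2), ?_, ?_⟩
    · rw [mem_product, mem_Irn, mem_Irn]
      exact ⟨⟨hP, rfl, hP'⟩, hP2, by show P2.natDegree = d - P.natDegree; omega, hP2'⟩
    · show P * P2 = f
      rw [hfE, hfE2]

theorem ro_card {k d : ℕ} (hk : 1 ≤ k) (hd : k ≤ d) (h3 : d < 3 * k) :
    ((Ro K k d).card : ℝ) ≤ (Fintype.card K : ℝ) ^ d * (1 / k + (d + 1) / (k : ℝ) ^ 2) := by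
  have hq := q_ge (k := K)
  have hk' : (1 : ℝ) ≤ k := by exact_mod_cast hk
  have h := (card_le_card (ro_sub (K := K) (k := k) (d := d) (by omega) h3)).trans
    ((card_union_le _ _).trans (Nat.add_le_add_left card_biUnion_le _))
  have h2 : ((Ro K k d).card : ℝ) ≤ ((Irn K d).card : ℝ) + ∑ i ∈ Icc k (d - k),
      (((Irn K i ×ˢ Irn K (d - i)).image (fun x => x.1 * x.2)).card : ℝ) := by
    exact_mod_cast h
  have h4 : ∀ i ∈ Icc k (d - k),
      (((Irn K i ×ˢ Irn K (d - i)).image (fun x => x.1 * x.2)).card : ℝ) ≤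
        (Fintype.card K : ℝ) ^ d / (k : ℝ) ^ 2 := by
    intro i hi
    rw [mem_Icc] at hi
    have a1 : (((Irn K i ×ˢ Irn K (d - i)).image (fun x => x.1 * x.2)).card : ℝ) ≤
        ((Irn K i).card : ℝ) * ((Irn K (d - i)).card : ℝ) := by
      have := card_image_le (s := Irn K i ×ˢ Irn K (d - i)) (f := fun x => x.1 * x.2)
      rw [card_product] at this
      exact_mod_cast this
    have a2 := irn_real (K := K) hk hi.1
    have a3 := irn_real (K := K) (d := d - i) hk (by omega)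
    calc _ ≤ ((Irn K i).card : ℝ) * ((Irn K (d - i)).card : ℝ) := a1
      _ ≤ ((Fintype.card K : ℝ) ^ i / k) * ((Fintype.card K : ℝ) ^ (d - i) / k) := by gcongr
      _ = (Fintype.card K : ℝ) ^ (i + (d - i)) / (k : ℝ) ^ 2 := by
        rw [div_mul_div_comm, ← pow_add, sq]
      _ = _ := by rw [Nat.add_sub_cancel' (by omega)]
  have h5 := sum_le_sum h4
  rw [sum_const, nsmul_eq_mul] at h5
  have h6 : ((Icc k (d - k)).card : ℝ) ≤ d + 1 := by
    rw [Nat.card_Icc]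
    have : d - k + 1 - k ≤ d + 1 := by omega
    exact_mod_cast this
  have h7 := irn_real (K := K) hk hd
  calc ((Ro K k d).card : ℝ) ≤ _ := h2
    _ ≤ (Fintype.card K : ℝ) ^ d / k + (d + 1) * ((Fintype.card K : ℝ) ^ d / (k : ℝ) ^ 2) := by
      refine add_le_add h7 (h5.trans ?_)
      gcongr
    _ = _ := by ring

theorem icc_card (a b : ℝ) (hab : a ≤ b) (hb : 0 ≤ b) : ((Icc ⌈a⌉₊ ⌊b⌋₊).card : ℝ) ≤ b - a + 1 := by
  rw [Nat.card_Icc]
  rcases le_total (⌊b⌋₊ + 1) ⌈a⌉₊ with h | h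
  · rw [Nat.sub_eq_zero_of_le h]
    push_cast
    linarith
  · rw [Nat.cast_sub h]
    have h1 := Nat.floor_le hb
    have h2 := Nat.le_ceil a
    push_cast
    linarith

/-- a divisor in the middle -/
theorem s3_card (n k : ℕ) (δ : ℝ) (hδ : 0 < δ) (hδ1 : δ ≤ 1 / 10) (hn : 100 ≤ n) (hk : (24 / 100 : ℝ) * n ≤ k)
    (hk2 : (k : ℝ) ≤ (45 / 100 : ℝ) * n) :
    (((Mn K n).filter (fun f => Rgh k f ∧ ∃ D : K[X], D.Monic ∧ D ∣ f ∧
      |2 * (D.natDegree : ℝ) - n| ≤ δ * n)).card : ℝ) ≤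
      (δ * n + 1) * (200 * (Fintype.card K : ℝ) ^ n / (n : ℝ) ^ 2) := by
  have hq := q_ge (k := K)
  have hn' : (100 : ℝ) ≤ n := by exact_mod_cast hn
  have hk1 : 1 ≤ k := by
    have : (1 : ℝ) ≤ k := by linarith
    exact_mod_cast this
  set Ds := (range (n + 1)).filter (fun d : ℕ => |2 * (d : ℝ) - n| ≤ δ * n) with hDs
  have hmem : ∀ d ∈ Ds, d ≤ n ∧ (45 / 100 : ℝ) * n ≤ d ∧ (d : ℝ) ≤ (55 / 100 : ℝ) * n := by
    intro d hd
    rw [hDs, mem_filter, mem_range, abs_le] at hd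
    obtain ⟨h1, h2, h3⟩ := hd
    have : δ * n ≤ 1 / 10 * n := by gcongr
    refine ⟨by omega, by linarith, by linarith⟩
  have hsub : (Mn K n).filter (fun f => Rgh k f ∧ ∃ D : K[X], D.Monic ∧ D ∣ f ∧
      |2 * (D.natDegree : ℝ) - n| ≤ δ * n) ⊆
      Ds.biUnion (fun d => (Ro K k d ×ˢ Ro K k (n - d)).image (fun x => x.1 * x.2)) := by
    intro f hf
    rw [mem_filter, mem_Mn] at hf
    obtain ⟨⟨hm, hdeg⟩, hr, D, hD, ⟨E, hE⟩, habs⟩ := hf
    have hEm : E.Monic := by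
      rw [hE] at hm
      exact hD.of_mul_monic_left hm
    have hdE : D.natDegree + E.natDegree = n := by
      rw [← hdeg, hE, hD.natDegree_mul hEm]
    rw [mem_biUnion]
    refine ⟨D.natDegree, ?_, ?_⟩
    · rw [hDs, mem_filter, mem_range]
      exact ⟨by omega, habs⟩
    · rw [mem_image]
      refine ⟨(D, E), ?_, hE.symm⟩
      rw [mem_product]
      unfold Ro
      rw [mem_filter, mem_filter, mem_Mn, mem_Mn]
      exact ⟨⟨⟨hD, rfl⟩, rgh_dvd hr ⟨E, hE⟩⟩, ⟨hEm, by show E.natDegree = n - D.natDegree; omega⟩,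
        rgh_dvd hr ⟨D, by rw [hE, mul_comm]⟩⟩
  have h1 := (card_le_card hsub).trans card_biUnion_le
  have h2 : (((Mn K n).filter (fun f => Rgh k f ∧ ∃ D : K[X], D.Monic ∧ D ∣ f ∧
      |2 * (D.natDegree : ℝ) - n| ≤ δ * n)).card : ℝ) ≤
      ∑ d ∈ Ds, ((Ro K k d).card : ℝ) * ((Ro K k (n - d)).card : ℝ) := by
    refine (by exact_mod_cast h1 : _ ≤ ∑ d ∈ Ds, (((Ro K k d ×ˢ Ro K k (n - d)).image
      (fun x => x.1 * x.2)).card : ℝ)).trans ?_
    refine sum_le_sum fun d _ => ?_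
    have := card_image_le (s := Ro K k d ×ˢ Ro K k (n - d)) (f := fun x => x.1 * x.2)
    rw [card_product] at this
    exact_mod_cast this
  have key : ∀ d : ℕ, (45 / 100 : ℝ) * n ≤ d → (d : ℝ) ≤ (55 / 100 : ℝ) * n →
      ((Ro K k d).card : ℝ) ≤ (Fintype.card K : ℝ) ^ d * (14 / n) := by
    intro d hd1 hd2
    have hkd : k ≤ d := by
      have : (k : ℝ) ≤ d := by linarith
      exact_mod_cast this
    have hd3 : d < 3 * k := by
      have : (d : ℝ) < 3 * k := by linarith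
      exact_mod_cast this
    refine (ro_card hk1 hkd hd3).trans ?_
    refine mul_le_mul_of_nonneg_left ?_ (by positivity)
    have hkp : (0 : ℝ) < k := by linarith
    have a1 : 1 / (k : ℝ) ≤ 1 / (24 / 100 * n) := by
      apply one_div_le_one_div_of_le <;> linarith
    have a2 : ((d : ℝ) + 1) / (k : ℝ) ^ 2 ≤ (56 / 100 * n) / (24 / 100 * n) ^ 2 := by
      gcongr
      linarith
    refine (add_le_add a1 a2).trans ?_
    have hn0 : (0 : ℝ) < n := by linarith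
    have : 1 / (24 / 100 * (n : ℝ)) + (56 / 100 * n) / (24 / 100 * n) ^ 2 =
        (100 / 24 + 56 / 100 * (100 / 24) ^ 2) / n := by
      field_simp
    rw [this]
    gcongr
    norm_num
  have h3 : ∀ d ∈ Ds, ((Ro K k d).card : ℝ) * ((Ro K k (n - d)).card : ℝ) ≤
      200 * (Fintype.card K : ℝ) ^ n / (n : ℝ) ^ 2 := by
    intro d hd
    obtain ⟨b1, b2, b3⟩ := hmem d hd
    have c1 := key d b2 b3
    have c2 := key (n - d) (by rw [Nat.cast_sub b1]; linarith) (by rw [Nat.cast_sub b1]; linarith)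
    have hn0 : (0 : ℝ) < n := by linarith
    calc _ ≤ ((Fintype.card K : ℝ) ^ d * (14 / n)) * ((Fintype.card K : ℝ) ^ (n - d) * (14 / n)) := by gcongr
      _ = (Fintype.card K : ℝ) ^ (d + (n - d)) * (196 / (n : ℝ) ^ 2) := by rw [pow_add]; ring
      _ = (Fintype.card K : ℝ) ^ n * (196 / (n : ℝ) ^ 2) := by rw [Nat.add_sub_cancel' b1]
      _ = 196 * (Fintype.card K : ℝ) ^ n / (n : ℝ) ^ 2 := by ring
      _ ≤ _ := by gcongr; norm_num
  have h4 := sum_le_sum h3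
  rw [sum_const, nsmul_eq_mul] at h4
  have h5 : (Ds.card : ℝ) ≤ δ * n + 1 := by
    have hs : Ds ⊆ Icc ⌈(1 - δ) * n / 2⌉₊ ⌊(1 + δ) * n / 2⌋₊ := by
      intro d hd
      rw [hDs, mem_filter, mem_range, abs_le] at hd
      rw [mem_Icc, Nat.ceil_le, Nat.le_floor_iff (by positivity)]
      constructor <;> linarith [hd.2.1, hd.2.2]
    have := (Nat.cast_le (α := ℝ)).2 (card_le_card hs)
    refine this.trans ((icc_card _ _ ?_ ?_).trans ?_)
    · have : 0 ≤ δ * n := by positivity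
      linarith
    · positivity
    · linarith
  refine h2.trans (h4.trans ?_)
  gcongr

/-- exactly four prime factors -/
theorem four {f : K[X]} {k n : ℕ} (hf : f ∈ Mn K n) (hr : Rgh k f) (h5 : n < 5 * k)
    (h : (PA f).ncard = 4) : ∃ P1 P2 P3 P4 : K[X], P1.Monic ∧ Irreducible P1 ∧ P2.Monic ∧ Irreducible P2 ∧
      P3.Monic ∧ Irreducible P3 ∧ P4.Monic ∧ Irreducible P4 ∧ k ≤ P1.natDegree ∧ k ≤ P2.natDegree ∧
      k ≤ P3.natDegree ∧ k ≤ P4.natDegree ∧ f = P1 * P2 * P3 * P4 ∧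
      P1.natDegree + P2.natDegree + P3.natDegree + P4.natDegree = n := by
  have hfin : (PA f).Finite := Set.finite_of_ncard_pos (by rw [h]; norm_num)
  have hc : hfin.toFinset.card = 4 := by rw [← Set.ncard_eq_toFinset_card _ hfin]; exact h
  obtain ⟨P1, t, ht, he, hc3⟩ := Finset.card_eq_succ.1 hc
  obtain ⟨P2, P3, P4, h23, h24, h34, ht3⟩ := Finset.card_eq_three.1 hc3
  have hm : ∀ P, P ∈ hfin.toFinset → P.Monic ∧ Irreducible P ∧ P ∣ f := by
    intro P hP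
    rw [Set.Finite.mem_toFinset] at hP
    exact hP
  have m1 := hm P1 (by rw [← he]; exact mem_insert_self _ _)
  have m2 := hm P2 (by rw [← he, ht3]; simp)
  have m3 := hm P3 (by rw [← he, ht3]; simp)
  have m4 := hm P4 (by rw [← he, ht3]; simp)
  have n2 : P1 ≠ P2 := by rintro rfl; exact ht (by rw [ht3]; simp)
  have n3 : P1 ≠ P3 := by rintro rfl; exact ht (by rw [ht3]; simp)
  have n4 : P1 ≠ P4 := by rintro rfl; exact ht (by rw [ht3]; simp)
  have c12 := coprime_of_ne m1.1 m1.2.1 m2.1 m2.2.1 n2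
  have c13 := coprime_of_ne m1.1 m1.2.1 m3.1 m3.2.1 n3
  have c14 := coprime_of_ne m1.1 m1.2.1 m4.1 m4.2.1 n4
  have c23 := coprime_of_ne m2.1 m2.2.1 m3.1 m3.2.1 h23
  have c24 := coprime_of_ne m2.1 m2.2.1 m4.1 m4.2.1 h24
  have c34 := coprime_of_ne m3.1 m3.2.1 m4.1 m4.2.1 h34
  have d12 := c12.mul_dvd m1.2.2 m2.2.2
  have d123 := (c13.mul_left c23).mul_dvd d12 m3.2.2
  have d1234 := ((c14.mul_left c24).mul_left c34).mul_dvd d123 m4.2.2
  obtain ⟨E, hE⟩ := d1234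
  rw [mem_Mn] at hf
  have k1 := hr P1 m1.1 m1.2.1 m1.2.2
  have k2 := hr P2 m2.1 m2.2.1 m2.2.2
  have k3 := hr P3 m3.1 m3.2.1 m3.2.2
  have k4 := hr P4 m4.1 m4.2.1 m4.2.2
  have hPm : (P1 * P2 * P3 * P4).Monic := ((m1.1.mul m2.1).mul m3.1).mul m4.1
  have hEm : E.Monic := by
    have := hf.1
    rw [hE] at this
    exact hPm.of_mul_monic_left this
  have hdeg : P1.natDegree + P2.natDegree + P3.natDegree + P4.natDegree + E.natDegree = n := by
    rw [← hf.2, hE, hPm.natDegree_mul hEm, ((m1.1.mul m2.1).mul m3.1).natDegree_mul m4.1,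
      (m1.1.mul m2.1).natDegree_mul m3.1, m1.1.natDegree_mul m2.1]
  have hE1 : E = 1 := by
    by_contra hne
    obtain ⟨P, hP, hP', hPE⟩ := exists_fac hEm hne
    have a1 := hr P hP hP' (hPE.trans ⟨P1 * P2 * P3 * P4, by rw [hE, mul_comm]⟩)
    have a2 := natDegree_le_of_dvd hPE hEm.ne_zero
    omega
  rw [hE1, mul_one] at hE
  rw [hE1, natDegree_one] at hdeg
  exact ⟨P1, P2, P3, P4, m1.1, m1.2.1, m2.1, m2.2.1, m3.1, m3.2.1, m4.1, m4.2.1, k1, k2, k3, k4, hE, by omega⟩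

theorem s2_card (n k : ℕ) (hk : 1 ≤ k) (h5 : n < 5 * k) :
    (((Mn K n).filter (fun f => Rgh k f ∧ (PA f).ncard = 4)).card : ℝ) ≤
      ((n + 1 - 4 * k : ℕ) : ℝ) ^ 3 * ((Fintype.card K : ℝ) ^ n / (k : ℝ) ^ 4) := by
  have hq := q_ge (k := K)
  set T := ((Icc k (n - 3 * k)) ×ˢ (Icc k (n - 3 * k)) ×ˢ (Icc k (n - 3 * k))).filter
    (fun d => d.1 + d.2.1 + d.2.2 + k ≤ n) with hT
  set G : ℕ × ℕ × ℕ → Finset (K[X] × K[X] × K[X] × K[X]) := fun d =>
    Irn K d.1 ×ˢ Irn K d.2.1 ×ˢ Irn K d.2.2 ×ˢ Irn K (n - d.1 - d.2.1 - d.2.2) with hG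
  have hsub : (Mn K n).filter (fun f => Rgh k f ∧ (PA f).ncard = 4) ⊆
      T.biUnion (fun d => (G d).image (fun x => x.1 * x.2.1 * x.2.2.1 * x.2.2.2)) := by
    intro f hf
    rw [mem_filter] at hf
    obtain ⟨P1, P2, P3, P4, a1, a1', a2, a2', a3, a3', a4, a4', k1, k2, k3, k4, hf4, hdeg⟩ :=
      four hf.1 hf.2.1 h5 hf.2.2
    rw [mem_biUnion]
    refine ⟨(P1.natDegree, P2.natDegree, P3.natDegree), ?_, ?_⟩
    · rw [hT, mem_filter, mem_product, mem_product, mem_Icc, mem_Icc, mem_Icc]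
      refine ⟨⟨⟨k1, ?_⟩, ⟨k2, ?_⟩, k3, ?_⟩, ?_⟩
      · show P1.natDegree ≤ n - 3 * k
        omega
      · show P2.natDegree ≤ n - 3 * k
        omega
      · show P3.natDegree ≤ n - 3 * k
        omega
      · show P1.natDegree + P2.natDegree + P3.natDegree + k ≤ n
        omega
    · rw [mem_image]
      refine ⟨(P1, P2, P3, P4), ?_, hf4.symm⟩
      rw [hG, mem_product, mem_product, mem_product, mem_Irn, mem_Irn, mem_Irn, mem_Irn]
      refine ⟨⟨a1, rfl, a1'⟩, ⟨a2, rfl, a2'⟩, ⟨a3, rfl, a3'⟩, a4, ?_, a4'⟩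
      show P4.natDegree = n - P1.natDegree - P2.natDegree - P3.natDegree
      omega
  have h1 := (card_le_card hsub).trans card_biUnion_le
  have h2 : (((Mn K n).filter (fun f => Rgh k f ∧ (PA f).ncard = 4)).card : ℝ) ≤
      ∑ d ∈ T, ((G d).card : ℝ) := by
    refine (by exact_mod_cast h1 : _ ≤ ∑ d ∈ T, (((G d).image
      (fun x => x.1 * x.2.1 * x.2.2.1 * x.2.2.2)).card : ℝ)).trans ?_
    refine sum_le_sum fun d _ => ?_
    exact_mod_cast card_image_le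
  have h3 : ∀ d ∈ T, ((G d).card : ℝ) ≤ (Fintype.card K : ℝ) ^ n / (k : ℝ) ^ 4 := by
    intro d hd
    rw [hT, mem_filter, mem_product, mem_product, mem_Icc, mem_Icc, mem_Icc] at hd
    obtain ⟨⟨⟨b1, _⟩, ⟨b2, _⟩, b3, _⟩, b4⟩ := hd
    rw [hG]
    show (((Irn K d.1 ×ˢ Irn K d.2.1 ×ˢ Irn K d.2.2 ×ˢ Irn K (n - d.1 - d.2.1 - d.2.2)).card : ℕ) : ℝ) ≤ _
    rw [card_product, card_product, card_product]
    have e1 := irn_real (K := K) hk b1
    have e2 := irn_real (K := K) hk b2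
    have e3 := irn_real (K := K) hk b3
    have e4 := irn_real (K := K) (d := n - d.1 - d.2.1 - d.2.2) hk (by omega)
    push_cast
    calc _ ≤ ((Fintype.card K : ℝ) ^ d.1 / k) * (((Fintype.card K : ℝ) ^ d.2.1 / k) *
        (((Fintype.card K : ℝ) ^ d.2.2 / k) * ((Fintype.card K : ℝ) ^ (n - d.1 - d.2.1 - d.2.2) / k))) := by
          gcongr
      _ = (Fintype.card K : ℝ) ^ (d.1 + d.2.1 + d.2.2 + (n - d.1 - d.2.1 - d.2.2)) / (k : ℝ) ^ 4 := by
          rw [pow_add, pow_add, pow_add]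
          ring
      _ = _ := by
          rw [show d.1 + d.2.1 + d.2.2 + (n - d.1 - d.2.1 - d.2.2) = n by omega]
  have h4 := sum_le_sum h3
  rw [sum_const, nsmul_eq_mul] at h4
  have h6 : (T.card : ℝ) ≤ ((n + 1 - 4 * k : ℕ) : ℝ) ^ 3 := by
    have : T.card ≤ (n + 1 - 4 * k) ^ 3 := by
      refine (card_filter_le _ _).trans ?_
      rw [card_product, card_product, Nat.card_Icc]
      have e : n - 3 * k + 1 - k ≤ n + 1 - 4 * k := by omega
      calc (n - 3 * k + 1 - k) * ((n - 3 * k + 1 - k) * (n - 3 * k + 1 - k)) ≤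
          (n + 1 - 4 * k) * ((n + 1 - 4 * k) * (n + 1 - 4 * k)) := by gcongr
        _ = _ := by ring
    exact_mod_cast this
  refine h2.trans (h4.trans ?_)
  gcongr

theorem s1_sub (n k : ℕ) (hk : 1 ≤ k) :
    (Mn K n).filter (fun f => Rgh k f ∧ ¬ Squarefree f) ⊆
      (Mn K n).filter (fun b => ∃ g : K[X], g.Monic ∧ k - 1 < g.natDegree ∧ g ^ 2 ∣ b) := by
  intro f hf
  rw [mem_filter] at hf ⊢
  refine ⟨hf.1, ?_⟩
  obtain ⟨h1, h2, h3⟩ := hf
  rw [mem_Mn] at h1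
  unfold Squarefree at h3
  push Not at h3
  obtain ⟨x, hx, hu⟩ := h3
  obtain ⟨P, hP, hP', hPx⟩ := exists_monic_irreducible_factor x hu
  refine ⟨P, hP, ?_, ?_⟩
  · have := h2 P hP hP' (hPx.trans ((dvd_mul_right x x).trans hx))
    omega
  · rw [sq]
    exact (mul_dvd_mul hPx hPx).trans hx

end FewN

open Polynomial Finset
open scoped Classical
open Pool.Agent.H985.KP (PA)
open Pool.Agent.H694.Typ (Mn Irn mem_Mn mem_Irn irn_one_le q_ge coprime_of_ne sq_bound)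

theorem few : S_few := by
  intro K _ _
  refine ⟨40000, by norm_num, ?_⟩
  intro ε δ hε hε1 hδ hδ1
  have hq := q_ge (k := K)
  -- the choice of n₀
  have ht : Filter.Tendsto (fun m : ℕ => (m : ℝ) * (1 / 2 : ℝ) ^ m) Filter.atTop (nhds 0) :=
    tendsto_self_mul_const_pow_of_lt_one (by norm_num) (by norm_num)
  have hev := (ht.eventually (ge_mem_nhds (show (0 : ℝ) < ε ^ 3 / 5 by positivity)))
  obtain ⟨m₀, hm₀⟩ := Filter.eventually_atTop.1 hev
  refine ⟨max (max 100 (5 * m₀)) (max (⌈1 / ε⌉₊) (⌈1 / δ⌉₊)), ?_⟩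
  intro n hn k hk
  have hn1 : 100 ≤ n := (le_max_left _ _).trans ((le_max_left _ _).trans hn)
  have hn2 : 5 * m₀ ≤ n := (le_max_right _ _).trans ((le_max_left _ _).trans hn)
  have hn3 : 1 / ε ≤ n := Nat.ceil_le.1 ((le_max_left _ _).trans ((le_max_right _ _).trans hn))
  have hn4 : 1 / δ ≤ n := Nat.ceil_le.1 ((le_max_right _ _).trans ((le_max_right _ _).trans hn))
  have hn' : (100 : ℝ) ≤ n := by exact_mod_cast hn1
  have hn0 : (0 : ℝ) < n := by linarith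
  set k₀ := ⌈(1 / 4 - ε) * n⌉₊ with hk₀
  have e1 : (1 / 4 - ε) * n ≤ k₀ := Nat.le_ceil _
  have e2 : (k₀ : ℝ) < (1 / 4 - ε) * n + 1 := by
    apply Nat.ceil_lt_add_one
    have : (0 : ℝ) ≤ 1 / 4 - ε := by linarith
    positivity
  have e3 : ε * n ≤ 1 / 100 * n := by gcongr
  have e4 : 0 < ε * n := by positivity
  have e5 : (24 / 100 : ℝ) * n ≤ k₀ := by linarith
  have e6 : (k₀ : ℝ) ≤ 45 / 100 * n := by linarith
  have e7 : k₀ ≤ k := by
    rw [hk₀, Nat.ceil_le]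
    exact hk
  have hk1 : 1 ≤ k₀ := by
    have : (1 : ℝ) ≤ k₀ := by linarith
    exact_mod_cast this
  have h5 : n < 5 * k₀ := by
    have : (n : ℝ) < 5 * k₀ := by linarith
    exact_mod_cast this
  have hsub : (Mn K n).filter (fun f => Rgh k f ∧ (¬ Squarefree f ∨ (PA f).ncard = 4 ∨
      ∃ D : K[X], D.Monic ∧ D ∣ f ∧ |2 * (D.natDegree : ℝ) - n| ≤ δ * n)) ⊆
      ((Mn K n).filter (fun f => Rgh k₀ f ∧ ¬ Squarefree f)) ∪
      (((Mn K n).filter (fun f => Rgh k₀ f ∧ (PA f).ncard = 4)) ∪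
      ((Mn K n).filter (fun f => Rgh k₀ f ∧ ∃ D : K[X], D.Monic ∧ D ∣ f ∧
        |2 * (D.natDegree : ℝ) - n| ≤ δ * n))) := by
    intro f hf
    rw [mem_filter] at hf
    rw [mem_union, mem_union, mem_filter, mem_filter, mem_filter]
    obtain ⟨h1, h2, h3⟩ := hf
    have h4 := FewN.rgh_mono h2 e7
    rcases h3 with h3 | h3 | h3
    · exact Or.inl ⟨h1, h4, h3⟩
    · exact Or.inr (Or.inl ⟨h1, h4, h3⟩)
    · exact Or.inr (Or.inr ⟨h1, h4, h3⟩)
  have hc := (card_le_card hsub).trans ((card_union_le _ _).trans (Nat.add_le_add_left (card_union_le _ _) _))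
  have hc' := (Nat.cast_le (α := ℝ)).2 hc
  push_cast at hc'
  have b1 : (((Mn K n).filter (fun f => Rgh k₀ f ∧ ¬ Squarefree f)).card : ℝ) ≤
      (Fintype.card K : ℝ) ^ n * (ε ^ 3 / n) := by
    refine ((Nat.cast_le (α := ℝ)).2 (card_le_card (FewN.s1_sub n k₀ hk1))).trans
      ((sq_bound n (k₀ - 1)).trans ?_)
    refine mul_le_mul_of_nonneg_left ?_ (by positivity)
    have hm1 : (n : ℝ) ≤ 5 * ((k₀ - 1 : ℕ) : ℝ) := by
      rw [Nat.cast_sub hk1]
      push_cast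
      linarith
    have hm2 : m₀ ≤ k₀ - 1 := by
      have : (5 * m₀ : ℝ) ≤ 5 * ((k₀ - 1 : ℕ) : ℝ) := by
        have : ((5 * m₀ : ℕ) : ℝ) ≤ n := by exact_mod_cast hn2
        push_cast at this
        linarith
      have : (m₀ : ℝ) ≤ ((k₀ - 1 : ℕ) : ℝ) := by linarith
      exact_mod_cast this
    have hm3 := hm₀ (k₀ - 1) hm2
    rw [le_div_iff₀ hn0]
    have hp : (0 : ℝ) ≤ (1 / 2 : ℝ) ^ (k₀ - 1) := by positivity
    calc (1 / 2 : ℝ) ^ (k₀ - 1) * n ≤ (1 / 2 : ℝ) ^ (k₀ - 1) * (5 * ((k₀ - 1 : ℕ) : ℝ)) := by gcongr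
      _ = 5 * (((k₀ - 1 : ℕ) : ℝ) * (1 / 2 : ℝ) ^ (k₀ - 1)) := by ring
      _ ≤ 5 * (ε ^ 3 / 5) := by gcongr
      _ = ε ^ 3 := by ring
  have b2 : (((Mn K n).filter (fun f => Rgh k₀ f ∧ (PA f).ncard = 4)).card : ℝ) ≤
      (Fintype.card K : ℝ) ^ n * (39000 * ε ^ 3 / n) := by
    refine (FewN.s2_card n k₀ hk1 h5).trans ?_
    have c1 : ((n + 1 - 4 * k₀ : ℕ) : ℝ) ≤ 5 * (ε * n) := by
      have hen : 1 ≤ ε * n := by
        rw [div_le_iff₀ hε] at hn3
        linarith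
      rcases le_total (n + 1) (4 * k₀) with h | h
      · rw [Nat.sub_eq_zero_of_le h]
        push_cast
        linarith
      · rw [Nat.cast_sub h]
        push_cast
        linarith
    have hk0 : (0 : ℝ) < k₀ := by linarith
    calc ((n + 1 - 4 * k₀ : ℕ) : ℝ) ^ 3 * ((Fintype.card K : ℝ) ^ n / (k₀ : ℝ) ^ 4) ≤
        (5 * (ε * n)) ^ 3 * ((Fintype.card K : ℝ) ^ n / (24 / 100 * n : ℝ) ^ 4) := by gcongr
      _ = (Fintype.card K : ℝ) ^ n * ((125 * (100 / 24) ^ 4) * ε ^ 3 / n) := by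
        field_simp
        norm_num
      _ ≤ _ := by
        gcongr
        norm_num
  have b3 := FewN.s3_card (K := K) n k₀ δ hδ hδ1 hn1 e5 e6
  have b4 : (δ * n + 1) * (200 * (Fintype.card K : ℝ) ^ n / (n : ℝ) ^ 2) ≤
      (Fintype.card K : ℝ) ^ n * (400 * δ / n) := by
    have hen : 1 ≤ δ * n := by
      rw [div_le_iff₀ hδ] at hn4
      linarith
    calc (δ * n + 1) * (200 * (Fintype.card K : ℝ) ^ n / (n : ℝ) ^ 2) ≤
        (δ * n + δ * n) * (200 * (Fintype.card K : ℝ) ^ n / (n : ℝ) ^ 2) := by gcongr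
      _ = _ := by
        field_simp
        ring
  refine hc'.trans ((add_le_add b1 (add_le_add b2 (b3.trans b4))).trans ?_)
  have : (Fintype.card K : ℝ) ^ n * (ε ^ 3 / n) + ((Fintype.card K : ℝ) ^ n * (39000 * ε ^ 3 / n) +
      (Fintype.card K : ℝ) ^ n * (400 * δ / n)) =
      (39001 * ε ^ 3 + 400 * δ) * ((Fintype.card K : ℝ) ^ n / n) := by ring
  rw [this, mul_div_assoc]
  have hx : 0 ≤ ε ^ 3 := by positivity
  refine mul_le_mul_of_nonneg_right ?_ (by positivity)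
  linarith

end Pool.Agent.H251.SP
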