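import Pool.Agent.H251.SP.Asm2

/-!
# Final assembly (task ASM, helper177 for helper251)
-/

set_option autoImplicit false
set_option linter.all false

namespace Pool.Agent.H251.SP.Asm

open Polynomial Finset UniqueFactorizationMonoid
open scoped Classical
open Pool.Agent.H985.Chow (mob)
open Pool.Agent.H985.KP (PA mobg)
open Pool.Agent.H694.Typ (Mn Irn mem_Mn mem_Irn card_Mn card_dvd card_dvd_le no_dvd irn_one_le q_ge wt)

theorem sq_le_two_pow (x : ℕ) (hx : 4 ≤ x) : x * x ≤ 2 ^ x := by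
  induction x, hx using Nat.le_induction with
  | base => norm_num
  | succ x hx ih =>
    rw [pow_succ]
    nlinarith

theorem log_small (Z : ℕ) : ∃ n₀ : ℕ, ∀ n : ℕ, n₀ ≤ n → 5 * (Z * Nat.log 2 n) ≤ n := by
  refine ⟨2 ^ (5 * Z + 4), fun n hn => ?_⟩
  have hn0 : n ≠ 0 := by
    have : 0 < 2 ^ (5 * Z + 4) := by positivity
    omega
  have h1 : 5 * Z + 4 ≤ Nat.log 2 n := (Nat.le_log_iff_pow_le (by norm_num) hn0).2 hn
  have h2 := sq_le_two_pow (Nat.log 2 n) (by omega)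
  have h3 := Nat.pow_log_le_self 2 hn0
  have h4 : 5 * (Z * Nat.log 2 n) ≤ Nat.log 2 n * Nat.log 2 n := by
    rw [← mul_assoc]
    exact Nat.mul_le_mul_right _ (by omega)
  omega

theorem pow_small (E : ℕ) (q c : ℝ) (hq : 2 ≤ q) (hc : 0 < c) :
    ∃ n₀ : ℕ, ∀ n : ℕ, n₀ ≤ n → (n : ℝ) ^ E * q ^ (-c * n) ≤ 1 := by
  have hr : 1 < q ^ c := Real.one_lt_rpow (by linarith) hc
  have h1 := tendsto_pow_const_div_const_pow_of_one_lt E hr
  have h2 := h1.eventually (ge_mem_nhds (show (0 : ℝ) < 1 by norm_num))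
  obtain ⟨n₀, h3⟩ := Filter.eventually_atTop.1 h2
  refine ⟨n₀, fun n hn => ?_⟩
  have h4 := h3 n hn
  have h5 : q ^ (-c * n) = ((q ^ c) ^ n)⁻¹ := by
    rw [neg_mul, Real.rpow_neg (by linarith), Real.rpow_mul (by linarith), Real.rpow_natCast]
  rw [h5, ← div_eq_mul_inv]
  exact h4

theorem log_pow (E n : ℕ) (q : ℝ) (hq : 2 ≤ q) (hn : 1 ≤ n) :
    (q ^ (E * Nat.log 2 n))⁻¹ ≤ 2 ^ E / (n : ℝ) ^ E := by
  have hn0 : (0 : ℝ) < n := by exact_mod_cast hn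
  have h1 : (n : ℝ) / 2 ≤ 2 ^ Nat.log 2 n := by
    have h2 : n < 2 ^ (Nat.log 2 n).succ := Nat.lt_pow_succ_log_self (by norm_num) n
    have h3 : (n : ℝ) < 2 ^ (Nat.log 2 n).succ := by exact_mod_cast h2
    rw [pow_succ] at h3
    linarith
  have h2 : ((n : ℝ) / 2) ^ E ≤ q ^ (E * Nat.log 2 n) := by
    calc ((n : ℝ) / 2) ^ E ≤ (2 ^ Nat.log 2 n) ^ E := by gcongr
      _ = 2 ^ (E * Nat.log 2 n) := by rw [← pow_mul, mul_comm]
      _ ≤ q ^ (E * Nat.log 2 n) := by gcongr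
  have h3 : (0 : ℝ) < ((n : ℝ) / 2) ^ E := by positivity
  calc (q ^ (E * Nat.log 2 n))⁻¹ ≤ (((n : ℝ) / 2) ^ E)⁻¹ := inv_anti₀ h3 h2
    _ = 2 ^ E / (n : ℝ) ^ E := by rw [div_pow, inv_div]

/-- the type II saving -/
theorem saving (Ct n j : ℕ) (q c : ℝ) (hq : 2 ≤ q) (hn : 1 ≤ n)
    (hj : 32 * (Ct + 6) * Nat.log 2 n ≤ j) (hc : (n : ℝ) ^ (Ct + 6) * q ^ (-c * n) ≤ 1) :
    (n : ℝ) ^ Ct * (q ^ (-(j : ℝ) / 32) + q ^ (-c * n)) ≤ (2 ^ (Ct + 6) + 1) / (n : ℝ) ^ 6 := by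
  have hn0 : (0 : ℝ) < n := by exact_mod_cast hn
  have h1 : q ^ (-(j : ℝ) / 32) ≤ 2 ^ (Ct + 6) / (n : ℝ) ^ (Ct + 6) := by
    have h2 : q ^ (-(j : ℝ) / 32) ≤ q ^ (-(((Ct + 6) * Nat.log 2 n : ℕ) : ℝ)) := by
      refine Real.rpow_le_rpow_of_exponent_le (by linarith) ?_
      have h3 : ((32 * (Ct + 6) * Nat.log 2 n : ℕ) : ℝ) ≤ j := by exact_mod_cast hj
      push_cast at h3 ⊢
      linarith
    refine h2.trans ?_
    rw [Real.rpow_neg (by linarith), Real.rpow_natCast]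
    exact log_pow (Ct + 6) n q hq hn
  have h2 : (n : ℝ) ^ Ct * q ^ (-(j : ℝ) / 32) ≤ 2 ^ (Ct + 6) / (n : ℝ) ^ 6 := by
    calc (n : ℝ) ^ Ct * q ^ (-(j : ℝ) / 32) ≤ (n : ℝ) ^ Ct * (2 ^ (Ct + 6) / (n : ℝ) ^ (Ct + 6)) := by
          gcongr
      _ = 2 ^ (Ct + 6) / (n : ℝ) ^ 6 := by
          rw [pow_add (n : ℝ)]
          field_simp
  have h3 : (n : ℝ) ^ Ct * q ^ (-c * n) ≤ 1 / (n : ℝ) ^ 6 := by
    rw [le_div_iff₀ (by positivity)]
    calc (n : ℝ) ^ Ct * q ^ (-c * n) * (n : ℝ) ^ 6 = (n : ℝ) ^ (Ct + 6) * q ^ (-c * n) := by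
          rw [pow_add]
          ring
      _ ≤ 1 := hc
  rw [mul_add, add_div]
  exact add_le_add h2 h3

/-- the final computation -/
theorem numeric (n : ℕ) (qz Y M C η ε₀ c₁ c₂ SA SB S E : ℝ) (hn1 : (1 : ℝ) ≤ n) (hqn : 0 < Y)
    (hqz0 : 0 < qz) (hM0 : 0 < M) (hC0 : 0 < C) (hη0 : 0 < η) (hη1 : η ≤ 1 / 100) (hε₀ : 0 < ε₀)
    (hη2 : 72 * C * η ≤ ε₀) (hc₁0 : 0 < c₁)
    (hc₂ : c₂ = 1 + 2 * c₁ + (M * c₁ + c₁) + 4 * (1 + 2 * c₁) + 32 * (M * c₁))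
    (hcn : c₂ ≤ ε₀ * n) (hqz : 1 / qz ≤ c₁ * (1 / (n : ℝ) ^ 6))
    (hA : SA ≤ Y * (1 / (n : ℝ) ^ 6) + 2 * Y / qz +
      n * (M * (Y * (c₁ * (1 / (n : ℝ) ^ 6))) + Y / qz))
    (hB : SB ≤ 2 * (n + 1) * Y * (1 / (n : ℝ) ^ 6 + 2 / qz) +
      n * (32 * (M * (Y * (c₁ * (1 / (n : ℝ) ^ 6))))))
    (hE : E ≤ C * (η ^ 3 + η) * Y / n) (hI : |3 * S| ≤ SB + SA + 36 * E) :
    |S| ≤ ε₀ * Y / n := by
  have hn0 : (0 : ℝ) < n := by linarith
  obtain ⟨w, hw⟩ : ∃ w : ℝ, w = 1 / (n : ℝ) ^ 6 := ⟨_, rfl⟩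
  obtain ⟨v, hv⟩ : ∃ v : ℝ, v = 1 / qz := ⟨_, rfl⟩
  have hw0 : 0 < w := by
    rw [hw]
    positivity
  have hv0 : 0 < v := by
    rw [hv]
    positivity
  rw [← hv, ← hw] at hqz
  have r1 : 2 * Y / qz = 2 * Y * v := by
    rw [hv, mul_one_div]
  have r2 : Y / qz = Y * v := by
    rw [hv, mul_one_div]
  have r3 : 2 / qz = 2 * v := by
    rw [hv, mul_one_div]
  rw [← hw, r1, r2] at hA
  rw [← hw, r3] at hB
  have b1 : Y * w + 2 * Y * v + n * (M * (Y * (c₁ * w)) + Y * v) ≤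
      Y * (n * w) * (1 + 2 * c₁ + (M * c₁ + c₁)) := by
    have e1 : Y * v ≤ Y * (c₁ * w) := mul_le_mul_of_nonneg_left hqz hqn.le
    have e2 : Y * w ≤ Y * w * n := by
      have : 0 ≤ Y * w := by positivity
      nlinarith
    have e3 : Y * (c₁ * w) ≤ Y * (c₁ * w) * n := by
      have : 0 ≤ Y * (c₁ * w) := by positivity
      nlinarith
    have e4 : n * (Y * v) ≤ n * (Y * (c₁ * w)) := mul_le_mul_of_nonneg_left e1 hn0.le
    calc Y * w + 2 * Y * v + n * (M * (Y * (c₁ * w)) + Y * v) =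
        Y * w + 2 * (Y * v) + n * M * (Y * (c₁ * w)) + n * (Y * v) := by ring
      _ ≤ Y * w * n + 2 * (Y * (c₁ * w) * n) + n * M * (Y * (c₁ * w)) + n * (Y * (c₁ * w)) := by
        linarith
      _ = _ := by ring
  have b2 : 2 * (n + 1) * Y * (w + 2 * v) + n * (32 * (M * (Y * (c₁ * w)))) ≤
      Y * (n * w) * (4 * (1 + 2 * c₁) + 32 * (M * c₁)) := by
    have e1 : w + 2 * v ≤ w * (1 + 2 * c₁) := by
      linarith
    have e2 : 2 * (n + 1) * Y * (w + 2 * v) ≤ 4 * n * Y * (w * (1 + 2 * c₁)) := by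
      have e3 : 2 * ((n : ℝ) + 1) * Y ≤ 4 * n * Y := by
        have : 2 * ((n : ℝ) + 1) ≤ 4 * n := by linarith
        exact mul_le_mul_of_nonneg_right this hqn.le
      exact mul_le_mul e3 e1 (by positivity) (by positivity)
    calc _ ≤ 4 * n * Y * (w * (1 + 2 * c₁)) + n * (32 * (M * (Y * (c₁ * w)))) := by linarith
      _ = _ := by ring
  have b3 : Y * (n * w) * c₂ ≤ ε₀ * Y / n := by
    have e1 : (n : ℝ) * w * c₂ ≤ ε₀ / n := by
      rw [le_div_iff₀ hn0]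
      have e2 : (n : ℝ) * w * c₂ * n ≤ n * w * (ε₀ * n) * n := by
        have : (n : ℝ) * w * c₂ ≤ n * w * (ε₀ * n) := mul_le_mul_of_nonneg_left hcn (by positivity)
        exact mul_le_mul_of_nonneg_right this hn0.le
      refine e2.trans ?_
      have e3 : (n : ℝ) * w * (ε₀ * n) * n = ε₀ * (1 / (n : ℝ) ^ 3) := by
        rw [hw]
        field_simp
      rw [e3]
      have e4 : 1 / (n : ℝ) ^ 3 ≤ 1 := by
        rw [div_le_one (by positivity)]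
        exact one_le_pow₀ hn1
      nlinarith
    calc Y * (n * w) * c₂ = Y * ((n : ℝ) * w * c₂) := by ring
      _ ≤ Y * (ε₀ / n) := mul_le_mul_of_nonneg_left e1 hqn.le
      _ = _ := by ring
  have b4 : 36 * (C * (η ^ 3 + η) * Y / n) ≤ ε₀ * Y / n := by
    have e1 : η ^ 3 ≤ η := by
      have : η ^ 2 ≤ 1 := by nlinarith
      nlinarith
    have e2 : 36 * (C * (η ^ 3 + η)) ≤ ε₀ := by nlinarith
    have e3 : 0 ≤ Y / n := by positivity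
    calc 36 * (C * (η ^ 3 + η) * Y / n) = 36 * (C * (η ^ 3 + η)) * (Y / n) := by ring
      _ ≤ ε₀ * (Y / n) := mul_le_mul_of_nonneg_right e2 e3
      _ = _ := by ring
  have b5 : Y * (n * w) * (1 + 2 * c₁ + (M * c₁ + c₁)) +
      Y * (n * w) * (4 * (1 + 2 * c₁) + 32 * (M * c₁)) = Y * (n * w) * c₂ := by
    rw [hc₂]
    ring
  rw [abs_mul, abs_of_pos (show (0 : ℝ) < 3 by norm_num)] at hI
  have b6 : 0 ≤ ε₀ * Y / n := by positivity
  linarith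

end Pool.Agent.H251.SP.Asm

namespace Pool.Agent.H251.SP

open Polynomial Finset
open scoped Classical
open Pool.Agent.H985.Chow (mob)
open Pool.Agent.H985.KP (PA mobg)
open Pool.Agent.H694.Typ (Mn Irn q_ge)
open Pool.Agent.H251.SP.Asm

/-- **Task ASM.** -/
theorem asm : S_asm := by
  intro hti htw htii hb hcomb hfew K _ _ _ g Q ε₀ hg hQ hε₀
  obtain ⟨C, hC0, hC⟩ := hfew K
  have hq := q_ge (k := K)
  obtain ⟨q, hqe⟩ : ∃ q : ℝ, q = (Fintype.card K : ℝ) := ⟨_, rfl⟩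
  obtain ⟨η, hη⟩ : ∃ η : ℝ, η = min (1 / 100) (ε₀ / (72 * C)) := ⟨_, rfl⟩
  have hη0 : 0 < η := by
    rw [hη]
    exact lt_min (by norm_num) (by positivity)
  have hη1 : η ≤ 1 / 100 := by
    rw [hη]
    exact min_le_left _ _
  have hη2 : 72 * C * η ≤ ε₀ := by
    have h1 : η ≤ ε₀ / (72 * C) := by
      rw [hη]
      exact min_le_right _ _
    rw [le_div_iff₀ (by positivity)] at h1
    linarith
  obtain ⟨Ct, c, hc0, n1, h1⟩ := htii K η hη0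
  obtain ⟨A₀, hA₀⟩ : ∃ A₀ : ℕ, A₀ = 32 * (Ct + 6) + g.natDegree + Q.natDegree := ⟨_, rfl⟩
  obtain ⟨n2, h2⟩ := hti K A₀ η hη0
  obtain ⟨n3, h3⟩ := htw K A₀
  obtain ⟨n4, h4⟩ := hC η η hη0 hη1 hη0 (by linarith)
  obtain ⟨n5, h5⟩ := log_small (32 * (Ct + 6))
  obtain ⟨n6, h6⟩ := pow_small (Ct + 6) (Fintype.card K : ℝ) c hq hc0
  obtain ⟨c₁, hc₁⟩ : ∃ c₁ : ℝ, c₁ = 2 ^ (Ct + 6) + 1 := ⟨_, rfl⟩
  have hc₁0 : 0 < c₁ := by
    rw [hc₁]
    positivity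
  obtain ⟨M, hM⟩ : ∃ M : ℝ, M = (Fintype.card K : ℝ) ^ (2 * Q.natDegree) := ⟨_, rfl⟩
  have hM0 : 0 < M := by
    rw [hM]
    positivity
  obtain ⟨c₂, hc₂⟩ : ∃ c₂ : ℝ, c₂ = 1 + 2 * c₁ + (M * c₁ + c₁) + 4 * (1 + 2 * c₁) + 32 * (M * c₁) :=
    ⟨_, rfl⟩
  refine ⟨n1 + n2 + n3 + n4 + n5 + n6 + 4 + ⌈(g.natDegree : ℝ) / c⌉₊ + ⌈c₂ / ε₀⌉₊, ?_⟩
  intro n hn h r hh hhn
  have hn4 : 4 ≤ n := by omega
  have hn1 : (1 : ℝ) ≤ n := by exact_mod_cast (show 1 ≤ n by omega)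
  have hn0 : (0 : ℝ) < n := by linarith
  have hgn : (g.natDegree : ℝ) ≤ c * n := by
    have e1 : (g.natDegree : ℝ) / c ≤ n := by
      refine (Nat.le_ceil _).trans ?_
      exact_mod_cast (show ⌈(g.natDegree : ℝ) / c⌉₊ ≤ n by omega)
    rw [div_le_iff₀ hc0] at e1
    linarith
  have hcn : c₂ ≤ ε₀ * n := by
    have e1 : c₂ / ε₀ ≤ n := by
      refine (Nat.le_ceil _).trans ?_
      exact_mod_cast (show ⌈c₂ / ε₀⌉₊ ≤ n by omega)
    rw [div_le_iff₀ hε₀] at e1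
    linarith
  -- the parameters
  obtain ⟨z, hz⟩ : ∃ z : ℕ, z = 32 * (Ct + 6) * Nat.log 2 n := ⟨_, rfl⟩
  obtain ⟨k, hk⟩ : ∃ k : ℕ, k = ⌊(1 / 4 - η) * n⌋₊ + 1 := ⟨_, rfl⟩
  have hk0 : 0 ≤ (1 / 4 - η) * n := by
    have : 0 ≤ 1 / 4 - η := by linarith
    positivity
  have hkge : (1 / 4 - η) * n ≤ k := by
    rw [hk]
    push_cast
    exact (Nat.lt_floor_add_one _).le
  have hkle : (k : ℝ) ≤ (1 / 4 - η) * n + 1 := by
    rw [hk]
    push_cast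
    have := Nat.floor_le hk0
    linarith
  have hz1 : 1 ≤ z := by
    rw [hz]
    have e1 : 1 ≤ Nat.log 2 n := (Nat.le_log_iff_pow_le (by norm_num) (by omega)).2 (by omega)
    have e2 : 1 ≤ 32 * (Ct + 6) := by omega
    exact Nat.one_le_iff_ne_zero.2 (Nat.mul_ne_zero (by omega) (by omega))
  have hz5 : 5 * z ≤ n := by
    rw [hz]
    exact h5 n (by omega)
  have hzk : z ≤ k := by
    have e1 : (5 * z : ℝ) ≤ n := by exact_mod_cast hz5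
    have e2 : (z : ℝ) ≤ k := by nlinarith
    exact_mod_cast e2
  have hk5 : n < 5 * k := by
    have e1 : (n : ℝ) < 5 * k := by nlinarith
    exact_mod_cast e1
  have hkn : 2 * k ≤ n := by
    have e1 : (k : ℝ) ≤ n / 4 + 1 := by nlinarith
    have e2 : (4 : ℝ) ≤ n := by exact_mod_cast hn4
    have e3 : (2 * k : ℝ) ≤ n := by linarith
    exact_mod_cast e3
  have hzA : z ≤ A₀ * Nat.log 2 n := by
    rw [hz]
    exact Nat.mul_le_mul_right _ (by omega)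
  -- the bounds
  have hqn : (0 : ℝ) < (Fintype.card K : ℝ) ^ n := by positivity
  have hA6 : 1 / (n : ℝ) ^ A₀ ≤ 1 / (n : ℝ) ^ 6 := by
    refine one_div_le_one_div_of_le (by positivity) ?_
    exact pow_le_pow_right₀ hn1 (by omega)
  have hqz : 1 / (Fintype.card K : ℝ) ^ z ≤ c₁ * (1 / (n : ℝ) ^ 6) := by
    have e1 := saving Ct n z (Fintype.card K : ℝ) c hq (by omega) (by omega) (h6 n (by omega))
    have e2 : (Fintype.card K : ℝ) ^ (-(z : ℝ)) ≤ (Fintype.card K : ℝ) ^ (-(z : ℝ) / 32) := by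
      refine Real.rpow_le_rpow_of_exponent_le (by linarith) ?_
      have : (0 : ℝ) ≤ z := Nat.cast_nonneg _
      linarith
    rw [Real.rpow_neg (by linarith), Real.rpow_natCast, ← one_div] at e2
    refine e2.trans ?_
    rw [hc₁, mul_one_div]
    refine le_trans ?_ e1
    have e3 : (1 : ℝ) ≤ (n : ℝ) ^ Ct := one_le_pow₀ hn1
    have e4 : 0 ≤ (Fintype.card K : ℝ) ^ (-(z : ℝ) / 32) := Real.rpow_nonneg (by linarith) _
    have e5 : 0 ≤ (Fintype.card K : ℝ) ^ (-c * n) := Real.rpow_nonneg (by linarith) _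
    nlinarith
  have hII : ∀ j ∈ Ico z k, ∀ α β : K[X] → ℝ, (∀ p, |α p| ≤ 1) → (∀ B, |β B| ≤ 1) →
      |∑ p ∈ Irn K j, ∑ B ∈ Mn K (n - j), α p * β B * ph g Q h r (p * B)| ≤
        M * ((Fintype.card K : ℝ) ^ n * (c₁ * (1 / (n : ℝ) ^ 6))) := by
    intro j hj α β hα hβ
    rw [mem_Ico] at hj
    rw [hM]
    refine tii_class g Q h r hQ _ α β hα hβ ?_
    intro α β hα hβ
    have hjn : (j : ℝ) ≤ (1 / 4 - η) * n := by
      have e1 : j ≤ ⌊(1 / 4 - η) * n⌋₊ := by omega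
      exact (Nat.le_floor_iff hk0).1 e1
    have e1 := h1 n (by omega) j h g α β (by omega) hjn hh hhn hg hgn hα hβ
    refine e1.trans ?_
    have e2 := saving Ct n j (Fintype.card K : ℝ) c hq (by omega) (by omega) (h6 n (by omega))
    calc (n : ℝ) ^ Ct * (Fintype.card K : ℝ) ^ n *
          ((Fintype.card K : ℝ) ^ (-(j : ℝ) / 32) + (Fintype.card K : ℝ) ^ (-c * n)) =
        (Fintype.card K : ℝ) ^ n * ((n : ℝ) ^ Ct *
          ((Fintype.card K : ℝ) ^ (-(j : ℝ) / 32) + (Fintype.card K : ℝ) ^ (-c * n))) := by ring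
      _ ≤ (Fintype.card K : ℝ) ^ n * ((2 ^ (Ct + 6) + 1) / (n : ℝ) ^ 6) :=
          mul_le_mul_of_nonneg_left e2 hqn.le
      _ = _ := by
          rw [hc₁]
          ring
  have hXX : 0 ≤ M * ((Fintype.card K : ℝ) ^ n * (c₁ * (1 / (n : ℝ) ^ 6))) := by positivity
  have hA := partA g Q h r _ ((Fintype.card K : ℝ) ^ n * (1 / (n : ℝ) ^ 6)) hXX hz1 hzk (by omega) hb
    (by
      refine (h3 n (by omega) z h g Q r hzA hh hhn hg (by omega) hQ (by omega)).trans ?_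
      rw [div_eq_mul_one_div]
      exact mul_le_mul_of_nonneg_left hA6 hqn.le) hII
  have hB := partB η g Q h r _ (1 / (n : ℝ) ^ 6) hXX (by positivity) hz1 hzk hkn hk5 hη0.le hb
    (by
      intro D hD hDs hDr hDn
      refine (h2 n (by omega) z D h g Q r hzA hD hDs hDr hDn hhn hg (by omega) hQ (by omega)).trans ?_
      rw [div_eq_mul_one_div]
      exact mul_le_mul_of_nonneg_left hA6 (by positivity)) hII
  have hI := ident η g Q h r (by omega) hη0 (by omega) hk5 hcomb (K := K) (n := n)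
  have hE := h4 n (by omega) k hkge
  exact numeric n _ _ M C η ε₀ c₁ c₂ _ _ _ _ hn1 hqn (by positivity) hM0 hC0 hη0 hη1 hε₀ hη2 hc₁0 hc₂ hcn
    hqz hA hB hE hI

end Pool.Agent.H251.SP
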