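import Mathlib
import Pool.Agent.H251.SP.Stm

/-!
# The Buchstab identity (task BUCH)
-/

set_option autoImplicit false

namespace Pool.Agent.H251.SP

open Polynomial Finset
open scoped Classical
open Pool.Agent.H694.Typ (Mn Irn mem_Mn mem_Irn card_Mn card_dvd_le wt)

namespace BUCH

variable {K : Type} [Field K] [Fintype K]

theorem rgh_mono {j z : ℕ} (h : z ≤ j) {f : K[X]} (hf : Rgh j f) : Rgh z f :=
  fun P h1 h2 h3 => h.trans (hf P h1 h2 h3)

/-- the number of the prime divisors of degree `j` -/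
noncomputable def nu (j : ℕ) (f : K[X]) : ℕ := ((Irn K j).filter (fun P => P ∣ f)).card

theorem nu_pos {j : ℕ} {f P : K[X]} (hP : P ∈ Irn K j) (h : P ∣ f) : 0 < nu j f :=
  Finset.card_pos.2 ⟨P, Finset.mem_filter.2 ⟨hP, h⟩⟩

noncomputable def t (j : ℕ) (f : K[X]) : ℝ := if Rgh j f then 1 / (nu j f : ℝ) else 0

theorem inner_eq (j : ℕ) (f : K[X]) :
    ∑ _P ∈ (Irn K j).filter (fun P => P ∣ f), t j f =
      if Rgh j f ∧ 0 < nu j f then 1 else 0 := by
  rw [Finset.sum_const]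
  change nu j f • t j f = _
  unfold t
  rw [nsmul_eq_mul]
  by_cases h1 : Rgh j f
  · by_cases h2 : 0 < nu j f
    · rw [if_pos h1, if_pos ⟨h1, h2⟩]
      have : (nu j f : ℝ) ≠ 0 := by positivity
      field_simp
    · have h3 : nu j f = 0 := by omega
      rw [if_neg (show ¬ (Rgh j f ∧ 0 < nu j f) from fun h => h2 h.2), h3]
      simp
  · rw [if_neg h1, if_neg (show ¬ (Rgh j f ∧ 0 < nu j f) from fun h => h1 h.1), mul_zero]

theorem claim (z k : ℕ) (hzk : z ≤ k) (f : K[X]) :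
    (if Rgh k f then (1 : ℝ) else 0) - (if Rgh z f then 1 else 0) +
      ∑ j ∈ Ico z k, ∑ P ∈ (Irn K j).filter (fun P => P ∣ f), t j f = 0 := by
  simp only [inner_eq]
  by_cases hz : Rgh z f
  · by_cases hk : Rgh k f
    · rw [if_pos hz, if_pos hk, Finset.sum_eq_zero, sub_self, zero_add]
      intro j hj
      rw [Finset.mem_Ico] at hj
      rw [if_neg]
      rintro ⟨-, h⟩
      obtain ⟨P, hP⟩ := Finset.card_pos.1 h
      rw [Finset.mem_filter, mem_Irn] at hP
      have := hk P hP.1.1 hP.1.2.2 hP.2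
      omega
    · have hex : ∃ j, ∃ P : K[X], P.Monic ∧ Irreducible P ∧ P ∣ f ∧ P.natDegree = j := by
        unfold Rgh at hk
        push Not at hk
        obtain ⟨P, h1, h2, h3, -⟩ := hk
        exact ⟨_, P, h1, h2, h3, rfl⟩
      obtain ⟨P, hP1, hP2, hP3, hP4⟩ := Nat.find_spec hex
      set j₀ := Nat.find hex with hj₀
      have hmin : ∀ Q : K[X], Q.Monic → Irreducible Q → Q ∣ f → j₀ ≤ Q.natDegree :=
        fun Q h1 h2 h3 => Nat.find_min' hex ⟨Q, h1, h2, h3, rfl⟩
      have hzj : z ≤ j₀ := hP4 ▸ hz P hP1 hP2 hP3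
      have hjk : j₀ < k := by
        by_contra hcon
        exact hk (rgh_mono (not_lt.1 hcon) hmin)
      rw [if_pos hz, if_neg hk, Finset.sum_eq_single j₀, if_pos]
      · ring
      · exact ⟨hmin, nu_pos (mem_Irn.2 ⟨hP1, hP4, hP2⟩) hP3⟩
      · intro j _ hj
        rw [if_neg]
        rintro ⟨h1, h2⟩
        obtain ⟨Q, hQ⟩ := Finset.card_pos.1 h2
        rw [Finset.mem_filter, mem_Irn] at hQ
        have h3 := hmin Q hQ.1.1 hQ.1.2.2 hQ.2
        have h4 := h1 P hP1 hP2 hP3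
        omega
      · intro h
        exact absurd (Finset.mem_Ico.2 ⟨hzj, hjk⟩) h
  · rw [if_neg hz, if_neg (fun h => hz (rgh_mono hzk h)), Finset.sum_eq_zero, sub_self, zero_add]
    intro j hj
    rw [Finset.mem_Ico] at hj
    rw [if_neg]
    rintro ⟨h, -⟩
    exact hz (rgh_mono hj.1 h)

/-- summation over the multiples of `P` -/
theorem sum_mult {n : ℕ} {P : K[X]} (hP : P.Monic) (hn : P.natDegree ≤ n) (g : K[X] → ℝ) :
    ∑ f ∈ (Mn K n).filter (fun f => P ∣ f), g f = ∑ B ∈ Mn K (n - P.natDegree), g (P * B) := by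
  symm
  refine Finset.sum_bij (fun B _ => P * B) ?_ ?_ ?_ ?_
  · intro B hB
    rw [mem_Mn] at hB
    rw [Finset.mem_filter, mem_Mn]
    refine ⟨⟨hP.mul hB.1, ?_⟩, dvd_mul_right _ _⟩
    rw [hP.natDegree_mul hB.1, hB.2]
    omega
  · intro B _ B' _ h
    exact mul_left_cancel₀ hP.ne_zero h
  · intro f hf
    rw [Finset.mem_filter, mem_Mn] at hf
    obtain ⟨⟨hf1, hf2⟩, B, hB⟩ := hf
    have h1 : B.Monic := by
      rw [hB] at hf1
      exact hP.of_mul_monic_left hf1
    refine ⟨B, ?_, hB.symm⟩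
    rw [mem_Mn]
    refine ⟨h1, ?_⟩
    rw [hB, hP.natDegree_mul h1] at hf2
    omega
  · intro B _
    rfl

theorem rgh_mul {j : ℕ} {P B : K[X]} (hP : P ∈ Irn K j) : Rgh j (P * B) ↔ Rgh j B := by
  rw [mem_Irn] at hP
  constructor
  · intro h Q h1 h2 h3
    exact h Q h1 h2 (h3.mul_left P)
  · intro h Q h1 h2 h3
    rcases h2.prime.dvd_or_dvd h3 with h4 | h4
    · have : Q = P := eq_of_monic_of_associated h1 hP.1 (h2.associated_of_dvd hP.2.2 h4)
      rw [this, hP.2.1]
    · exact h Q h1 h2 h4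

theorem dvd_iff {j : ℕ} {P B Q : K[X]} (hP : P ∈ Irn K j) (hQ : Q ∈ Irn K j) :
    Q ∣ P * B ↔ Q = P ∨ Q ∣ B := by
  rw [mem_Irn] at hP hQ
  constructor
  · intro h
    rcases hQ.2.2.prime.dvd_or_dvd h with h4 | h4
    · exact Or.inl (eq_of_monic_of_associated hQ.1 hP.1 (hQ.2.2.associated_of_dvd hP.2.2 h4))
    · exact Or.inr h4
  · rintro (rfl | h)
    · exact dvd_mul_right _ _
    · exact h.mul_left P

theorem nu_mul {j : ℕ} {P B : K[X]} (hP : P ∈ Irn K j) :
    nu j (P * B) = if P ∣ B then nu j B else nu j B + 1 := by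
  unfold nu
  have e : (Irn K j).filter (fun Q => Q ∣ P * B) = insert P ((Irn K j).filter (fun Q => Q ∣ B)) := by
    ext Q
    rw [Finset.mem_insert, Finset.mem_filter, Finset.mem_filter]
    constructor
    · rintro ⟨h1, h2⟩
      rcases (dvd_iff hP h1).1 h2 with h | h
      · exact Or.inl h
      · exact Or.inr ⟨h1, h⟩
    · rintro (rfl | ⟨h1, h2⟩)
      · exact ⟨hP, dvd_mul_right _ _⟩
      · exact ⟨h1, h2.mul_left P⟩
  rw [e]
  split_ifs with h
  · rw [Finset.insert_eq_of_mem (Finset.mem_filter.2 ⟨hP, h⟩)]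
  · have hn : P ∉ (Irn K j).filter (fun Q => Q ∣ B) := fun h' => h (Finset.mem_filter.1 h').2
    rw [Finset.card_insert_of_notMem hn]

theorem term_le {j : ℕ} {P B : K[X]} (hP : P ∈ Irn K j) (x : ℝ) (hx : |x| ≤ 1) :
    |bw j B * x - x * t j (P * B)| ≤ if P ∣ B then 1 else 0 := by
  have hbw : bw j B = if Rgh j B then 1 / (1 + (nu j B : ℝ)) else 0 := rfl
  unfold t
  rw [hbw, nu_mul hP]
  by_cases h1 : Rgh j B
  · rw [if_pos h1, if_pos ((rgh_mul hP).2 h1)]
    by_cases h2 : P ∣ B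
    · rw [if_pos h2, if_pos h2]
      have h3 : 1 ≤ nu j B := nu_pos hP h2
      have h4 : (1 : ℝ) ≤ nu j B := by exact_mod_cast h3
      have h5 : |1 / (1 + (nu j B : ℝ)) - 1 / (nu j B : ℝ)| ≤ 1 := by
        have a1 : 0 ≤ 1 / (1 + (nu j B : ℝ)) := by positivity
        have a2 : 1 / (1 + (nu j B : ℝ)) ≤ 1 := by
          rw [div_le_one (by positivity)]; linarith
        have a3 : 0 ≤ 1 / (nu j B : ℝ) := by positivity
        have a4 : 1 / (nu j B : ℝ) ≤ 1 := by
          rw [div_le_one (by positivity)]; linarith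
        rw [abs_le]
        constructor <;> linarith
      have h6 : 1 / (1 + (nu j B : ℝ)) * x - x * (1 / (nu j B : ℝ)) =
          (1 / (1 + (nu j B : ℝ)) - 1 / (nu j B : ℝ)) * x := by ring
      rw [h6, abs_mul]
      calc |1 / (1 + (nu j B : ℝ)) - 1 / (nu j B : ℝ)| * |x| ≤ 1 * 1 := by gcongr
        _ = 1 := one_mul 1
    · rw [if_neg h2, if_neg h2]
      have h6 : 1 / (1 + (nu j B : ℝ)) * x - x * (1 / ((nu j B + 1 : ℕ) : ℝ)) = 0 := by
        push_cast
        rw [add_comm (1 : ℝ)]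
        ring
      rw [h6, abs_zero]
  · rw [if_neg h1, if_neg (fun h => h1 ((rgh_mul hP).1 h))]
    simp only [zero_mul, mul_zero, sub_self, abs_zero]
    split_ifs <;> norm_num

theorem geo_tail {q : ℝ} (hq : 2 ≤ q) (z k : ℕ) :
    ∑ j ∈ Ico z k, 1 / q ^ j ≤ 2 / q ^ z := by
  have hq0 : 0 < q := by linarith
  rcases le_total z k with h | h
  · have h1 : ∀ k, z ≤ k → ∑ j ∈ Ico z k, 1 / q ^ j ≤ 2 / q ^ z - 2 / q ^ k := by
      intro k hk
      induction k, hk using Nat.le_induction with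
      | base =>
        rw [Finset.Ico_self, Finset.sum_empty, sub_self]
      | succ k hk ih =>
        rw [Finset.sum_Ico_succ_top hk]
        have h2 : 2 / q ^ (k + 1) ≤ 1 / q ^ k := by
          rw [pow_succ, div_le_div_iff₀ (by positivity) (by positivity)]
          have : 0 < q ^ k := by positivity
          nlinarith
        have h3 : 2 / q ^ k = 1 / q ^ k + 1 / q ^ k := by ring
        linarith
    have := h1 k h
    have h5 : 0 < 2 / q ^ k := by positivity
    linarith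
  · rw [Finset.Ico_eq_empty (by omega), Finset.sum_empty]
    positivity

end BUCH

open BUCH

theorem buch : S_buch := by
  intro K _ _ n z k φ hz hzk hkn hφ
  have hq : (2 : ℝ) ≤ (Fintype.card K : ℝ) := Pool.Agent.H694.Typ.q_ge
  set q := (Fintype.card K : ℝ) with hqd
  have hq0 : 0 < q := by linarith
  have e1 : ∑ f ∈ (Mn K n).filter (Rgh k), φ f - ∑ f ∈ (Mn K n).filter (Rgh z), φ f =
      -∑ j ∈ Ico z k, ∑ P ∈ Irn K j, ∑ B ∈ Mn K (n - j), φ (P * B) * t j (P * B) := by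
    have h1 : ∑ f ∈ Mn K n, φ f * ((if Rgh k f then (1 : ℝ) else 0) - (if Rgh z f then 1 else 0) +
      ∑ j ∈ Ico z k, ∑ P ∈ (Irn K j).filter (fun P => P ∣ f), t j f) = 0 :=
      Finset.sum_eq_zero fun f _ => by rw [claim z k hzk, mul_zero]
    have h2 : ∑ f ∈ Mn K n, φ f * ((if Rgh k f then (1 : ℝ) else 0) - (if Rgh z f then 1 else 0) +
      ∑ j ∈ Ico z k, ∑ P ∈ (Irn K j).filter (fun P => P ∣ f), t j f) =
      ∑ f ∈ (Mn K n).filter (Rgh k), φ f - ∑ f ∈ (Mn K n).filter (Rgh z), φ f +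
      ∑ j ∈ Ico z k, ∑ P ∈ Irn K j, ∑ B ∈ Mn K (n - j), φ (P * B) * t j (P * B) := by
      rw [Finset.sum_filter, Finset.sum_filter, ← Finset.sum_sub_distrib]
      have h3 : ∑ j ∈ Ico z k, ∑ P ∈ Irn K j, ∑ B ∈ Mn K (n - j), φ (P * B) * t j (P * B) =
          ∑ f ∈ Mn K n, φ f * ∑ j ∈ Ico z k, ∑ P ∈ (Irn K j).filter (fun P => P ∣ f), t j f := by
        simp only [Finset.mul_sum]
        conv_rhs => rw [Finset.sum_comm]
        refine Finset.sum_congr rfl fun j hj => ?_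
        rw [Finset.mem_Ico] at hj
        simp only [Finset.sum_filter]
        conv_rhs => rw [Finset.sum_comm]
        refine Finset.sum_congr rfl fun P hP => ?_
        rw [mem_Irn] at hP
        rw [← Finset.sum_filter, sum_mult hP.1 (by omega) (fun f => φ f * t j f), hP.2.1]
      rw [h3, ← Finset.sum_add_distrib]
      refine Finset.sum_congr rfl fun f _ => ?_
      rw [mul_add, mul_sub]
      congr 1
      split_ifs <;> ring
    rw [h2] at h1
    linarith
  rw [e1]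
  have e2 : -∑ j ∈ Ico z k, ∑ P ∈ Irn K j, ∑ B ∈ Mn K (n - j), φ (P * B) * t j (P * B) +
      ∑ j ∈ Ico z k, ∑ p ∈ Irn K j, ∑ B ∈ Mn K (n - j), bw j B * φ (p * B) =
      ∑ j ∈ Ico z k, ∑ P ∈ Irn K j, ∑ B ∈ Mn K (n - j),
        (bw j B * φ (P * B) - φ (P * B) * t j (P * B)) := by
    simp only [Finset.sum_sub_distrib]
    ring
  rw [e2]
  have h4 : ∀ j ∈ Ico z k, |∑ P ∈ Irn K j, ∑ B ∈ Mn K (n - j),
        (bw j B * φ (P * B) - φ (P * B) * t j (P * B))| ≤ q ^ n * (1 / q ^ j) := by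
    intro j hj
    rw [Finset.mem_Ico] at hj
    refine (Finset.abs_sum_le_sum_abs _ _).trans ?_
    have h5 : ∀ P ∈ Irn K j, |∑ B ∈ Mn K (n - j),
        (bw j B * φ (P * B) - φ (P * B) * t j (P * B))| ≤ q ^ (n - j) * (1 / q ^ j) := by
      intro P hP
      refine (Finset.abs_sum_le_sum_abs _ _).trans ?_
      refine (Finset.sum_le_sum fun B _ => term_le hP (φ (P * B)) (hφ _)).trans ?_
      rw [Finset.sum_boole]
      rw [mem_Irn] at hP
      have h6 := card_dvd_le (n := n - j) hP.1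
      unfold wt at h6
      rw [hP.2.1, ← one_div] at h6
      exact h6
    refine (Finset.sum_le_sum h5).trans ?_
    rw [Finset.sum_const, nsmul_eq_mul]
    have h7 : ((Irn K j).card : ℝ) ≤ q ^ j := by
      have : (Irn K j).card ≤ (Mn K j).card := Finset.card_le_card (Finset.filter_subset _ _)
      rw [card_Mn] at this
      rw [hqd]
      exact_mod_cast this
    calc ((Irn K j).card : ℝ) * (q ^ (n - j) * (1 / q ^ j)) ≤ q ^ j * (q ^ (n - j) * (1 / q ^ j)) := by
          gcongr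
      _ = q ^ n * (1 / q ^ j) := by
          rw [← mul_assoc, ← pow_add]
          congr 2
          omega
  calc |∑ j ∈ Ico z k, ∑ P ∈ Irn K j, ∑ B ∈ Mn K (n - j),
        (bw j B * φ (P * B) - φ (P * B) * t j (P * B))| ≤ ∑ j ∈ Ico z k, q ^ n * (1 / q ^ j) :=
        (Finset.abs_sum_le_sum_abs _ _).trans (Finset.sum_le_sum h4)
    _ = q ^ n * ∑ j ∈ Ico z k, 1 / q ^ j := by rw [Finset.mul_sum]
    _ ≤ q ^ n * (2 / q ^ z) := by
        gcongr
        exact geo_tail hq z k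
    _ = 2 * q ^ n / q ^ z := by ring

end Pool.Agent.H251.SP
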