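import Mathlib
import Pool.Agent.H251.SP.Stm

/-!
# Project SP (helper251), task COMB: the identity for the primes
-/

set_option autoImplicit false

namespace Pool.Agent.H251.SP

open Polynomial Finset
open scoped Classical
open Pool.Agent.H985.Chow (mob)
open Pool.Agent.H985.KP (PA mobg)
open Pool.Agent.H694.Typ (Mn Irn mem_Mn mem_Irn)

namespace COMB

variable {K : Type} [Field K]

/-- the monic irreducible divisors as a finset -/
noncomputable def PF (D : K[X]) : Finset K[X] :=
  (UniqueFactorizationMonoid.normalizedFactors D).toFinset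

lemma mem_PF {D : K[X]} (hD : D ≠ 0) (P : K[X]) :
    P ∈ PF D ↔ P.Monic ∧ Irreducible P ∧ P ∣ D := by
  unfold PF
  rw [Multiset.mem_toFinset, UniqueFactorizationMonoid.mem_normalizedFactors_iff' hD]
  constructor
  · rintro ⟨h1, h2, h3⟩
    exact ⟨h2 ▸ Polynomial.monic_normalize h1.ne_zero, h1, h3⟩
  · rintro ⟨h1, h2, h3⟩
    exact ⟨h2, h1.normalize_eq_self, h3⟩

lemma coe_PF {D : K[X]} (hD : D ≠ 0) : (PF D : Set K[X]) = PA D := by
  ext P
  rw [Finset.mem_coe, mem_PF hD]
  rfl

lemma prod_PF {D : K[X]} (hD : D.Monic) (hs : Squarefree D) : ∏ P ∈ PF D, P = D := by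
  have hnd := (UniqueFactorizationMonoid.squarefree_iff_nodup_normalizedFactors hD.ne_zero).1 hs
  have h1 : ∏ P ∈ PF D, P = (UniqueFactorizationMonoid.normalizedFactors D).prod := by
    rw [Finset.prod_eq_multiset_prod]
    unfold PF
    rw [Multiset.toFinset_val, hnd.dedup, Multiset.map_id']
  rw [h1, UniqueFactorizationMonoid.prod_normalizedFactors_eq hD.ne_zero, hD.normalize_eq_self]

lemma mob_eq {D : K[X]} (hD : D.Monic) (hs : Squarefree D) : mob D = (-1) ^ (PF D).card := by
  have hnd := (UniqueFactorizationMonoid.squarefree_iff_nodup_normalizedFactors hD.ne_zero).1 hs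
  unfold mob
  rw [if_pos hs]
  congr 1
  unfold PF
  rw [Multiset.toFinset_card_of_nodup hnd]
  unfold UniqueFactorizationMonoid.normalizedFactors
  rw [Multiset.card_map]

/-- the divisors of a product of distinct monic irreducible polynomials -/
lemma dvd_prod {S : Finset K[X]} (hS : ∀ P ∈ S, P.Monic ∧ Irreducible P) {P : K[X]}
    (h1 : P.Monic) (h2 : Irreducible P) : P ∣ ∏ Q ∈ S, Q ↔ P ∈ S := by
  constructor
  · intro h
    obtain ⟨Q, hQ, hd⟩ := (h2.prime.dvd_finsetProd_iff _).1 h
    have h3 : Associated P Q := h2.associated_of_dvd (hS Q hQ).2 hd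
    rw [Polynomial.eq_of_monic_of_associated h1 (hS Q hQ).1 h3]
    exact hQ
  · intro h
    exact Finset.dvd_prod_of_mem (fun Q => Q) h

lemma PF_prod {S : Finset K[X]} (hS : ∀ P ∈ S, P.Monic ∧ Irreducible P) :
    PF (∏ Q ∈ S, Q) = S := by
  have h0 : ∏ Q ∈ S, Q ≠ 0 := Finset.prod_ne_zero_iff.2 fun Q hQ => (hS Q hQ).1.ne_zero
  ext P
  rw [mem_PF h0]
  constructor
  · rintro ⟨h1, h2, h3⟩
    exact (dvd_prod hS h1 h2).1 h3
  · intro h
    exact ⟨(hS P h).1, (hS P h).2, (dvd_prod hS (hS P h).1 (hS P h).2).2 h⟩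

/-- sums over the monic divisors of a squarefree polynomial -/
lemma sum_div [Fintype K] {f : K[X]} {n : ℕ} (hf : f.Monic) (hn : f.natDegree = n)
    (hs : Squarefree f) (G : K[X] → ℝ) :
    ∑ i ∈ range (n + 1), ∑ D ∈ (Mn K i).filter (fun D => D ∣ f), G D =
      ∑ T ∈ (PF f).powerset, G (∏ Q ∈ T, Q) := by
  have hSm : ∀ P ∈ PF f, P.Monic ∧ Irreducible P := fun P hP =>
    ⟨((mem_PF hf.ne_zero P).1 hP).1, ((mem_PF hf.ne_zero P).1 hP).2.1⟩
  have hinj : Set.InjOn (fun T : Finset K[X] => ∏ Q ∈ T, Q) ((PF f).powerset : Set (Finset K[X])) := by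
    intro T hT T' hT' h
    rw [Finset.mem_coe, Finset.mem_powerset] at hT hT'
    have h1 := PF_prod (S := T) fun P hP => hSm P (hT hP)
    have h2 := PF_prod (S := T') fun P hP => hSm P (hT' hP)
    have h3 : ∏ Q ∈ T, Q = ∏ Q ∈ T', Q := h
    rw [← h1, ← h2, h3]
  obtain ⟨I, hI⟩ : ∃ I, I = (PF f).powerset.image fun T : Finset K[X] => ∏ Q ∈ T, Q := ⟨_, rfl⟩
  have hmem : ∀ D, D ∈ I ↔ D.Monic ∧ D ∣ f := by
    intro D
    rw [hI, Finset.mem_image]
    constructor
    · rintro ⟨T, hT, rfl⟩
      rw [Finset.mem_powerset] at hT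
      refine ⟨Polynomial.monic_prod_of_monic _ _ fun P hP => (hSm P (hT hP)).1, ?_⟩
      conv_rhs => rw [← prod_PF hf hs]
      exact Finset.prod_dvd_prod_of_subset _ _ _ hT
    · rintro ⟨h1, h2⟩
      refine ⟨PF D, ?_, prod_PF h1 (hs.squarefree_of_dvd h2)⟩
      rw [Finset.mem_powerset]
      intro P hP
      rw [mem_PF h1.ne_zero] at hP
      rw [mem_PF hf.ne_zero]
      exact ⟨hP.1, hP.2.1, hP.2.2.trans h2⟩
  have h1 : ∑ T ∈ (PF f).powerset, G (∏ Q ∈ T, Q) = ∑ D ∈ I, G D := by
    rw [hI, Finset.sum_image hinj]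
  rw [h1, ← Finset.sum_fiberwise_of_maps_to (s := I) (t := range (n + 1))
    (g := fun D : K[X] => D.natDegree)]
  · refine Finset.sum_congr rfl fun i _ => ?_
    refine Finset.sum_congr ?_ fun _ _ => rfl
    ext D
    rw [Finset.mem_filter, Finset.mem_filter, mem_Mn, hmem]
    tauto
  · intro D hD
    rw [hmem] at hD
    rw [Finset.mem_range, ← hn]
    exact Nat.lt_succ_of_le (Polynomial.natDegree_le_of_dvd hD.2 hf.ne_zero)

/-- the coefficients -/
def cc (r : ℕ) : ℝ := if r = 0 then 2 else if r ≤ 2 then -1 else 0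

lemma cc0 : cc 0 = 2 := by simp [cc]
lemma cc1 : cc 1 = -1 := by simp [cc]
lemma cc2 : cc 2 = -1 := by simp [cc]
lemma cc3 : cc 3 = 0 := by simp [cc]

/-- the combinatorial identity -/
lemma ident {α : Type} (S : Finset α) (w : α → ℕ) (n : ℕ) (hn : 1 ≤ n) (hw : ∑ a ∈ S, w a = n)
    (hne : ∀ T ⊆ S, 2 * ∑ a ∈ T, w a ≠ n) (h1 : 1 ≤ S.card) (h3 : S.card ≤ 3) :
    ∑ T ∈ S.powerset, (if 2 * ∑ a ∈ T, w a < n then cc T.card else 0) - (-1) ^ S.card =
      if S.card = 1 then 3 else 0 := by
  have hc : S.card = 1 ∨ S.card = 2 ∨ S.card = 3 := by omega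
  rcases hc with hc | hc | hc
  · rw [hc]
    obtain ⟨a, rfl⟩ := Finset.card_eq_one.1 hc
    rw [← insert_empty_eq a, Finset.sum_powerset_insert (by simp)]
    simp only [Finset.sum_singleton] at hw
    simp only [Finset.powerset_empty, Finset.sum_singleton, insert_empty_eq, Finset.sum_empty,
      Finset.card_empty, Finset.card_singleton, cc0, cc1, hw]
    split_ifs <;> first | (exfalso; omega) | norm_num
  · rw [hc]
    obtain ⟨a, b, hab, rfl⟩ := Finset.card_eq_two.1 hc
    rw [Finset.sum_pair hab] at hw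
    have e1 := hne {a} (by simp)
    rw [Finset.sum_singleton] at e1
    rw [Finset.sum_powerset_insert (by simpa using hab), ← insert_empty_eq b,
      Finset.sum_powerset_insert (by simp), Finset.sum_powerset_insert (by simp)]
    simp only [Finset.powerset_empty, Finset.sum_singleton, insert_empty_eq, Finset.sum_empty,
      Finset.card_empty, Finset.card_singleton, cc0, cc1, Finset.sum_pair hab,
      Finset.card_pair hab, cc2, hw]
    split_ifs <;> first | (exfalso; omega) | norm_num
  · rw [hc]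
    obtain ⟨a, b, c, hab, hac, hbc, rfl⟩ := Finset.card_eq_three.1 hc
    have hw' : w a + (w b + w c) = n := by
      rw [← hw, Finset.sum_insert (by simp [hab, hac]), Finset.sum_pair hbc]
    have e1 := hne {a} (by simp)
    have e2 := hne {b} (by simp)
    have e3 := hne {c} (by simp)
    rw [Finset.sum_singleton] at e1 e2 e3
    have k3 : ∑ x ∈ ({a, b, c} : Finset α), w x = n := hw
    rw [Finset.sum_powerset_insert (by simp [hab, hac]),
      Finset.sum_powerset_insert (by simpa using hbc),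
      Finset.sum_powerset_insert (by simpa using hbc), ← insert_empty_eq c,
      Finset.sum_powerset_insert (by simp), Finset.sum_powerset_insert (by simp),
      Finset.sum_powerset_insert (by simp), Finset.sum_powerset_insert (by simp)]
    simp only [Finset.powerset_empty, Finset.sum_singleton, insert_empty_eq, Finset.sum_empty,
      Finset.card_empty, Finset.card_singleton, cc0, cc1, Finset.sum_pair hab,
      Finset.card_pair hab, Finset.sum_pair hac,
      Finset.card_pair hac, Finset.sum_pair hbc,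
      Finset.card_pair hbc, cc2, k3, hc, cc3]
    split_ifs <;> first | (exfalso; omega) | norm_num

end COMB

open COMB

theorem comb : S_comb := by
  intro K _ _ n k δ f hn hδ hf hR hk hs h4 hD
  rw [mem_Mn] at hf
  obtain ⟨hfm, hfn⟩ := hf
  have hn0 : (0 : ℝ) < n := by exact_mod_cast hn
  have hδn : 0 < δ * n := mul_pos hδ hn0
  have hSm : ∀ P ∈ PF f, P.Monic ∧ Irreducible P := fun P hP =>
    ⟨((mem_PF hfm.ne_zero P).1 hP).1, ((mem_PF hfm.ne_zero P).1 hP).2.1⟩
  have hcard : (PA f).ncard = (PF f).card := by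
    rw [← coe_PF hfm.ne_zero, Set.ncard_coe_finset]
  have hw : ∑ P ∈ PF f, P.natDegree = n := by
    rw [← Polynomial.natDegree_prod_of_monic _ _ fun P hP => (hSm P hP).1, prod_PF hfm hs, hfn]
  have h1 : 1 ≤ (PF f).card := by
    by_contra h
    have : PF f = ∅ := Finset.card_eq_zero.1 (by omega)
    rw [this, Finset.sum_empty] at hw
    omega
  have h5 : (PF f).card < 5 := by
    have h6 : (PF f).card * k ≤ n := by
      rw [← hw, ← smul_eq_mul]
      refine Finset.card_nsmul_le_sum _ _ _ fun P hP => ?_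
      exact hR P (hSm P hP).1 (hSm P hP).2 ((mem_PF hfm.ne_zero P).1 hP).2.2
    by_contra h
    have h7 : 5 * k ≤ (PF f).card * k := Nat.mul_le_mul_right k (by omega)
    omega
  rw [hcard] at h4
  have h3 : (PF f).card ≤ 3 := by omega
  have hiff : ∀ D : K[X], D.Monic → D ∣ f →
      (2 * (D.natDegree : ℝ) ≤ (1 - δ) * n ↔ 2 * D.natDegree < n) := by
    intro D h6 h7
    have h8 := hD D h6 h7
    constructor
    · intro h9
      have : 2 * (D.natDegree : ℝ) < n := by linarith
      exact_mod_cast this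
    · intro h9
      have h10 : 2 * (D.natDegree : ℝ) < n := by exact_mod_cast h9
      rw [abs_of_neg (by linarith)] at h8
      linarith
  have hdvd : ∀ T ∈ (PF f).powerset, (∏ Q ∈ T, Q).Monic ∧ ∏ Q ∈ T, Q ∣ f := by
    intro T hT
    rw [Finset.mem_powerset] at hT
    refine ⟨Polynomial.monic_prod_of_monic _ _ fun P hP => (hSm P (hT hP)).1, ?_⟩
    conv_rhs => rw [← prod_PF hfm hs]
    exact Finset.prod_dvd_prod_of_subset _ _ _ hT
  have hdeg : ∀ T ∈ (PF f).powerset, (∏ Q ∈ T, Q).natDegree = ∑ Q ∈ T, Q.natDegree := by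
    intro T hT
    rw [Finset.mem_powerset] at hT
    exact Polynomial.natDegree_prod_of_monic _ _ fun P hP => (hSm P (hT hP)).1
  have hsum : ∑ i ∈ range (n + 1), ∑ D ∈ (Mn K i).filter (fun D => D ∣ f),
      (if 2 * (i : ℝ) ≤ (1 - δ) * n then cf D else 0) =
      ∑ T ∈ (PF f).powerset, (if 2 * ∑ Q ∈ T, Q.natDegree < n then cc T.card else 0) := by
    have e1 : ∑ i ∈ range (n + 1), ∑ D ∈ (Mn K i).filter (fun D => D ∣ f),
        (if 2 * (i : ℝ) ≤ (1 - δ) * n then cf D else 0) =
        ∑ i ∈ range (n + 1), ∑ D ∈ (Mn K i).filter (fun D => D ∣ f),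
        (if 2 * (D.natDegree : ℝ) ≤ (1 - δ) * n then cf D else 0) := by
      refine Finset.sum_congr rfl fun i _ => Finset.sum_congr rfl fun D hDi => ?_
      rw [Finset.mem_filter, mem_Mn] at hDi
      rw [hDi.1.2]
    rw [e1, sum_div hfm hfn hs fun D => if 2 * (D.natDegree : ℝ) ≤ (1 - δ) * n then cf D else 0]
    refine Finset.sum_congr rfl fun T hT => ?_
    obtain ⟨g1, g2⟩ := hdvd T hT
    rw [if_congr (hiff _ g1 g2) rfl rfl, hdeg T hT]
    have hT' := Finset.mem_powerset.1 hT
    have g3 : cf (∏ Q ∈ T, Q) = cc T.card := by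
      unfold cf cc
      rw [← coe_PF g1.ne_zero, Set.ncard_coe_finset, PF_prod fun P hP => hSm P (hT' hP)]
    rw [g3]
  have hne : ∀ T ⊆ PF f, 2 * ∑ Q ∈ T, Q.natDegree ≠ n := by
    intro T hT h
    have hT' := Finset.mem_powerset.2 hT
    obtain ⟨g1, g2⟩ := hdvd T hT'
    have g3 := hD _ g1 g2
    rw [hdeg T hT'] at g3
    have g4 : 2 * ((∑ Q ∈ T, Q.natDegree : ℕ) : ℝ) = n := by exact_mod_cast h
    rw [g4, sub_self, abs_zero] at g3
    linarith
  have hirr : Irreducible f ↔ (PF f).card = 1 := by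
    constructor
    · intro hi
      have : PF f = {f} := by
        ext P
        rw [mem_PF hfm.ne_zero, Finset.mem_singleton]
        constructor
        · rintro ⟨g1, g2, g3⟩
          exact Polynomial.eq_of_monic_of_associated g1 hfm (g2.associated_of_dvd hi g3)
        · rintro rfl
          exact ⟨hfm, hi, dvd_rfl⟩
      rw [this, Finset.card_singleton]
    · intro hi
      obtain ⟨P, hP⟩ := Finset.card_eq_one.1 hi
      have g1 := prod_PF hfm hs
      rw [hP, Finset.prod_singleton] at g1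
      rw [← g1]
      exact (hSm P (by rw [hP]; exact Finset.mem_singleton_self P)).2
  rw [hsum, mob_eq hfm hs]
  have hid := ident (PF f) (fun Q => Q.natDegree) n hn hw hne h1 h3
  push_cast
  rw [hid]
  by_cases hi : Irreducible f
  · rw [if_pos hi, if_pos (hirr.1 hi)]
    norm_num
  · rw [if_neg hi, if_neg (fun h => hi (hirr.2 h))]
    norm_num

end Pool.Agent.H251.SP
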