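import Mathlib
import Pool.Agent.H251.SP.Stm

/-!
# Large sieve by extension (tasks LS1, LS2)
-/

set_option autoImplicit false

namespace Pool.Agent.H251.SP

open Polynomial Finset
open scoped Classical
open Pool.Agent.H694.Typ (Mn Irn pol pol_inj pol_degree exists_pol mem_Irn coprime_of_ne)

namespace LS

variable {K : Type} [Field K] [Fintype K]

variable (K) in
/-- the polynomials of degree less than `N` -/
noncomputable def BF (N : ℕ) : Finset K[X] := Finset.univ.image (pol : (Fin N → K) → K[X])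

theorem mem_BF {N : ℕ} {σ : K[X]} : σ ∈ BF K N ↔ σ.degree < (N : WithBot ℕ) := by
  unfold BF
  rw [Finset.mem_image]
  constructor
  · rintro ⟨c, -, rfl⟩
    exact pol_degree c
  · intro h
    obtain ⟨c, hc⟩ := exists_pol h
    exact ⟨c, Finset.mem_univ _, hc⟩

theorem card_BF (N : ℕ) : (BF K N).card = Fintype.card K ^ N := by
  unfold BF
  rw [Finset.card_image_of_injective _ pol_inj, Finset.card_univ, Fintype.card_fun,
    Fintype.card_fin]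

theorem finsum_BF (N : ℕ) (f : K[X] → ℝ) :
    ∑ᶠ σ ∈ {σ : K[X] | σ.degree < (N : WithBot ℕ)}, f σ = ∑ σ ∈ BF K N, f σ := by
  have h : {σ : K[X] | σ.degree < (N : WithBot ℕ)} = ↑(BF K N) := by
    ext σ
    rw [Set.mem_ofPred_eq, Finset.mem_coe, mem_BF]
  rw [h, finsum_mem_coe_finset]

theorem card_res {N : ℕ} {M : K[X]} (hM : M.Monic) (hd : M.natDegree ≤ N) (r : K[X]) :
    ((BF K N).filter (fun σ => M ∣ σ - r)).card = Fintype.card K ^ (N - M.natDegree) := by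
  rw [← card_BF]
  symm
  have hr : (r %ₘ M).degree < (M.natDegree : WithBot ℕ) := by
    rw [← degree_eq_natDegree hM.ne_zero]
    exact degree_modByMonic_lt r hM
  refine Finset.card_bij (fun τ _ => r %ₘ M + M * τ) ?_ ?_ ?_
  · intro τ hτ
    rw [mem_BF] at hτ
    rw [Finset.mem_filter, mem_BF]
    constructor
    · refine lt_of_le_of_lt (degree_add_le _ _) (max_lt ?_ ?_)
      · exact lt_of_lt_of_le hr (by exact_mod_cast hd)
      · by_cases h0 : τ = 0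
        · rw [h0, mul_zero, degree_zero]
          exact WithBot.bot_lt_coe N
        · rw [degree_mul, degree_eq_natDegree hM.ne_zero, degree_eq_natDegree h0]
          rw [degree_eq_natDegree h0] at hτ
          have h1 : τ.natDegree < N - M.natDegree := by exact_mod_cast hτ
          have h2 : M.natDegree + τ.natDegree < N := by omega
          exact_mod_cast h2
    · have h1 : r %ₘ M + M * τ - r = M * (τ - r /ₘ M) := by
        have := modByMonic_add_div r M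
        calc r %ₘ M + M * τ - r = r %ₘ M + M * τ - (r %ₘ M + M * (r /ₘ M)) := by rw [this]
          _ = M * (τ - r /ₘ M) := by ring
      rw [h1]
      exact dvd_mul_right _ _
  · intro τ _ τ' _ h
    exact mul_left_cancel₀ hM.ne_zero (add_left_cancel h)
  · intro σ hσ
    rw [Finset.mem_filter, mem_BF] at hσ
    have h2 : M ∣ σ - r %ₘ M := by
      have h3 : σ - r %ₘ M = (σ - r) + M * (r /ₘ M) := by
        have := modByMonic_add_div r M
        calc σ - r %ₘ M = σ - (r %ₘ M + M * (r /ₘ M)) + M * (r /ₘ M) := by ring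
          _ = _ := by rw [this]
      rw [h3]
      exact dvd_add hσ.2 (dvd_mul_right _ _)
    obtain ⟨τ, hτ⟩ := h2
    refine ⟨τ, ?_, ?_⟩
    · rw [mem_BF]
      by_cases h0 : τ = 0
      · rw [h0, degree_zero]
        exact WithBot.bot_lt_coe _
      · have h4 : (M * τ).degree < (N : WithBot ℕ) := by
          rw [← hτ]
          refine lt_of_le_of_lt (degree_sub_le _ _) (max_lt hσ.1 ?_)
          exact lt_of_lt_of_le hr (by exact_mod_cast hd)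
        rw [degree_mul, degree_eq_natDegree hM.ne_zero, degree_eq_natDegree h0] at h4
        have h5 : M.natDegree + τ.natDegree < N := by exact_mod_cast h4
        rw [degree_eq_natDegree h0]
        have h6 : τ.natDegree < N - M.natDegree := by omega
        exact_mod_cast h6
    · rw [← hτ]
      ring

theorem sum_res {N : ℕ} {M : K[X]} (hM : M.Monic) (hd : M.natDegree ≤ N) (r : K[X]) :
    ∑ σ ∈ BF K N, (if M ∣ σ - r then (1 : ℝ) else 0) =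
      (Fintype.card K : ℝ) ^ N / (Fintype.card K : ℝ) ^ M.natDegree := by
  rw [Finset.sum_boole, card_res hM hd]
  have hq : (Fintype.card K : ℝ) ≠ 0 := by exact_mod_cast Fintype.card_ne_zero
  rw [Nat.cast_pow, pow_sub₀ _ hq hd]
  rfl

/-- the centred indicator -/
noncomputable def ci (a : ℕ) (P r σ : K[X]) : ℝ :=
  (if P ∣ σ - r then (1 : ℝ) else 0) - 1 / (Fintype.card K : ℝ) ^ a

theorem dsc_eq (a : ℕ) (ρ : K[X] → K[X]) (σ : K[X]) :
    dsc a ρ σ = ∑ P ∈ Irn K a, ci a P (ρ P) σ := rfl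

/-- orthogonality -/
theorem ci_ne {a N : ℕ} (hN : 2 * a ≤ N) {P Q : K[X]} (hP : P ∈ Irn K a) (hQ : Q ∈ Irn K a)
    (hne : P ≠ Q) (r t : K[X]) : ∑ σ ∈ BF K N, ci a P r σ * ci a Q t σ = 0 := by
  rw [mem_Irn] at hP hQ
  have hcop : IsCoprime P Q := coprime_of_ne hP.1 hP.2.2 hQ.1 hQ.2.2 hne
  obtain ⟨u, v, huv⟩ := hcop
  set w := r * (v * Q) + t * (u * P) with hw
  have hiff : ∀ σ : K[X], (P ∣ σ - r ∧ Q ∣ σ - t) ↔ P * Q ∣ σ - w := by
    intro σ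
    have h1 : w - r = u * P * (t - r) := by
      rw [hw]
      linear_combination r * huv
    have h2 : w - t = v * Q * (r - t) := by
      rw [hw]
      linear_combination t * huv
    constructor
    · rintro ⟨h3, h4⟩
      refine IsCoprime.mul_dvd ⟨u, v, huv⟩ ?_ ?_
      · have : σ - w = (σ - r) - (w - r) := by ring
        rw [this, h1]
        exact dvd_sub h3 ((dvd_mul_left P u).mul_right _)
      · have : σ - w = (σ - t) - (w - t) := by ring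
        rw [this, h2]
        exact dvd_sub h4 ((dvd_mul_left Q v).mul_right _)
    · intro h
      constructor
      · have : σ - r = (σ - w) + (w - r) := by ring
        rw [this, h1]
        exact dvd_add ((dvd_mul_right P Q).trans h) ((dvd_mul_left P u).mul_right _)
      · have : σ - t = (σ - w) + (w - t) := by ring
        rw [this, h2]
        exact dvd_add ((dvd_mul_left Q P).trans h) ((dvd_mul_left Q v).mul_right _)
  have e : ∀ σ : K[X], ci a P r σ * ci a Q t σ = (if P * Q ∣ σ - w then (1 : ℝ) else 0) -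
      1 / (Fintype.card K : ℝ) ^ a * (if P ∣ σ - r then (1 : ℝ) else 0) -
      1 / (Fintype.card K : ℝ) ^ a * (if Q ∣ σ - t then (1 : ℝ) else 0) +
      1 / (Fintype.card K : ℝ) ^ a * (1 / (Fintype.card K : ℝ) ^ a) := by
    intro σ
    unfold ci
    by_cases h3 : P ∣ σ - r <;> by_cases h4 : Q ∣ σ - t
    · rw [if_pos h3, if_pos h4, if_pos ((hiff σ).1 ⟨h3, h4⟩)]; ring
    · rw [if_pos h3, if_neg h4, if_neg (fun h => h4 ((hiff σ).2 h).2)]; ring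
    · rw [if_neg h3, if_pos h4, if_neg (fun h => h3 ((hiff σ).2 h).1)]; ring
    · rw [if_neg h3, if_neg h4, if_neg (fun h => h4 ((hiff σ).2 h).2)]; ring
  simp only [e]
  rw [Finset.sum_add_distrib, Finset.sum_sub_distrib, Finset.sum_sub_distrib, ← Finset.mul_sum,
    ← Finset.mul_sum, sum_res (hP.1.mul hQ.1) (by rw [hP.1.natDegree_mul hQ.1]; omega),
    sum_res hP.1 (by omega), sum_res hQ.1 (by omega), Finset.sum_const, card_BF,
    hP.1.natDegree_mul hQ.1, hP.2.1, hQ.2.1]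
  have hq : (Fintype.card K : ℝ) ≠ 0 := by exact_mod_cast Fintype.card_ne_zero
  simp only [nsmul_eq_mul, Nat.cast_pow, pow_add]
  field_simp
  ring

theorem ci_eq {a N : ℕ} (hN : 2 * a ≤ N) {P : K[X]} (hP : P ∈ Irn K a)
    (r t : K[X]) : ∑ σ ∈ BF K N, ci a P r σ * ci a P t σ =
      (Fintype.card K : ℝ) ^ N / (Fintype.card K : ℝ) ^ a *
        ((if P ∣ r - t then (1 : ℝ) else 0) - 1 / (Fintype.card K : ℝ) ^ a) := by
  rw [mem_Irn] at hP
  have e : ∀ σ : K[X], ci a P r σ * ci a P t σ =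
      (if P ∣ r - t then (1 : ℝ) else 0) * (if P ∣ σ - r then (1 : ℝ) else 0) -
      1 / (Fintype.card K : ℝ) ^ a * (if P ∣ σ - r then (1 : ℝ) else 0) -
      1 / (Fintype.card K : ℝ) ^ a * (if P ∣ σ - t then (1 : ℝ) else 0) +
      1 / (Fintype.card K : ℝ) ^ a * (1 / (Fintype.card K : ℝ) ^ a) := by
    intro σ
    unfold ci
    by_cases h3 : P ∣ σ - r <;> by_cases h4 : P ∣ σ - t
    · have h5 : P ∣ r - t := by
        have : r - t = (σ - t) - (σ - r) := by ring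
        rw [this]
        exact dvd_sub h4 h3
      rw [if_pos h3, if_pos h4, if_pos h5]; ring
    · have h5 : ¬ P ∣ r - t := fun h => h4 (by
        have : σ - t = (σ - r) + (r - t) := by ring
        rw [this]
        exact dvd_add h3 h)
      rw [if_pos h3, if_neg h4, if_neg h5]; ring
    · rw [if_neg h3, if_pos h4]; ring
    · rw [if_neg h3, if_neg h4]; ring
  simp only [e]
  rw [Finset.sum_add_distrib, Finset.sum_sub_distrib, Finset.sum_sub_distrib, ← Finset.mul_sum,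
    ← Finset.mul_sum, ← Finset.mul_sum, sum_res hP.1 (by omega), sum_res hP.1 (by omega),
    Finset.sum_const, card_BF, hP.2.1]
  have hq : (Fintype.card K : ℝ) ≠ 0 := by exact_mod_cast Fintype.card_ne_zero
  simp only [nsmul_eq_mul, Nat.cast_pow]
  field_simp
  ring

/-- correlation of two `dsc` -/
theorem dsc_corr {a N : ℕ} (hN : 2 * a ≤ N) (ρ ρ' : K[X] → K[X]) :
    ∑ σ ∈ BF K N, dsc a ρ σ * dsc a ρ' σ =
      (Fintype.card K : ℝ) ^ N / (Fintype.card K : ℝ) ^ a *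
        ∑ P ∈ Irn K a, ((if P ∣ ρ P - ρ' P then (1 : ℝ) else 0) - 1 / (Fintype.card K : ℝ) ^ a) := by
  simp only [dsc_eq, Finset.sum_mul_sum]
  rw [Finset.sum_comm, Finset.mul_sum]
  refine Finset.sum_congr rfl fun P hP => ?_
  rw [Finset.sum_comm, Finset.sum_eq_single P]
  · exact ci_eq hN hP _ _
  · intro Q hQ hQP
    exact ci_ne hN hP hQ (Ne.symm hQP) _ _
  · intro h; exact absurd hP h

end LS

open LS

theorem ls1 : S_ls1 := by
  intro K _ _ ι _ a N ρ _ hN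
  have hq : (0 : ℝ) < (Fintype.card K : ℝ) := by exact_mod_cast Fintype.card_pos
  rw [finsum_BF]
  have e1 : ∑ σ ∈ BF K N, (∑ i, dsc a (ρ i) σ) ^ 2 =
      ∑ p : ι × ι, ∑ σ ∈ BF K N, dsc a (ρ p.1) σ * dsc a (ρ p.2) σ := by
    rw [Finset.sum_comm]
    refine Finset.sum_congr rfl fun σ _ => ?_
    rw [sq, Finset.sum_mul_sum, ← Finset.univ_product_univ, Finset.sum_product]
  rw [e1]
  simp only [dsc_corr hN]
  rw [← Finset.mul_sum, Finset.sum_comm]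
  refine mul_le_mul_of_nonneg_left (Finset.sum_le_sum fun P _ => ?_) (by positivity)
  rw [Finset.sum_sub_distrib, Finset.sum_boole]
  have hpos : (0 : ℝ) ≤ ∑ _i : ι × ι, 1 / (Fintype.card K : ℝ) ^ a := by positivity
  linarith

theorem ls2 : S_ls2 := by
  intro K _ _ ι _ a N ρ₁ ρ₂ _ hN
  have hq : (0 : ℝ) < (Fintype.card K : ℝ) := by exact_mod_cast Fintype.card_pos
  set q := (Fintype.card K : ℝ) with hqd
  have e0 : ∑ᶠ σ₁ ∈ {σ : K[X] | σ.degree < (N : WithBot ℕ)},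
      ∑ᶠ σ₂ ∈ {σ : K[X] | σ.degree < (N : WithBot ℕ)},
      (∑ i, dsc a (ρ₁ i) σ₁ * dsc a (ρ₂ i) σ₂) ^ 2 =
      ∑ σ₁ ∈ BF K N, ∑ σ₂ ∈ BF K N, (∑ i, dsc a (ρ₁ i) σ₁ * dsc a (ρ₂ i) σ₂) ^ 2 := by
    rw [finsum_BF]
    refine Finset.sum_congr rfl fun σ₁ _ => ?_
    rw [finsum_BF]
  rw [e0]
  have e1 : ∑ σ₁ ∈ BF K N, ∑ σ₂ ∈ BF K N, (∑ i, dsc a (ρ₁ i) σ₁ * dsc a (ρ₂ i) σ₂) ^ 2 =
      ∑ p : ι × ι, (∑ σ ∈ BF K N, dsc a (ρ₁ p.1) σ * dsc a (ρ₁ p.2) σ) *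
        (∑ σ ∈ BF K N, dsc a (ρ₂ p.1) σ * dsc a (ρ₂ p.2) σ) := by
    have e1a : ∀ σ₁ σ₂ : K[X], (∑ i, dsc a (ρ₁ i) σ₁ * dsc a (ρ₂ i) σ₂) ^ 2 =
        ∑ p : ι × ι, (dsc a (ρ₁ p.1) σ₁ * dsc a (ρ₁ p.2) σ₁) *
          (dsc a (ρ₂ p.1) σ₂ * dsc a (ρ₂ p.2) σ₂) := by
      intro σ₁ σ₂
      rw [sq, Finset.sum_mul_sum, ← Finset.univ_product_univ, Finset.sum_product]
      refine Finset.sum_congr rfl fun i _ => Finset.sum_congr rfl fun j _ => ?_
      ring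
    simp only [e1a]
    calc ∑ σ₁ ∈ BF K N, ∑ σ₂ ∈ BF K N, ∑ p : ι × ι, (dsc a (ρ₁ p.1) σ₁ * dsc a (ρ₁ p.2) σ₁) *
          (dsc a (ρ₂ p.1) σ₂ * dsc a (ρ₂ p.2) σ₂) =
        ∑ σ₁ ∈ BF K N, ∑ p : ι × ι, ∑ σ₂ ∈ BF K N, (dsc a (ρ₁ p.1) σ₁ * dsc a (ρ₁ p.2) σ₁) *
          (dsc a (ρ₂ p.1) σ₂ * dsc a (ρ₂ p.2) σ₂) :=
          Finset.sum_congr rfl fun _ _ => Finset.sum_comm
      _ = ∑ p : ι × ι, ∑ σ₁ ∈ BF K N, ∑ σ₂ ∈ BF K N, (dsc a (ρ₁ p.1) σ₁ * dsc a (ρ₁ p.2) σ₁) *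
          (dsc a (ρ₂ p.1) σ₂ * dsc a (ρ₂ p.2) σ₂) := Finset.sum_comm
      _ = _ := by simp only [Finset.sum_mul_sum]
  rw [e1]
  simp only [dsc_corr hN]
  -- nonnegativity of one factor
  have hnn : ∀ Q ∈ Irn K a, 0 ≤ ∑ p : ι × ι,
      ((if Q ∣ ρ₂ p.1 Q - ρ₂ p.2 Q then (1 : ℝ) else 0) - 1 / q ^ a) := by
    intro Q hQ
    have h1 : 0 ≤ ∑ σ ∈ BF K N, (∑ i, ci a Q (ρ₂ i Q) σ) ^ 2 :=
      Finset.sum_nonneg fun _ _ => sq_nonneg _
    have h2 : ∑ σ ∈ BF K N, (∑ i, ci a Q (ρ₂ i Q) σ) ^ 2 =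
        q ^ N / q ^ a * ∑ p : ι × ι,
          ((if Q ∣ ρ₂ p.1 Q - ρ₂ p.2 Q then (1 : ℝ) else 0) - 1 / q ^ a) := by
      rw [Finset.mul_sum]
      have h3 : ∑ σ ∈ BF K N, (∑ i, ci a Q (ρ₂ i Q) σ) ^ 2 =
          ∑ p : ι × ι, ∑ σ ∈ BF K N, ci a Q (ρ₂ p.1 Q) σ * ci a Q (ρ₂ p.2 Q) σ := by
        rw [Finset.sum_comm]
        refine Finset.sum_congr rfl fun σ _ => ?_
        rw [sq, Finset.sum_mul_sum, ← Finset.univ_product_univ, Finset.sum_product]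
      rw [h3]
      refine Finset.sum_congr rfl fun p _ => ?_
      exact ci_eq hN hQ _ _
    rw [h2] at h1
    exact (mul_nonneg_iff_of_pos_left (by positivity)).1 h1
  have e2 : ∑ p : ι × ι, (q ^ N / q ^ a *
        ∑ P ∈ Irn K a, ((if P ∣ ρ₁ p.1 P - ρ₁ p.2 P then (1 : ℝ) else 0) - 1 / q ^ a)) *
      (q ^ N / q ^ a *
        ∑ Q ∈ Irn K a, ((if Q ∣ ρ₂ p.1 Q - ρ₂ p.2 Q then (1 : ℝ) else 0) - 1 / q ^ a)) =
      q ^ (2 * N) / q ^ (2 * a) * ∑ P ∈ Irn K a, ∑ Q ∈ Irn K a, ∑ p : ι × ι,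
        ((if P ∣ ρ₁ p.1 P - ρ₁ p.2 P then (1 : ℝ) else 0) - 1 / q ^ a) *
        ((if Q ∣ ρ₂ p.1 Q - ρ₂ p.2 Q then (1 : ℝ) else 0) - 1 / q ^ a) := by
    have e3 : ∀ p : ι × ι, (q ^ N / q ^ a *
        ∑ P ∈ Irn K a, ((if P ∣ ρ₁ p.1 P - ρ₁ p.2 P then (1 : ℝ) else 0) - 1 / q ^ a)) *
      (q ^ N / q ^ a *
        ∑ Q ∈ Irn K a, ((if Q ∣ ρ₂ p.1 Q - ρ₂ p.2 Q then (1 : ℝ) else 0) - 1 / q ^ a)) =
      q ^ (2 * N) / q ^ (2 * a) * ∑ P ∈ Irn K a, ∑ Q ∈ Irn K a,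
        ((if P ∣ ρ₁ p.1 P - ρ₁ p.2 P then (1 : ℝ) else 0) - 1 / q ^ a) *
        ((if Q ∣ ρ₂ p.1 Q - ρ₂ p.2 Q then (1 : ℝ) else 0) - 1 / q ^ a) := by
      intro p
      rw [← Finset.sum_mul_sum, two_mul, two_mul, pow_add, pow_add]
      field_simp
    simp only [e3]
    rw [← Finset.mul_sum, Finset.sum_comm]
    congr 1
    refine Finset.sum_congr rfl fun P _ => ?_
    rw [Finset.sum_comm]
  rw [e2]
  refine mul_le_mul_of_nonneg_left (Finset.sum_le_sum fun P hP => Finset.sum_le_sum fun Q hQ => ?_)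
    (by positivity)
  have e4 : ∀ p : ι × ι, ((if P ∣ ρ₁ p.1 P - ρ₁ p.2 P then (1 : ℝ) else 0) - 1 / q ^ a) *
        ((if Q ∣ ρ₂ p.1 Q - ρ₂ p.2 Q then (1 : ℝ) else 0) - 1 / q ^ a) =
      (if P ∣ ρ₁ p.1 P - ρ₁ p.2 P ∧ Q ∣ ρ₂ p.1 Q - ρ₂ p.2 Q then (1 : ℝ) else 0) -
      1 / q ^ a * ((if Q ∣ ρ₂ p.1 Q - ρ₂ p.2 Q then (1 : ℝ) else 0) - 1 / q ^ a) -
      1 / q ^ a * (if P ∣ ρ₁ p.1 P - ρ₁ p.2 P then (1 : ℝ) else 0) := by
    intro p
    by_cases h3 : P ∣ ρ₁ p.1 P - ρ₁ p.2 P <;> by_cases h4 : Q ∣ ρ₂ p.1 Q - ρ₂ p.2 Q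
    · rw [if_pos h3, if_pos h4, if_pos ⟨h3, h4⟩]; ring
    · rw [if_pos h3, if_neg h4, if_neg (fun h => h4 h.2)]; ring
    · rw [if_neg h3, if_pos h4, if_neg (fun h => h3 h.1)]; ring
    · rw [if_neg h3, if_neg h4, if_neg (fun h => h3 h.1)]; ring
  simp only [e4]
  rw [Finset.sum_sub_distrib, Finset.sum_sub_distrib, Finset.sum_boole, ← Finset.mul_sum,
    ← Finset.mul_sum]
  have h5 : 0 ≤ 1 / q ^ a * ∑ p : ι × ι,
      ((if Q ∣ ρ₂ p.1 Q - ρ₂ p.2 Q then (1 : ℝ) else 0) - 1 / q ^ a) :=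
    mul_nonneg (by positivity) (hnn Q hQ)
  have h6 : 0 ≤ 1 / q ^ a * ∑ p : ι × ι, (if P ∣ ρ₁ p.1 P - ρ₁ p.2 P then (1 : ℝ) else 0) :=
    mul_nonneg (by positivity) (Finset.sum_nonneg fun p _ => by split_ifs <;> norm_num)
  linarith

end Pool.Agent.H251.SP
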