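import Pool.Agent.H251.SP.Stm
import Pool.Agent.H456.RN.Mob
import Pool.Agent.H523.RH1

/-!
# SP-MOB: square root cancellation for the Moebius function in residue classes
-/

set_option autoImplicit false
set_option linter.all false

namespace Pool.Agent.H251.SP

namespace MOBL

open Polynomial Finset
open scoped Classical
open Pool.Agent.H985.Chow (mob)
open Pool.Agent.H985.KP (PA mobg)
open Pool.Agent.H694.Typ (Mn Irn mem_Mn)
open Pool.Agent.H341R2.Sharp (Mon mem_Mon)
open Pool.Agent.Q284.PS (Hay mu)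
open Pool.Agent.H456.RN (MS mob_bound)
open Pool.Agent.H523.RH (BB cl gχ gχ_monic gχ_hay detect isUnit_cl_iff finite_BB
  coeff_zero_reverse_monic norm_char)

section
variable {K : Type} [Field K]

theorem mob_eq_mu (f : K[X]) : (mob f : ℝ) = mu f := by
  unfold mob mu
  by_cases h : Squarefree f
  · rw [if_pos h, if_pos h]
    push_cast
    congr 1
    unfold UniqueFactorizationMonoid.normalizedFactors
    rw [Multiset.card_map]
  · rw [if_neg h, if_neg h]
    simp

theorem mu_mul {e f : K[X]} (he : e.Monic) (hf : f.Monic) (h : IsCoprime e f) :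
    mu (e * f) = mu e * mu f := by
  unfold mu
  have h1 : Squarefree (e * f) ↔ Squarefree e ∧ Squarefree f := by
    rw [squarefree_mul_iff]
    constructor
    · rintro ⟨-, a, b⟩
      exact ⟨a, b⟩
    · rintro ⟨a, b⟩
      exact ⟨h.isRelPrime, a, b⟩
  by_cases h2 : Squarefree e
  · by_cases h3 : Squarefree f
    · rw [if_pos (h1.mpr ⟨h2, h3⟩), if_pos h2, if_pos h3,
        UniqueFactorizationMonoid.normalizedFactors_mul he.ne_zero hf.ne_zero, Multiset.card_add,
        pow_add]
    · rw [if_neg (fun h4 => h3 (h1.mp h4).2), if_neg h3, mul_zero]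
  · rw [if_neg (fun h4 => h2 (h1.mp h4).1), if_neg h2, zero_mul]

theorem mu_zero_of_not_coprime {e f : K[X]} (h : ¬ IsCoprime e f) : mu (e * f) = 0 := by
  unfold mu
  rw [if_neg]
  intro hs
  exact h (IsRelPrime.of_squarefree_mul hs).isCoprime

theorem abs_mu_le (f : K[X]) : |mu f| ≤ 1 := by
  unfold mu
  split_ifs
  · rw [abs_pow, abs_neg, abs_one, one_pow]
  · rw [abs_zero]
    exact zero_le_one

theorem cl_zero_iff [Fintype K] {R f g : K[X]} (hf : f.Monic) (hg : g.Monic) :
    cl R 0 f = cl R 0 g ↔ R ∣ f - g := by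
  unfold cl
  rw [Prod.mk.injEq, AdjoinRoot.mk_eq_mk, AdjoinRoot.mk_eq_mk]
  constructor
  · exact fun h => h.1
  · intro h
    refine ⟨h, ?_⟩
    rw [zero_add, pow_one, X_dvd_iff, coeff_sub, coeff_zero_reverse_monic hf,
      coeff_zero_reverse_monic hg, sub_self]

/-- a monic greatest common divisor -/
theorem gcd_split (a : K[X]) {R : K[X]} (hR : R.Monic) : ∃ e a' R' : K[X], e.Monic ∧ R'.Monic ∧
    a = e * a' ∧ R = e * R' ∧ IsCoprime a' R' := by
  set d := EuclideanDomain.gcd a R with hd
  obtain ⟨a0, ha0⟩ : d ∣ a := EuclideanDomain.gcd_dvd_left _ _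
  obtain ⟨R0, hR0⟩ : d ∣ R := EuclideanDomain.gcd_dvd_right _ _
  have hd0 : d ≠ 0 := by
    intro h0
    rw [h0, zero_mul] at hR0
    exact hR.ne_zero hR0
  have hlc : d.leadingCoeff ≠ 0 := mt leadingCoeff_eq_zero.1 hd0
  have hCC : (C d.leadingCoeff⁻¹ : K[X]) * C d.leadingCoeff = 1 := by
    rw [← C_mul, inv_mul_cancel₀ hlc, C_1]
  have hbez := EuclideanDomain.gcd_eq_gcd_ab a R
  have he : (d * C d.leadingCoeff⁻¹).Monic := monic_mul_leadingCoeff_inv hd0
  have hR' : R = (d * C d.leadingCoeff⁻¹) * (C d.leadingCoeff * R0) := by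
    calc R = d * R0 := hR0
      _ = d * ((C d.leadingCoeff⁻¹ * C d.leadingCoeff) * R0) := by rw [hCC, one_mul]
      _ = _ := by ring
  have ha' : a = (d * C d.leadingCoeff⁻¹) * (C d.leadingCoeff * a0) := by
    calc a = d * a0 := ha0
      _ = d * ((C d.leadingCoeff⁻¹ * C d.leadingCoeff) * a0) := by rw [hCC, one_mul]
      _ = _ := by ring
  refine ⟨d * C d.leadingCoeff⁻¹, C d.leadingCoeff * a0, C d.leadingCoeff * R0, he,
    he.of_mul_monic_left (hR' ▸ hR), ha', hR', ?_⟩
  have h1 : a0 * EuclideanDomain.gcdA a R + R0 * EuclideanDomain.gcdB a R = 1 := by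
    apply mul_left_cancel₀ hd0
    rw [mul_one, mul_add, ← mul_assoc, ← mul_assoc, ← ha0, ← hR0]
    exact hbez.symm
  refine ⟨EuclideanDomain.gcdA a R * C d.leadingCoeff⁻¹,
    EuclideanDomain.gcdB a R * C d.leadingCoeff⁻¹, ?_⟩
  calc EuclideanDomain.gcdA a R * C d.leadingCoeff⁻¹ * (C d.leadingCoeff * a0) +
        EuclideanDomain.gcdB a R * C d.leadingCoeff⁻¹ * (C d.leadingCoeff * R0)
      = (C d.leadingCoeff⁻¹ * C d.leadingCoeff) *
          (a0 * EuclideanDomain.gcdA a R + R0 * EuclideanDomain.gcdB a R) := by ring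
    _ = 1 := by rw [hCC, h1, one_mul]

variable [Fintype K]

/-- a character modulo `R`, restricted to the polynomials coprime to `e` -/
noncomputable def tw (R e : K[X]) (χ : MulChar (BB R 0) ℂ) (f : K[X]) : ℂ :=
  if IsCoprime f e then gχ R 0 χ f else 0

theorem tw_hay {R e : K[X]} (hR : R.Monic) (he : e.Monic) (χ : MulChar (BB R 0) ℂ) :
    Hay (R * e) 0 (tw R e χ) := by
  have h := gχ_hay hR χ
  constructor
  · exact hR.mul he
  · intro f hf
    unfold tw
    rw [h.off f hf]
    split_ifs <;> rfl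
  · unfold tw
    rw [if_pos isCoprime_one_left, h.one]
  · intro f g hf hg
    unfold tw
    by_cases h1 : IsCoprime f e
    · by_cases h2 : IsCoprime g e
      · rw [if_pos h1, if_pos h2, if_pos (h1.mul_left h2), h.mul f g hf hg]
      · rw [if_neg h2, mul_zero, if_neg (fun h3 => h2 (IsCoprime.mul_left_iff.mp h3).2)]
    · rw [if_neg h1, zero_mul, if_neg (fun h3 => h1 (IsCoprime.mul_left_iff.mp h3).1)]
  · intro f hf hc
    unfold tw
    obtain ⟨h1, h2⟩ := IsCoprime.mul_right_iff.mp hc
    rw [if_pos h2]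
    exact h.norm f hf h1
  · intro f hf hc
    unfold tw
    split_ifs with h1
    · apply h.zero f hf
      intro h2
      exact hc (h2.mul_right h1)
    · rfl
  · intro f g hf hg h1 h2
    unfold tw
    have h3 : IsCoprime f e ↔ IsCoprime g e := by
      obtain ⟨c, hc⟩ := (dvd_mul_left e R).trans h1
      have h5 : f = g + e * c := by rw [← hc]; ring
      rw [h5]
      exact IsCoprime.add_mul_left_left_iff
    rw [h.per f g hf hg ((dvd_mul_right R e).trans h1) h2]
    by_cases h4 : IsCoprime g e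
    · rw [if_pos h4, if_pos (h3.mpr h4)]
    · rw [if_neg h4, if_neg (fun h5 => h4 (h3.mp h5))]

/-- reduced residue classes, with an additional coprimality condition -/
theorem core (ε : ℝ) (hε : 0 < ε) : ∃ C : ℝ, 0 < C ∧ ∀ (R e b : K[X]) (n : ℕ), R.Monic →
    e.Monic → IsCoprime b R →
    |∑ F ∈ (Mon K n).filter (fun F => R ∣ F - b ∧ IsCoprime F e), mu F| ≤
      C * √(Fintype.card K : ℝ) ^ n *
        Real.exp (ε * ((n + R.natDegree + e.natDegree : ℕ) : ℝ)) := by
  obtain ⟨C₀, hC, hb⟩ := mob_bound (F := K) ε hε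
  refine ⟨C₀, hC, ?_⟩
  intro R e b n hR he hbR
  -- a monic representative of the class
  set b' : K[X] := b + R * X ^ (b.natDegree + 1) with hb'
  have hdeg : b.degree < (R * X ^ (b.natDegree + 1)).degree := by
    rw [degree_mul, degree_X_pow, degree_eq_natDegree hR.ne_zero]
    refine lt_of_le_of_lt degree_le_natDegree ?_
    exact_mod_cast (by omega : b.natDegree < R.natDegree + (b.natDegree + 1))
  have hb'm : b'.Monic := by
    rw [hb', add_comm]
    exact (hR.mul (monic_X_pow _)).add_of_left hdeg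
  have hb'c : IsCoprime b' R := by
    rw [hb']
    exact IsCoprime.add_mul_left_left_iff.mpr hbR
  have hfil : ∀ F : K[X], R ∣ F - b ↔ R ∣ F - b' := by
    intro F
    have h1 : F - b' = (F - b) - R * X ^ (b.natDegree + 1) := by
      rw [hb']
      ring
    rw [h1]
    constructor
    · intro h
      exact dvd_sub h (dvd_mul_right _ _)
    · intro h
      have := dvd_add h (dvd_mul_right R (X ^ (b.natDegree + 1)))
      rwa [sub_add_cancel] at this
  have hfin := finite_BB hR 0
  have hfin2 : Finite (MulChar (BB R 0) ℂ) := inferInstance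
  let _ : Fintype (MulChar (BB R 0) ℂ) := Fintype.ofFinite _
  obtain ⟨u, hu⟩ := (isUnit_cl_iff (κ := 0) hb'm).mpr hb'c
  have hGpos : 0 < Nat.card (BB R 0)ˣ := Nat.card_pos
  set G : ℂ := (Nat.card (BB R 0)ˣ : ℂ) with hG
  set S : ℝ := ∑ F ∈ (Mon K n).filter (fun F => R ∣ F - b ∧ IsCoprime F e), mu F with hS
  have hmain : G * (S : ℂ) = ∑ χ : MulChar (BB R 0) ℂ, χ (↑u⁻¹ : BB R 0) * MS (tw R e χ) n := by
    have h1 : ∑ χ : MulChar (BB R 0) ℂ, χ (↑u⁻¹ : BB R 0) * MS (tw R e χ) n =
        ∑ F ∈ Mon K n, (if R ∣ F - b ∧ IsCoprime F e then G * (mu F : ℂ) else 0) := by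
      unfold MS
      simp only [mul_sum]
      rw [sum_comm]
      refine sum_congr rfl fun F hF => ?_
      have hFm := (mem_Mon.mp hF).1
      by_cases hFe : IsCoprime F e
      · have h2 : ∀ χ : MulChar (BB R 0) ℂ, χ (↑u⁻¹ : BB R 0) * ((mu F : ℂ) * tw R e χ F) =
            (mu F : ℂ) * (χ (↑u⁻¹ : BB R 0) * χ (cl R 0 F)) := by
          intro χ
          unfold tw
          rw [if_pos hFe, gχ_monic χ hFm]
          ring
        rw [sum_congr rfl (fun χ _ => h2 χ), ← mul_sum, detect u (cl R 0 F), hu]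
        by_cases h3 : R ∣ F - b
        · rw [if_pos ((cl_zero_iff hFm hb'm).mpr ((hfil F).mp h3)), if_pos ⟨h3, hFe⟩]
          ring
        · rw [if_neg (fun h4 => h3 ((hfil F).mpr ((cl_zero_iff hFm hb'm).mp h4))),
            if_neg (fun h4 => h3 h4.1), mul_zero]
      · rw [if_neg (fun h4 => hFe h4.2)]
        refine sum_eq_zero fun χ _ => ?_
        unfold tw
        rw [if_neg hFe, mul_zero, mul_zero]
    rw [h1, ← sum_filter, hS]
    push_cast
    rw [mul_sum]
  have hbound : ‖G‖ * |S| ≤ ‖G‖ * (C₀ * √(Fintype.card K : ℝ) ^ n *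
      Real.exp (ε * ((n + R.natDegree + e.natDegree : ℕ) : ℝ))) := by
    have h1 : ‖G‖ * |S| = ‖G * (S : ℂ)‖ := by
      rw [norm_mul, Complex.norm_real, Real.norm_eq_abs]
    rw [h1, hmain]
    refine (norm_sum_le _ _).trans ?_
    calc ∑ χ : MulChar (BB R 0) ℂ, ‖χ (↑u⁻¹ : BB R 0) * MS (tw R e χ) n‖
        ≤ ∑ χ : MulChar (BB R 0) ℂ, (C₀ * √(Fintype.card K : ℝ) ^ n *
            Real.exp (ε * ((n + R.natDegree + e.natDegree : ℕ) : ℝ))) := by
          refine sum_le_sum fun χ _ => ?_
          rw [norm_mul, norm_char χ (Units.isUnit _), one_mul]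
          have h2 := hb (R * e) 0 (tw R e χ) (tw_hay hR he χ) n
          rwa [hR.natDegree_mul he, add_zero, ← add_assoc] at h2
      _ = ‖G‖ * (C₀ * √(Fintype.card K : ℝ) ^ n *
            Real.exp (ε * ((n + R.natDegree + e.natDegree : ℕ) : ℝ))) := by
          rw [sum_const, nsmul_eq_mul, card_univ, hG, Complex.norm_natCast,
            ← MulChar.card_eq_card_units_of_hasEnoughRootsOfUnity (BB R 0) ℂ,
            Nat.card_eq_fintype_card]
  refine le_of_mul_le_mul_left hbound (norm_pos_iff.mpr ?_)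
  rw [hG, Nat.cast_ne_zero]
  exact hGpos.ne'

/-- all residue classes -/
theorem step2 (ε : ℝ) (hε : 0 < ε) : ∃ C : ℝ, 0 < C ∧ ∀ (R a : K[X]) (n : ℕ), R.Monic →
    |∑ F ∈ (Mon K n).filter (fun F => R ∣ F - a), mu F| ≤
      C * √(Fintype.card K : ℝ) ^ n * Real.exp (ε * ((n + R.natDegree : ℕ) : ℝ)) := by
  obtain ⟨C₀, hC, hb⟩ := core (K := K) ε hε
  refine ⟨C₀, hC, ?_⟩
  intro R a n hR
  have hq1 : (1 : ℝ) ≤ √(Fintype.card K : ℝ) := by
    rw [Real.one_le_sqrt]
    exact_mod_cast Fintype.card_pos (α := K)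
  obtain ⟨e, a', R', he, hR', rfl, rfl, hcop⟩ := gcd_split a hR
  by_cases hn : e.natDegree ≤ n
  · have h1 : ∑ F ∈ (Mon K n).filter (fun F => e * R' ∣ F - e * a'), mu F =
        ∑ F ∈ (Mon K (n - e.natDegree)).filter (fun F => R' ∣ F - a'), mu (e * F) := by
      symm
      refine sum_bij (fun F _ => e * F) ?_ ?_ ?_ ?_
      · intro F hF
        rw [mem_filter, mem_Mon] at hF ⊢
        refine ⟨⟨he.mul hF.1.1, ?_⟩, ?_⟩
        · rw [he.natDegree_mul hF.1.1, hF.1.2]
          omega
        · rw [← mul_sub]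
          exact mul_dvd_mul_left e hF.2
      · intro F _ F' _ h
        exact mul_left_cancel₀ he.ne_zero h
      · intro F hF
        rw [mem_filter, mem_Mon] at hF
        have h2 : e ∣ F := by
          have h3 := dvd_add ((dvd_mul_right e R').trans hF.2) (dvd_mul_right e a')
          rwa [sub_add_cancel] at h3
        obtain ⟨F', rfl⟩ := h2
        have hF'm : F'.Monic := he.of_mul_monic_left hF.1.1
        refine ⟨F', ?_, rfl⟩
        rw [mem_filter, mem_Mon]
        refine ⟨⟨hF'm, ?_⟩, ?_⟩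
        · have := hF.1.2
          rw [he.natDegree_mul hF'm] at this
          omega
        · have h4 := hF.2
          rw [← mul_sub] at h4
          exact (mul_dvd_mul_iff_left he.ne_zero).mp h4
      · intro F _
        rfl
    have h2 : ∑ F ∈ (Mon K (n - e.natDegree)).filter (fun F => R' ∣ F - a'), mu (e * F) =
        mu e * ∑ F ∈ (Mon K (n - e.natDegree)).filter (fun F => R' ∣ F - a' ∧ IsCoprime F e),
          mu F := by
      have h3 : (Mon K (n - e.natDegree)).filter (fun F => R' ∣ F - a' ∧ IsCoprime F e) =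
          ((Mon K (n - e.natDegree)).filter (fun F => R' ∣ F - a')).filter
            (fun F => IsCoprime F e) := by
        rw [filter_filter]
      conv_rhs => rw [h3, sum_filter, mul_sum]
      refine sum_congr rfl fun F hF => ?_
      have hFm := (mem_Mon.mp (mem_filter.mp hF).1).1
      split_ifs with h4
      · exact mu_mul he hFm h4.symm
      · rw [mul_zero]
        exact mu_zero_of_not_coprime (fun h5 => h4 h5.symm)
    rw [h1, h2, abs_mul]
    have h3 := hb R' e a' (n - e.natDegree) hR' he hcop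
    have h4 : |mu e| * |∑ F ∈ (Mon K (n - e.natDegree)).filter
        (fun F => R' ∣ F - a' ∧ IsCoprime F e), mu F| ≤
        1 * (C₀ * √(Fintype.card K : ℝ) ^ (n - e.natDegree) *
          Real.exp (ε * ((n - e.natDegree + R'.natDegree + e.natDegree : ℕ) : ℝ))) :=
      mul_le_mul (abs_mu_le e) h3 (abs_nonneg _) zero_le_one
    refine h4.trans ?_
    rw [one_mul]
    apply mul_le_mul
    · apply mul_le_mul_of_nonneg_left _ hC.le
      exact pow_le_pow_right₀ hq1 (by omega)
    · apply Real.exp_le_exp.mpr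
      apply mul_le_mul_of_nonneg_left _ hε.le
      have h5 : n - e.natDegree + R'.natDegree + e.natDegree ≤ n + (e * R').natDegree := by
        rw [he.natDegree_mul hR']
        omega
      exact_mod_cast h5
    · exact (Real.exp_pos _).le
    · positivity
  · rw [filter_false_of_mem, sum_empty, abs_zero]
    · positivity
    · intro F hF hdiv
      rw [mem_Mon] at hF
      have h2 : e ∣ F := by
        have h3 := dvd_add ((dvd_mul_right e R').trans hdiv) (dvd_mul_right e a')
        rwa [sub_add_cancel] at h3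
      have h3 := natDegree_le_of_dvd h2 hF.1.ne_zero
      omega

end

end MOBL

open Polynomial Finset in
open scoped Classical in
open Pool.Agent.H694.Typ (Mn Irn mem_Mn) in
open Pool.Agent.H985.KP (PA mobg) in
open Pool.Agent.H985.Chow (mob) in
open Pool.Agent.H341R2.Sharp (Mon mem_Mon) in
open Pool.Agent.Q284.PS (Hay mu) in
/-- **Task MOB.** -/
theorem mob_prog : S_mob := by
  intro K _ _ ε hε
  obtain ⟨C₀, hC, hb⟩ := MOBL.step2 (K := K) (ε / 3) (by positivity)
  refine ⟨C₀, hC, ?_⟩
  intro n R a g hR hRn hg hgn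
  have hq0 : (0 : ℝ) < (Fintype.card K : ℝ) := by exact_mod_cast Fintype.card_pos (α := K)
  have hq1 : (1 : ℝ) ≤ √(Fintype.card K : ℝ) := by
    rw [Real.one_le_sqrt]
    exact_mod_cast Fintype.card_pos (α := K)
  have hsq : (Fintype.card K : ℝ) ^ ((n : ℝ) / 2) = √(Fintype.card K : ℝ) ^ n := by
    rw [Real.sqrt_eq_rpow, ← Real.rpow_natCast, ← Real.rpow_mul hq0.le]
    congr 1
    ring
  rw [hsq]
  have hg2 : (g ^ 2).Monic := hg.pow 2
  have hg2d : (g ^ 2).natDegree = 2 * g.natDegree := by rw [natDegree_pow]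
  have hnn : (0 : ℝ) ≤ C₀ * √(Fintype.card K : ℝ) ^ n * Real.exp (ε * n) := by positivity
  by_cases hn : 2 * g.natDegree ≤ n
  · -- the multiples of `g ^ 2`
    have h1 : ∑ F ∈ (Mn K n).filter (fun F => R ∣ F - a), (mobg g F : ℝ) =
        ∑ F ∈ (Mon K (n - 2 * g.natDegree)).filter (fun F => R ∣ g ^ 2 * F - a), mu F := by
      have h2 : ∑ F ∈ (Mn K n).filter (fun F => R ∣ F - a), (mobg g F : ℝ) =
          ∑ F ∈ ((Mn K n).filter (fun F => R ∣ F - a)).filter (fun F => g ^ 2 ∣ F),
            (mobg g F : ℝ) := by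
        symm
        apply sum_filter_of_ne
        intro F _ hne
        by_contra hcon
        apply hne
        unfold Pool.Agent.H985.KP.mobg
        rw [if_neg hcon, Int.cast_zero]
      rw [h2]
      symm
      refine sum_bij (fun F _ => g ^ 2 * F) ?_ ?_ ?_ ?_
      · intro F hF
        rw [mem_filter, mem_Mon] at hF
        rw [mem_filter, mem_filter, mem_Mn]
        refine ⟨⟨⟨hg2.mul hF.1.1, ?_⟩, hF.2⟩, dvd_mul_right _ _⟩
        rw [hg2.natDegree_mul hF.1.1, hF.1.2, hg2d]
        omega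
      · intro F _ F' _ h
        exact mul_left_cancel₀ hg2.ne_zero h
      · intro F hF
        rw [mem_filter, mem_filter, mem_Mn] at hF
        obtain ⟨⟨⟨hFm, hFd⟩, hFR⟩, F', rfl⟩ := hF
        have hF'm : F'.Monic := hg2.of_mul_monic_left hFm
        refine ⟨F', ?_, rfl⟩
        rw [mem_filter, mem_Mon]
        refine ⟨⟨hF'm, ?_⟩, hFR⟩
        rw [hg2.natDegree_mul hF'm, hg2d] at hFd
        omega
      · intro F _
        unfold Pool.Agent.H985.KP.mobg
        rw [if_pos (dvd_mul_right _ _), mul_div_cancel_left₀ _ hg2.ne_zero,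
          MOBL.mob_eq_mu]
    rw [h1]
    obtain ⟨d, g', R1, hd, hR1, hgd, hRd, hcop⟩ := MOBL.gcd_split (g ^ 2) hR
    by_cases hda : d ∣ a
    · obtain ⟨a', rfl⟩ := hda
      obtain ⟨v, w, hvw⟩ := hcop
      -- the class of the quotient
      have h2 : ∀ F : K[X], R ∣ g ^ 2 * F - d * a' ↔ R1 ∣ F - v * a' := by
        intro F
        have e1 : g ^ 2 * F - d * a' = d * (g' * F - a') := by
          rw [hgd]
          ring
        rw [e1, hRd, mul_dvd_mul_iff_left hd.ne_zero]
        constructor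
        · rintro ⟨c, hc⟩
          refine ⟨v * c + w * F, ?_⟩
          linear_combination (-F) * hvw + v * hc
        · rintro ⟨c, hc⟩
          refine ⟨g' * c - w * a', ?_⟩
          linear_combination a' * hvw + g' * hc
      have h3 : (Mon K (n - 2 * g.natDegree)).filter (fun F => R ∣ g ^ 2 * F - d * a') =
          (Mon K (n - 2 * g.natDegree)).filter (fun F => R1 ∣ F - v * a') :=
        filter_congr fun F _ => h2 F
      rw [h3]
      refine (hb R1 (v * a') (n - 2 * g.natDegree) hR1).trans ?_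
      apply mul_le_mul
      · apply mul_le_mul_of_nonneg_left _ hC.le
        exact pow_le_pow_right₀ hq1 (by omega)
      · apply Real.exp_le_exp.mpr
        have h4 : R1.natDegree ≤ R.natDegree := by
          rw [hRd, hd.natDegree_mul hR1]
          omega
        have h5 : ((n - 2 * g.natDegree + R1.natDegree : ℕ) : ℝ) ≤ 3 * n := by
          exact_mod_cast (by omega : n - 2 * g.natDegree + R1.natDegree ≤ 3 * n)
        calc ε / 3 * ((n - 2 * g.natDegree + R1.natDegree : ℕ) : ℝ) ≤ ε / 3 * (3 * n) :=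
              mul_le_mul_of_nonneg_left h5 (by positivity)
          _ = ε * n := by ring
      · exact (Real.exp_pos _).le
      · positivity
    · rw [filter_false_of_mem, sum_empty, abs_zero]
      · exact hnn
      · intro F _ hdiv
        apply hda
        have h3 : d ∣ g ^ 2 * F - a := (dvd_mul_right d R1).trans (hRd ▸ hdiv)
        have h4 : d ∣ g ^ 2 * F := by
          rw [hgd, mul_assoc]
          exact dvd_mul_right _ _
        have h5 := dvd_sub h4 h3
        rwa [sub_sub_cancel] at h5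
  · rw [sum_eq_zero, abs_zero]
    · exact hnn
    · intro F hF
      rw [mem_filter, mem_Mn] at hF
      unfold Pool.Agent.H985.KP.mobg
      rw [if_neg, Int.cast_zero]
      intro h
      have := natDegree_le_of_dvd h hF.1.1.ne_zero
      omega

end Pool.Agent.H251.SP
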