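import Mathlib
import Pool.Agent.H251.SP.TIIa

/-!
# Type II sums (`S_tii`): choice of the parameters
-/

set_option autoImplicit false
set_option linter.all false

open Polynomial Finset
open scoped Classical
open Pool.Agent.H985.Chow (mob)
open Pool.Agent.H985.KP (PA mobg)
open Pool.Agent.H694.Typ (Mn Irn mem_Mn mem_Irn card_Mn pol pol_inj pol_degree exists_pol
  irn_wt_ge irn_one_le wt q_ge)

namespace Pool.Agent.H251.SP

open TII in
theorem tii (hf : S_fb) (hb : S_bf) (hw : S_wm) : S_tii := by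
  intro K _ _ _ ε hε
  set Q : ℝ := (Fintype.card K : ℝ) with hQ
  have hQ2 : (2 : ℝ) ≤ Q := q_ge
  have hQ0 : (0 : ℝ) < Q := by linarith
  have hQ1 : (1 : ℝ) ≤ Q := by linarith
  set e1 : ℝ := min ε (1 / 20) / 2 with he1
  have he10 : 0 < e1 := by
    rw [he1]; exact half_pos (lt_min hε (by norm_num))
  have he1ε : e1 ≤ ε / 2 := by
    rw [he1]; linarith [min_le_left ε (1 / 20)]
  have he140 : e1 ≤ 1 / 40 := by
    rw [he1]; linarith [min_le_right ε (1 / 20)]
  obtain ⟨η, c0, hη, hc0, n1, hfb⟩ := hf K 2 (e1 / 4) (by norm_num) (by linarith)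
  obtain ⟨c1, hc1, n2, hbf⟩ := hb K 2 (e1 / 4) η (by linarith) hη
  obtain ⟨C, hwm⟩ := hw K
  set c : ℝ := min (min (c0 / 2) (c1 / 2)) (min (min (e1 / 8) (ε / 4)) η) with hc
  have hcpos : 0 < c := by
    rw [hc]
    refine lt_min (lt_min ?_ ?_) (lt_min (lt_min ?_ ?_) hη) <;> linarith
  have hcc0 : 2 * c ≤ c0 := by
    have : c ≤ c0 / 2 := (min_le_left _ _).trans (min_le_left _ _)
    linarith
  have hcc1 : 2 * c ≤ c1 := by
    have : c ≤ c1 / 2 := (min_le_left _ _).trans (min_le_right _ _)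
    linarith
  have hcce : 2 * c ≤ e1 / 4 := by
    have : c ≤ e1 / 8 := (min_le_right _ _).trans ((min_le_left _ _).trans (min_le_left _ _))
    linarith
  have hccε : 2 * c ≤ ε / 2 := by
    have : c ≤ ε / 4 := (min_le_right _ _).trans ((min_le_left _ _).trans (min_le_right _ _))
    linarith
  have hccη : c ≤ η := (min_le_right _ _).trans (min_le_right _ _)
  -- the lower bound for `n`
  obtain ⟨n3, hn3⟩ := exists_nat_ge (max (max 100 (2 * Q + 2)) (max (Q ^ 2) (max (20 / e1) (4 / ε))))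
  refine ⟨C + 9, c, hcpos, max (max n1 n2) n3, ?_⟩
  intro n hn j h g α β hj1 hjε h0 hh hg hgc hα hβ
  have hn1 : n1 ≤ n := (le_max_left _ _).trans ((le_max_left _ _).trans hn)
  have hn2 : n2 ≤ n := (le_max_right _ _).trans ((le_max_left _ _).trans hn)
  have hn3' : (n3 : ℝ) ≤ n := by exact_mod_cast (le_max_right _ _).trans hn
  have hnmax := hn3.trans hn3'
  have hn100 : (100 : ℝ) ≤ n := ((le_max_left _ _).trans (le_max_left _ _)).trans hnmax
  have hnQ : 2 * Q + 2 ≤ n := ((le_max_right _ _).trans (le_max_left _ _)).trans hnmax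
  have hnQ2 : Q ^ 2 ≤ n := ((le_max_left _ _).trans (le_max_right _ _)).trans hnmax
  have hne1 : 20 / e1 ≤ n :=
    (((le_max_left _ _).trans (le_max_right _ _)).trans (le_max_right _ _)).trans hnmax
  have hnε : 4 / ε ≤ n :=
    (((le_max_right _ _).trans (le_max_right _ _)).trans (le_max_right _ _)).trans hnmax
  have hne1' : 20 ≤ e1 * n := by
    rw [div_le_iff₀ he10] at hne1; linarith
  have hnε' : 4 ≤ ε * n := by
    rw [div_le_iff₀ hε] at hnε; linarith
  have hn0 : (0 : ℝ) < n := by linarith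
  have hjn4 : (j : ℝ) ≤ n / 4 - 4 := by nlinarith
  have hjn : j ≤ n := by
    have : (j : ℝ) ≤ n := by linarith
    exact_mod_cast this
  have hj0 : (0 : ℝ) ≤ j := Nat.cast_nonneg _
  have hMc : ((Mn K (n - j)).card : ℝ) = Q ^ (n - j) := by
    rw [card_Mn]; push_cast; rfl
  have hQn : Q ^ n = Q ^ j * Q ^ (n - j) := by
    rw [← pow_add]; congr 1; omega
  have hA0 : (0 : ℝ) < Q ^ (n - j) := by positivity
  have hterm : ∀ p B : K[X], |α p * β B * (mobg g (p * B + h) : ℝ)| ≤ 1 := by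
    intro p B
    rw [abs_mul, abs_mul]
    exact mul_le_one₀ (mul_le_one₀ (hα p) (abs_nonneg _) (hβ B)) (abs_nonneg _) (mobg_abs _ _)
  have hinner : ∀ p : K[X], |∑ B ∈ Mn K (n - j), α p * β B * (mobg g (p * B + h) : ℝ)| ≤
      Q ^ (n - j) := by
    intro p
    refine (abs_sum_le_sum_abs _ _).trans ((sum_le_sum fun B _ => hterm p B).trans ?_)
    rw [sum_const, nsmul_eq_mul, mul_one, hMc]
  have hy1 : 0 < Q ^ (-(j : ℝ) / 32) := Real.rpow_pos_of_pos hQ0 _
  have hy2 : 0 < Q ^ (-c * n) := Real.rpow_pos_of_pos hQ0 _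
  by_cases hj40 : j < 40
  · -- trivial bound
    have h1 : |∑ p ∈ Irn K j, ∑ B ∈ Mn K (n - j), α p * β B * (mobg g (p * B + h) : ℝ)| ≤ Q ^ n := by
      refine (abs_sum_le_sum_abs _ _).trans ((sum_le_sum fun p _ => hinner p).trans ?_)
      rw [sum_const, nsmul_eq_mul, hQn]
      exact mul_le_mul_of_nonneg_right card_Irn_le hA0.le
    refine h1.trans ?_
    have h2 : 1 ≤ (n : ℝ) ^ (C + 9) * Q ^ (-(j : ℝ) / 32) := by
      have h3 : Q ^ (-2 : ℝ) ≤ Q ^ (-(j : ℝ) / 32) := by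
        apply Real.rpow_le_rpow_of_exponent_le hQ1
        have : (j : ℝ) ≤ 40 := by exact_mod_cast hj40.le
        linarith
      have h4 : Q ^ (-2 : ℝ) = (Q ^ 2)⁻¹ := by
        rw [Real.rpow_neg hQ0.le]
        norm_cast
      rw [h4] at h3
      have h5 : Q ^ 2 ≤ (n : ℝ) ^ (C + 9) := by
        refine hnQ2.trans ?_
        exact le_self_pow₀ (by linarith) (by omega)
      calc (1 : ℝ) = Q ^ 2 * (Q ^ 2)⁻¹ := by
            rw [mul_inv_cancel₀ (by positivity)]
        _ ≤ (n : ℝ) ^ (C + 9) * Q ^ (-(j : ℝ) / 32) :=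
            mul_le_mul h5 h3 (by positivity) (by positivity)
    have hQnpos : (0 : ℝ) < Q ^ n := by positivity
    have h6 : 0 ≤ (n : ℝ) ^ (C + 9) * Q ^ n * Q ^ (-c * n) := by positivity
    calc Q ^ n = Q ^ n * 1 := by ring
      _ ≤ Q ^ n * ((n : ℝ) ^ (C + 9) * Q ^ (-(j : ℝ) / 32)) :=
          mul_le_mul_of_nonneg_left h2 hQnpos.le
      _ ≤ _ := by
          have : (n : ℝ) ^ (C + 9) * Q ^ n * (Q ^ (-(j : ℝ) / 32) + Q ^ (-c * n)) =
            Q ^ n * ((n : ℝ) ^ (C + 9) * Q ^ (-(j : ℝ) / 32)) +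
              (n : ℝ) ^ (C + 9) * Q ^ n * Q ^ (-c * n) := by ring
          rw [this]; linarith
  · rw [not_lt] at hj40
    have hj40' : (40 : ℝ) ≤ j := by exact_mod_cast hj40
    -- the parameters
    set w : ℝ := min ((j : ℝ) / 2) (e1 * n / 2) with hwdef
    have hw10 : 10 ≤ w := le_min (by linarith) (by linarith)
    have hwj : w ≤ j / 2 := min_le_left _ _
    have hwe : w ≤ e1 * n / 2 := min_le_right _ _
    set v : ℕ := ⌊w⌋₊ with hv
    have hv1 : (v : ℝ) ≤ w := Nat.floor_le (by linarith)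
    have hv2 : w < v + 1 := Nat.lt_floor_add_one w
    have hv9 : 9 ≤ v := by
      have : (9 : ℝ) < v := by linarith
      exact_mod_cast this.le
    obtain ⟨u, huv, huv', hodd⟩ : ∃ u : ℕ, u ≤ v ∧ v ≤ u + 1 ∧ (n + j + u) % 2 = 1 := by
      by_cases hp : (n + j + v) % 2 = 1
      · exact ⟨v, le_rfl, by omega, hp⟩
      · exact ⟨v - 1, by omega, by omega, by omega⟩
    have hu4 : 4 ≤ u := by omega
    have huvR : (u : ℝ) ≤ v := by exact_mod_cast huv
    have huvR' : (v : ℝ) ≤ u + 1 := by exact_mod_cast huv'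
    have huj2 : (u : ℝ) ≤ j / 2 := by linarith
    have hue : (u : ℝ) ≤ e1 * n / 2 := by linarith
    have huj : u < j := by
      have : (u : ℝ) < j := by linarith
      exact_mod_cast this
    have hun : u ≤ n := by omega
    obtain ⟨L, hL⟩ : ∃ L : ℕ, 2 * L + j + u = n + 1 := by
      have h1 : j + u ≤ n + 1 := by
        have : (j : ℝ) + u ≤ n + 1 := by linarith
        exact_mod_cast this
      exact ⟨(n + 1 - j - u) / 2, by omega⟩
    have hLR : 2 * (L : ℝ) + j + u = n + 1 := by exact_mod_cast hL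
    set a : ℕ := j + ⌈e1 * n⌉₊ with ha
    have ha1 : (j : ℝ) + e1 * n ≤ a := by
      rw [ha]; push_cast; linarith [Nat.le_ceil (e1 * (n : ℝ))]
    have ha2 : (a : ℝ) < j + e1 * n + 1 := by
      rw [ha]; push_cast; linarith [Nat.ceil_lt_add_one (show 0 ≤ e1 * (n : ℝ) by positivity)]
    have hja : j < a := by
      have : (j : ℝ) < a := by linarith
      exact_mod_cast this
    have hen : e1 * n ≤ ε / 2 * n := mul_le_mul_of_nonneg_right he1ε hn0.le
    have hen40 : e1 * n ≤ 1 / 40 * n := mul_le_mul_of_nonneg_right he140 hn0.le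
    have h4a : 4 * a ≤ n := by
      have : 4 * (a : ℝ) ≤ n := by nlinarith
      exact_mod_cast this
    have hL1 : 1 ≤ L := by
      have : (1 : ℝ) ≤ L := by linarith
      exact_mod_cast this
    -- the window bound
    have hfb' : ∀ (m B : K[X]) (A P : Fin 2 → K[X]), m ∈ Irn K u → B ∈ Mn K (n - j) →
        Frm n j m A (fun _ => h) → Typ (η * n) m A (fun _ => h) B →
        (∀ i, P i ∈ Irn K a ∧ P i ∣ Ds m (A i) h B) →
        |∑ t ∈ Pl K L, ∏ i, (mobg g (A i * (B + m * t ^ 2) + h) : ℝ)| ≤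
          Q ^ ((L : ℝ) - c0 * n) := by
      intro m B A P hm hB hFrm hT hP
      obtain ⟨hm1, hm2, hm3⟩ := mem_Irn.1 hm
      obtain ⟨hB1, hB2⟩ := mem_Mn.1 hB
      have h1 := hfb n hn1 L j u m B 1 A (fun _ => h) (fun _ => g) P hL hm1 hm3 hm2 hB1
        (by omega) monic_one (by rw [natDegree_one]; simp only [Nat.cast_zero]; positivity) hFrm
        (fun _ => ⟨hg, hgc.trans (mul_le_mul_of_nonneg_right hccη hn0.le)⟩) hT
        (fun i => by
          obtain ⟨hP1, hP2⟩ := hP i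
          obtain ⟨hP3, hP4, hP5⟩ := mem_Irn.1 hP1
          refine ⟨hP3, hP5, hP2, ?_, ?_, ?_⟩
          · rw [hP4]; linarith
          · rw [hP4]; linarith
          · rw [hP4]; linarith)
      have hset : {t : K[X] | t.degree < (L : WithBot ℕ) ∧ (1 : K[X]) ∣ t} = ↑(Pl K L) := by
        ext t
        simp only [Set.mem_setOf_eq, mem_coe, mem_Pl, one_dvd, and_true]
      rw [hset, finsum_mem_coe_finset] at h1
      exact h1
    have hbf' : ∀ (m : K[X]) (A : Fin 2 → K[X]), m ∈ Irn K u → Frm n j m A (fun _ => h) →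
        (∀ i l, i ≠ l →
          derivative (m * A i * h) * A l ^ 2 ≠ derivative (m * A l * h) * A i ^ 2) →
        (((Mn K (n - j)).filter (fun f => ¬ Typ (η * n) m A (fun _ => h) f)).card : ℝ) ≤
          Q ^ (n - j) * (2 / Q ^ u + Q ^ (-c1 * n)) := by
      intro m A hm hFrm hder
      obtain ⟨hm1, hm2, hm3⟩ := mem_Irn.1 hm
      have h1 := hbf n hn2 L j u m A (fun _ => h) hL (by linarith) hm1 hm3 hm2 hFrm hder
      push_cast at h1
      exact h1
    have hwm' := hwm n L j u a h hL hL1 hu4 huj hja h4a h0 hh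
    have hmain := main_ineq (g := g) hL hjn hun hu4 huj hja h4a hh hα hβ hfb' hbf' hwm'
    have hnum := final_num (Q := Q) (N := n) (J := j) (U := u) (A := a) (c0 := c0) (c1 := c1)
      (e1 := e1) (ε := ε) (c := c) (n := n) (j := j) (u := u) (C := C) hQ2 rfl rfl rfl
      (by linarith) hnQ huj2 (by linarith) ha2.le hjε he1ε hcc0 hcc1 hcce hccε
    -- the main part
    set S1 : ℝ := ∑ p ∈ (Irn K j).filter (fun A => ¬ A ∣ h), ∑ B ∈ Mn K (n - j),
      α p * β B * (mobg g (p * B + h) : ℝ) with hS1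
    have hS1sq : S1 ^ 2 ≤ (Q ^ n) ^ 2 * ((n : ℝ) ^ (C + 8) *
        (Q ^ (-(j : ℝ) / 16) + Q ^ (-(2 * c) * n))) :=
      hmain.trans (mul_le_mul_of_nonneg_left hnum (by positivity))
    have hS1abs : |S1| ≤ Q ^ n * ((n : ℝ) ^ (C + 8) * (Q ^ (-(j : ℝ) / 32) + Q ^ (-c * n))) := by
      apply abs_le_of_sq_le_sq _ (by positivity)
      refine hS1sq.trans ?_
      rw [mul_pow (Q ^ n)]
      apply mul_le_mul_of_nonneg_left _ (by positivity)
      rw [mul_pow]
      apply mul_le_mul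
      · have h1 : (1 : ℝ) ≤ (n : ℝ) ^ (C + 8) := one_le_pow₀ (by linarith)
        exact le_self_pow₀ h1 (by norm_num)
      · have e1' : Q ^ (-(j : ℝ) / 16) = (Q ^ (-(j : ℝ) / 32)) ^ 2 := by
          rw [← Real.rpow_natCast, ← Real.rpow_mul hQ0.le]; congr 1; push_cast; ring
        have e2' : Q ^ (-(2 * c) * n) = (Q ^ (-c * n)) ^ 2 := by
          rw [← Real.rpow_natCast, ← Real.rpow_mul hQ0.le]; congr 1; push_cast; ring
        rw [e1', e2']
        nlinarith [mul_pos hy1 hy2]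
      · have h1 : 0 < Q ^ (-(j : ℝ) / 16) := Real.rpow_pos_of_pos hQ0 _
        have h2 : 0 < Q ^ (-(2 * c) * n) := Real.rpow_pos_of_pos hQ0 _
        positivity
      · positivity
    -- the bad `p`
    have hsplit : ∑ p ∈ Irn K j, ∑ B ∈ Mn K (n - j), α p * β B * (mobg g (p * B + h) : ℝ) =
        ∑ p ∈ (Irn K j).filter (fun A => A ∣ h), ∑ B ∈ Mn K (n - j),
          α p * β B * (mobg g (p * B + h) : ℝ) + S1 := by
      rw [hS1, sum_filter_add_sum_filter_not]
    have hS2 : |∑ p ∈ (Irn K j).filter (fun A => A ∣ h), ∑ B ∈ Mn K (n - j),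
          α p * β B * (mobg g (p * B + h) : ℝ)| ≤ n * Q ^ (n - j) := by
      refine (abs_sum_le_sum_abs _ _).trans ((sum_le_sum fun p _ => hinner p).trans ?_)
      rw [sum_const, nsmul_eq_mul]
      exact mul_le_mul_of_nonneg_right (card_bad hj1 h0 hh) hA0.le
    have hS2' : (n : ℝ) * Q ^ (n - j) ≤ n * (Q ^ n * Q ^ (-(j : ℝ) / 32)) := by
      apply mul_le_mul_of_nonneg_left _ hn0.le
      have h1 : Q ^ (-(j : ℝ)) ≤ Q ^ (-(j : ℝ) / 32) :=
        Real.rpow_le_rpow_of_exponent_le hQ1 (by linarith)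
      have h2 : Q ^ (n - j) = Q ^ n * Q ^ (-(j : ℝ)) := by
        rw [Real.rpow_neg hQ0.le, Real.rpow_natCast, hQn]
        field_simp
      rw [h2]
      exact mul_le_mul_of_nonneg_left h1 (by positivity)
    rw [hsplit]
    refine (abs_add_le _ _).trans ((add_le_add (hS2.trans hS2') hS1abs).trans ?_)
    have hC9 : (n : ℝ) ^ (C + 9) = (n : ℝ) ^ (C + 8) * n := by rw [← pow_succ]
    have hn8 : (n : ℝ) ≤ (n : ℝ) ^ (C + 8) := le_self_pow₀ (by linarith) (by omega)
    rw [hC9]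
    have hQnpos : (0 : ℝ) < Q ^ n := by positivity
    have h1 : 0 < Q ^ n * Q ^ (-(j : ℝ) / 32) := by positivity
    have h2 : 0 < Q ^ n * Q ^ (-c * n) := by positivity
    have h8 : 0 < (n : ℝ) ^ (C + 8) := by positivity
    have h3 : (n : ℝ) * (Q ^ n * Q ^ (-(j : ℝ) / 32)) ≤
        (n : ℝ) ^ (C + 8) * (Q ^ n * Q ^ (-(j : ℝ) / 32)) := mul_le_mul_of_nonneg_right hn8 h1.le
    have h4 : (n : ℝ) ^ (C + 8) * (Q ^ n * Q ^ (-(j : ℝ) / 32)) * 2 ≤
        (n : ℝ) ^ (C + 8) * (Q ^ n * Q ^ (-(j : ℝ) / 32)) * n :=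
      mul_le_mul_of_nonneg_left (by linarith) (by positivity)
    have h5 : (n : ℝ) ^ (C + 8) * (Q ^ n * Q ^ (-c * n)) * 1 ≤
        (n : ℝ) ^ (C + 8) * (Q ^ n * Q ^ (-c * n)) * n :=
      mul_le_mul_of_nonneg_left (by linarith) (by positivity)
    calc (n : ℝ) * (Q ^ n * Q ^ (-(j : ℝ) / 32)) +
          Q ^ n * ((n : ℝ) ^ (C + 8) * (Q ^ (-(j : ℝ) / 32) + Q ^ (-c * n))) =
        (n : ℝ) * (Q ^ n * Q ^ (-(j : ℝ) / 32)) +
          (n : ℝ) ^ (C + 8) * (Q ^ n * Q ^ (-(j : ℝ) / 32)) +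
          (n : ℝ) ^ (C + 8) * (Q ^ n * Q ^ (-c * n)) := by ring
      _ ≤ (n : ℝ) ^ (C + 8) * (Q ^ n * Q ^ (-(j : ℝ) / 32)) * n +
          (n : ℝ) ^ (C + 8) * (Q ^ n * Q ^ (-c * n)) * n := by linarith
      _ = _ := by ring

end Pool.Agent.H251.SP
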