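import Mathlib
import Pool.Agent.H251.SP.Stm

/-!
# The Moebius function at shifted primes over `F_q[X]`: type I sums (helper345)
-/

set_option autoImplicit false

namespace Pool.Agent.H251.SP

open Polynomial Finset
open scoped Classical
open Pool.Agent.H985.Chow (mob)
open Pool.Agent.H985.KP (PA mobg)
open Pool.Agent.H694.Typ (Mn Irn mem_Mn card_Mn PU mem_PU wt card_dvd_le wt_nonneg no_dvd)

namespace TiN

section alg

variable {K : Type} [Field K]

lemma abs_mob (F : K[X]) : |(mob F : ℝ)| ≤ 1 := by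
  unfold mob
  split_ifs
  · push_cast
    rw [abs_pow, abs_neg, abs_one, one_pow]
  · simp

lemma abs_mobg (g F : K[X]) : |(mobg g F : ℝ)| ≤ 1 := by
  unfold mobg
  split_ifs
  · exact abs_mob _
  · simp

/-- a monic least common multiple -/
lemma exists_lcm {a b : K[X]} (ha : a ≠ 0) (hb : b ≠ 0) : ∃ R : K[X], R.Monic ∧
    R.natDegree ≤ a.natDegree + b.natDegree ∧ ∀ F, R ∣ F ↔ a ∣ F ∧ b ∣ F := by
  have h0 : EuclideanDomain.lcm a b ≠ 0 := by
    rw [Ne, EuclideanDomain.lcm_eq_zero_iff]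
    rintro (h | h)
    · exact ha h
    · exact hb h
  have hlc : (EuclideanDomain.lcm a b).leadingCoeff ≠ 0 := leadingCoeff_ne_zero.2 h0
  have hu : IsUnit (C (EuclideanDomain.lcm a b).leadingCoeff⁻¹ : K[X]) :=
    isUnit_C.2 (isUnit_iff_ne_zero.2 (inv_ne_zero hlc))
  refine ⟨C (EuclideanDomain.lcm a b).leadingCoeff⁻¹ * EuclideanDomain.lcm a b,
    monic_C_mul_of_mul_leadingCoeff_eq_one (inv_mul_cancel₀ hlc), ?_, fun F => ?_⟩
  · rw [natDegree_C_mul (inv_ne_zero hlc)]
    have h1 : EuclideanDomain.lcm a b ∣ a * b :=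
      EuclideanDomain.lcm_dvd (dvd_mul_right a b) (dvd_mul_left b a)
    have h2 := natDegree_le_of_dvd h1 (mul_ne_zero ha hb)
    rwa [natDegree_mul ha hb] at h2
  · rw [hu.mul_left_dvd, EuclideanDomain.lcm_dvd_iff]

end alg

section main

variable {K : Type} [Field K] [Fintype K]

/-- the primes of degree less than `z` -/
noncomputable def Pz (K : Type) [Field K] [Fintype K] (z : ℕ) : Finset K[X] :=
  (PU K z).filter (fun P => P.natDegree < z)

lemma mem_Pz {z : ℕ} {P : K[X]} : P ∈ Pz K z ↔ P.Monic ∧ Irreducible P ∧ P.natDegree < z := by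
  unfold Pz
  rw [mem_filter, mem_PU]
  constructor
  · rintro ⟨⟨h1, h2, -⟩, h3⟩
    exact ⟨h1, h2, h3⟩
  · rintro ⟨h1, h2, h3⟩
    exact ⟨⟨h1, h2, h3.le⟩, h3⟩

lemma cop_pz {z : ℕ} {P P' : K[X]} (hP : P ∈ Pz K z) (hP' : P' ∈ Pz K z) (h : P ≠ P') :
    IsCoprime P P' := by
  rw [mem_Pz] at hP hP'
  refine (hP.2.1.isCoprime_or_dvd P').resolve_right ?_
  intro hd
  exact h (eq_of_monic_of_associated hP.1 hP'.1 (hP.2.1.associated_of_dvd hP'.2.1 hd))

lemma prod_monic {z : ℕ} {T : Finset K[X]} (hT : T ⊆ Pz K z) : (∏ P ∈ T, P).Monic :=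
  monic_prod_of_monic _ _ fun _ hP => (mem_Pz.1 (hT hP)).1

lemma prod_dvd_iff {z : ℕ} {T : Finset K[X]} (hT : T ⊆ Pz K z) (B : K[X]) :
    (∏ P ∈ T, P) ∣ B ↔ ∀ P ∈ T, P ∣ B := by
  constructor
  · intro h P hP
    exact (Finset.dvd_prod_of_mem (fun P => P) hP).trans h
  · intro h
    refine Finset.prod_dvd_of_coprime ?_ h
    intro P hP P' hP' hne
    exact cop_pz (hT hP) (hT hP') hne

lemma prod_inj {z : ℕ} {T T' : Finset K[X]} (hT : T ⊆ Pz K z) (hT' : T' ⊆ Pz K z)
    (h : ∏ P ∈ T, P = ∏ P ∈ T', P) : T = T' := by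
  have key : ∀ T T' : Finset K[X], T ⊆ Pz K z → T' ⊆ Pz K z → ∏ P ∈ T, P = ∏ P ∈ T', P →
      T ⊆ T' := by
    intro T T' hT hT' h P hP
    have h1 : P ∣ ∏ P ∈ T', P := by
      rw [← h]
      exact Finset.dvd_prod_of_mem (fun P => P) hP
    obtain ⟨P', hP', h2⟩ := (mem_Pz.1 (hT hP)).2.1.prime.exists_mem_finset_dvd h1
    by_contra hc
    have hne : P ≠ P' := fun h => hc (h ▸ hP')
    have h3 := cop_pz (hT hP) (hT' hP') hne
    exact (mem_Pz.1 (hT hP)).2.1.not_isUnit (h3.isUnit_of_dvd' dvd_rfl h2)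
  exact Finset.Subset.antisymm (key T T' hT hT' h) (key T' T hT' hT h.symm)

/-- the sieve identity -/
lemma sieve_id (z : ℕ) (B : K[X]) : (if Rgh z B then (1 : ℝ) else 0) =
    ∑ T ∈ (Pz K z).powerset, (-1) ^ T.card * (if (∏ P ∈ T, P) ∣ B then (1 : ℝ) else 0) := by
  have h1 : (if Rgh z B then (1 : ℝ) else 0) =
      ∏ P ∈ Pz K z, (1 - (if P ∣ B then (1 : ℝ) else 0)) := by
    split_ifs with h
    · symm
      apply Finset.prod_eq_one
      intro P hP
      rw [mem_Pz] at hP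
      rw [if_neg, sub_zero]
      intro hd
      have := h P hP.1 hP.2.1 hd
      omega
    · unfold Rgh at h
      push Not at h
      obtain ⟨P, h1, h2, h3, h4⟩ := h
      symm
      apply Finset.prod_eq_zero (i := P) (mem_Pz.2 ⟨h1, h2, h4⟩)
      rw [if_pos h3, sub_self]
  have h2 : ∏ P ∈ Pz K z, (1 - (if P ∣ B then (1 : ℝ) else 0)) =
      ∏ P ∈ Pz K z, (-(if P ∣ B then (1 : ℝ) else 0) + 1) := by
    refine Finset.prod_congr rfl fun P _ => ?_
    ring
  rw [h1, h2, Finset.prod_add_one]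
  refine Finset.sum_congr rfl fun T hT => ?_
  rw [Finset.mem_powerset] at hT
  rw [Finset.prod_neg]
  congr 1
  split_ifs with h
  · apply Finset.prod_eq_one
    intro P hP
    rw [if_pos ((prod_dvd_iff hT B).1 h P hP)]
  · rw [prod_dvd_iff hT] at h
    push Not at h
    obtain ⟨P, hP, h3⟩ := h
    exact Finset.prod_eq_zero hP (if_neg h3)

/-- the inner sum -/
noncomputable def In (n : ℕ) (D h g Q r d : K[X]) : ℝ :=
  ∑ B ∈ (Mn K (n - D.natDegree)).filter (fun B => d ∣ B ∧ Q ∣ D * B - r), (mobg g (D * B + h) : ℝ)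

lemma sum_eq (n z : ℕ) (D h g Q r : K[X]) :
    ∑ B ∈ (Mn K (n - D.natDegree)).filter (fun B => Rgh z B ∧ Q ∣ D * B - r),
      (mobg g (D * B + h) : ℝ) =
    ∑ T ∈ (Pz K z).powerset, (-1) ^ T.card * In n D h g Q r (∏ P ∈ T, P) := by
  have e1 : ∑ B ∈ (Mn K (n - D.natDegree)).filter (fun B => Rgh z B ∧ Q ∣ D * B - r),
      (mobg g (D * B + h) : ℝ) =
      ∑ B ∈ (Mn K (n - D.natDegree)).filter (fun B => Q ∣ D * B - r),
        (if Rgh z B then (1 : ℝ) else 0) * (mobg g (D * B + h) : ℝ) := by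
    rw [Finset.sum_filter, Finset.sum_filter]
    refine Finset.sum_congr rfl fun B _ => ?_
    by_cases h1 : Rgh z B <;> by_cases h2 : Q ∣ D * B - r <;> simp [h1, h2]
  rw [e1]
  simp_rw [sieve_id z, Finset.sum_mul]
  rw [Finset.sum_comm]
  refine Finset.sum_congr rfl fun T _ => ?_
  unfold In
  rw [Finset.mul_sum, Finset.sum_filter, Finset.sum_filter]
  refine Finset.sum_congr rfl fun B _ => ?_
  by_cases h1 : (∏ P ∈ T, P) ∣ B <;> by_cases h2 : Q ∣ D * B - r <;> simp [h1, h2]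

/-- the trivial bound -/
lemma In_triv (n : ℕ) {D h g Q r d : K[X]} (hd : d.Monic) :
    |In n D h g Q r d| ≤ (Fintype.card K : ℝ) ^ (n - D.natDegree) *
      ((Fintype.card K : ℝ) ^ d.natDegree)⁻¹ := by
  unfold In
  refine (Finset.abs_sum_le_sum_abs _ _).trans ?_
  refine (Finset.sum_le_sum fun B _ => abs_mobg g (D * B + h)).trans ?_
  rw [Finset.sum_const, nsmul_eq_mul, mul_one]
  refine le_trans ?_ (card_dvd_le (n := n - D.natDegree) hd)
  have h1 : (Mn K (n - D.natDegree)).filter (fun B => d ∣ B ∧ Q ∣ D * B - r) ⊆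
      (Mn K (n - D.natDegree)).filter (fun B => d ∣ B) := by
    intro B hB
    rw [mem_filter] at hB ⊢
    exact ⟨hB.1, hB.2.1⟩
  exact_mod_cast Finset.card_le_card h1

/-- the inner sum is zero for large degree -/
lemma In_zero (n : ℕ) {D h g Q r d : K[X]} (hd : n < d.natDegree) : In n D h g Q r d = 0 := by
  unfold In
  rw [Finset.filter_eq_empty_iff.2, Finset.sum_empty]
  intro B hB hc
  exact no_dvd (by omega) hB hc.1

/-- the nontrivial bound -/
lemma In_mob (n : ℕ) {D h g Q r d : K[X]} {S : ℝ} (hS : 0 ≤ S) (hD : D.Monic) (hd : d.Monic)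
    (hQ : Q.Monic) (hh : h.natDegree < n) (hDn : D.natDegree ≤ n)
    (hdeg : D.natDegree + d.natDegree + Q.natDegree ≤ 2 * n)
    (hmob : ∀ R a : K[X], R.Monic → R.natDegree ≤ 2 * n →
      |∑ F ∈ (Mn K n).filter (fun F => R ∣ F - a), (mobg g F : ℝ)| ≤ S) :
    |In n D h g Q r d| ≤ S := by
  obtain ⟨R, hR, hRd, hRi⟩ := exists_lcm (hD.mul hd).ne_zero hQ.ne_zero
  rw [hD.natDegree_mul hd] at hRd
  by_cases hex : ∃ B₀ ∈ Mn K (n - D.natDegree), d ∣ B₀ ∧ Q ∣ D * B₀ - r
  · obtain ⟨B₀, hB₀, hd₀, hQ₀⟩ := hex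
    refine le_trans (le_of_eq ?_) (hmob R (D * B₀ + h) hR (by omega))
    congr 1
    unfold In
    refine Finset.sum_bij (fun B _ => D * B + h) ?_ ?_ ?_ ?_
    · intro B hB
      rw [mem_filter, mem_Mn] at hB
      rw [mem_filter, mem_Mn]
      obtain ⟨⟨hBm, hBd⟩, hdB, hQB⟩ := hB
      have hm : (D * B).Monic := hD.mul hBm
      have hdg : (D * B).natDegree = n := by
        rw [hD.natDegree_mul hBm, hBd]
        omega
      refine ⟨⟨?_, ?_⟩, ?_⟩
      · apply hm.add_of_left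
        apply degree_lt_degree
        rw [hdg]; exact hh
      · rw [natDegree_add_eq_left_of_natDegree_lt (by rw [hdg]; exact hh), hdg]
      · rw [hRi]
        constructor
        · have e : D * B + h - (D * B₀ + h) = D * (B - B₀) := by ring
          rw [e]
          exact mul_dvd_mul_left D (dvd_sub hdB hd₀)
        · have e : D * B + h - (D * B₀ + h) = (D * B - r) - (D * B₀ - r) := by ring
          rw [e]
          exact dvd_sub hQB hQ₀
    · intro B _ B' _ he
      have h1 : D * B = D * B' := add_right_cancel he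
      exact mul_left_cancel₀ hD.ne_zero h1
    · intro F hF
      rw [mem_filter, mem_Mn, hRi] at hF
      obtain ⟨⟨hFm, hFd⟩, h1, h2⟩ := hF
      obtain ⟨x, hx⟩ := h1
      have e1 : F = D * (B₀ + d * x) + h := by
        have : F = (F - (D * B₀ + h)) + (D * B₀ + h) := by ring
        rw [this, hx]
        ring
      have hFh : F - h = D * (B₀ + d * x) := by rw [e1]; ring
      have hm' : (F - h).Monic := by
        rw [sub_eq_add_neg]
        apply hFm.add_of_left
        apply degree_lt_degree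
        rw [natDegree_neg, hFd]; exact hh
      have hdg' : (F - h).natDegree = n := by
        rw [natDegree_sub_eq_left_of_natDegree_lt (by rw [hFd]; exact hh), hFd]
      rw [hFh] at hm' hdg'
      have hBm : (B₀ + d * x).Monic := hD.of_mul_monic_left hm'
      refine ⟨B₀ + d * x, ?_, e1.symm⟩
      rw [mem_filter, mem_Mn]
      refine ⟨⟨hBm, ?_⟩, dvd_add hd₀ (dvd_mul_right d x), ?_⟩
      · rw [hD.natDegree_mul hBm] at hdg'
        omega
      · have e : D * (B₀ + d * x) - r = (F - (D * B₀ + h)) + (D * B₀ - r) := by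
          rw [e1]; ring
        rw [e]
        exact dvd_add h2 hQ₀
    · intro B _
      rfl
  · have h0 : In n D h g Q r d = 0 := by
      unfold In
      rw [Finset.filter_eq_empty_iff.2, Finset.sum_empty]
      intro B hB hc
      exact hex ⟨B, hB, hc⟩
    rw [h0, abs_zero]
    exact hS

omit [Field K] in
lemma geo_le (Y : ℕ) [Nontrivial K] :
    ∑ i ∈ Finset.range Y, Fintype.card K ^ i ≤ Fintype.card K ^ Y := by
  have hq : 1 < Fintype.card K := Fintype.one_lt_card
  induction Y with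
  | zero => simp
  | succ Y ih =>
    rw [Finset.sum_range_succ]
    have h3 : Fintype.card K ^ Y * 2 ≤ Fintype.card K ^ (Y + 1) := by
      rw [pow_succ]
      exact Nat.mul_le_mul_left _ hq
    omega

/-- the number of the small divisors -/
lemma card_small (z Y : ℕ) :
    (((Pz K z).powerset.filter (fun T => (∏ P ∈ T, P).natDegree < Y)).card : ℝ) ≤
      (Fintype.card K : ℝ) ^ Y := by
  have h1 : ((Pz K z).powerset.filter (fun T => (∏ P ∈ T, P).natDegree < Y)).card ≤
      ((Finset.range Y).biUnion (fun i => Mn K i)).card := by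
    refine Finset.card_le_card_of_injOn (fun T => ∏ P ∈ T, P) ?_ ?_
    · intro T hT
      rw [Finset.mem_coe, mem_filter, mem_powerset] at hT
      rw [Finset.mem_coe, mem_biUnion]
      exact ⟨_, mem_range.2 hT.2, mem_Mn.2 ⟨prod_monic hT.1, rfl⟩⟩
    · intro T hT T' hT' he
      rw [Finset.mem_coe, mem_filter, mem_powerset] at hT hT'
      exact prod_inj hT.1 hT'.1 he
  have h2 : ((Finset.range Y).biUnion (fun i => Mn K i)).card ≤ Fintype.card K ^ Y := by
    refine Finset.card_biUnion_le.trans ?_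
    simp_rw [card_Mn]
    exact geo_le Y
  exact_mod_cast h1.trans h2

lemma prod_sqf {z : ℕ} {T : Finset K[X]} (hT : T ⊆ Pz K z) : Squarefree (∏ P ∈ T, P) := by
  refine Finset.squarefree_prod_of_pairwise_isCoprime ?_ ?_
  · intro P hP P' hP' hne
    exact (cop_pz (hT hP) (hT hP') hne).isRelPrime
  · intro P hP
    exact (mem_Pz.1 (hT hP)).2.1.squarefree

lemma prod_smo {z : ℕ} {T : Finset K[X]} (hT : T ⊆ Pz K z) : Smo z (∏ P ∈ T, P) := by
  intro P hPm hPi hd
  obtain ⟨P', hP', h2⟩ := hPi.prime.exists_mem_finset_dvd hd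
  have h3 := mem_Pz.1 (hT hP')
  have h4 : P = P' := eq_of_monic_of_associated hPm h3.1 (hPi.associated_of_dvd h3.2.1 h2)
  rw [h4]
  exact h3.2.2

/-- the number of the divisors of given degree -/
lemma card_deg (z i : ℕ) (s : Finset (Finset K[X])) (hs : s ⊆ (Pz K z).powerset) :
    ((s.filter (fun T => (∏ P ∈ T, P).natDegree = i)).card : ℝ) ≤
      (((Mn K i).filter (fun d => Squarefree d ∧ Smo z d)).card : ℝ) := by
  have h1 : (s.filter (fun T => (∏ P ∈ T, P).natDegree = i)).card ≤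
      ((Mn K i).filter (fun d => Squarefree d ∧ Smo z d)).card := by
    refine Finset.card_le_card_of_injOn (fun T => ∏ P ∈ T, P) ?_ ?_
    · intro T hT
      rw [Finset.mem_coe, mem_filter] at hT
      have h2 := mem_powerset.1 (hs hT.1)
      rw [Finset.mem_coe, mem_filter]
      exact ⟨mem_Mn.2 ⟨prod_monic h2, hT.2⟩, prod_sqf h2, prod_smo h2⟩
    · intro T hT T' hT' he
      rw [Finset.mem_coe, mem_filter] at hT hT'
      exact prod_inj (mem_powerset.1 (hs hT.1)) (mem_powerset.1 (hs hT'.1)) he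
  exact_mod_cast h1

/-- the large divisors -/
lemma large (n z Y : ℕ) (D h g Q r : K[X]) :
    ∑ T ∈ (Pz K z).powerset.filter (fun T => ¬ (∏ P ∈ T, P).natDegree < Y),
      |In n D h g Q r (∏ P ∈ T, P)| ≤
    (Fintype.card K : ℝ) ^ (n - D.natDegree) * ∑ i ∈ Icc Y n,
      (((Mn K i).filter (fun d => Squarefree d ∧ Smo z d)).card : ℝ) /
        (Fintype.card K : ℝ) ^ i := by
  have hq0 : (0 : ℝ) < Fintype.card K := by exact_mod_cast Fintype.card_pos
  obtain ⟨s, hs⟩ : ∃ s : Finset (Finset K[X]), s = (Pz K z).powerset.filter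
    (fun T => Y ≤ (∏ P ∈ T, P).natDegree ∧ (∏ P ∈ T, P).natDegree ≤ n) := ⟨_, rfl⟩
  have hsub : s ⊆ (Pz K z).powerset := by rw [hs]; exact Finset.filter_subset _ _
  have h1 : ∑ T ∈ (Pz K z).powerset.filter (fun T => ¬ (∏ P ∈ T, P).natDegree < Y),
      |In n D h g Q r (∏ P ∈ T, P)| ≤ ∑ T ∈ s, |In n D h g Q r (∏ P ∈ T, P)| := by
    rw [hs]
    refine (Finset.sum_subset_zero_on_sdiff ?_ ?_ fun _ _ => rfl).ge
    · intro T hT
      rw [mem_filter] at hT ⊢
      exact ⟨hT.1, by omega⟩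
    · intro T hT
      rw [mem_sdiff, mem_filter, mem_filter] at hT
      rw [In_zero, abs_zero]
      by_contra hc
      exact hT.2 ⟨hT.1.1, by omega, by omega⟩
  refine h1.trans ?_
  have h2 : ∑ T ∈ s, |In n D h g Q r (∏ P ∈ T, P)| ≤ ∑ T ∈ s,
      (Fintype.card K : ℝ) ^ (n - D.natDegree) *
        ((Fintype.card K : ℝ) ^ (∏ P ∈ T, P).natDegree)⁻¹ :=
    Finset.sum_le_sum fun T hT => In_triv n (prod_monic (mem_powerset.1 (hsub hT)))
  refine h2.trans ?_
  rw [← Finset.mul_sum]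
  refine mul_le_mul_of_nonneg_left ?_ (by positivity)
  rw [← Finset.sum_fiberwise_of_maps_to (s := s) (t := Icc Y n)
    (g := fun T => (∏ P ∈ T, P).natDegree) (fun T hT => by
      rw [hs, mem_filter] at hT
      exact mem_Icc.2 hT.2)]
  refine Finset.sum_le_sum fun i _ => ?_
  have h3 : ∀ T ∈ s.filter (fun T => (∏ P ∈ T, P).natDegree = i),
      ((Fintype.card K : ℝ) ^ (∏ P ∈ T, P).natDegree)⁻¹ = ((Fintype.card K : ℝ) ^ i)⁻¹ := by
    intro T hT
    rw [(mem_filter.1 hT).2]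
  rw [Finset.sum_congr rfl h3, Finset.sum_const, nsmul_eq_mul, div_eq_mul_inv]
  exact mul_le_mul_of_nonneg_right (card_deg z i s hsub) (by positivity)

end main

end TiN

open TiN

/-- **Task TI.** -/
theorem ti (hm : S_mob) (ht : S_tail) : S_ti := by
  intro K _ _ A₀ δ hδ
  obtain ⟨q, hqdef⟩ : ∃ q : ℝ, q = Fintype.card K := ⟨_, rfl⟩
  have hq1 : (1 : ℝ) < q := by rw [hqdef]; exact_mod_cast Fintype.one_lt_card
  have hq0 : (0 : ℝ) < q := by linarith
  have hlq : 0 < Real.log q := Real.log_pos hq1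
  obtain ⟨C, hC, hmob⟩ := hm K (δ * Real.log q / 8) (by positivity)
  obtain ⟨n1, htail⟩ := ht K (A₀ + 1) (δ / 8) (by positivity)
  have hr1 : 1 < q ^ (δ / 4) := Real.one_lt_rpow hq1 (by positivity)
  have hlim := (tendsto_pow_const_div_const_pow_of_one_lt A₀ hr1).const_mul (2 * C * q)
  rw [mul_zero] at hlim
  obtain ⟨n2, hn2⟩ := Filter.eventually_atTop.1 (hlim.eventually (gt_mem_nhds one_pos))
  refine ⟨n1 + n2 + A₀ + 2, ?_⟩
  intro n hn z D h g Q r hz hD hDs hDr hDd hh hg hgd hQ hQd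
  rw [← hqdef]
  have hn0 : (0 : ℝ) < n := by exact_mod_cast (by omega : 0 < n)
  have hn2' : (2 : ℝ) ≤ n := by exact_mod_cast (by omega : 2 ≤ n)
  have hδ1 : δ ≤ 1 := by
    have h1 : (0 : ℝ) ≤ (1 - δ) * n := le_trans (by positivity) hDd
    have h2 : 0 ≤ 1 - δ := nonneg_of_mul_nonneg_left h1 hn0
    linarith
  have hδn : δ * n ≤ n := by nlinarith
  obtain ⟨Y, hY⟩ : ∃ Y : ℕ, Y = ⌈δ / 8 * n⌉₊ := ⟨_, rfl⟩
  have hY1 : (Y : ℝ) < δ / 8 * n + 1 := by
    rw [hY]
    exact Nat.ceil_lt_add_one (by positivity)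
  rw [sum_eq]
  refine (Finset.abs_sum_le_sum_abs _ _).trans ?_
  have e1 : ∑ T ∈ (Pz K z).powerset, |(-1) ^ T.card * In n D h g Q r (∏ P ∈ T, P)| =
      ∑ T ∈ (Pz K z).powerset, |In n D h g Q r (∏ P ∈ T, P)| := by
    refine Finset.sum_congr rfl fun T _ => ?_
    rw [abs_mul, abs_pow, abs_neg, abs_one, one_pow, one_mul]
  rw [e1, ← Finset.sum_filter_add_sum_filter_not _
    (fun T : Finset K[X] => (∏ P ∈ T, P).natDegree < Y)]
  -- the degrees
  have hDn2 : (D.natDegree : ℝ) ≤ n / 2 := by nlinarith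
  have hDn : D.natDegree ≤ n := by
    have : (D.natDegree : ℝ) ≤ n := by linarith
    exact_mod_cast this
  -- the small divisors
  have hsmall : ∑ T ∈ (Pz K z).powerset.filter (fun T => (∏ P ∈ T, P).natDegree < Y),
      |In n D h g Q r (∏ P ∈ T, P)| ≤
      q ^ Y * (C * q ^ ((n : ℝ) / 2) * Real.exp (δ * Real.log q / 8 * n)) := by
    have h1 : ∀ T ∈ (Pz K z).powerset.filter (fun T => (∏ P ∈ T, P).natDegree < Y),
        |In n D h g Q r (∏ P ∈ T, P)| ≤
        C * q ^ ((n : ℝ) / 2) * Real.exp (δ * Real.log q / 8 * n) := by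
      intro T hT
      rw [mem_filter, mem_powerset] at hT
      refine In_mob n (by positivity) hD (prod_monic hT.1) hQ hh hDn ?_ ?_
      · have h2 : ((∏ P ∈ T, P).natDegree : ℝ) < δ / 8 * n := by
          have h3 := hT.2
          rw [hY, Nat.lt_ceil] at h3
          exact h3
        have h3 : (D.natDegree : ℝ) + (∏ P ∈ T, P).natDegree ≤ n := by nlinarith
        have h4 : D.natDegree + (∏ P ∈ T, P).natDegree ≤ n := by exact_mod_cast h3
        omega
      · intro R a hR hRd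
        have h2 := hmob n R a g hR hRd hg (by omega)
        rw [← hqdef] at h2
        exact h2
    refine (Finset.sum_le_sum h1).trans ?_
    rw [Finset.sum_const, nsmul_eq_mul]
    refine mul_le_mul_of_nonneg_right ?_ (by positivity)
    have h2 := card_small (K := K) z Y
    rw [← hqdef] at h2
    exact h2
  have hlarge := large n z Y D h g Q r
  rw [← hqdef] at hlarge
  have htl := htail n (by omega) z (hz.trans (Nat.mul_le_mul_right _ (by omega)))
  rw [← hqdef, ← hY] at htl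
  -- the sizes
  have hX : (q ^ (n - D.natDegree) : ℝ) = q ^ ((n : ℝ) - D.natDegree) := by
    rw [← Real.rpow_natCast, Nat.cast_sub hDn]
  have hXpos : (0 : ℝ) < q ^ (n - D.natDegree) := by positivity
  have hnA : (0 : ℝ) < (n : ℝ) ^ A₀ := by positivity
  have hs1 : q ^ Y * (C * q ^ ((n : ℝ) / 2) * Real.exp (δ * Real.log q / 8 * n)) ≤
      q ^ (n - D.natDegree) / (2 * (n : ℝ) ^ A₀) := by
    rw [le_div_iff₀ (by positivity)]
    have e2 : Real.exp (δ * Real.log q / 8 * n) = q ^ (δ / 8 * n) := by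
      rw [Real.rpow_def_of_pos hq0]
      congr 1
      ring
    have e3 : (q : ℝ) ^ Y ≤ q ^ (δ / 8 * n + 1) := by
      rw [← Real.rpow_natCast]
      exact Real.rpow_le_rpow_of_exponent_le hq1.le hY1.le
    have h3 : 2 * C * q * ((n : ℝ) ^ A₀ / (q ^ (δ / 4)) ^ n) < 1 := hn2 n (by omega)
    have h4 : 2 * C * q * (n : ℝ) ^ A₀ ≤ q ^ (δ / 4 * n) := by
      rw [← mul_div_assoc, div_lt_one (by positivity)] at h3
      have e4 : (q ^ (δ / 4)) ^ n = q ^ (δ / 4 * n) := by
        rw [← Real.rpow_natCast, ← Real.rpow_mul hq0.le]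
      rw [e4] at h3
      exact h3.le
    rw [hX, e2]
    calc q ^ Y * (C * q ^ ((n : ℝ) / 2) * q ^ (δ / 8 * n)) * (2 * (n : ℝ) ^ A₀)
        ≤ q ^ (δ / 8 * n + 1) * (C * q ^ ((n : ℝ) / 2) * q ^ (δ / 8 * n)) * (2 * (n : ℝ) ^ A₀) := by
          gcongr
      _ = (2 * C * q * (n : ℝ) ^ A₀) * (q ^ (δ / 8 * n) * q ^ ((n : ℝ) / 2) * q ^ (δ / 8 * n)) := by
          rw [Real.rpow_add hq0, Real.rpow_one]
          ring
      _ ≤ q ^ (δ / 4 * n) * (q ^ (δ / 8 * n) * q ^ ((n : ℝ) / 2) * q ^ (δ / 8 * n)) := by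
          gcongr
      _ = q ^ (δ / 4 * n + (δ / 8 * n + (n : ℝ) / 2 + δ / 8 * n)) := by
          rw [← Real.rpow_add hq0, ← Real.rpow_add hq0, ← Real.rpow_add hq0]
      _ ≤ q ^ ((n : ℝ) - D.natDegree) := by
          apply Real.rpow_le_rpow_of_exponent_le hq1.le
          nlinarith
  have hs2 : q ^ (n - D.natDegree) * (1 / (n : ℝ) ^ (A₀ + 1)) ≤
      q ^ (n - D.natDegree) / (2 * (n : ℝ) ^ A₀) := by
    rw [mul_one_div]
    apply div_le_div_of_nonneg_left hXpos.le (by positivity)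
    rw [pow_succ, mul_comm]
    exact mul_le_mul_of_nonneg_left hn2' hnA.le
  have hs3 : q ^ (n - D.natDegree) / (n : ℝ) ^ A₀ = q ^ (n - D.natDegree) / (2 * (n : ℝ) ^ A₀) +
      q ^ (n - D.natDegree) / (2 * (n : ℝ) ^ A₀) := by
    field_simp
    ring
  rw [hs3]
  refine add_le_add (hsmall.trans hs1) (hlarge.trans (le_trans ?_ hs2))
  exact mul_le_mul_of_nonneg_left htl hXpos.le

end Pool.Agent.H251.SP
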