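import Pool.Agent.H251.SP.Stm

/-!
# Task WM of project SP (helper251), by helper734: the second moment of the weights, assembly
-/

set_option autoImplicit false

namespace Pool.Agent.H251.SP

open Polynomial Finset
open scoped Classical
open Pool.Agent.H694.Typ (Mn Irn mem_Mn card_Mn mem_Irn irn_wt_ge q_ge wt)

namespace WM

section abstract

variable {α β γ : Type} (𝒜 : Finset α) (ℱ : Finset β) (ℳ : Finset γ) (g : γ → α → β → ℝ)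

theorem cs {x : β → ℝ} {E : ℝ} (h : ∑ f ∈ ℱ, x f ^ 2 ≤ E) :
    |∑ f ∈ ℱ, x f| ≤ √((ℱ.card : ℝ) * E) := by
  apply Real.abs_le_sqrt
  refine (sq_sum_le_card_mul_sum_sq).trans ?_
  exact mul_le_mul_of_nonneg_left h (Nat.cast_nonneg _)

theorem expand (κ : ℝ) (G : γ → α → ℝ) :
    ∑ A₁ ∈ 𝒜, ∑ A₂ ∈ 𝒜, (1 - (∑ m ∈ ℳ, G m A₁ * G m A₂) / κ) ^ 2 =
      (𝒜.card : ℝ) ^ 2 - 2 / κ * ∑ m ∈ ℳ, (∑ A ∈ 𝒜, G m A) ^ 2 +
        1 / κ ^ 2 * ∑ m ∈ ℳ, ∑ m' ∈ ℳ, (∑ A ∈ 𝒜, G m A * G m' A) ^ 2 := by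
  have h1 : ∀ A₁ A₂, (1 - (∑ m ∈ ℳ, G m A₁ * G m A₂) / κ) ^ 2 =
      1 - 2 / κ * (∑ m ∈ ℳ, G m A₁ * G m A₂) +
        1 / κ ^ 2 * ∑ m ∈ ℳ, ∑ m' ∈ ℳ, (G m A₁ * G m' A₁) * (G m A₂ * G m' A₂) := by
    intro A₁ A₂
    have h2 : ∑ m ∈ ℳ, ∑ m' ∈ ℳ, (G m A₁ * G m' A₁) * (G m A₂ * G m' A₂) =
        (∑ m ∈ ℳ, G m A₁ * G m A₂) ^ 2 := by
      rw [sq, Finset.sum_mul_sum]
      exact sum_congr rfl fun m _ => sum_congr rfl fun m' _ => by ring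
    rw [h2]
    ring
  simp only [h1, sum_add_distrib, sum_sub_distrib, ← mul_sum]
  congr 1
  · congr 1
    · simp only [sum_const, nsmul_eq_mul, mul_one]
      ring
    · congr 1
      rw [show ∑ A₁ ∈ 𝒜, ∑ A₂ ∈ 𝒜, ∑ m ∈ ℳ, G m A₁ * G m A₂ =
          ∑ A₁ ∈ 𝒜, ∑ m ∈ ℳ, ∑ A₂ ∈ 𝒜, G m A₁ * G m A₂ from
        sum_congr rfl fun A₁ _ => sum_comm, sum_comm]
      refine sum_congr rfl fun m _ => ?_
      rw [sq, Finset.sum_mul_sum]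
  · congr 1
    have h3 : ∑ A₁ ∈ 𝒜, ∑ A₂ ∈ 𝒜, ∑ m ∈ ℳ, ∑ m' ∈ ℳ, (G m A₁ * G m' A₁) * (G m A₂ * G m' A₂) =
        ∑ A₁ ∈ 𝒜, ∑ m ∈ ℳ, ∑ m' ∈ ℳ, ∑ A₂ ∈ 𝒜, (G m A₁ * G m' A₁) * (G m A₂ * G m' A₂) := by
      refine sum_congr rfl fun A₁ _ => ?_
      rw [sum_comm]
      exact sum_congr rfl fun m _ => sum_comm
    rw [h3, sum_comm]
    refine sum_congr rfl fun m _ => ?_
    rw [sum_comm]
    refine sum_congr rfl fun m' _ => ?_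
    rw [sq, Finset.sum_mul_sum]

theorem sum_X (G : α → ℝ) : ∑ A ∈ 𝒜, G A = 𝒜.card + ∑ A ∈ 𝒜, (G A - 1) := by
  rw [sum_sub_distrib, sum_const, nsmul_eq_mul, mul_one]
  ring

theorem sum_Y (G G' : α → ℝ) : ∑ A ∈ 𝒜, G A * G' A = 𝒜.card + ∑ A ∈ 𝒜, (G A - 1) +
    ∑ A ∈ 𝒜, (G' A - 1) + ∑ A ∈ 𝒜, (G A - 1) * (G' A - 1) := by
  have h : ∀ A, G A * G' A = 1 + (G A - 1) + (G' A - 1) + (G A - 1) * (G' A - 1) := by
    intro A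
    ring
  simp only [fun A => h A, sum_add_distrib, sum_const, nsmul_eq_mul, mul_one]

/-- The abstract second moment. -/
theorem moment {E₁ E₂ G : ℝ} (hk : 0 < ℳ.card) (hE₁ : 0 ≤ E₁) (hE₂ : 0 ≤ E₂)
    (h1 : ∀ m ∈ ℳ, ∑ f ∈ ℱ, (∑ A ∈ 𝒜, (g m A f - 1)) ^ 2 ≤ E₁)
    (h2 : ∀ m ∈ ℳ, ∀ m' ∈ ℳ, m ≠ m' →
      ∑ f ∈ ℱ, (∑ A ∈ 𝒜, (g m A f - 1) * (g m' A f - 1)) ^ 2 ≤ E₂)
    (h3 : ∀ m ∈ ℳ, ∀ A ∈ 𝒜, ∀ f ∈ ℱ, 0 ≤ g m A f ∧ g m A f ≤ G) :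
    ∑ A₁ ∈ 𝒜, ∑ A₂ ∈ 𝒜, ∑ f ∈ ℱ, (1 - (∑ m ∈ ℳ, g m A₁ f * g m A₂ f) / (ℳ.card : ℝ)) ^ 2 ≤
      8 * (𝒜.card : ℝ) * √((ℱ.card : ℝ) * E₁) + 2 * (𝒜.card : ℝ) * √((ℱ.card : ℝ) * E₂) +
        6 * E₁ + 3 * E₂ + 1 / (ℳ.card : ℝ) * ((ℱ.card : ℝ) * ((𝒜.card : ℝ) * G ^ 2) ^ 2) := by
  obtain ⟨W, hW⟩ : ∃ W : ℝ, W = (𝒜.card : ℝ) := ⟨_, rfl⟩
  obtain ⟨F, hF⟩ : ∃ F : ℝ, F = (ℱ.card : ℝ) := ⟨_, rfl⟩
  obtain ⟨κ, hκ⟩ : ∃ κ : ℝ, κ = (ℳ.card : ℝ) := ⟨_, rfl⟩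
  have hW0 : 0 ≤ W := by rw [hW]; exact Nat.cast_nonneg _
  have hF0 : 0 ≤ F := by rw [hF]; exact Nat.cast_nonneg _
  have hκ0 : 0 < κ := by rw [hκ]; exact_mod_cast hk
  obtain ⟨a₁, ha₁⟩ : ∃ a : ℝ, a = √(F * E₁) := ⟨_, rfl⟩
  obtain ⟨a₂, ha₂⟩ : ∃ a : ℝ, a = √(F * E₂) := ⟨_, rfl⟩
  have ha₁0 : 0 ≤ a₁ := by rw [ha₁]; exact Real.sqrt_nonneg _
  have ha₂0 : 0 ≤ a₂ := by rw [ha₂]; exact Real.sqrt_nonneg _
  rw [← hW, ← hF, ← hκ, ← ha₁, ← ha₂]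
  -- the functions
  let ξ : γ → β → ℝ := fun m f => ∑ A ∈ 𝒜, (g m A f - 1)
  let ζ : γ → γ → β → ℝ := fun m m' f => ∑ A ∈ 𝒜, (g m A f - 1) * (g m' A f - 1)
  have hξ : ∀ m ∈ ℳ, |∑ f ∈ ℱ, ξ m f| ≤ a₁ := by
    intro m hm
    rw [ha₁, hF]
    exact cs ℱ (h1 m hm)
  have hζ : ∀ m ∈ ℳ, ∀ m' ∈ ℳ, m ≠ m' → |∑ f ∈ ℱ, ζ m m' f| ≤ a₂ := by
    intro m hm m' hm' hne
    rw [ha₂, hF]
    exact cs ℱ (h2 m hm m' hm' hne)
  obtain ⟨R, hR⟩ : ∃ R : ℝ, R = 2 * W * (2 * a₁ + a₂) + 3 * (2 * E₁ + E₂) := ⟨_, rfl⟩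
  have hR0 : 0 ≤ R := by rw [hR]; positivity
  obtain ⟨D, hD⟩ : ∃ D : ℝ, D = F * (W * G ^ 2) ^ 2 := ⟨_, rfl⟩
  have hD0 : 0 ≤ D := by rw [hD]; positivity
  -- the linear part
  have hlin : ∀ m ∈ ℳ, F * W ^ 2 - 2 * W * a₁ ≤ ∑ f ∈ ℱ, (∑ A ∈ 𝒜, g m A f) ^ 2 := by
    intro m hm
    have e1 : ∀ f ∈ ℱ, W ^ 2 + 2 * W * ξ m f ≤ (∑ A ∈ 𝒜, g m A f) ^ 2 := by
      intro f _
      rw [sum_X 𝒜 (fun A => g m A f), ← hW]
      change W ^ 2 + 2 * W * ξ m f ≤ (W + ξ m f) ^ 2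
      nlinarith [sq_nonneg (ξ m f)]
    refine le_trans ?_ (sum_le_sum e1)
    rw [sum_add_distrib, sum_const, nsmul_eq_mul, ← mul_sum, ← hF]
    have e2 := (abs_le.1 (hξ m hm)).1
    nlinarith [mul_nonneg hW0 ha₁0]
  -- the off-diagonal and diagonal parts
  have hquad : ∀ m ∈ ℳ, ∀ m' ∈ ℳ, ∑ f ∈ ℱ, (∑ A ∈ 𝒜, g m A f * g m' A f) ^ 2 ≤
      (F * W ^ 2 + R) + if m = m' then D else 0 := by
    intro m hm m' hm'
    by_cases hmm : m = m'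
    · subst hmm
      rw [if_pos rfl]
      have e1 : ∀ f ∈ ℱ, (∑ A ∈ 𝒜, g m A f * g m A f) ^ 2 ≤ (W * G ^ 2) ^ 2 := by
        intro f hf
        have e2 : ∑ A ∈ 𝒜, g m A f * g m A f ≤ W * G ^ 2 := by
          rw [hW, ← nsmul_eq_mul]
          refine sum_le_card_nsmul _ _ _ fun A hA => ?_
          have e3 := h3 m hm A hA f hf
          nlinarith [e3.1, e3.2]
        have e4 : 0 ≤ ∑ A ∈ 𝒜, g m A f * g m A f := sum_nonneg fun A _ => mul_self_nonneg _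
        exact pow_le_pow_left₀ e4 e2 2
      have e5 := sum_le_card_nsmul _ _ _ e1
      rw [nsmul_eq_mul, ← hF, ← hD] at e5
      have e6 : 0 ≤ F * W ^ 2 := by positivity
      linarith
    · rw [if_neg hmm, add_zero]
      have e1 : ∀ f ∈ ℱ, (∑ A ∈ 𝒜, g m A f * g m' A f) ^ 2 ≤
          W ^ 2 + 2 * W * (ξ m f + ξ m' f + ζ m m' f) +
            3 * (ξ m f ^ 2 + ξ m' f ^ 2 + ζ m m' f ^ 2) := by
        intro f _
        rw [sum_Y 𝒜 (fun A => g m A f) (fun A => g m' A f), ← hW]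
        change (W + ξ m f + ξ m' f + ζ m m' f) ^ 2 ≤ _
        nlinarith [sq_nonneg (ξ m f - ξ m' f), sq_nonneg (ξ m f - ζ m m' f),
          sq_nonneg (ξ m' f - ζ m m' f)]
      refine (sum_le_sum e1).trans ?_
      rw [sum_add_distrib, sum_add_distrib, sum_const, nsmul_eq_mul, ← mul_sum, ← mul_sum,
        sum_add_distrib, sum_add_distrib, sum_add_distrib, sum_add_distrib, ← hF]
      have e2 := (abs_le.1 (hξ m hm)).2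
      have e3 := (abs_le.1 (hξ m' hm')).2
      have e4 := (abs_le.1 (hζ m hm m' hm' hmm)).2
      have e5 : ∑ f ∈ ℱ, ξ m f ^ 2 ≤ E₁ := h1 m hm
      have e6 : ∑ f ∈ ℱ, ξ m' f ^ 2 ≤ E₁ := h1 m' hm'
      have e7 : ∑ f ∈ ℱ, ζ m m' f ^ 2 ≤ E₂ := h2 m hm m' hm' hmm
      have e8 : 2 * W * (∑ f ∈ ℱ, ξ m f + ∑ f ∈ ℱ, ξ m' f + ∑ f ∈ ℱ, ζ m m' f) ≤
          2 * W * (2 * a₁ + a₂) :=
        mul_le_mul_of_nonneg_left (by linarith) (by positivity)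
      rw [hR]
      linarith
  -- the sum over `f` of the expansion
  have hswap : ∑ A₁ ∈ 𝒜, ∑ A₂ ∈ 𝒜, ∑ f ∈ ℱ, (1 - (∑ m ∈ ℳ, g m A₁ f * g m A₂ f) / κ) ^ 2 =
      ∑ f ∈ ℱ, ∑ A₁ ∈ 𝒜, ∑ A₂ ∈ 𝒜, (1 - (∑ m ∈ ℳ, g m A₁ f * g m A₂ f) / κ) ^ 2 := by
    rw [show ∑ A₁ ∈ 𝒜, ∑ A₂ ∈ 𝒜, ∑ f ∈ ℱ, (1 - (∑ m ∈ ℳ, g m A₁ f * g m A₂ f) / κ) ^ 2 =
      ∑ A₁ ∈ 𝒜, ∑ f ∈ ℱ, ∑ A₂ ∈ 𝒜, (1 - (∑ m ∈ ℳ, g m A₁ f * g m A₂ f) / κ) ^ 2 from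
        sum_congr rfl fun A₁ _ => sum_comm, sum_comm]
  rw [hswap, sum_congr rfl fun f _ => expand 𝒜 ℳ κ (fun m A => g m A f), sum_add_distrib,
    sum_sub_distrib, sum_const, nsmul_eq_mul, ← mul_sum, ← mul_sum, ← hF, ← hW]
  have hA : F * W ^ 2 * 2 - 4 * W * a₁ ≤ 2 / κ * ∑ f ∈ ℱ, ∑ m ∈ ℳ, (∑ A ∈ 𝒜, g m A f) ^ 2 := by
    rw [sum_comm]
    have e1 := card_nsmul_le_sum ℳ _ _ hlin
    rw [nsmul_eq_mul, ← hκ] at e1
    have e2 := mul_le_mul_of_nonneg_left e1 (by positivity : (0 : ℝ) ≤ 2 / κ)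
    refine le_trans (le_of_eq ?_) e2
    field_simp
    ring
  have hB : 1 / κ ^ 2 * ∑ f ∈ ℱ, ∑ m ∈ ℳ, ∑ m' ∈ ℳ, (∑ A ∈ 𝒜, g m A f * g m' A f) ^ 2 ≤
      F * W ^ 2 + R + 1 / κ * D := by
    rw [sum_comm, show ∑ m ∈ ℳ, ∑ f ∈ ℱ, ∑ m' ∈ ℳ, (∑ A ∈ 𝒜, g m A f * g m' A f) ^ 2 =
      ∑ m ∈ ℳ, ∑ m' ∈ ℳ, ∑ f ∈ ℱ, (∑ A ∈ 𝒜, g m A f * g m' A f) ^ 2 from
        sum_congr rfl fun m _ => sum_comm]
    have e1 : ∑ m ∈ ℳ, ∑ m' ∈ ℳ, ∑ f ∈ ℱ, (∑ A ∈ 𝒜, g m A f * g m' A f) ^ 2 ≤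
        κ * (κ * (F * W ^ 2 + R) + D) := by
      rw [hκ, ← nsmul_eq_mul]
      refine sum_le_card_nsmul _ _ _ fun m hm => ?_
      refine (sum_le_sum fun m' hm' => hquad m hm m' hm').trans ?_
      rw [sum_add_distrib, sum_const, nsmul_eq_mul, sum_ite_eq, if_pos hm]
    have e2 := mul_le_mul_of_nonneg_left e1 (by positivity : (0 : ℝ) ≤ 1 / κ ^ 2)
    refine e2.trans (le_of_eq ?_)
    field_simp
  rw [hD] at hB
  rw [hR] at hB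
  linarith

end abstract

section concrete

variable {K : Type} [Field K] [Fintype K]

theorem count_le {a : ℕ} (ha : 1 ≤ a) {D : K[X]} (hD : D ≠ 0) :
    ((Irn K a).filter (fun P => P ∣ D)).card ≤ D.natDegree := by
  have h1 : ∏ P ∈ (Irn K a).filter (fun P => P ∣ D), P ∣ D := by
    refine Finset.prod_dvd_of_coprime ?_ fun P hP => (mem_filter.1 hP).2
    intro P hP P' hP' hne
    have h2 := mem_Irn.1 (mem_filter.1 hP).1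
    have h3 := mem_Irn.1 (mem_filter.1 hP').1
    change IsCoprime P P'
    rw [h2.2.2.coprime_iff_not_dvd]
    intro hd
    exact hne (eq_of_monic_of_associated h2.1 h3.1 (h2.2.2.associated_of_dvd h3.2.2 hd))
  have h2 := natDegree_le_of_dvd h1 hD
  rw [natDegree_prod_of_monic _ _ fun P hP => (mem_Irn.1 (mem_filter.1 hP).1).1,
    sum_congr rfl fun P hP => (mem_Irn.1 (mem_filter.1 hP).1).2.1, sum_const, smul_eq_mul] at h2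
  exact (Nat.le_mul_of_pos_right _ ha).trans h2

theorem Ds_ne [CharP K 2] {n L j u : ℕ} {m A h f : K[X]} (h0 : 2 * L + j + u = n + 1)
    (hj : j ≤ n) (hL : L ≤ n) (hm : m ∈ Irn K u) (hA : A ∈ Irn K j) (hf : f ∈ Mn K (n - j))
    (hh : h.natDegree < n) : Ds m A h f ≠ 0 ∧ (Ds m A h f).natDegree ≤ n + j + u := by
  have hm1 := mem_Irn.1 hm
  have hA1 := mem_Irn.1 hA
  have hf1 := mem_Mn.1 hf
  have hAf : (A * f).Monic := hA1.1.mul hf1.1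
  have hAfn : (A * f).natDegree = n := by
    rw [hA1.1.natDegree_mul hf1.1, hA1.2.1, hf1.2]
    omega
  have hdeg : h.degree < (A * f).degree := by
    rw [degree_eq_natDegree hAf.ne_zero, hAfn]
    exact (degree_le_natDegree).trans_lt (by exact_mod_cast hh)
  have hs : (A * f + h).Monic := hAf.add_of_left hdeg
  have hsn : (A * f + h).natDegree = n := by
    rw [natDegree_add_eq_left_of_degree_lt hdeg, hAfn]
  have hF : (m * A * (A * f + h)).Monic := (hm1.1.mul hA1.1).mul hs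
  have hFn : (m * A * (A * f + h)).natDegree = u + j + n := by
    rw [(hm1.1.mul hA1.1).natDegree_mul hs, hm1.1.natDegree_mul hA1.1, hm1.2.1, hA1.2.1, hsn]
  refine ⟨fun hD => ?_, ?_⟩
  · have h1 : (Ds m A h f).coeff (2 * (n - L)) = 0 := by rw [hD, coeff_zero]
    have h2 : 2 * (n - L) + 1 = u + j + n := by omega
    unfold Ds at h1
    rw [coeff_derivative, h2, ← hFn, hF.coeff_natDegree, one_mul] at h1
    push_cast at h1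
    rw [CharTwo.two_eq_zero, zero_mul, zero_add] at h1
    exact one_ne_zero h1
  · unfold Ds
    refine (natDegree_derivative_le _).trans ?_
    rw [hFn]
    omega

theorem irn_ratio {a : ℕ} (ha : 4 ≤ a) :
    1 / (2 * (a : ℝ)) ≤ ((Irn K a).card : ℝ) / (Fintype.card K : ℝ) ^ a := by
  have h := irn_wt_ge (k := K) ha
  rw [sum_congr rfl (fun P hP => by rw [(mem_Irn.1 hP).2.1]), sum_const, nsmul_eq_mul] at h
  rw [div_eq_mul_inv]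
  exact h

theorem Gw_nonneg (a : ℕ) (m A h f : K[X]) : 0 ≤ Gw a m A h f := by
  unfold Gw
  positivity

theorem Gw_le [CharP K 2] {n L j u a : ℕ} {m A h f : K[X]} (h0 : 2 * L + j + u = n + 1)
    (hu : u < j) (hja : j < a) (ha : 4 ≤ a) (han : 4 * a ≤ n) (hm : m ∈ Irn K u)
    (hA : A ∈ Irn K j) (hf : f ∈ Mn K (n - j)) (hh : h.natDegree < n) :
    Gw a m A h f ≤ 6 * (n : ℝ) ^ 2 := by
  obtain ⟨h1, h2⟩ := Ds_ne h0 (by omega) (by omega) hm hA hf hh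
  have h3 := (count_le (a := a) (by omega) h1).trans h2
  have h4 : (((Irn K a).filter (fun P => P ∣ Ds m A h f)).card : ℝ) ≤ 3 * n := by
    have h5 : ((Irn K a).filter (fun P => P ∣ Ds m A h f)).card ≤ 3 * n := h3.trans (by omega)
    exact_mod_cast h5
  have h6 := irn_ratio (K := K) ha
  have ha0 : (0 : ℝ) < a := by
    have : 0 < a := by omega
    exact_mod_cast this
  have h7 : (0 : ℝ) < 1 / (2 * (a : ℝ)) := by positivity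
  have h8 : (0 : ℝ) < ((Irn K a).card : ℝ) / (Fintype.card K : ℝ) ^ a := lt_of_lt_of_le h7 h6
  have han' : (a : ℝ) ≤ n := by
    have : a ≤ n := by omega
    exact_mod_cast this
  have hn0 : (0 : ℝ) ≤ n := Nat.cast_nonneg _
  unfold Gw
  rw [div_le_iff₀ h8]
  calc (((Irn K a).filter (fun P => P ∣ Ds m A h f)).card : ℝ) ≤ 3 * n := h4
    _ = 6 * (n * a) * (1 / (2 * (a : ℝ))) := by
      field_simp
      ring
    _ ≤ 6 * (n * n) * (1 / (2 * (a : ℝ))) := by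
      have : (n : ℝ) * a ≤ n * n := mul_le_mul_of_nonneg_left han' hn0
      exact mul_le_mul_of_nonneg_right (by linarith) h7.le
    _ ≤ 6 * (n : ℝ) ^ 2 * (((Irn K a).card : ℝ) / (Fintype.card K : ℝ) ^ a) := by
      rw [sq]
      exact mul_le_mul_of_nonneg_left h6 (by positivity)

end concrete

end WM

theorem wm (h1 : S_wm1) (h2 : S_wm2) : S_wm := by
  intro K _ _ _
  obtain ⟨C₁, hC₁⟩ := h1 K
  obtain ⟨C₂, hC₂⟩ := h2 K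
  refine ⟨C₁ + C₂ + 12, ?_⟩
  intro n L j u a h h0 hL hu huj hja han hh0 hh
  obtain ⟨q, hq⟩ : ∃ q : ℝ, q = (Fintype.card K : ℝ) := ⟨_, rfl⟩
  have hq2 : (2 : ℝ) ≤ q := by rw [hq]; exact q_ge
  have hq0 : 0 < q := by linarith
  have hq1 : 1 ≤ q := by linarith
  have hn24 : (24 : ℝ) ≤ n := by
    have : 24 ≤ n := by omega
    exact_mod_cast this
  have hn1 : (1 : ℝ) ≤ n := by linarith
  have hu0 : (0 : ℝ) < u := by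
    have : 0 < u := by omega
    exact_mod_cast this
  have huj' : (u : ℝ) < j := by exact_mod_cast huj
  have han' : 4 * (a : ℝ) ≤ n := by exact_mod_cast han
  have hun : (u : ℝ) ≤ n := by
    have : u ≤ n := by omega
    exact_mod_cast this
  -- the quantities
  obtain ⟨s₁, hs₁⟩ : ∃ s : ℝ, s = q ^ (-(j : ℝ) / 4) := ⟨_, rfl⟩
  obtain ⟨s₂, hs₂⟩ : ∃ s : ℝ, s = q ^ (((u : ℝ) - j) / 2) := ⟨_, rfl⟩
  obtain ⟨s₃, hs₃⟩ : ∃ s : ℝ, s = q ^ (2 * (a : ℝ) - n / 2) := ⟨_, rfl⟩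
  obtain ⟨s₄, hs₄⟩ : ∃ s : ℝ, s = q ^ (-(u : ℝ)) := ⟨_, rfl⟩
  obtain ⟨s₅, hs₅⟩ : ∃ s : ℝ, s = q ^ (((u : ℝ) - j) / 4) := ⟨_, rfl⟩
  have hs₁0 : 0 < s₁ := by rw [hs₁]; positivity
  have hs₂0 : 0 < s₂ := by rw [hs₂]; positivity
  have hs₃0 : 0 < s₃ := by rw [hs₃]; positivity
  have hs₄0 : 0 < s₄ := by rw [hs₄]; positivity
  have hs₅0 : 0 < s₅ := by rw [hs₅]; positivity
  have hs₁1 : s₁ ≤ 1 := by
    rw [hs₁]
    exact Real.rpow_le_one_of_one_le_of_nonpos hq1 (by linarith)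
  have hs₂1 : s₂ ≤ 1 := by
    rw [hs₂]
    exact Real.rpow_le_one_of_one_le_of_nonpos hq1 (by linarith)
  have hs₃1 : s₃ ≤ 1 := by
    rw [hs₃]
    exact Real.rpow_le_one_of_one_le_of_nonpos hq1 (by linarith)
  have hs₁5 : s₁ ≤ s₅ := by
    rw [hs₁, hs₅]
    exact Real.rpow_le_rpow_of_exponent_le hq1 (by linarith)
  have hs₂5 : s₂ ≤ s₅ := by
    rw [hs₂, hs₅]
    exact Real.rpow_le_rpow_of_exponent_le hq1 (by linarith)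
  have hs₁s : q ^ (-(j : ℝ) / 2) = s₁ ^ 2 := by
    rw [hs₁, ← Real.rpow_natCast, ← Real.rpow_mul hq0.le]
    congr 1
    push_cast
    ring
  have hs₂s : q ^ ((u : ℝ) - j) = s₂ ^ 2 := by
    rw [hs₂, ← Real.rpow_natCast, ← Real.rpow_mul hq0.le]
    congr 1
    push_cast
    ring
  have hs₃s : q ^ (4 * (a : ℝ) - n) = s₃ ^ 2 := by
    rw [hs₃, ← Real.rpow_natCast, ← Real.rpow_mul hq0.le]
    congr 1
    push_cast
    ring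
  obtain ⟨N₁, hN₁⟩ : ∃ N : ℝ, N = (n : ℝ) ^ C₁ := ⟨_, rfl⟩
  obtain ⟨N₂, hN₂⟩ : ∃ N : ℝ, N = (n : ℝ) ^ C₂ := ⟨_, rfl⟩
  have hN₁1 : 1 ≤ N₁ := by rw [hN₁]; exact one_le_pow₀ hn1
  have hN₂1 : 1 ≤ N₂ := by rw [hN₂]; exact one_le_pow₀ hn1
  have hE₁ : ∀ m ∈ Irn K u, ∑ f ∈ Mn K (n - j),
      (∑ A ∈ (Irn K j).filter (fun A => ¬ A ∣ h), (Gw a m A h f - 1)) ^ 2 ≤
        N₁ * q ^ (n + j) * s₁ ^ 2 := by
    intro m hm
    have := hC₁ n L j u a h m h0 hL hu huj hja han hh0 hh hm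
    rw [← hq, ← hN₁, hs₁s] at this
    exact this
  have hE₂ : ∀ m ∈ Irn K u, ∀ m' ∈ Irn K u, m ≠ m' → ∑ f ∈ Mn K (n - j),
      (∑ A ∈ (Irn K j).filter (fun A => ¬ A ∣ h), (Gw a m A h f - 1) * (Gw a m' A h f - 1)) ^ 2 ≤
        N₂ * q ^ (n + j) * (s₂ ^ 2 + s₃ ^ 2) := by
    intro m hm m' hm' hne
    have := hC₂ n L j u a h m m' h0 hL hu huj hja han hh0 hh hm hm' hne
    rw [← hq, ← hN₂, hs₂s, hs₃s] at this
    exact this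
  have hr := WM.irn_ratio (K := K) hu
  rw [← hq] at hr
  have hk0' : (0 : ℝ) < ((Irn K u).card : ℝ) := by
    have h3 : (0 : ℝ) < ((Irn K u).card : ℝ) / q ^ u :=
      lt_of_lt_of_le (by positivity) hr
    by_contra hcon
    push Not at hcon
    exact absurd h3 (not_lt.2 (div_nonpos_of_nonpos_of_nonneg hcon (by positivity)))
  have hk0 : 0 < (Irn K u).card := by exact_mod_cast hk0'
  have key := WM.moment ((Irn K j).filter (fun A => ¬ A ∣ h)) (Mn K (n - j)) (Irn K u)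
    (fun m A f => Gw a m A h f) (E₁ := N₁ * q ^ (n + j) * s₁ ^ 2)
    (E₂ := N₂ * q ^ (n + j) * (s₂ ^ 2 + s₃ ^ 2)) (G := 6 * (n : ℝ) ^ 2) hk0
    (by positivity) (by positivity) hE₁ hE₂ (fun m hm A hA f hf =>
      ⟨WM.Gw_nonneg a m A h f, WM.Gw_le h0 huj hja (by omega) han hm (mem_filter.1 hA).1 hf hh⟩)
  rw [← hq]
  refine key.trans ?_
  -- the cardinalities
  have hF : ((Mn K (n - j)).card : ℝ) = q ^ (n - j) := by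
    rw [card_Mn, Nat.cast_pow, hq]
  obtain ⟨W, hW⟩ : ∃ W : ℝ, W = (((Irn K j).filter (fun A => ¬ A ∣ h)).card : ℝ) := ⟨_, rfl⟩
  have hW0 : 0 ≤ W := by rw [hW]; exact Nat.cast_nonneg _
  have hWj : W ≤ q ^ j := by
    have h3 : ((Irn K j).filter (fun A => ¬ A ∣ h)).card ≤ Fintype.card K ^ j := by
      rw [← card_Mn (k := K) j]
      refine (card_filter_le _ _).trans (card_le_card ?_)
      unfold Irn
      exact filter_subset _ _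
    rw [hW, hq]
    exact_mod_cast h3
  rw [hF, ← hW, ← hs₃, ← hs₄, ← hs₅]
  have hjn : j ≤ n := by omega
  have hFQ : q ^ (n - j) * q ^ (n + j) = (q ^ n) ^ 2 := by
    rw [← pow_add, ← pow_mul]
    congr 1
    omega
  have hjQ : q ^ j * q ^ n = q ^ (n + j) := by
    rw [← pow_add, add_comm]
  have hsq₁ : √(q ^ (n - j) * (N₁ * q ^ (n + j) * s₁ ^ 2)) ≤ N₁ * q ^ n * s₁ := by
    rw [Real.sqrt_le_iff]
    refine ⟨by positivity, ?_⟩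
    have e1 : q ^ (n - j) * (N₁ * q ^ (n + j) * s₁ ^ 2) = N₁ * (q ^ n * s₁) ^ 2 := by
      rw [mul_pow, ← hFQ]
      ring
    have e2 : (N₁ * q ^ n * s₁) ^ 2 = N₁ * N₁ * (q ^ n * s₁) ^ 2 := by ring
    rw [e1, e2]
    exact mul_le_mul_of_nonneg_right (le_mul_of_one_le_left (by linarith) hN₁1) (by positivity)
  have hsq₂ : √(q ^ (n - j) * (N₂ * q ^ (n + j) * (s₂ ^ 2 + s₃ ^ 2))) ≤
      N₂ * q ^ n * (s₂ + s₃) := by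
    rw [Real.sqrt_le_iff]
    refine ⟨by positivity, ?_⟩
    have e1 : q ^ (n - j) * (N₂ * q ^ (n + j) * (s₂ ^ 2 + s₃ ^ 2)) =
        N₂ * ((q ^ n) ^ 2 * (s₂ ^ 2 + s₃ ^ 2)) := by
      rw [← hFQ]
      ring
    have e2 : (N₂ * q ^ n * (s₂ + s₃)) ^ 2 = N₂ * N₂ * ((q ^ n) ^ 2 * (s₂ + s₃) ^ 2) := by ring
    rw [e1, e2]
    have e3 : s₂ ^ 2 + s₃ ^ 2 ≤ (s₂ + s₃) ^ 2 := by
      have e31 := mul_pos hs₂0 hs₃0
      have e32 : (s₂ + s₃) ^ 2 = s₂ ^ 2 + s₃ ^ 2 + 2 * (s₂ * s₃) := by ring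
      rw [e32]
      linarith
    have e4 : (q ^ n) ^ 2 * (s₂ ^ 2 + s₃ ^ 2) ≤ (q ^ n) ^ 2 * (s₂ + s₃) ^ 2 :=
      mul_le_mul_of_nonneg_left e3 (by positivity)
    have e5 : N₂ ≤ N₂ * N₂ := le_mul_of_one_le_left (by linarith) hN₂1
    exact mul_le_mul e5 e4 (by positivity) (by positivity)
  obtain ⟨Q, hQ⟩ : ∃ Q : ℝ, Q = q ^ (n + j) := ⟨_, rfl⟩
  have hQ0 : 0 < Q := by rw [hQ]; positivity
  have t₁ : 8 * W * √(q ^ (n - j) * (N₁ * q ^ (n + j) * s₁ ^ 2)) ≤ 8 * (N₁ * Q * s₁) := by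
    have e1 := mul_le_mul hWj hsq₁ (Real.sqrt_nonneg _) (by positivity)
    have e2 : q ^ j * (N₁ * q ^ n * s₁) = N₁ * Q * s₁ := by
      rw [hQ, ← hjQ]
      ring
    rw [e2] at e1
    linarith
  have t₂ : 2 * W * √(q ^ (n - j) * (N₂ * q ^ (n + j) * (s₂ ^ 2 + s₃ ^ 2))) ≤
      2 * (N₂ * Q * (s₂ + s₃)) := by
    have e1 := mul_le_mul hWj hsq₂ (Real.sqrt_nonneg _) (by positivity)
    have e2 : q ^ j * (N₂ * q ^ n * (s₂ + s₃)) = N₂ * Q * (s₂ + s₃) := by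
      rw [hQ, ← hjQ]
      ring
    rw [e2] at e1
    linarith
  have t₃ : 1 / ((Irn K u).card : ℝ) * (q ^ (n - j) * (W * (6 * (n : ℝ) ^ 2) ^ 2) ^ 2) ≤
      2592 * (n : ℝ) ^ 9 * Q * s₄ := by
    have e1 : 1 / ((Irn K u).card : ℝ) ≤ 2 * u * s₄ := by
      have e2 : s₄ = 1 / q ^ u := by
        rw [hs₄, Real.rpow_neg hq0.le, Real.rpow_natCast, one_div]
      rw [e2, div_le_iff₀ hk0']
      have e3 := hr
      rw [div_le_iff₀ (by positivity)] at e3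
      have e4 : 2 * (u : ℝ) * (1 / q ^ u) * ((Irn K u).card : ℝ) =
          2 * u * (((Irn K u).card : ℝ) / q ^ u) := by ring
      rw [e4]
      linarith
    have e5 : q ^ (n - j) * (W * (6 * (n : ℝ) ^ 2) ^ 2) ^ 2 ≤ 1296 * (n : ℝ) ^ 8 * Q := by
      have e6 : W ^ 2 ≤ (q ^ j) ^ 2 := pow_le_pow_left₀ hW0 hWj 2
      have e7 : q ^ (n - j) * (q ^ j) ^ 2 = Q := by
        rw [hQ, ← pow_mul, ← pow_add]
        congr 1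
        omega
      have e8 : q ^ (n - j) * (W * (6 * (n : ℝ) ^ 2) ^ 2) ^ 2 =
          1296 * (n : ℝ) ^ 8 * (q ^ (n - j) * W ^ 2) := by ring
      rw [e8, ← e7]
      exact mul_le_mul_of_nonneg_left (mul_le_mul_of_nonneg_left e6 (by positivity))
        (by positivity)
    calc 1 / ((Irn K u).card : ℝ) * (q ^ (n - j) * (W * (6 * (n : ℝ) ^ 2) ^ 2) ^ 2)
        ≤ (2 * u * s₄) * (1296 * (n : ℝ) ^ 8 * Q) :=
          mul_le_mul e1 e5 (by positivity) (by positivity)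
      _ ≤ (2 * n * s₄) * (1296 * (n : ℝ) ^ 8 * Q) := by
          refine mul_le_mul_of_nonneg_right ?_ (by positivity)
          exact mul_le_mul_of_nonneg_right (by linarith) hs₄0.le
      _ = 2592 * (n : ℝ) ^ 9 * Q * s₄ := by ring
  rw [← hQ] at t₁ t₂
  rw [← hQ]
  have t₄ : N₁ * Q * s₁ ^ 2 ≤ N₁ * Q * s₁ :=
    mul_le_mul_of_nonneg_left (pow_le_of_le_one hs₁0.le hs₁1 two_ne_zero) (by positivity)
  have t₅ : N₂ * Q * (s₂ ^ 2 + s₃ ^ 2) ≤ N₂ * Q * (s₂ + s₃) :=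
    mul_le_mul_of_nonneg_left (add_le_add (pow_le_of_le_one hs₂0.le hs₂1 two_ne_zero)
      (pow_le_of_le_one hs₃0.le hs₃1 two_ne_zero)) (by positivity)
  obtain ⟨S, hS⟩ : ∃ S : ℝ, S = s₅ + s₄ + s₃ := ⟨_, rfl⟩
  have hS0 : 0 < S := by rw [hS]; positivity
  rw [← hS]
  have u₁ : N₁ * Q * s₁ ≤ N₁ * Q * S :=
    mul_le_mul_of_nonneg_left (by rw [hS]; linarith) (by positivity)
  have u₂ : N₂ * Q * (s₂ + s₃) ≤ N₂ * Q * S :=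
    mul_le_mul_of_nonneg_left (by rw [hS]; linarith) (by positivity)
  have u₃ : 2592 * (n : ℝ) ^ 9 * Q * s₄ ≤ 2592 * (n : ℝ) ^ 9 * Q * S :=
    mul_le_mul_of_nonneg_left (by rw [hS]; linarith) (by positivity)
  have hfin : 14 * N₁ + 5 * N₂ + 2592 * (n : ℝ) ^ 9 ≤ (n : ℝ) ^ (C₁ + C₂ + 12) := by
    have e1 : (n : ℝ) ^ (C₁ + C₂ + 12) = N₁ * N₂ * (n : ℝ) ^ 9 * (n : ℝ) ^ 3 := by
      rw [hN₁, hN₂]
      ring
    have e2 : N₁ ≤ N₁ * N₂ * (n : ℝ) ^ 9 := by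
      have e3 : 1 ≤ (n : ℝ) ^ 9 := one_le_pow₀ hn1
      calc N₁ = N₁ * 1 * 1 := by ring
        _ ≤ N₁ * N₂ * (n : ℝ) ^ 9 := by gcongr
    have e3 : N₂ ≤ N₁ * N₂ * (n : ℝ) ^ 9 := by
      have e3 : 1 ≤ (n : ℝ) ^ 9 := one_le_pow₀ hn1
      calc N₂ = 1 * N₂ * 1 := by ring
        _ ≤ N₁ * N₂ * (n : ℝ) ^ 9 := by gcongr
    have e4 : (n : ℝ) ^ 9 ≤ N₁ * N₂ * (n : ℝ) ^ 9 := by
      calc (n : ℝ) ^ 9 = 1 * 1 * (n : ℝ) ^ 9 := by ring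
        _ ≤ N₁ * N₂ * (n : ℝ) ^ 9 := by gcongr
    have e5 : (13824 : ℝ) ≤ (n : ℝ) ^ 3 := by
      calc (13824 : ℝ) = 24 ^ 3 := by norm_num
        _ ≤ (n : ℝ) ^ 3 := pow_le_pow_left₀ (by norm_num) hn24 3
    rw [e1]
    have e6 : 0 ≤ N₁ * N₂ * (n : ℝ) ^ 9 := by positivity
    have e7 := mul_le_mul_of_nonneg_left e5 e6
    linarith
  have hfin2 := mul_le_mul_of_nonneg_right hfin (by positivity : 0 ≤ Q * S)
  calc _ ≤ (14 * N₁ + 5 * N₂ + 2592 * (n : ℝ) ^ 9) * (Q * S) := by linarith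
    _ ≤ (n : ℝ) ^ (C₁ + C₂ + 12) * (Q * S) := hfin2
    _ = _ := by ring

end Pool.Agent.H251.SP
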