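import Pool.Agent.H251.SP.Stm

/-!
# Second moment for one multiplier
-/

set_option autoImplicit false

namespace Pool.Agent.H251.SP

open Polynomial Finset
open scoped Classical
open Pool.Agent.H694.Typ

namespace WM1L

section char2

variable {K : Type} [Field K] [Fintype K] [CharP K 2]

omit [Fintype K] in
theorem two0 : (2 : K) = 0 := by
  have := CharP.cast_eq_zero K 2
  exact_mod_cast this

omit [Fintype K] in
theorem two0P : (2 : K[X]) = 0 := by
  have h : (2 : K[X]) = C (2 : K) := (map_ofNat C 2).symm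
  rw [h, two0, C_0]

omit [Fintype K] in
theorem dd0 (H : K[X]) : derivative (derivative H) = 0 := by
  ext n
  rw [coeff_derivative, coeff_derivative, coeff_zero]
  have h : (((n + 1 : ℕ) : K) + 1) * ((n : K) + 1) = 0 := by
    have h2 : (((n + 1) * (n + 1 + 1) : ℕ) : K) = 0 := by
      obtain ⟨k, hk⟩ := Nat.even_mul_succ_self (n + 1)
      rw [show (n + 1) * (n + 1 + 1) = k + k from hk]
      push_cast
      rw [← two_mul, two0, zero_mul]
    rw [← h2]
    push_cast
    ring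
  rw [mul_assoc, h, mul_zero]

theorem sqrt0 (P : K[X]) (h : derivative P = 0) : ∃ Q : K[X], P = Q ^ 2 := by
  have : Fact (Nat.Prime 2) := ⟨Nat.prime_two⟩
  have : ExpChar K 2 := ExpChar.prime Nat.prime_two
  have h1 := expand_contract 2 h (by norm_num)
  let e : K →+* K := (frobeniusEquiv K 2).symm.toRingHom
  refine ⟨map e (contract 2 P), ?_⟩
  rw [← map_frobenius_expand (p := 2)]
  rw [Polynomial.map_expand, Polynomial.map_map]
  have h2 : (frobenius K 2).comp e = RingHom.id K := by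
    ext x
    show frobenius K 2 ((frobeniusEquiv K 2).symm x) = x
    exact frobenius_apply_frobeniusEquiv_symm K 2 x
  rw [h2, Polynomial.map_id, h1]

theorem exists_sigma (g : K[X]) : ∃ s : K[X], derivative g = s ^ 2 := sqrt0 _ (dd0 g)

omit [Fintype K] in
theorem Ds_eq (m A h f : K[X]) :
    Ds m A h f = A ^ 2 * derivative (m * f) + derivative (m * A * h) := by
  unfold Ds
  have e : m * A * (A * f + h) = A ^ 2 * (m * f) + m * A * h := by ring
  rw [e, derivative_add, derivative_mul, derivative_pow]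
  have e2 : (C ((2 : ℕ) : K) : K[X]) = 0 := by
    rw [Nat.cast_ofNat, two0, C_0]
  rw [e2]
  ring

theorem exists_rho {A P : K[X]} (c : K[X]) (hP : Irreducible P) (hA : ¬ P ∣ A) :
    ∃ ρ : K[X], P ∣ A ^ 2 * ρ ^ 2 - c := by
  have : Fact (Irreducible P) := ⟨hP⟩
  have : Module.Finite K (AdjoinRoot P) := (AdjoinRoot.powerBasis hP.ne_zero).finite
  have : Finite (AdjoinRoot P) := Module.finite_of_finite K
  have : CharP (AdjoinRoot P) 2 :=
    charP_of_injective_algebraMap (algebraMap K (AdjoinRoot P)).injective 2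
  have hchar : ringChar (AdjoinRoot P) = 2 := ringChar.eq_iff.2 inferInstance
  have hA' : AdjoinRoot.mk P A ≠ 0 := fun h => hA (AdjoinRoot.mk_eq_zero.1 h)
  obtain ⟨s, hs⟩ := FiniteField.isSquare_of_char_two hchar
    (AdjoinRoot.mk P c * ((AdjoinRoot.mk P A)⁻¹) ^ 2)
  obtain ⟨r, hr⟩ := AdjoinRoot.mk_surjective s
  refine ⟨r, ?_⟩
  rw [← AdjoinRoot.mk_eq_zero, map_sub, map_mul, map_pow, map_pow, hr, sq s, ← hs]
  have h1 : (AdjoinRoot.mk P A) * (AdjoinRoot.mk P A)⁻¹ = 1 := mul_inv_cancel₀ hA'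
  have h2 : (AdjoinRoot.mk P A) ^ 2 * (AdjoinRoot.mk P c * ((AdjoinRoot.mk P A)⁻¹) ^ 2) -
      AdjoinRoot.mk P c = AdjoinRoot.mk P c *
        (((AdjoinRoot.mk P A) * (AdjoinRoot.mk P A)⁻¹) ^ 2 - 1) := by ring
  rw [h2, h1]
  ring

omit [Fintype K] in
theorem dvd_iff {A P c σ ρ : K[X]} (hP : Irreducible P) (hA : ¬ P ∣ A)
    (hρ : P ∣ A ^ 2 * ρ ^ 2 - c) : P ∣ A ^ 2 * σ ^ 2 + c ↔ P ∣ σ - ρ := by
  have e : A ^ 2 * σ ^ 2 + c = A ^ 2 * (σ - ρ) ^ 2 - (A ^ 2 * ρ ^ 2 - c) := by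
    linear_combination (A ^ 2 * σ * ρ) * (two0P (K := K))
  have h1 : P ∣ A ^ 2 * σ ^ 2 + c ↔ P ∣ A ^ 2 * (σ - ρ) ^ 2 := by
    rw [e]
    exact dvd_sub_left hρ
  rw [h1]
  constructor
  · intro h
    rcases hP.prime.dvd_or_dvd h with h2 | h2
    · exact absurd (hP.prime.dvd_of_dvd_pow h2) hA
    · exact hP.prime.dvd_of_dvd_pow h2
  · intro h
    exact (dvd_pow h two_ne_zero).mul_left _

/-- the root -/
noncomputable def rho (m h A P : K[X]) : K[X] :=
  if hh : ∃ ρ : K[X], P ∣ A ^ 2 * ρ ^ 2 - derivative (m * A * h) then hh.choose else 0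

theorem rho_spec {m h A P : K[X]} (hP : Irreducible P) (hA : ¬ P ∣ A) :
    P ∣ A ^ 2 * rho m h A P ^ 2 - derivative (m * A * h) := by
  have hh := exists_rho (derivative (m * A * h)) hP hA
  unfold rho
  rw [dif_pos hh]
  exact hh.choose_spec

/-- the discriminant of a pair -/
noncomputable def VV (m h A A' : K[X]) : K[X] :=
  derivative (m * A * h) * A' ^ 2 - derivative (m * A' * h) * A ^ 2

theorem dvd_VV {m h A A' P : K[X]} (hP : Irreducible P) (hA : ¬ P ∣ A) (hA' : ¬ P ∣ A')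
    (hd : P ∣ rho m h A P - rho m h A' P) : P ∣ VV m h A A' := by
  have h1 := rho_spec (m := m) (h := h) hP hA
  have h2 := rho_spec (m := m) (h := h) hP hA'
  have e : VV m h A A' = A ^ 2 * A' ^ 2 * ((rho m h A P - rho m h A' P) *
      (rho m h A P + rho m h A' P)) -
      (A ^ 2 * rho m h A P ^ 2 - derivative (m * A * h)) * A' ^ 2 +
      (A' ^ 2 * rho m h A' P ^ 2 - derivative (m * A' * h)) * A ^ 2 := by
    unfold VV
    ring
  rw [e]
  exact dvd_add (dvd_sub ((hd.mul_right _).mul_left _) (h1.mul_right _)) (h2.mul_right _)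

omit [CharP K 2] in
theorem not_dvd_of_deg {i l : ℕ} (hil : l < i) {P A : K[X]} (hP : P ∈ Irn K i) (hA : A ∈ Irn K l) :
    ¬ P ∣ A := by
  intro h
  have h1 := natDegree_le_of_dvd h (mem_Irn.1 hA).1.ne_zero
  rw [(mem_Irn.1 hP).2.1, (mem_Irn.1 hA).2.1] at h1
  omega

theorem VV_ne {j u : ℕ} (huj : u < j) {m h A A' : K[X]} (hm : m ∈ Irn K u) (hA : A ∈ Irn K j)
    (hA' : A' ∈ Irn K j) (hAh : ¬ A ∣ h) (hne : A ≠ A') : VV m h A A' ≠ 0 := by
  intro h0
  have hAi := (mem_Irn.1 hA).2.2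
  have hAp := hAi.prime
  have h1 : A ∣ derivative A * (m * h) * A' ^ 2 := by
    have e : derivative A * (m * h) * A' ^ 2 = VV m h A A' +
        A * (A * derivative (m * A' * h) - derivative (m * h) * A' ^ 2) := by
      unfold VV
      have e1 : m * A * h = A * (m * h) := by ring
      rw [e1, derivative_mul (f := A)]
      ring
    rw [e, h0, zero_add]
    exact dvd_mul_right _ _
  rcases hAp.dvd_or_dvd h1 with h2 | h2
  · rcases hAp.dvd_or_dvd h2 with h3 | h3
    · have h4 : derivative A ≠ 0 := by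
        intro h5
        have h6 : A.Separable := PerfectField.separable_of_irreducible hAi
        unfold Polynomial.Separable at h6
        rw [h5, isCoprime_zero_right] at h6
        exact hAi.not_isUnit h6
      have h5 := natDegree_le_of_dvd h3 h4
      have h6 := natDegree_derivative_lt (p := A) (by
        rw [(mem_Irn.1 hA).2.1]
        omega)
      omega
    · rcases hAp.dvd_or_dvd h3 with h4 | h4
      · exact not_dvd_of_deg huj hA hm h4
      · exact hAh h4
  · have h3 := hAp.dvd_of_dvd_pow h2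
    have h4 := coprime_of_ne (mem_Irn.1 hA).1 hAi (mem_Irn.1 hA').1 (mem_Irn.1 hA').2.2 hne
    exact hAi.not_isUnit (h4.isUnit_of_dvd' dvd_rfl h3)

omit [CharP K 2] in
theorem VV_deg {j u n a : ℕ} (huj : u < j) (hja : j < a) (han : 4 * a ≤ n) {m h A A' : K[X]}
    (hm : m ∈ Irn K u) (hA : A ∈ Irn K j) (hA' : A' ∈ Irn K j) (hh : h.natDegree < n) :
    (VV m h A A').natDegree ≤ 2 * n := by
  have dm := (mem_Irn.1 hm).2.1
  have dA := (mem_Irn.1 hA).2.1
  have dA' := (mem_Irn.1 hA').2.1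
  have key : ∀ B B' : K[X], B.natDegree = j → B'.natDegree = j →
      (derivative (m * B * h) * B' ^ 2).natDegree ≤ 2 * n := by
    intro B B' hB hB'
    have g1 : (derivative (m * B * h)).natDegree ≤ u + j + n := by
      refine (natDegree_derivative_le _).trans ?_
      have g2 := natDegree_mul_le (p := m * B) (q := h)
      have g3 := natDegree_mul_le (p := m) (q := B)
      omega
    have g4 := natDegree_mul_le (p := derivative (m * B * h)) (q := B' ^ 2)
    have g5 := natDegree_pow_le (p := B') (n := 2)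
    rw [hB'] at g5
    omega
  unfold VV
  refine (natDegree_sub_le _ _).trans (max_le (key A A' dA dA') (key A' A dA' dA))

theorem card_VV {j u n a : ℕ} (huj : u < j) (hja : j < a) (han : 4 * a ≤ n) {m h A A' : K[X]}
    (hm : m ∈ Irn K u) (hA : A ∈ Irn K j) (hA' : A' ∈ Irn K j) (hh : h.natDegree < n)
    (hAh : ¬ A ∣ h) (hne : A ≠ A') :
    ((Irn K a).filter (fun P => P ∣ VV m h A A')).card ≤ 2 * n := by
  refine le_trans (Finset.card_le_card ?_) ((card_dvd_e a (VV_ne huj hm hA hA' hAh hne)).trans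
    (VV_deg huj hja han hm hA hA' hh))
  intro P hP
  rw [mem_filter, mem_Irn] at hP
  rw [mem_filter, mem_PU]
  exact ⟨⟨hP.1.1, hP.1.2.2, hP.1.2.1.le⟩, hP.2⟩

omit [CharP K 2] in
theorem irn_card_le (i : ℕ) : ((Irn K i).card : ℝ) ≤ (Fintype.card K : ℝ) ^ i := by
  have h1 : (Irn K i).card ≤ (Mn K i).card := by
    unfold Irn
    exact Finset.card_filter_le _ _
  rw [card_Mn] at h1
  exact_mod_cast h1


/-- the square root of the derivative -/
noncomputable def sg (m f : K[X]) : K[X] := (exists_sigma (m * f)).choose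

theorem sg_spec (m f : K[X]) : derivative (m * f) = sg m f ^ 2 := (exists_sigma (m * f)).choose_spec

theorem sg_deg {L u : ℕ} (hL : 1 ≤ L) {m f : K[X]} (hm : m.natDegree = u)
    (hf : f.natDegree = 2 * L + u - 1) : (sg m f).degree < ((L + u : ℕ) : WithBot ℕ) := by
  by_cases h0 : sg m f = 0
  · rw [h0, degree_zero]
    exact WithBot.bot_lt_coe _
  rw [degree_eq_natDegree h0]
  have h1 : (sg m f ^ 2).natDegree ≤ (m * f).natDegree - 1 := by
    rw [← sg_spec]
    exact natDegree_derivative_le _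
  rw [natDegree_pow] at h1
  have h2 := natDegree_mul_le (p := m) (q := f)
  rw [hm, hf] at h2
  have h3 : (sg m f).natDegree < L + u := by omega
  exact_mod_cast h3

theorem fiber {n L j u : ℕ} (hn : 2 * L + j + u = n + 1) (hL : 1 ≤ L) (hj : 1 ≤ j) {m : K[X]}
    (hm : m ∈ Irn K u) (τ : K[X]) :
    ((Mn K (n - j)).filter (fun f => sg m f = τ)).card ≤ Fintype.card K ^ L := by
  rcases ((Mn K (n - j)).filter (fun f => sg m f = τ)).eq_empty_or_nonempty with h | ⟨f₀, hf₀⟩
  · rw [h, Finset.card_empty]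
    exact Nat.zero_le _
  have hsub : (Mn K (n - j)).filter (fun f => sg m f = τ) ⊆
      Finset.univ.image (fun c : Fin L → K => f₀ + m * (pol c) ^ 2) := by
    intro f hf
    rw [mem_filter, mem_Mn] at hf hf₀
    obtain ⟨⟨hf1, hf2⟩, hf3⟩ := hf
    obtain ⟨⟨hg1, hg2⟩, hg3⟩ := hf₀
    rw [mem_Irn] at hm
    have hd : derivative (m * (f - f₀)) = 0 := by
      rw [mul_sub, derivative_sub, sg_spec, sg_spec, hf3, hg3, sub_self]
    obtain ⟨v, hv⟩ := sqrt0 _ hd
    have hmv : m ∣ v := hm.2.2.prime.dvd_of_dvd_pow (n := 2) (by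
      rw [← hv]
      exact dvd_mul_right _ _)
    obtain ⟨w, rfl⟩ := hmv
    have hw : f - f₀ = m * w ^ 2 := by
      apply mul_left_cancel₀ hm.1.ne_zero
      rw [hv]
      ring
    have hwd : w.degree < (L : WithBot ℕ) := by
      by_cases hw0 : w = 0
      · rw [hw0, degree_zero]
        exact WithBot.bot_lt_coe _
      have h1 : (f - f₀).degree < f.degree := by
        refine degree_sub_lt_left ?_ hf1.ne_zero ?_
        · rw [degree_eq_natDegree hf1.ne_zero, degree_eq_natDegree hg1.ne_zero, hf2, hg2]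
        · rw [hf1.leadingCoeff, hg1.leadingCoeff]
      have h2 : m * w ^ 2 ≠ 0 := mul_ne_zero hm.1.ne_zero (pow_ne_zero _ hw0)
      rw [hw, degree_eq_natDegree h2, degree_eq_natDegree hf1.ne_zero, hf2,
        natDegree_mul hm.1.ne_zero (pow_ne_zero _ hw0), natDegree_pow, hm.2.1] at h1
      have h3 : u + 2 * w.natDegree < n - j := by exact_mod_cast h1
      rw [degree_eq_natDegree hw0]
      have h4 : w.natDegree < L := by omega
      exact_mod_cast h4
    obtain ⟨c, hc⟩ := exists_pol hwd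
    rw [mem_image]
    refine ⟨c, mem_univ _, ?_⟩
    rw [hc, ← hw]
    ring
  refine (Finset.card_le_card hsub).trans (Finset.card_image_le.trans ?_)
  rw [Finset.card_univ, Fintype.card_fun, Fintype.card_fin]

/-- the polynomials of degree less than `N` -/
noncomputable def TT (K : Type) [Field K] [Fintype K] (N : ℕ) : Finset K[X] :=
  Finset.univ.image (pol : (Fin N → K) → K[X])

omit [CharP K 2] in
theorem mem_TT {N : ℕ} {σ : K[X]} : σ ∈ TT K N ↔ σ.degree < (N : WithBot ℕ) := by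
  unfold TT
  rw [mem_image]
  constructor
  · rintro ⟨c, -, rfl⟩
    exact pol_degree c
  · intro h
    obtain ⟨c, hc⟩ := exists_pol h
    exact ⟨c, mem_univ _, hc⟩

omit [CharP K 2] in
theorem finsum_TT (N : ℕ) (Φ : K[X] → ℝ) :
    ∑ᶠ σ ∈ {σ : K[X] | σ.degree < (N : WithBot ℕ)}, Φ σ = ∑ σ ∈ TT K N, Φ σ := by
  have hT : {σ : K[X] | σ.degree < (N : WithBot ℕ)} = ↑(TT K N) := by
    ext σ
    rw [Set.mem_setOf_eq, Finset.mem_coe, mem_TT]
  rw [hT, finsum_mem_coe_finset]

theorem sum_le {n L j u N : ℕ} (hn : 2 * L + j + u = n + 1) (hL : 1 ≤ L) (hj : 1 ≤ j)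
    (hN : L + u ≤ N) {m : K[X]} (hm : m ∈ Irn K u) (Φ : K[X] → ℝ) (hΦ : ∀ σ, 0 ≤ Φ σ) :
    ∑ f ∈ Mn K (n - j), Φ (sg m f) ≤ (Fintype.card K : ℝ) ^ L * ∑ σ ∈ TT K N, Φ σ := by
  have hmap : ∀ f ∈ Mn K (n - j), sg m f ∈ TT K N := by
    intro f hf
    rw [mem_Mn] at hf
    rw [mem_TT]
    refine (sg_deg hL (mem_Irn.1 hm).2.1 (by rw [hf.2]; omega)).trans_le ?_
    exact_mod_cast hN
  rw [← Finset.sum_fiberwise_of_maps_to hmap, Finset.mul_sum]
  refine Finset.sum_le_sum fun τ _ => ?_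
  rw [Finset.sum_congr rfl (g := fun _ => Φ τ) (fun f hf => by rw [(mem_filter.1 hf).2]),
    Finset.sum_const, nsmul_eq_mul]
  refine mul_le_mul_of_nonneg_right ?_ (hΦ τ)
  exact_mod_cast fiber hn hL hj hm τ

theorem gw_eq {a j u n : ℕ} (huj : u < j) (hja : j < a) {m A h f : K[X]} (hA : A ∈ Irn K j)
    (hν : ((Irn K a).card : ℝ) / (Fintype.card K : ℝ) ^ a ≠ 0) :
    Gw a m A h f - 1 = (((Irn K a).card : ℝ) / (Fintype.card K : ℝ) ^ a)⁻¹ *
      dsc a (rho m h A) (sg m f) := by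
  have h1 : ((Irn K a).filter (fun P => P ∣ Ds m A h f)) =
      (Irn K a).filter (fun P => P ∣ sg m f - rho m h A P) := by
    refine Finset.filter_congr fun P hP => ?_
    have hPA := not_dvd_of_deg hja hP hA
    rw [Ds_eq, sg_spec]
    exact dvd_iff (mem_Irn.1 hP).2.2 hPA (rho_spec (mem_Irn.1 hP).2.2 hPA)
  unfold Gw dsc
  rw [h1, Finset.sum_sub_distrib, Finset.sum_boole, Finset.sum_const, nsmul_eq_mul, mul_one_div,
    mul_sub, inv_mul_cancel₀ hν, div_eq_inv_mul _ (((Irn K a).card : ℝ) / (Fintype.card K : ℝ) ^ a)]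

omit [CharP K 2] in
theorem card_S_le (j : ℕ) (h : K[X]) :
    (((Irn K j).filter (fun A => ¬ A ∣ h)).card : ℝ) ≤ (Fintype.card K : ℝ) ^ j := by
  refine le_trans ?_ (irn_card_le j)
  exact_mod_cast Finset.card_filter_le _ _

theorem pairs {j u n a : ℕ} (huj : u < j) (hja : j < a) (han : 4 * a ≤ n) {m h : K[X]}
    (hm : m ∈ Irn K u) (hh : h.natDegree < n) (S : Finset K[X])
    (hS : S = (Irn K j).filter (fun A => ¬ A ∣ h)) :
    ∑ P ∈ Irn K a, ((univ.filter (fun p : S × S => P ∣ rho m h p.1 P - rho m h p.2 P)).card : ℝ) ≤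
      (Fintype.card K : ℝ) ^ (j + a) * (1 + 2 * n) := by
  have hq2 : (2 : ℝ) ≤ (Fintype.card K : ℝ) := q_ge
  have e1 : ∑ P ∈ Irn K a, ((univ.filter (fun p : S × S =>
      P ∣ rho m h p.1 P - rho m h p.2 P)).card : ℝ) = ∑ p : S × S,
      (((Irn K a).filter (fun P => P ∣ rho m h p.1 P - rho m h p.2 P)).card : ℝ) := by
    simp_rw [Finset.card_filter]
    push_cast
    exact Finset.sum_comm
  rw [e1]
  have hmem : ∀ x : S, (x : K[X]) ∈ Irn K j ∧ ¬ (x : K[X]) ∣ h := by
    intro x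
    have hx : (x : K[X]) ∈ (Irn K j).filter (fun A => ¬ A ∣ h) := by
      rw [← hS]
      exact x.2
    exact mem_filter.1 hx
  have h2 : ∀ p : S × S, (((Irn K a).filter (fun P =>
      P ∣ rho m h p.1 P - rho m h p.2 P)).card : ℝ) ≤
      (if p.1 = p.2 then (Fintype.card K : ℝ) ^ a else 0) + 2 * n := by
    rintro ⟨x, y⟩
    by_cases hxy : x = y
    · rw [if_pos hxy]
      have h3 := irn_card_le (K := K) a
      have h4 : (((Irn K a).filter (fun P => P ∣ rho m h x P - rho m h y P)).card : ℝ) ≤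
          ((Irn K a).card : ℝ) := by exact_mod_cast Finset.card_filter_le _ _
      have h5 : (0 : ℝ) ≤ 2 * n := by positivity
      exact h4.trans (h3.trans (le_add_of_nonneg_right h5))
    · rw [if_neg hxy, zero_add]
      have hne : (x : K[X]) ≠ y := fun hh => hxy (Subtype.ext hh)
      have h3 := card_VV huj hja han hm (hmem x).1 (hmem y).1 hh (hmem x).2 hne
      have h4 : ((Irn K a).filter (fun P => P ∣ rho m h x P - rho m h y P)).card ≤
          ((Irn K a).filter (fun P => P ∣ VV m h x y)).card := by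
        refine Finset.card_le_card ?_
        intro P hP
        rw [mem_filter] at hP ⊢
        refine ⟨hP.1, ?_⟩
        exact dvd_VV (mem_Irn.1 hP.1).2.2 (not_dvd_of_deg hja hP.1 (hmem x).1)
          (not_dvd_of_deg hja hP.1 (hmem y).1) hP.2
      exact_mod_cast h4.trans h3
  refine (Finset.sum_le_sum fun p _ => h2 p).trans ?_
  rw [Fintype.sum_prod_type]
  have h3 : ∀ x : S, ∑ y : S, ((if (x, y).1 = (x, y).2 then (Fintype.card K : ℝ) ^ a else 0) +
      2 * (n : ℝ)) = (Fintype.card K : ℝ) ^ a + S.card * (2 * n) := by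
    intro x
    rw [Finset.sum_add_distrib, Finset.sum_const, nsmul_eq_mul, Finset.card_univ,
      Fintype.card_coe, Finset.sum_ite_eq, if_pos (mem_univ _)]
  rw [Finset.sum_congr rfl (fun x _ => h3 x), Finset.sum_const, nsmul_eq_mul, Finset.card_univ,
    Fintype.card_coe]
  have h4 : (S.card : ℝ) ≤ (Fintype.card K : ℝ) ^ j := by
    rw [hS]
    exact card_S_le j h
  have h5 : (Fintype.card K : ℝ) ^ j ≤ (Fintype.card K : ℝ) ^ a :=
    pow_le_pow_right₀ (by linarith) hja.le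
  have h6 : (0 : ℝ) ≤ S.card := by positivity
  calc (S.card : ℝ) * ((Fintype.card K : ℝ) ^ a + S.card * (2 * n)) ≤
      (Fintype.card K : ℝ) ^ j * ((Fintype.card K : ℝ) ^ a + (Fintype.card K : ℝ) ^ a * (2 * n)) := by
        have : (S.card : ℝ) ≤ (Fintype.card K : ℝ) ^ a := h4.trans h5
        gcongr
    _ = _ := by
        rw [pow_add]
        ring

end char2

end WM1L

open WM1L in
/-- **Task WM1.** -/
theorem wm1 (hl : S_ls1) : S_wm1 := by
  intro K _ _ _
  refine ⟨3, ?_⟩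
  intro n L j u a h m hn hL hu huj hja han hh0 hhn hm
  set S := (Irn K j).filter (fun A => ¬ A ∣ h) with hS
  have hq2 : (2 : ℝ) ≤ (Fintype.card K : ℝ) := q_ge
  have hν1 : 1 / (2 * (a : ℝ)) ≤ ((Irn K a).card : ℝ) / (Fintype.card K : ℝ) ^ a := by
    have h1 := irn_wt_ge (k := K) (j := a) (by omega)
    rw [sum_congr rfl (fun P hP => by rw [(mem_Irn.1 hP).2.1]), sum_const, nsmul_eq_mul] at h1
    rw [div_eq_mul_inv _ ((Fintype.card K : ℝ) ^ a)]
    exact h1
  have ha0 : (0 : ℝ) < a := by exact_mod_cast (show 0 < a by omega)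
  have hν0 : 0 < ((Irn K a).card : ℝ) / (Fintype.card K : ℝ) ^ a :=
    lt_of_lt_of_le (by positivity) hν1
  set ν : ℝ := ((Irn K a).card : ℝ) / (Fintype.card K : ℝ) ^ a with hν
  set N := max (L + u) (2 * a) with hN
  have e1 : ∀ f ∈ Mn K (n - j), (∑ A ∈ S, (Gw a m A h f - 1)) ^ 2 =
      (ν⁻¹) ^ 2 * (∑ A ∈ S, dsc a (rho m h A) (sg m f)) ^ 2 := by
    intro f _
    rw [← mul_pow, Finset.mul_sum]
    congr 1
    refine Finset.sum_congr rfl fun A hA => ?_
    rw [hS, mem_filter] at hA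
    exact gw_eq (n := n) huj hja hA.1 hν0.ne'
  rw [Finset.sum_congr rfl e1, ← Finset.mul_sum]
  have e2 := sum_le hn hL (by omega) (le_max_left _ _ : L + u ≤ N) hm
    (fun σ => (∑ A ∈ S, dsc a (rho m h A) σ) ^ 2) (fun σ => sq_nonneg _)
  have e3 := hl K S a N (fun A => rho m h A) (by omega) (le_max_right _ _)
  rw [finsum_TT] at e3
  have e4 : ∀ σ : K[X], ∑ i : S, dsc a (rho m h i) σ = ∑ A ∈ S, dsc a (rho m h A) σ := fun σ =>
    Finset.sum_coe_sort S (fun A => dsc a (rho m h A) σ)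
  simp_rw [e4] at e3
  have e5 := pairs huj hja han hm hhn S hS
  set X := ∑ σ ∈ TT K N, (∑ A ∈ S, dsc a (rho m h A) σ) ^ 2 with hX
  have hqa : (0 : ℝ) < (Fintype.card K : ℝ) ^ a := by positivity
  have e6 : X ≤ (Fintype.card K : ℝ) ^ (N + j) * (1 + 2 * n) := by
    refine e3.trans ((mul_le_mul_of_nonneg_left e5 (by positivity)).trans (le_of_eq ?_))
    rw [pow_add _ j a, pow_add _ N j]
    field_simp
  have e7 : (ν⁻¹) ^ 2 ≤ (2 * (a : ℝ)) ^ 2 := by
    have h1 : ν⁻¹ ≤ 2 * a := by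
      rw [inv_le_comm₀ hν0 (by positivity)]
      rw [one_div] at hν1
      exact hν1
    exact pow_le_pow_left₀ (by positivity) h1 2
  have e8 : (ν⁻¹) ^ 2 * ∑ f ∈ Mn K (n - j), (∑ A ∈ S, dsc a (rho m h A) (sg m f)) ^ 2 ≤
      (2 * (a : ℝ)) ^ 2 * ((Fintype.card K : ℝ) ^ L * ((Fintype.card K : ℝ) ^ (N + j) *
        (1 + 2 * n))) := by
    refine mul_le_mul e7 (e2.trans ?_) (Finset.sum_nonneg fun _ _ => sq_nonneg _) (by positivity)
    exact mul_le_mul_of_nonneg_left e6 (by positivity)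
  refine e8.trans ?_
  have hn1 : (1 : ℝ) ≤ n := by exact_mod_cast (show 1 ≤ n by omega)
  have han' : 4 * (a : ℝ) ≤ n := by exact_mod_cast han
  have e9 : (2 * (a : ℝ)) ^ 2 * (1 + 2 * n) ≤ (n : ℝ) ^ 3 := by
    have h1 : (2 * (a : ℝ)) ^ 2 ≤ n ^ 2 / 4 := by nlinarith
    calc (2 * (a : ℝ)) ^ 2 * (1 + 2 * n) ≤ n ^ 2 / 4 * (4 * n) := by
          gcongr
          linarith
      _ = _ := by ring
  have e10 : (Fintype.card K : ℝ) ^ (L + (N + j)) ≤
      (Fintype.card K : ℝ) ^ (n + j) * (Fintype.card K : ℝ) ^ (-(j : ℝ) / 2) := by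
    rw [← Real.rpow_natCast, ← Real.rpow_natCast, ← Real.rpow_add (by linarith)]
    refine Real.rpow_le_rpow_of_exponent_le (by linarith) ?_
    have h1 : 2 * (L + (N + j)) ≤ 2 * n + j := by omega
    have h2 : 2 * ((L + (N + j) : ℕ) : ℝ) ≤ 2 * n + j := by exact_mod_cast h1
    push_cast at h2 ⊢
    linarith
  calc (2 * (a : ℝ)) ^ 2 * ((Fintype.card K : ℝ) ^ L * ((Fintype.card K : ℝ) ^ (N + j) *
        (1 + 2 * n))) = ((2 * (a : ℝ)) ^ 2 * (1 + 2 * n)) *
        (Fintype.card K : ℝ) ^ (L + (N + j)) := by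
        rw [pow_add _ L]
        ring
    _ ≤ (n : ℝ) ^ 3 * ((Fintype.card K : ℝ) ^ (n + j) *
        (Fintype.card K : ℝ) ^ (-(j : ℝ) / 2)) := by
        gcongr
    _ = _ := by ring

end Pool.Agent.H251.SP

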