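import Pool.Agent.H251.SP.Stm
import Pool.Agent.H985.Chow.Asm

/-!
# Task WM2 of helper251 (proved by helper800): the second moment for two multipliers
-/

set_option autoImplicit false

namespace Pool.Agent.H251.SP

open Polynomial Finset
open scoped Classical
open Pool.Agent.H985.Chow (mob)
open Pool.Agent.H694.Typ (Mn Irn mem_Mn mem_Irn card_Mn PU mem_PU wt q_ge irn_wt_ge card_dvd_e
  coprime_of_ne)

section sq

variable {K : Type} [Field K] [Fintype K] [CharP K 2]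

omit [Fintype K] in
theorem wm2_der_sq (a : K[X]) : derivative (a ^ 2) = 0 := by
  have h2 : (2 : K[X]) = 0 := CharTwo.two_eq_zero
  rw [pow_two, derivative_mul]
  linear_combination (a * derivative a) * h2

theorem wm2_exists_sq (F : K[X]) : ∃ s : K[X], s ^ 2 = derivative F := by
  obtain ⟨a, b, rfl⟩ := Pool.Agent.H985.Chow.Asm.G_surj F
  refine ⟨b, ?_⟩
  unfold Pool.Agent.H985.Chow.Asm.G
  rw [derivative_add, derivative_mul, derivative_X, one_mul, wm2_der_sq, wm2_der_sq, mul_zero,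
    zero_add, add_zero]

/-- the square root of the derivative -/
noncomputable def wm2_s (F : K[X]) : K[X] := (wm2_exists_sq F).choose

theorem wm2_s_sq (F : K[X]) : wm2_s F ^ 2 = derivative F := (wm2_exists_sq F).choose_spec

theorem wm2_Ds (m A h f : K[X]) : Ds m A h f = (A * wm2_s (m * f) + wm2_s (m * A * h)) ^ 2 := by
  have h2 : (2 : K[X]) = 0 := CharTwo.two_eq_zero
  have e1 : m * A * (A * f + h) = A ^ 2 * (m * f) + m * A * h := by ring
  unfold Ds
  rw [e1, derivative_add, derivative_mul (f := A ^ 2), wm2_der_sq]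
  have e2 : (A * wm2_s (m * f) + wm2_s (m * A * h)) ^ 2 =
      A ^ 2 * wm2_s (m * f) ^ 2 + wm2_s (m * A * h) ^ 2 +
        2 * (A * wm2_s (m * f) * wm2_s (m * A * h)) := by ring
  rw [e2, wm2_s_sq, wm2_s_sq, h2]
  ring

/-- an inverse modulo `P` -/
noncomputable def wm2_inv (A P : K[X]) : K[X] := if h : IsCoprime A P then h.choose else 0

omit [Fintype K] [CharP K 2] in
theorem wm2_inv_spec {A P : K[X]} (h : IsCoprime A P) : P ∣ wm2_inv A P * A - 1 := by
  unfold wm2_inv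
  rw [dif_pos h]
  obtain ⟨b, hb⟩ := h.choose_spec
  exact ⟨-b, by linear_combination hb⟩

/-- the root -/
noncomputable def wm2_rho (m A h P : K[X]) : K[X] := wm2_s (m * A * h) * wm2_inv A P

theorem wm2_dvd {m A h f P : K[X]} (hP : Irreducible P) (hA : IsCoprime A P) :
    P ∣ Ds m A h f ↔ P ∣ wm2_s (m * f) - wm2_rho m A h P := by
  rw [wm2_Ds]
  have h2 : (2 : K[X]) = 0 := CharTwo.two_eq_zero
  obtain ⟨c, hc⟩ := wm2_inv_spec hA
  have e1 : A * (wm2_s (m * f) - wm2_rho m A h P) =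
      (A * wm2_s (m * f) + wm2_s (m * A * h)) - P * (c * wm2_s (m * A * h)) := by
    unfold wm2_rho
    linear_combination (-wm2_s (m * A * h)) * hc - wm2_s (m * A * h) * h2
  constructor
  · intro hd
    have h3 := hP.prime.dvd_of_dvd_pow hd
    have h4 : P ∣ A * (wm2_s (m * f) - wm2_rho m A h P) := by
      rw [e1]
      exact dvd_sub h3 (dvd_mul_right _ _)
    exact hA.symm.dvd_of_dvd_mul_left h4
  · intro hd
    have h4 : P ∣ A * (wm2_s (m * f) - wm2_rho m A h P) := Dvd.dvd.mul_left hd _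
    rw [e1] at h4
    have h5 : P ∣ A * wm2_s (m * f) + wm2_s (m * A * h) := by
      have h6 := dvd_add h4 (dvd_mul_right P (c * wm2_s (m * A * h)))
      rwa [sub_add_cancel] at h6
    exact Dvd.dvd.pow h5 two_ne_zero

theorem wm2_rho_sub {m A A' h P : K[X]} (hA : IsCoprime A P) (hA' : IsCoprime A' P)
    (hd : P ∣ wm2_rho m A h P - wm2_rho m A' h P) :
    P ∣ derivative (m * A * h) * A' ^ 2 - derivative (m * A' * h) * A ^ 2 := by
  obtain ⟨c, hc⟩ := wm2_inv_spec hA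
  obtain ⟨c', hc'⟩ := wm2_inv_spec hA'
  obtain ⟨d, hd⟩ := hd
  unfold wm2_rho at hd
  rw [← wm2_s_sq, ← wm2_s_sq]
  have e1 : wm2_s (m * A * h) * A' - wm2_s (m * A' * h) * A =
      P * (d * A * A' - wm2_s (m * A * h) * A' * c + wm2_s (m * A' * h) * A * c') := by
    linear_combination (A * A') * hd - wm2_s (m * A * h) * A' * hc + wm2_s (m * A' * h) * A * hc'
  have e2 : wm2_s (m * A * h) ^ 2 * A' ^ 2 - wm2_s (m * A' * h) ^ 2 * A ^ 2 =
      (wm2_s (m * A * h) * A' - wm2_s (m * A' * h) * A) *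
        (wm2_s (m * A * h) * A' + wm2_s (m * A' * h) * A) := by ring
  rw [e2, e1, mul_assoc]
  exact dvd_mul_right _ _

theorem wm2_der_ne {P : K[X]} (hP : Irreducible P) : derivative P ≠ 0 := by
  intro h0
  obtain ⟨a, b, hab⟩ := Pool.Agent.H985.Chow.Asm.G_surj P
  have h3 : derivative P = b ^ 2 := by
    rw [← hab]
    unfold Pool.Agent.H985.Chow.Asm.G
    rw [derivative_add, derivative_mul, derivative_X, one_mul, wm2_der_sq, wm2_der_sq, mul_zero,
      zero_add, add_zero]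
  rw [h0] at h3
  have hb : b = 0 := by
    by_contra hb
    exact pow_ne_zero 2 hb h3.symm
  rw [hb] at hab
  unfold Pool.Agent.H985.Chow.Asm.G at hab
  have h4 : P = a * a := by rw [← hab]; ring
  rcases hP.isUnit_or_isUnit h4 with h5 | h5
  · exact hP.not_isUnit (by rw [h4]; exact h5.mul h5)
  · exact hP.not_isUnit (by rw [h4]; exact h5.mul h5)

theorem wm2_not_dvd_der {P : K[X]} (hP : Irreducible P) : ¬ P ∣ derivative P := by
  intro h
  have h1 := wm2_der_ne hP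
  have h2 := natDegree_le_of_dvd h h1
  have h3 : P.natDegree ≠ 0 := hP.natDegree_pos.ne'
  have h4 := natDegree_derivative_lt h3
  omega

theorem wm2_V_ne {m A A' h : K[X]} (hA : Irreducible A) (hm : ¬ A ∣ m) (hAA' : ¬ A ∣ A')
    (hh : ¬ A ∣ h) :
    derivative (m * A * h) * A' ^ 2 - derivative (m * A' * h) * A ^ 2 ≠ 0 := by
  intro h0
  have h1 : A ∣ derivative (m * A * h) * A' ^ 2 := by
    rw [sub_eq_zero.1 h0]
    exact Dvd.dvd.mul_left (dvd_pow_self A two_ne_zero) _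
  have h3 : A ∣ derivative (m * A * h) := by
    rcases hA.prime.dvd_or_dvd h1 with h4 | h4
    · exact h4
    · exact absurd (hA.prime.dvd_of_dvd_pow h4) hAA'
  have h5 : derivative (m * A * h) = m * derivative A * h +
      A * (derivative m * h + m * derivative h) := by
    rw [derivative_mul, derivative_mul]; ring
  rw [h5] at h3
  have h6 : A ∣ m * derivative A * h := (dvd_add_left (dvd_mul_right _ _)).1 h3
  rcases hA.prime.dvd_or_dvd h6 with h7 | h7
  · rcases hA.prime.dvd_or_dvd h7 with h8 | h8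
    · exact hm h8
    · exact wm2_not_dvd_der hA h8
  · exact hh h7

theorem wm2_inj {m m' f g : K[X]} (hm : Irreducible m) (hmm : ¬ m ∣ m')
    (h1 : wm2_s (m * f) = wm2_s (m * g)) (h3 : wm2_s (m' * f) = wm2_s (m' * g)) : f = g := by
  have h2 : (2 : K[X]) = 0 := CharTwo.two_eq_zero
  have e1 : derivative (m * f) = derivative (m * g) := by rw [← wm2_s_sq, h1, wm2_s_sq]
  have e3 : derivative (m' * f) = derivative (m' * g) := by rw [← wm2_s_sq, h3, wm2_s_sq]
  rw [derivative_mul, derivative_mul] at e1 e3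
  have e4 : (derivative m * m' + m * derivative m') * (f - g) = 0 := by
    linear_combination m' * e1 + m * e3 - (m * m' * derivative (f - g)) * h2 +
      (2 * m * m') * (derivative_sub : derivative (f - g) = derivative f - derivative g)
  rcases mul_eq_zero.1 e4 with h5 | h5
  · exfalso
    have h6 : m ∣ derivative m * m' := ⟨-derivative m', by linear_combination h5⟩
    rcases hm.prime.dvd_or_dvd h6 with h7 | h7
    · exact wm2_not_dvd_der hm h7
    · exact hmm h7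
  · exact sub_eq_zero.1 h5

theorem wm2_s_degree {F : K[X]} {N : ℕ} (h : F.natDegree ≤ 2 * N + 1) :
    (wm2_s F).degree < ((N + 1 : ℕ) : WithBot ℕ) := by
  have h1 := congrArg natDegree (wm2_s_sq F)
  rw [natDegree_pow] at h1
  have h3 : (derivative F).natDegree ≤ F.natDegree - 1 := natDegree_derivative_le F
  have h4 : (wm2_s F).natDegree < N + 1 := by omega
  exact (degree_le_natDegree).trans_lt (by exact_mod_cast h4)

end sq

section box

variable (K : Type) [Field K] [Fintype K]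

/-- the polynomials of degree less than `N` -/
noncomputable def wm2_B (N : ℕ) : Finset K[X] :=
  (Finset.univ : Finset (degreeLT K N)).image (fun u : degreeLT K N => (u : K[X]))

variable {K}

theorem wm2_mem_B {N : ℕ} {u : K[X]} : u ∈ wm2_B K N ↔ u.degree < (N : WithBot ℕ) := by
  unfold wm2_B
  rw [Finset.mem_image]
  constructor
  · rintro ⟨v, -, rfl⟩
    exact mem_degreeLT.mp v.2
  · intro h
    exact ⟨⟨u, mem_degreeLT.mpr h⟩, Finset.mem_univ _, rfl⟩

theorem wm2_finsum (N : ℕ) (F : K[X] → ℝ) :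
    ∑ᶠ u ∈ {u : K[X] | u.degree < (N : WithBot ℕ)}, F u = ∑ u ∈ wm2_B K N, F u := by
  have h : {u : K[X] | u.degree < (N : WithBot ℕ)} = ((wm2_B K N : Finset K[X]) : Set K[X]) := by
    ext u
    rw [Finset.mem_coe, wm2_mem_B]
    rfl
  rw [h, finsum_mem_coe_finset]

omit [Fintype K] in
theorem wm2_sum_le {ι : Type} (S : Finset ι) (T : Finset (K[X] × K[X])) (e : ι → K[X] × K[X])
    (he : ∀ x ∈ S, ∀ y ∈ S, e x = e y → x = y) (hT : ∀ x ∈ S, e x ∈ T)
    (F : K[X] × K[X] → ℝ) (hF : ∀ x, 0 ≤ F x) : ∑ x ∈ S, F (e x) ≤ ∑ y ∈ T, F y := by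
  rw [← Finset.sum_image (g := e) (f := F) (fun x hx y hy h => he x hx y hy h)]
  apply Finset.sum_le_sum_of_subset_of_nonneg
  · intro y hy
    rw [Finset.mem_image] at hy
    obtain ⟨x, hx, rfl⟩ := hy
    exact hT x hx
  · intro y _ _
    exact hF y

end box

section main

variable {K : Type} [Field K] [Fintype K] [CharP K 2]

theorem wm2_Gw {a j : ℕ} {m A h f : K[X]} (ha : j < a) (hA : A ∈ Irn K j)
    (hν : ((Irn K a).card : ℝ) / (Fintype.card K : ℝ) ^ a ≠ 0) :
    Gw a m A h f - 1 = dsc a (wm2_rho m A h) (wm2_s (m * f)) /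
      (((Irn K a).card : ℝ) / (Fintype.card K : ℝ) ^ a) := by
  have h1 : ((((Irn K a).filter (fun P => P ∣ Ds m A h f)).card : ℕ) : ℝ) =
      ∑ P ∈ Irn K a, (if P ∣ wm2_s (m * f) - wm2_rho m A h P then (1 : ℝ) else 0) := by
    rw [Finset.card_filter]
    push_cast
    refine Finset.sum_congr rfl fun P hP => ?_
    have hne : A ≠ P := by
      rintro rfl
      have e1 := (mem_Irn.1 hA).2.1
      have e2 := (mem_Irn.1 hP).2.1
      omega
    have hco : IsCoprime A P := coprime_of_ne (mem_Irn.1 hA).1 (mem_Irn.1 hA).2.2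
      (mem_Irn.1 hP).1 (mem_Irn.1 hP).2.2 hne
    have hiff := wm2_dvd (m := m) (h := h) (f := f) (mem_Irn.1 hP).2.2 hco
    by_cases h3 : P ∣ Ds m A h f
    · rw [if_pos h3, if_pos (hiff.1 h3)]
    · rw [if_neg h3, if_neg (fun h4 => h3 (hiff.2 h4))]
  have h2 : dsc a (wm2_rho m A h) (wm2_s (m * f)) =
      ((((Irn K a).filter (fun P => P ∣ Ds m A h f)).card : ℕ) : ℝ) -
        ((Irn K a).card : ℝ) / (Fintype.card K : ℝ) ^ a := by
    unfold dsc
    rw [Finset.sum_sub_distrib, h1, Finset.sum_const, nsmul_eq_mul, mul_one_div]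
  rw [h2, sub_div, div_self hν]
  rfl

theorem wm2_count {a j n u : ℕ} {m A A' h : K[X]} (hu : u < j) (ha : j < a) (han : 4 * a ≤ n)
    (hm : m ∈ Irn K u) (hA : A ∈ Irn K j) (hA' : A' ∈ Irn K j) (hne : A ≠ A') (hAh : ¬ A ∣ h)
    (hh : h.natDegree < n) :
    (((Irn K a).filter (fun P => P ∣ wm2_rho m A h P - wm2_rho m A' h P)).card : ℝ) ≤ 4 * n := by
  rw [mem_Irn] at hm hA hA'
  have hAm : ¬ A ∣ m := by
    intro hd
    have := natDegree_le_of_dvd hd hm.1.ne_zero
    omega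
  have hAA : ¬ A ∣ A' := by
    intro hd
    exact hne (eq_of_monic_of_associated hA.1 hA'.1 (hA.2.2.associated_of_dvd hA'.2.2 hd))
  have hV := wm2_V_ne (m := m) (A' := A') (h := h) hA.2.2 hAm hAA hAh
  have hsub : (Irn K a).filter (fun P => P ∣ wm2_rho m A h P - wm2_rho m A' h P) ⊆
      (PU K a).filter (fun P => P ∣
        derivative (m * A * h) * A' ^ 2 - derivative (m * A' * h) * A ^ 2) := by
    intro P hP
    rw [Finset.mem_filter] at hP ⊢
    obtain ⟨hP, hd⟩ := hP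
    rw [mem_Irn] at hP
    refine ⟨mem_PU.2 ⟨hP.1, hP.2.2, hP.2.1.le⟩, ?_⟩
    have hn1 : A ≠ P := by rintro rfl; omega
    have hn2 : A' ≠ P := by rintro rfl; omega
    exact wm2_rho_sub (coprime_of_ne hA.1 hA.2.2 hP.1 hP.2.2 hn1)
      (coprime_of_ne hA'.1 hA'.2.2 hP.1 hP.2.2 hn2) hd
  have h1 := (Finset.card_le_card hsub).trans (card_dvd_e a hV)
  have hdeg : ∀ B C : K[X], B.natDegree = j → C.natDegree = j →
      (derivative (m * B * h) * C ^ 2).natDegree ≤ 4 * n := by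
    intro B C hB hC
    have e1 : (derivative (m * B * h)).natDegree ≤ (m * B * h).natDegree :=
      (natDegree_derivative_le _).trans (Nat.sub_le _ _)
    have e2 : (m * B * h).natDegree ≤ m.natDegree + B.natDegree + h.natDegree :=
      natDegree_mul_le.trans (Nat.add_le_add_right natDegree_mul_le _)
    have e3 : (C ^ 2).natDegree = 2 * C.natDegree := natDegree_pow _ _
    have e4 : (derivative (m * B * h) * C ^ 2).natDegree ≤
      (derivative (m * B * h)).natDegree + (C ^ 2).natDegree := natDegree_mul_le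
    omega
  have h3 : (derivative (m * A * h) * A' ^ 2 - derivative (m * A' * h) * A ^ 2).natDegree ≤
      4 * n := (natDegree_sub_le _ _).trans
        (max_le (hdeg A A' hA.2.1 hA'.2.1) (hdeg A' A hA'.2.1 hA.2.1))
  exact_mod_cast h1.trans h3

omit [CharP K 2] in
theorem wm2_Irn_le (a : ℕ) : ((Irn K a).card : ℝ) ≤ (Fintype.card K : ℝ) ^ a := by
  have h : (Irn K a).card ≤ Fintype.card K ^ a := by
    rw [← card_Mn]
    exact Finset.card_le_card (Finset.filter_subset _ _)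
  exact_mod_cast h

/-- the number of the pairs -/
theorem wm2_pairs {a j n u : ℕ} {m m' h : K[X]} (hu : u < j) (ha : j < a) (han : 4 * a ≤ n)
    (hm : m ∈ Irn K u) (hm' : m' ∈ Irn K u) (hh : h.natDegree < n) :
    ∑ P ∈ Irn K a, ∑ Q ∈ Irn K a,
      ((univ.filter (fun p : {A // A ∈ (Irn K j).filter (fun A => ¬ A ∣ h)} ×
          {A // A ∈ (Irn K j).filter (fun A => ¬ A ∣ h)} =>
        P ∣ wm2_rho m p.1.1 h P - wm2_rho m p.2.1 h P ∧
        Q ∣ wm2_rho m' p.1.1 h Q - wm2_rho m' p.2.1 h Q)).card : ℝ) ≤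
      (Fintype.card K : ℝ) ^ j * ((Fintype.card K : ℝ) ^ a) ^ 2 +
        ((Fintype.card K : ℝ) ^ j) ^ 2 * (4 * n) ^ 2 := by
  have e1 : ∀ P Q : K[X], ((univ.filter (fun p : {A // A ∈ (Irn K j).filter (fun A => ¬ A ∣ h)} ×
          {A // A ∈ (Irn K j).filter (fun A => ¬ A ∣ h)} =>
        P ∣ wm2_rho m p.1.1 h P - wm2_rho m p.2.1 h P ∧
        Q ∣ wm2_rho m' p.1.1 h Q - wm2_rho m' p.2.1 h Q)).card : ℝ) =
      ∑ p : {A // A ∈ (Irn K j).filter (fun A => ¬ A ∣ h)} ×
          {A // A ∈ (Irn K j).filter (fun A => ¬ A ∣ h)},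
        (if P ∣ wm2_rho m p.1.1 h P - wm2_rho m p.2.1 h P then (1 : ℝ) else 0) *
        (if Q ∣ wm2_rho m' p.1.1 h Q - wm2_rho m' p.2.1 h Q then (1 : ℝ) else 0) := by
    intro P Q
    rw [Finset.card_filter]
    push_cast
    refine Finset.sum_congr rfl fun p _ => ?_
    by_cases h1 : P ∣ wm2_rho m p.1.1 h P - wm2_rho m p.2.1 h P
    · by_cases h3 : Q ∣ wm2_rho m' p.1.1 h Q - wm2_rho m' p.2.1 h Q
      · rw [if_pos ⟨h1, h3⟩, if_pos h1, if_pos h3, mul_one]
      · rw [if_neg (fun h4 => h3 h4.2), if_pos h1, if_neg h3, mul_zero]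
    · rw [if_neg (fun h4 => h1 h4.1), if_neg h1, zero_mul]
  have e2 : ∑ P ∈ Irn K a, ∑ Q ∈ Irn K a,
      ((univ.filter (fun p : {A // A ∈ (Irn K j).filter (fun A => ¬ A ∣ h)} ×
          {A // A ∈ (Irn K j).filter (fun A => ¬ A ∣ h)} =>
        P ∣ wm2_rho m p.1.1 h P - wm2_rho m p.2.1 h P ∧
        Q ∣ wm2_rho m' p.1.1 h Q - wm2_rho m' p.2.1 h Q)).card : ℝ) =
      ∑ p : {A // A ∈ (Irn K j).filter (fun A => ¬ A ∣ h)} ×
          {A // A ∈ (Irn K j).filter (fun A => ¬ A ∣ h)},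
        (((Irn K a).filter (fun P => P ∣ wm2_rho m p.1.1 h P - wm2_rho m p.2.1 h P)).card : ℝ) *
        (((Irn K a).filter (fun Q => Q ∣ wm2_rho m' p.1.1 h Q - wm2_rho m' p.2.1 h Q)).card : ℝ) := by
    rw [Finset.sum_congr rfl fun P _ => Finset.sum_congr rfl fun Q _ => e1 P Q]
    rw [Finset.sum_congr rfl fun P _ => Finset.sum_comm, Finset.sum_comm]
    refine Finset.sum_congr rfl fun p _ => ?_
    rw [Finset.card_filter, Finset.card_filter]
    push_cast
    rw [Finset.sum_mul_sum]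
  rw [e2]
  have hI : (Fintype.card {A // A ∈ (Irn K j).filter (fun A => ¬ A ∣ h)} : ℝ) ≤
      (Fintype.card K : ℝ) ^ j := by
    rw [Fintype.card_coe]
    refine le_trans ?_ (wm2_Irn_le j)
    exact_mod_cast Finset.card_le_card (Finset.filter_subset _ _)
  have hb : ∀ p : {A // A ∈ (Irn K j).filter (fun A => ¬ A ∣ h)} ×
          {A // A ∈ (Irn K j).filter (fun A => ¬ A ∣ h)},
        (((Irn K a).filter (fun P => P ∣ wm2_rho m p.1.1 h P - wm2_rho m p.2.1 h P)).card : ℝ) *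
        (((Irn K a).filter (fun Q => Q ∣ wm2_rho m' p.1.1 h Q - wm2_rho m' p.2.1 h Q)).card : ℝ) ≤
        (if p.1 = p.2 then ((Fintype.card K : ℝ) ^ a) ^ 2 else 0) + (4 * (n : ℝ)) ^ 2 := by
    intro p
    by_cases hp : p.1 = p.2
    · rw [if_pos hp, pow_two ((Fintype.card K : ℝ) ^ a)]
      have h1 : ∀ (C : K[X] → Prop), (((Irn K a).filter C).card : ℝ) ≤
          (Fintype.card K : ℝ) ^ a := by
        intro C
        refine le_trans ?_ (wm2_Irn_le a)
        exact_mod_cast Finset.card_le_card (Finset.filter_subset _ _)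
      have h3 := mul_le_mul (h1 (fun P => P ∣ wm2_rho m p.1.1 h P - wm2_rho m p.2.1 h P))
        (h1 (fun Q => Q ∣ wm2_rho m' p.1.1 h Q - wm2_rho m' p.2.1 h Q)) (Nat.cast_nonneg _)
        (by positivity)
      have h4 : (0 : ℝ) ≤ (4 * (n : ℝ)) ^ 2 := by positivity
      linarith
    · rw [if_neg hp, zero_add, pow_two (4 * (n : ℝ))]
      have hne : p.1.1 ≠ p.2.1 := fun h1 => hp (Subtype.ext h1)
      obtain ⟨hA, hAh⟩ := Finset.mem_filter.1 p.1.2
      obtain ⟨hA', -⟩ := Finset.mem_filter.1 p.2.2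
      exact mul_le_mul (wm2_count hu ha han hm hA hA' hne hAh hh)
        (wm2_count hu ha han hm' hA hA' hne hAh hh) (Nat.cast_nonneg _) (by positivity)
  refine (Finset.sum_le_sum fun p _ => hb p).trans ?_
  rw [Finset.sum_add_distrib, Finset.sum_const, Finset.card_univ, Fintype.card_prod, nsmul_eq_mul]
  have e3 : ∑ p : {A // A ∈ (Irn K j).filter (fun A => ¬ A ∣ h)} ×
          {A // A ∈ (Irn K j).filter (fun A => ¬ A ∣ h)},
        (if p.1 = p.2 then ((Fintype.card K : ℝ) ^ a) ^ 2 else 0) =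
      (Fintype.card {A // A ∈ (Irn K j).filter (fun A => ¬ A ∣ h)} : ℝ) *
        ((Fintype.card K : ℝ) ^ a) ^ 2 := by
    rw [Fintype.sum_prod_type]
    simp only [Finset.sum_ite_eq, Finset.mem_univ, if_true]
    rw [Finset.sum_const, Finset.card_univ, nsmul_eq_mul]
  rw [e3]
  have hI0 : (0 : ℝ) ≤ (Fintype.card {A // A ∈ (Irn K j).filter (fun A => ¬ A ∣ h)} : ℝ) :=
    Nat.cast_nonneg _
  apply add_le_add
  · exact mul_le_mul_of_nonneg_right hI (by positivity)
  · push_cast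
    rw [pow_two ((Fintype.card K : ℝ) ^ j)]
    exact mul_le_mul_of_nonneg_right (mul_le_mul hI hI hI0 (by positivity)) (by positivity)

/-- the final inequality -/
theorem wm2_num {q n L j u a N : ℕ} {ν : ℝ} (hq : 2 ≤ q) (hL : 2 * L + j + u = n + 1)
    (hu4 : 4 ≤ u) (huj : u < j) (hja : j < a) (han : 4 * a ≤ n)
    (hν : 1 / (2 * (a : ℝ)) ≤ ν) (hN : N = max (L + u) (2 * a)) :
    (1 / ν) ^ 4 * ((q : ℝ) ^ (2 * N) / (q : ℝ) ^ (2 * a) *
      ((q : ℝ) ^ j * ((q : ℝ) ^ a) ^ 2 + ((q : ℝ) ^ j) ^ 2 * (4 * n) ^ 2)) ≤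
    (n : ℝ) ^ (15 + q) * (q : ℝ) ^ (n + j) *
      ((q : ℝ) ^ ((u : ℝ) - j) + (q : ℝ) ^ (4 * (a : ℝ) - n)) := by
  have hq1 : (2 : ℝ) ≤ q := by exact_mod_cast hq
  have hq0 : (0 : ℝ) < q := by linarith
  have ha0 : (0 : ℝ) < a := by exact_mod_cast (show 0 < a by omega)
  have hn24 : (24 : ℝ) ≤ n := by exact_mod_cast (show 24 ≤ n by omega)
  have hν0 : 0 < ν := lt_of_lt_of_le (by positivity) hν
  have han' : 4 * (a : ℝ) ≤ n := by exact_mod_cast han
  have h1 : 1 / ν ≤ 2 * a := by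
    rw [div_le_iff₀ hν0]
    rw [div_le_iff₀ (by positivity)] at hν
    linarith
  have h2 : (1 / ν) ^ 4 ≤ (n : ℝ) ^ 4 := by
    apply pow_le_pow_left₀ (by positivity)
    linarith
  -- the right side
  have e1 : (q : ℝ) ^ (n + j) * ((q : ℝ) ^ ((u : ℝ) - j) + (q : ℝ) ^ (4 * (a : ℝ) - n)) =
      (q : ℝ) ^ (n + u) + (q : ℝ) ^ (4 * a + j) := by
    rw [mul_add]
    congr 1
    · rw [← Real.rpow_natCast, ← Real.rpow_add hq0, ← Real.rpow_natCast]
      congr 1
      push_cast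
      ring
    · rw [← Real.rpow_natCast, ← Real.rpow_add hq0, ← Real.rpow_natCast]
      congr 1
      push_cast
      ring
  rw [mul_assoc ((n : ℝ) ^ (15 + q)), e1]
  have hT0 : (0 : ℝ) < (q : ℝ) ^ (n + u) + (q : ℝ) ^ (4 * a + j) := by positivity
  -- the left side
  have e2 : (q : ℝ) ^ (2 * N) / (q : ℝ) ^ (2 * a) *
      ((q : ℝ) ^ j * ((q : ℝ) ^ a) ^ 2 + ((q : ℝ) ^ j) ^ 2 * (4 * n) ^ 2) ≤
      (1 + (4 * (n : ℝ)) ^ 2) * (q : ℝ) ^ (2 * N + j) := by
    have e3 : ((q : ℝ) ^ j) ^ 2 ≤ (q : ℝ) ^ j * (q : ℝ) ^ (2 * a) := by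
      rw [pow_two]
      apply mul_le_mul_of_nonneg_left _ (by positivity)
      exact pow_le_pow_right₀ (by linarith) (by omega)
    have e4 : ((q : ℝ) ^ a) ^ 2 = (q : ℝ) ^ (2 * a) := by rw [← pow_mul, mul_comm]
    rw [e4]
    calc (q : ℝ) ^ (2 * N) / (q : ℝ) ^ (2 * a) *
          ((q : ℝ) ^ j * (q : ℝ) ^ (2 * a) + ((q : ℝ) ^ j) ^ 2 * (4 * n) ^ 2)
        ≤ (q : ℝ) ^ (2 * N) / (q : ℝ) ^ (2 * a) *
          ((q : ℝ) ^ j * (q : ℝ) ^ (2 * a) +
            ((q : ℝ) ^ j * (q : ℝ) ^ (2 * a)) * (4 * n) ^ 2) := by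
          apply mul_le_mul_of_nonneg_left _ (by positivity)
          have := mul_le_mul_of_nonneg_right e3 (by positivity : (0 : ℝ) ≤ (4 * (n : ℝ)) ^ 2)
          linarith
      _ = (1 + (4 * (n : ℝ)) ^ 2) * ((q : ℝ) ^ (2 * N) * (q : ℝ) ^ j) := by
          field_simp
      _ = _ := by rw [← pow_add]
  have e5 : (q : ℝ) ^ (2 * N + j) ≤ q * ((q : ℝ) ^ (n + u) + (q : ℝ) ^ (4 * a + j)) := by
    rcases le_total (2 * a) (L + u) with hc | hc
    · have hN' : N = L + u := by rw [hN]; exact max_eq_left hc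
      have e6 : 2 * N + j = (n + u) + 1 := by omega
      rw [e6, pow_succ, mul_comm]
      apply mul_le_mul_of_nonneg_left _ hq0.le
      have : (0 : ℝ) < (q : ℝ) ^ (4 * a + j) := by positivity
      linarith
    · have hN' : N = 2 * a := by rw [hN]; exact max_eq_right hc
      have e6 : 2 * N + j = 4 * a + j := by omega
      rw [e6]
      have e7 : (0 : ℝ) < (q : ℝ) ^ (n + u) := by positivity
      have e8 : (0 : ℝ) < (q : ℝ) ^ (4 * a + j) := by positivity
      nlinarith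
  have e9 : (1 + (4 * (n : ℝ)) ^ 2) * (q : ℝ) ^ (2 * N + j) ≤
      (17 * (n : ℝ) ^ 2) * (q * ((q : ℝ) ^ (n + u) + (q : ℝ) ^ (4 * a + j))) := by
    apply mul_le_mul _ e5 (by positivity) (by positivity)
    nlinarith
  have e10 : (17 : ℝ) * q ≤ (n : ℝ) ^ (9 + q) := by
    have f1 : (q : ℝ) ≤ (2 : ℝ) ^ q := by
      exact_mod_cast (Nat.lt_two_pow_self (n := q)).le
    have f2 : (2 : ℝ) ^ (9 + q) ≤ (n : ℝ) ^ (9 + q) := pow_le_pow_left₀ (by norm_num) (by linarith) _
    have f3 : (2 : ℝ) ^ (9 + q) = 512 * 2 ^ q := by rw [pow_add]; norm_num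
    nlinarith
  calc (1 / ν) ^ 4 * ((q : ℝ) ^ (2 * N) / (q : ℝ) ^ (2 * a) *
      ((q : ℝ) ^ j * ((q : ℝ) ^ a) ^ 2 + ((q : ℝ) ^ j) ^ 2 * (4 * n) ^ 2))
      ≤ (n : ℝ) ^ 4 * ((17 * (n : ℝ) ^ 2) * (q * ((q : ℝ) ^ (n + u) + (q : ℝ) ^ (4 * a + j)))) :=
        mul_le_mul h2 (e2.trans e9) (by positivity) (by positivity)
    _ = (n : ℝ) ^ 6 * (17 * q) * ((q : ℝ) ^ (n + u) + (q : ℝ) ^ (4 * a + j)) := by ring
    _ ≤ (n : ℝ) ^ 6 * (n : ℝ) ^ (9 + q) * ((q : ℝ) ^ (n + u) + (q : ℝ) ^ (4 * a + j)) := by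
        apply mul_le_mul_of_nonneg_right _ hT0.le
        exact mul_le_mul_of_nonneg_left e10 (by positivity)
    _ = _ := by
        rw [← pow_add]
        congr 2
        omega

theorem wm2 (hl : S_ls2) : S_wm2 := by
  intro K _ _ _
  refine ⟨15 + Fintype.card K, ?_⟩
  intro n L j u a h m m' hL hL1 hu4 huj hja han hh0 hh hm hm' hmm
  have hq2 : 2 ≤ Fintype.card K := Fintype.one_lt_card
  obtain ⟨ν, hνd⟩ : ∃ ν : ℝ, ν = ((Irn K a).card : ℝ) / (Fintype.card K : ℝ) ^ a := ⟨_, rfl⟩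
  have hν : 1 / (2 * (a : ℝ)) ≤ ν := by
    have h1 := irn_wt_ge (k := K) (j := a) (by omega)
    rw [sum_congr rfl (fun P hP => by rw [(mem_Irn.1 hP).2.1]), sum_const, nsmul_eq_mul] at h1
    rw [hνd, div_eq_mul_inv]
    exact h1
  have ha0 : (0 : ℝ) < a := by exact_mod_cast (show 0 < a by omega)
  have hν0 : 0 < ν := lt_of_lt_of_le (by positivity) hν
  obtain ⟨N, hN⟩ : ∃ N, N = max (L + u) (2 * a) := ⟨_, rfl⟩
  refine le_trans ?_ (wm2_num hq2 hL hu4 huj hja han hν hN)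
  -- rewrite the summand
  have e1 : ∀ f : K[X], (∑ A ∈ (Irn K j).filter (fun A => ¬ A ∣ h),
      (Gw a m A h f - 1) * (Gw a m' A h f - 1)) ^ 2 = (1 / ν) ^ 4 *
      (∑ i : {A // A ∈ (Irn K j).filter (fun A => ¬ A ∣ h)},
        dsc a (wm2_rho m i.1 h) (wm2_s (m * f)) * dsc a (wm2_rho m' i.1 h) (wm2_s (m' * f))) ^ 2 := by
    intro f
    have e2 : ∑ A ∈ (Irn K j).filter (fun A => ¬ A ∣ h),
        (Gw a m A h f - 1) * (Gw a m' A h f - 1) = (1 / ν) ^ 2 *
        ∑ i : {A // A ∈ (Irn K j).filter (fun A => ¬ A ∣ h)},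
          dsc a (wm2_rho m i.1 h) (wm2_s (m * f)) * dsc a (wm2_rho m' i.1 h) (wm2_s (m' * f)) := by
      rw [Finset.mul_sum, ← Finset.sum_coe_sort]
      refine Finset.sum_congr rfl fun i _ => ?_
      have hi := (Finset.mem_filter.1 i.2).1
      rw [wm2_Gw hja hi (by rw [← hνd]; exact hν0.ne'),
        wm2_Gw hja hi (by rw [← hνd]; exact hν0.ne'), ← hνd]
      field_simp
    rw [e2]
    ring
  rw [Finset.sum_congr rfl fun f _ => e1 f, ← Finset.mul_sum]
  apply mul_le_mul_of_nonneg_left _ (by positivity)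
  have h1 := hl K {A // A ∈ (Irn K j).filter (fun A => ¬ A ∣ h)} a N
    (fun i => wm2_rho m i.1 h) (fun i => wm2_rho m' i.1 h) (by omega)
    (by rw [hN]; exact le_max_right _ _)
  have h2 := wm2_pairs huj hja han hm hm' hh
  refine le_trans ?_ (h1.trans ?_)
  · rw [wm2_finsum, Finset.sum_congr rfl fun σ₁ _ => wm2_finsum N _, ← Finset.sum_product']
    refine wm2_sum_le (Mn K (n - j)) _ (fun f => (wm2_s (m * f), wm2_s (m' * f))) ?_ ?_
      (fun p => (∑ i : {A // A ∈ (Irn K j).filter (fun A => ¬ A ∣ h)},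
        dsc a (wm2_rho m i.1 h) p.1 * dsc a (wm2_rho m' i.1 h) p.2) ^ 2) (fun _ => sq_nonneg _)
    · intro f _ g _ hfg
      rw [mem_Irn] at hm hm'
      have hd : ¬ m ∣ m' := by
        intro hd
        exact hmm (eq_of_monic_of_associated hm.1 hm'.1 (hm.2.2.associated_of_dvd hm'.2.2 hd))
      exact wm2_inj hm.2.2 hd (congrArg Prod.fst hfg) (congrArg Prod.snd hfg)
    · intro f hf
      rw [mem_Mn] at hf
      rw [mem_Irn] at hm hm'
      have hdeg : ∀ M : K[X], M.natDegree = u → (wm2_s (M * f)).degree < (N : WithBot ℕ) := by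
        intro M hM
        have h3 : (M * f).natDegree ≤ 2 * (L + u - 1) + 1 := by
          refine natDegree_mul_le.trans ?_
          rw [hM, hf.2]
          omega
        refine (wm2_s_degree h3).trans_le ?_
        have h4 : L + u - 1 + 1 ≤ N := by
          rw [hN]
          refine le_trans ?_ (le_max_left _ _)
          omega
        exact_mod_cast h4
      rw [Finset.mem_product]
      exact ⟨wm2_mem_B.2 (hdeg m hm.2.1), wm2_mem_B.2 (hdeg m' hm'.2.1)⟩
  · exact mul_le_mul_of_nonneg_left h2 (by positivity)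

end main

end Pool.Agent.H251.SP
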