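import Pool.Agent.H251.SP.Asm1

/-!
# Final assembly, second part (helper177 for helper251): the two parts of the identity
-/

set_option autoImplicit false
set_option linter.all false

namespace Pool.Agent.H251.SP.Asm

open Polynomial Finset UniqueFactorizationMonoid
open scoped Classical
open Pool.Agent.H985.Chow (mob)
open Pool.Agent.H985.KP (PA mobg)
open Pool.Agent.H694.Typ (Mn Irn mem_Mn mem_Irn card_Mn card_dvd card_dvd_le no_dvd irn_one_le q_ge wt)

variable {K : Type} [Field K] [Fintype K]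

theorem bw_nonneg (j : ℕ) (f : K[X]) : 0 ≤ bw j f := by
  unfold bw
  split_ifs
  · positivity
  · exact le_rfl

theorem bw_abs (j : ℕ) (f : K[X]) : |bw j f| ≤ 1 := by
  rw [abs_of_nonneg (bw_nonneg j f)]
  unfold bw
  split_ifs
  · rw [div_le_one (by positivity)]
    have : (0 : ℝ) ≤ ((Irn K j).filter (fun P => P ∣ f)).card := Nat.cast_nonneg _
    linarith
  · norm_num

theorem card_Irn_le (j : ℕ) : ((Irn K j).card : ℝ) ≤ (Fintype.card K : ℝ) ^ j := by
  have h1 : (Irn K j).card ≤ (Mn K j).card := by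
    unfold Pool.Agent.H694.Typ.Irn
    exact card_le_card (filter_subset _ _)
  rw [card_Mn] at h1
  exact_mod_cast h1

/-- **Part A.** -/
theorem partA {n z k : ℕ} (g Q h r : K[X]) (X Y : ℝ) (hX : 0 ≤ X) (hz1 : 1 ≤ z) (hzk : z ≤ k) (hkn : k ≤ n)
    (hb : S_buch)
    (hT : |∑ f ∈ (Mn K n).filter (fun f => Rgh z f ∧ Q ∣ f - r),
      (mob f : ℝ) * (mobg g (f + h) : ℝ)| ≤ Y)
    (H : ∀ j ∈ Ico z k, ∀ α β : K[X] → ℝ, (∀ p, |α p| ≤ 1) → (∀ B, |β B| ≤ 1) →
      |∑ p ∈ Irn K j, ∑ B ∈ Mn K (n - j), α p * β B * ph g Q h r (p * B)| ≤ X) :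
    |∑ f ∈ (Mn K n).filter (Rgh k), (mob f : ℝ) * ph g Q h r f| ≤
      Y + 2 * (Fintype.card K : ℝ) ^ n / (Fintype.card K : ℝ) ^ z +
        n * (X + (Fintype.card K : ℝ) ^ n / (Fintype.card K : ℝ) ^ z) := by
  have hq := q_ge (k := K)
  have hmul : ∀ x y : ℝ, |x| ≤ 1 → |y| ≤ 1 → |x * y| ≤ 1 := by
    intro x y hx hy
    rw [abs_mul]
    exact mul_le_one₀ hx (abs_nonneg _) hy
  have h1 := hb K n z k (fun f => (mob f : ℝ) * ph g Q h r f) hz1 hzk hkn
    (fun f => hmul _ _ (mob_abs f) (ph_abs _ _ _ _ f))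
  have h2 : ∑ f ∈ (Mn K n).filter (Rgh z), (mob f : ℝ) * ph g Q h r f =
      ∑ f ∈ (Mn K n).filter (fun f => Rgh z f ∧ Q ∣ f - r), (mob f : ℝ) * (mobg g (f + h) : ℝ) := by
    rw [sum_filter, sum_filter]
    refine sum_congr rfl fun f _ => ?_
    unfold ph
    by_cases h3 : Rgh z f
    · by_cases h4 : Q ∣ f - r
      · rw [if_pos h3, if_pos h4, if_pos ⟨h3, h4⟩]
      · rw [if_pos h3, if_neg h4, if_neg (fun h => h4 h.2), mul_zero]
    · rw [if_neg h3, if_neg (fun h => h3 h.1)]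
  have h3 : ∀ j ∈ Ico z k, |∑ p ∈ Irn K j, ∑ B ∈ Mn K (n - j), bw j B *
      ((mob (p * B) : ℝ) * ph g Q h r (p * B))| ≤
      X + (Fintype.card K : ℝ) ^ n / (Fintype.card K : ℝ) ^ z := by
    intro j hj
    have hj' := mem_Ico.1 hj
    have e1 : ∀ p ∈ Irn K j, ∀ B ∈ Mn K (n - j), bw j B * ((mob (p * B) : ℝ) * ph g Q h r (p * B)) =
        (-1) * (bw j B * (mob B : ℝ)) * ph g Q h r (p * B) +
          (if p ∣ B then bw j B * (mob B : ℝ) * ph g Q h r (p * B) else 0) := by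
      intro p hp B hB
      rw [mob_mul p B (mem_Irn.1 hp).2.2 (mem_Mn.1 hB).1.ne_zero]
      split_ifs <;> ring
    rw [sum_congr rfl (fun p hp => sum_congr rfl (e1 p hp))]
    rw [sum_congr rfl (fun p hp => sum_add_distrib), sum_add_distrib]
    refine (abs_add_le _ _).trans (add_le_add ?_ ?_)
    · exact H j hj (fun _ => -1) (fun B => bw j B * (mob B : ℝ)) (fun _ => by simp)
        (fun B => hmul _ _ (bw_abs j B) (mob_abs B))
    · have e2 : ∀ p ∈ Irn K j, |∑ B ∈ Mn K (n - j),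
          (if p ∣ B then bw j B * (mob B : ℝ) * ph g Q h r (p * B) else 0)| ≤
          (Fintype.card K : ℝ) ^ (n - j) * wt K j := by
        intro p hp
        rw [← sum_filter]
        refine (abs_sum_le_sum_abs _ _).trans ?_
        refine (sum_le_sum (g := fun _ => (1 : ℝ)) fun B _ =>
          hmul _ _ (hmul _ _ (bw_abs j B) (mob_abs B)) (ph_abs _ _ _ _ _)).trans ?_
        rw [sum_const, nsmul_eq_mul, mul_one]
        have e3 := card_dvd_le (k := K) (n := n - j) (mem_Irn.1 hp).1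
        rw [(mem_Irn.1 hp).2.1] at e3
        exact e3
      refine (abs_sum_le_sum_abs _ _).trans ((sum_le_sum e2).trans ?_)
      rw [sum_const, nsmul_eq_mul]
      have e3 := card_Irn_le (K := K) j
      have e4 : (Fintype.card K : ℝ) ^ j * ((Fintype.card K : ℝ) ^ (n - j) * wt K j) ≤
          (Fintype.card K : ℝ) ^ n / (Fintype.card K : ℝ) ^ z := by
        rw [← mul_assoc, ← pow_add, Nat.add_sub_cancel' (by omega)]
        unfold Pool.Agent.H694.Typ.wt
        rw [← div_eq_mul_inv]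
        have e5 : (Fintype.card K : ℝ) ^ z ≤ (Fintype.card K : ℝ) ^ j :=
          pow_le_pow_right₀ (by linarith) hj'.1
        gcongr
      refine le_trans ?_ e4
      have e5 : (0 : ℝ) ≤ (Fintype.card K : ℝ) ^ (n - j) * wt K j := by
        have := Pool.Agent.H694.Typ.wt_nonneg (k := K) j
        positivity
      exact mul_le_mul_of_nonneg_right e3 e5
  have h4 : |∑ j ∈ Ico z k, ∑ p ∈ Irn K j, ∑ B ∈ Mn K (n - j), bw j B *
      ((mob (p * B) : ℝ) * ph g Q h r (p * B))| ≤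
      n * (X + (Fintype.card K : ℝ) ^ n / (Fintype.card K : ℝ) ^ z) := by
    refine (abs_sum_le_sum_abs _ _).trans ((sum_le_sum h3).trans ?_)
    rw [sum_const, Nat.card_Ico, nsmul_eq_mul]
    refine mul_le_mul_of_nonneg_right ?_ (by positivity)
    exact_mod_cast (Nat.sub_le _ _).trans hkn
  rw [h2] at h1
  rw [abs_le] at h1 hT h4 ⊢
  constructor <;> linarith [h1.1, h1.2, hT.1, hT.2, h4.1, h4.2]

/-- **Part B.** -/
theorem partB {n z k : ℕ} (δ : ℝ) (g Q h r : K[X]) (X Y : ℝ) (hX : 0 ≤ X) (hY : 0 ≤ Y)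
    (hz1 : 1 ≤ z)
    (hzk : z ≤ k) (hkn : 2 * k ≤ n) (hk5 : n < 5 * k) (hδ : 0 ≤ δ)
    (hb : S_buch)
    (hT : ∀ D : K[X], D.Monic → Squarefree D → Rgh z D → 2 * (D.natDegree : ℝ) ≤ (1 - δ) * n →
      |∑ B ∈ (Mn K (n - D.natDegree)).filter (fun B => Rgh z B ∧ Q ∣ D * B - r),
        (mobg g (D * B + h) : ℝ)| ≤ (Fintype.card K : ℝ) ^ (n - D.natDegree) * Y)
    (H : ∀ j ∈ Ico z k, ∀ α β : K[X] → ℝ, (∀ p, |α p| ≤ 1) → (∀ B, |β B| ≤ 1) →
      |∑ p ∈ Irn K j, ∑ B ∈ Mn K (n - j), α p * β B * ph g Q h r (p * B)| ≤ X) :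
    |∑ f ∈ (Mn K n).filter (Rgh k),
      ph g Q h r f * ∑ D ∈ (MM K (n + 1)).filter (fun D => D ∣ f), cc n k δ D| ≤
      2 * (n + 1) * (Fintype.card K : ℝ) ^ n * (Y + 2 / (Fintype.card K : ℝ) ^ z) +
        n * (32 * X) := by
  have hq := q_ge (k := K)
  have hn0 : (0 : ℝ) ≤ n := Nat.cast_nonneg n
  -- the sum over `D`
  have s1 : ∑ f ∈ (Mn K n).filter (Rgh k),
      ph g Q h r f * ∑ D ∈ (MM K (n + 1)).filter (fun D => D ∣ f), cc n k δ D =
      ∑ D ∈ MM K (n + 1), cc n k δ D *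
        ∑ f ∈ ((Mn K n).filter (Rgh k)).filter (fun f => D ∣ f), ph g Q h r f := by
    have e1 : ∀ f ∈ (Mn K n).filter (Rgh k),
        ph g Q h r f * ∑ D ∈ (MM K (n + 1)).filter (fun D => D ∣ f), cc n k δ D =
        ∑ D ∈ MM K (n + 1), (if D ∣ f then cc n k δ D * ph g Q h r f else 0) := by
      intro f _
      rw [sum_filter, mul_sum]
      refine sum_congr rfl fun D _ => ?_
      split_ifs <;> ring
    rw [sum_congr rfl e1, sum_comm]
    refine sum_congr rfl fun D _ => ?_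
    rw [← sum_filter, mul_sum]
  -- the type II sum of `D`
  obtain ⟨T2, hT2⟩ : ∃ T2 : K[X] → ℝ, ∀ D, T2 D = ∑ j ∈ Ico z k, ∑ p ∈ Irn K j,
      ∑ B ∈ Mn K (n - D.natDegree - j), bw j B * ph g Q h r (D * (p * B)) := ⟨_, fun _ => rfl⟩
  have s2 : ∀ D ∈ MM K (n + 1), |cc n k δ D *
      ∑ f ∈ ((Mn K n).filter (Rgh k)).filter (fun f => D ∣ f), ph g Q h r f + cc n k δ D * T2 D| ≤
      2 * (Y + 2 / (Fintype.card K : ℝ) ^ z) * (Fintype.card K : ℝ) ^ (n - D.natDegree) := by
    intro D hD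
    rw [mem_MM] at hD
    by_cases hc : 2 * (D.natDegree : ℝ) ≤ (1 - δ) * n ∧ Squarefree D ∧ Rgh k D
    · obtain ⟨hc1, hc2, hc3⟩ := hc
      have hDn : 2 * D.natDegree ≤ n := by
        have e1 : 0 ≤ δ * n := by positivity
        have e2 : 2 * (D.natDegree : ℝ) ≤ n := by linarith
        exact_mod_cast e2
      have e1 : ∑ f ∈ ((Mn K n).filter (Rgh k)).filter (fun f => D ∣ f), ph g Q h r f =
          ∑ B ∈ (Mn K (n - D.natDegree)).filter (Rgh k), ph g Q h r (D * B) := by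
        have e2 : ((Mn K n).filter (Rgh k)).filter (fun f => D ∣ f) =
            ((Mn K n).filter (fun f => D ∣ f)).filter (Rgh k) := filter_comm _ _ _
        rw [e2, sum_filter, sum_dvd hD.1 (by omega) (fun f => if Rgh k f then ph g Q h r f else 0),
          sum_filter]
        refine sum_congr rfl fun B _ => ?_
        by_cases h3 : Rgh k B
        · rw [if_pos h3, if_pos (rgh_mul.2 ⟨hc3, h3⟩)]
        · rw [if_neg h3, if_neg (fun h => h3 (rgh_mul.1 h).2)]
      have e3 := hb K (n - D.natDegree) z k (fun B => ph g Q h r (D * B)) hz1 hzk (by omega)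
        (fun B => ph_abs _ _ _ _ _)
      have e4 : ∑ B ∈ (Mn K (n - D.natDegree)).filter (Rgh z), ph g Q h r (D * B) =
          ∑ B ∈ (Mn K (n - D.natDegree)).filter (fun B => Rgh z B ∧ Q ∣ D * B - r),
            (mobg g (D * B + h) : ℝ) := by
        rw [sum_filter, sum_filter]
        refine sum_congr rfl fun f _ => ?_
        unfold ph
        by_cases h3 : Rgh z f
        · by_cases h4 : Q ∣ D * f - r
          · rw [if_pos h3, if_pos h4, if_pos ⟨h3, h4⟩]
          · rw [if_pos h3, if_neg h4, if_neg (fun h => h4 h.2)]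
        · rw [if_neg h3, if_neg (fun h => h3 h.1)]
      have e5 := hT D hD.1 hc2 (rgh_mono hzk hc3) hc1
      rw [e4, ← hT2 D] at e3
      rw [← mul_add, abs_mul, e1]
      have e6 : |∑ B ∈ (Mn K (n - D.natDegree)).filter (Rgh k), ph g Q h r (D * B) + T2 D| ≤
          (Y + 2 / (Fintype.card K : ℝ) ^ z) * (Fintype.card K : ℝ) ^ (n - D.natDegree) := by
        have e7 : (Y + 2 / (Fintype.card K : ℝ) ^ z) * (Fintype.card K : ℝ) ^ (n - D.natDegree) =
            (Fintype.card K : ℝ) ^ (n - D.natDegree) * Y +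
            2 * (Fintype.card K : ℝ) ^ (n - D.natDegree) / (Fintype.card K : ℝ) ^ z := by ring
        rw [e7]
        rw [abs_le] at e3 e5 ⊢
        constructor <;> linarith [e3.1, e3.2, e5.1, e5.2]
      calc |cc n k δ D| * |∑ B ∈ (Mn K (n - D.natDegree)).filter (Rgh k), ph g Q h r (D * B) + T2 D|
          ≤ 2 * ((Y + 2 / (Fintype.card K : ℝ) ^ z) * (Fintype.card K : ℝ) ^ (n - D.natDegree)) :=
            mul_le_mul (cc_abs _ _ _ _) e6 (abs_nonneg _) (by norm_num)
        _ = _ := by ring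
    · have e1 : cc n k δ D = 0 := by
        unfold cc
        rw [if_neg hc]
      rw [e1, zero_mul, zero_mul, add_zero, abs_zero]
      positivity
  have s3 : |∑ D ∈ MM K (n + 1), cc n k δ D *
        ∑ f ∈ ((Mn K n).filter (Rgh k)).filter (fun f => D ∣ f), ph g Q h r f +
        ∑ D ∈ MM K (n + 1), cc n k δ D * T2 D| ≤
      2 * (n + 1) * (Fintype.card K : ℝ) ^ n * (Y + 2 / (Fintype.card K : ℝ) ^ z) := by
    rw [← sum_add_distrib]
    refine (abs_sum_le_sum_abs _ _).trans ((sum_le_sum s2).trans ?_)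
    rw [← mul_sum, sum_MM_pow]
    exact le_of_eq (by ring)
  -- the type II part
  have s4 : ∑ D ∈ MM K (n + 1), cc n k δ D * T2 D = ∑ j ∈ Ico z k, ∑ p ∈ Irn K j,
      ∑ C ∈ Mn K (n - j), (∑ D ∈ (MM K (n + 1)).filter (fun D => D ∣ C),
        cc n k δ D * bw j (C / D)) * ph g Q h r (p * C) := by
    have e1 : ∀ D ∈ MM K (n + 1), cc n k δ D * T2 D = ∑ j ∈ Ico z k, ∑ p ∈ Irn K j,
        ∑ C ∈ Mn K (n - j), (if D ∣ C then cc n k δ D * bw j (C / D) * ph g Q h r (p * C) else 0) := by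
      intro D hD
      rw [mem_MM] at hD
      by_cases hc : 2 * (D.natDegree : ℝ) ≤ (1 - δ) * n ∧ Squarefree D ∧ Rgh k D
      · obtain ⟨hc1, hc2, hc3⟩ := hc
        have hDn : 2 * D.natDegree ≤ n := by
          have e1 : 0 ≤ δ * n := by positivity
          have e2 : 2 * (D.natDegree : ℝ) ≤ n := by linarith
          exact_mod_cast e2
        rw [hT2, mul_sum]
        refine sum_congr rfl fun j hj => ?_
        rw [mem_Ico] at hj
        rw [mul_sum]
        refine sum_congr rfl fun p hp => ?_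
        rw [mul_sum, ← sum_filter, sum_dvd hD.1 (by omega)
          (fun C => cc n k δ D * bw j (C / D) * ph g Q h r (p * C))]
        have e2 : n - D.natDegree - j = n - j - D.natDegree := by omega
        rw [e2]
        refine sum_congr rfl fun B _ => ?_
        rw [mul_div_cancel_left₀ _ hD.1.ne_zero]
        have e3 : D * (p * B) = p * (D * B) := by ring
        rw [e3]
        ring
      · have e1 : cc n k δ D = 0 := by
          unfold cc
          rw [if_neg hc]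
        rw [e1, zero_mul]
        symm
        refine sum_eq_zero fun j _ => sum_eq_zero fun p _ => sum_eq_zero fun C _ => ?_
        split_ifs <;> simp
    rw [sum_congr rfl e1, sum_comm]
    refine sum_congr rfl fun j _ => ?_
    rw [sum_comm]
    refine sum_congr rfl fun p _ => ?_
    rw [sum_comm]
    refine sum_congr rfl fun C _ => ?_
    rw [← sum_filter, sum_mul]
  have s5 : ∀ j ∈ Ico z k, |∑ p ∈ Irn K j, ∑ C ∈ Mn K (n - j),
      (∑ D ∈ (MM K (n + 1)).filter (fun D => D ∣ C), cc n k δ D * bw j (C / D)) *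
        ph g Q h r (p * C)| ≤ 32 * X := by
    intro j hj
    have e1 := H j hj (fun _ => 1) (fun C => if C ∈ Mn K (n - j) then
      (∑ D ∈ (MM K (n + 1)).filter (fun D => D ∣ C), cc n k δ D * bw j (C / D)) / 32 else 0)
      (fun _ => by simp) (by
        intro C
        split_ifs with h1
        · rw [mem_Mn] at h1
          rw [abs_div, abs_of_pos (show (0 : ℝ) < 32 by norm_num), div_le_one (by norm_num)]
          exact sum_cc_le δ h1.1.ne_zero (by omega) hk5 _ _ (fun D => bw_abs _ _)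
        · simp)
    have e2 : ∑ p ∈ Irn K j, ∑ C ∈ Mn K (n - j),
        (∑ D ∈ (MM K (n + 1)).filter (fun D => D ∣ C), cc n k δ D * bw j (C / D)) *
          ph g Q h r (p * C) = 32 * ∑ p ∈ Irn K j, ∑ C ∈ Mn K (n - j),
        (1 : ℝ) * (if C ∈ Mn K (n - j) then
      (∑ D ∈ (MM K (n + 1)).filter (fun D => D ∣ C), cc n k δ D * bw j (C / D)) / 32 else 0) *
        ph g Q h r (p * C) := by
      rw [mul_sum]
      refine sum_congr rfl fun p _ => ?_
      rw [mul_sum]
      refine sum_congr rfl fun C hC => ?_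
      rw [if_pos hC]
      ring
    rw [e2, abs_mul, abs_of_pos (show (0 : ℝ) < 32 by norm_num)]
    linarith
  have s6 : |∑ D ∈ MM K (n + 1), cc n k δ D * T2 D| ≤ n * (32 * X) := by
    rw [s4]
    refine (abs_sum_le_sum_abs _ _).trans ((sum_le_sum s5).trans ?_)
    rw [sum_const, Nat.card_Ico, nsmul_eq_mul]
    refine mul_le_mul_of_nonneg_right ?_ (by positivity)
    exact_mod_cast (Nat.sub_le _ _).trans (by omega)
  rw [s1]
  rw [abs_le] at s3 s6 ⊢
  constructor <;> linarith [s3.1, s3.2, s6.1, s6.2]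

/-- **The identity with exceptions.** -/
theorem ident {n k : ℕ} (δ : ℝ) (g Q h r : K[X]) (hn : 1 ≤ n) (hδ : 0 < δ) (hkn : k ≤ n)
    (hk5 : n < 5 * k) (hc : S_comb) :
    |3 * ∑ p ∈ (Irn K n).filter (fun p => Q ∣ p - r), (mobg g (p + h) : ℝ)| ≤
      |∑ f ∈ (Mn K n).filter (Rgh k),
        ph g Q h r f * ∑ D ∈ (MM K (n + 1)).filter (fun D => D ∣ f), cc n k δ D| +
      |∑ f ∈ (Mn K n).filter (Rgh k), (mob f : ℝ) * ph g Q h r f| +
      36 * (((Mn K n).filter (fun f => Rgh k f ∧ (¬ Squarefree f ∨ (PA f).ncard = 4 ∨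
      ∃ D : K[X], D.Monic ∧ D ∣ f ∧ |2 * (D.natDegree : ℝ) - n| ≤ δ * n))).card : ℝ) := by
  obtain ⟨T, hT⟩ : ∃ T : K[X] → ℝ, ∀ f, T f =
      ∑ D ∈ (MM K (n + 1)).filter (fun D => D ∣ f), cc n k δ D := ⟨_, fun _ => rfl⟩
  have s1 : 3 * ∑ p ∈ (Irn K n).filter (fun p => Q ∣ p - r), (mobg g (p + h) : ℝ) =
      ∑ f ∈ (Mn K n).filter (Rgh k), ph g Q h r f * (3 * (if Irreducible f then (1 : ℝ) else 0)) := by
    have e1 : ∑ p ∈ (Irn K n).filter (fun p => Q ∣ p - r), (mobg g (p + h) : ℝ) =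
        ∑ f ∈ Mn K n, (if Irreducible f then ph g Q h r f else 0) := by
      unfold Pool.Agent.H694.Typ.Irn
      rw [sum_filter, sum_filter]
      refine sum_congr rfl fun f _ => ?_
      unfold ph
      rfl
    rw [e1, sum_filter, mul_sum]
    refine sum_congr rfl fun f hf => ?_
    rw [mem_Mn] at hf
    by_cases h1 : Irreducible f
    · rw [if_pos h1, if_pos (rgh_irr hf.1 h1 (by omega)), if_pos h1]
      ring
    · rw [if_neg h1, if_neg h1]
      split_ifs <;> ring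
  have s2 : ∀ f ∈ (Mn K n).filter (Rgh k), ¬ (¬ Squarefree f ∨ (PA f).ncard = 4 ∨
      ∃ D : K[X], D.Monic ∧ D ∣ f ∧ |2 * (D.natDegree : ℝ) - n| ≤ δ * n) →
      3 * (if Irreducible f then (1 : ℝ) else 0) = T f - (mob f : ℝ) := by
    intro f hf hex
    rw [mem_filter] at hf
    rw [not_or, not_or, not_not] at hex
    obtain ⟨h1, h2, h3⟩ := hex
    have e1 := hc K n k δ f hn hδ hf.1 hf.2 hk5 h1 h2 (by
      intro D hD hDf
      by_contra h4
      exact h3 ⟨D, hD, hDf, not_lt.1 h4⟩)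
    rw [e1, hT, sum_filter, sum_MM]
    congr 1
    refine sum_congr rfl fun i _ => ?_
    rw [sum_filter]
    refine sum_congr rfl fun D hD => ?_
    by_cases h4 : D ∣ f
    · rw [if_pos h4, if_pos h4]
      unfold cc
      rw [(mem_Mn.1 hD).2]
      by_cases h5 : 2 * (i : ℝ) ≤ (1 - δ) * n
      · rw [if_pos h5, if_pos ⟨h5, h1.squarefree_of_dvd h4, rgh_dvd h4 hf.2⟩]
      · rw [if_neg h5, if_neg (fun h => h5 h.1)]
    · rw [if_neg h4, if_neg h4]
  have s3 : ∀ f ∈ (Mn K n).filter (Rgh k),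
      |3 * (if Irreducible f then (1 : ℝ) else 0) - (T f - (mob f : ℝ))| ≤ 36 := by
    intro f hf
    rw [mem_filter, mem_Mn] at hf
    have e1 : |T f| ≤ 32 := by
      rw [hT]
      have e2 := sum_cc_le (K := K) δ hf.1.1.ne_zero (by omega) hk5 (n + 1) (fun _ => 1)
        (fun _ => by simp)
      simpa using e2
    have e2 := mob_abs f
    rw [abs_le] at e1 e2 ⊢
    split_ifs <;> constructor <;> linarith [e1.1, e1.2, e2.1, e2.2]
  have s4 : |∑ f ∈ (Mn K n).filter (Rgh k),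
      ph g Q h r f * (3 * (if Irreducible f then (1 : ℝ) else 0) - (T f - (mob f : ℝ)))| ≤
      36 * (((Mn K n).filter (fun f => Rgh k f ∧ (¬ Squarefree f ∨ (PA f).ncard = 4 ∨
      ∃ D : K[X], D.Monic ∧ D ∣ f ∧ |2 * (D.natDegree : ℝ) - n| ≤ δ * n))).card : ℝ) := by
    have e1 : ∑ f ∈ (Mn K n).filter (Rgh k),
        ph g Q h r f * (3 * (if Irreducible f then (1 : ℝ) else 0) - (T f - (mob f : ℝ))) =
        ∑ f ∈ (Mn K n).filter (fun f => Rgh k f ∧ (¬ Squarefree f ∨ (PA f).ncard = 4 ∨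
      ∃ D : K[X], D.Monic ∧ D ∣ f ∧ |2 * (D.natDegree : ℝ) - n| ≤ δ * n)),
        ph g Q h r f * (3 * (if Irreducible f then (1 : ℝ) else 0) - (T f - (mob f : ℝ))) := by
      symm
      refine sum_subset ?_ ?_
      · intro f hf
        rw [mem_filter] at hf ⊢
        exact ⟨hf.1, hf.2.1⟩
      · intro f hf hf'
        have h1 : ¬ (¬ Squarefree f ∨ (PA f).ncard = 4 ∨
          ∃ D : K[X], D.Monic ∧ D ∣ f ∧ |2 * (D.natDegree : ℝ) - n| ≤ δ * n) := by
          intro h2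
          exact hf' (mem_filter.2 ⟨(mem_filter.1 hf).1, (mem_filter.1 hf).2, h2⟩)
        rw [s2 f hf h1, sub_self, mul_zero]
    rw [e1]
    refine (abs_sum_le_sum_abs _ _).trans ?_
    refine (sum_le_sum (g := fun _ => (36 : ℝ)) fun f hf => ?_).trans ?_
    · rw [abs_mul]
      have e2 := s3 f (mem_filter.2 ⟨(mem_filter.1 hf).1, (mem_filter.1 hf).2.1⟩)
      calc |ph g Q h r f| * _ ≤ 1 * 36 :=
            mul_le_mul (ph_abs _ _ _ _ _) e2 (abs_nonneg _) (by norm_num)
        _ = 36 := by norm_num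
    · rw [sum_const, nsmul_eq_mul, mul_comm]
  have s5 : ∑ f ∈ (Mn K n).filter (Rgh k), ph g Q h r f * (3 * (if Irreducible f then (1 : ℝ) else 0)) =
      ∑ f ∈ (Mn K n).filter (Rgh k), ph g Q h r f * T f -
      ∑ f ∈ (Mn K n).filter (Rgh k), (mob f : ℝ) * ph g Q h r f +
      ∑ f ∈ (Mn K n).filter (Rgh k),
      ph g Q h r f * (3 * (if Irreducible f then (1 : ℝ) else 0) - (T f - (mob f : ℝ))) := by
    rw [← sum_sub_distrib, ← sum_add_distrib]
    refine sum_congr rfl fun f _ => ?_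
    ring
  have s6 : ∑ f ∈ (Mn K n).filter (Rgh k),
        ph g Q h r f * ∑ D ∈ (MM K (n + 1)).filter (fun D => D ∣ f), cc n k δ D =
      ∑ f ∈ (Mn K n).filter (Rgh k), ph g Q h r f * T f :=
    sum_congr rfl fun f _ => by rw [hT]
  rw [s1, s5, s6]
  refine (abs_add_le _ _).trans (add_le_add (abs_sub _ _) s4)

end Pool.Agent.H251.SP.Asm
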