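import Pool.Agent.H251.SP.Stm
import Pool.Agent.H523.RH2
import Pool.Agent.H524.Cw.Lio

/-!
# SP-LAM (helper287, for helper251): the Liouville function at shifted primes

`lam F` is the sum of `mobg g F` over the monic `g` with `g ^ 2 ∣ F`.  For `deg g ≤ y` the theorem
for `mobg` is used; the primes `p` with `g ^ 2 ∣ p + h`, `y < deg g ≤ n / 4`, are counted with Weil's
theorem; those with `deg g > n / 4` trivially.
-/

set_option autoImplicit false
set_option linter.unusedSectionVars false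

namespace Pool.Agent.H251.SP

open Polynomial Finset Filter Topology
open scoped Classical
open Pool.Agent.H985.Chow (mob)
open Pool.Agent.H985.KP (PA mobg)
open Pool.Agent.H694.Typ (Mn Irn mem_Mn mem_Irn card_Mn sq_bound)
open Pool.Agent.H341R2.Sharp (Mon mem_Mon)
open Pool.Agent.H523.FF (Ir mem_Ir two_le_card irr_coprime)
open Pool.Agent.H523.RH (Phi pnt Phi_prod)
open Pool.Agent.H524.Cw (lio lio_ne lamD lamD_diff ML mem_ML msq)

namespace Lam

variable {K : Type} [Field K] [Fintype K]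

/-- the number of `f` coprime to `g ^ 2` -/
theorem Phi_sq (g : K[X]) (hg : g.Monic) :
    (Fintype.card K : ℝ) ^ (3 * g.natDegree) ≤ 4 * (Phi (g ^ 2) 0 : ℝ) ^ 2 := by
  set q : ℝ := (Fintype.card K : ℝ) with hq
  have hq2 : (2 : ℝ) ≤ q := two_le_card (F := K)
  set S : Finset K[X] := (UniqueFactorizationMonoid.normalizedFactors g).toFinset with hS
  have hmem : ∀ P, P ∈ S ↔ P.Monic ∧ Irreducible P ∧ P ∣ g := by
    intro P
    rw [hS, Multiset.mem_toFinset, UniqueFactorizationMonoid.mem_normalizedFactors_iff' hg.ne_zero]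
    constructor
    · rintro ⟨a, b, c⟩
      refine ⟨?_, a, c⟩
      rw [← b]
      exact monic_normalize a.ne_zero
    · rintro ⟨a, b, c⟩
      exact ⟨b, a.normalize_eq_self, c⟩
  set R : K[X] := ∏ P ∈ S, P with hR
  have hRm : R.Monic := monic_prod_of_monic _ _ fun P hP => ((hmem P).1 hP).1
  have hRdeg : R.natDegree = ∑ P ∈ S, P.natDegree :=
    natDegree_prod_of_monic _ _ fun P hP => ((hmem P).1 hP).1
  have hRg : R ∣ g := by
    apply Finset.prod_dvd_of_coprime
    · intro P hP Q hQ hne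
      exact irr_coprime ((hmem P).1 hP).1 ((hmem P).1 hP).2.1 ((hmem Q).1 hQ).1
        ((hmem Q).1 hQ).2.1 hne
    · intro P hP
      exact ((hmem P).1 hP).2.2
  have hRle : R.natDegree ≤ g.natDegree := natDegree_le_of_dvd hRg hg.ne_zero
  have hcop : ∀ f : K[X], IsCoprime f (g ^ 2) ↔ IsCoprime f R := by
    intro f
    rw [IsCoprime.pow_right_iff (by norm_num)]
    constructor
    · intro h
      exact h.of_isCoprime_of_dvd_right hRg
    · intro h
      refine isCoprime_of_irreducible_dvd (fun h0 => hg.ne_zero h0.2) fun z hz hzf hzg => ?_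
      have hzm : (normalize z).Monic := monic_normalize hz.ne_zero
      have hzi : Irreducible (normalize z) := (normalize_associated z).irreducible_iff.2 hz
      have hzS : normalize z ∈ S := (hmem _).2 ⟨hzm, hzi, normalize_dvd_iff.2 hzg⟩
      exact hzi.not_isUnit (h.isUnit_of_dvd' (normalize_dvd_iff.2 hzf)
        (Finset.dvd_prod_of_mem _ hzS))
  have hdeg2 : (g ^ 2).natDegree + 0 = R.natDegree + (2 * g.natDegree - R.natDegree) := by
    rw [hg.natDegree_pow]
    omega
  have hPhi : Phi (g ^ 2) 0 = Phi R (2 * g.natDegree - R.natDegree) := by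
    unfold Phi
    rw [hdeg2]
    congr 1
    exact Finset.filter_congr fun f _ => hcop f
  rw [hPhi, Phi_prod S (fun P hP => ⟨((hmem P).1 hP).1, ((hmem P).1 hP).2.1⟩), ← hq]
  have hepos : ∀ P ∈ S, 1 ≤ P.natDegree := fun P hP => ((hmem P).1 hP).2.1.natDegree_pos
  -- the product
  have hterm : ∀ P ∈ S, q ^ P.natDegree *
      (if Fintype.card K ^ P.natDegree = 2 then (1 / 2 : ℝ) else 1) ≤
      (q ^ P.natDegree - 1) ^ 2 := by
    intro P hP
    have h2 : 2 ≤ Fintype.card K ^ P.natDegree := by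
      calc 2 ≤ Fintype.card K := Fintype.one_lt_card
        _ = Fintype.card K ^ 1 := (pow_one _).symm
        _ ≤ _ := Nat.pow_le_pow_right Fintype.card_pos (hepos P hP)
    have hcast : q ^ P.natDegree = ((Fintype.card K ^ P.natDegree : ℕ) : ℝ) := by
      rw [hq]
      push_cast
      rfl
    rw [hcast]
    by_cases h : Fintype.card K ^ P.natDegree = 2
    · rw [if_pos h, h]
      norm_num
    · rw [if_neg h, mul_one]
      have h3 : (3 : ℝ) ≤ ((Fintype.card K ^ P.natDegree : ℕ) : ℝ) := by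
        exact_mod_cast (by omega : 3 ≤ Fintype.card K ^ P.natDegree)
      nlinarith
  have hcard : (S.filter fun P => Fintype.card K ^ P.natDegree = 2).card ≤ 2 := by
    by_cases hc : Fintype.card K = 2
    · have hsub : (S.filter fun P => Fintype.card K ^ P.natDegree = 2) ⊆ Mn K 1 := by
        intro P hP
        rw [mem_filter, hc] at hP
        have h1 : P.natDegree = 1 := by
          have := hP.2
          exact Nat.pow_right_injective le_rfl (by simpa using this)
        exact mem_Mn.2 ⟨((hmem P).1 hP.1).1, h1⟩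
      have := card_le_card hsub
      rw [card_Mn, pow_one] at this
      omega
    · have hemp : (S.filter fun P => Fintype.card K ^ P.natDegree = 2) = ∅ := by
        rw [filter_eq_empty_iff]
        intro P hP h
        have h2 : 2 ≤ Fintype.card K := Fintype.one_lt_card
        have h3 : Fintype.card K ≤ Fintype.card K ^ P.natDegree :=
          Nat.le_self_pow (by have := hepos P hP; omega) _
        omega
      rw [hemp]
      simp
  have hprod : q ^ R.natDegree * (1 / 4) ≤ (∏ P ∈ S, (q ^ P.natDegree - 1)) ^ 2 := by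
    calc q ^ R.natDegree * (1 / 4)
        ≤ q ^ R.natDegree *
          (1 / 2) ^ (S.filter fun P => Fintype.card K ^ P.natDegree = 2).card := by
          refine mul_le_mul_of_nonneg_left ?_ (by positivity)
          calc (1 / 4 : ℝ) = (1 / 2) ^ 2 := by norm_num
            _ ≤ _ := pow_le_pow_of_le_one (by norm_num) (by norm_num) hcard
      _ = ∏ P ∈ S, (q ^ P.natDegree *
          (if Fintype.card K ^ P.natDegree = 2 then (1 / 2 : ℝ) else 1)) := by
          rw [prod_mul_distrib, prod_ite, prod_const_one, mul_one, prod_const, hRdeg,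
            prod_pow_eq_pow_sum]
      _ ≤ ∏ P ∈ S, (q ^ P.natDegree - 1) ^ 2 := by
          refine prod_le_prod (fun P _ => ?_) hterm
          split_ifs <;> positivity
      _ = _ := prod_pow _ _ _
  calc q ^ (3 * g.natDegree) ≤ q ^ (2 * (2 * g.natDegree - R.natDegree)) * q ^ R.natDegree := by
        rw [← pow_add]
        exact pow_le_pow_right₀ (by linarith) (by omega)
    _ = q ^ (2 * (2 * g.natDegree - R.natDegree)) * (4 * (q ^ R.natDegree * (1 / 4))) := by ring
    _ ≤ q ^ (2 * (2 * g.natDegree - R.natDegree)) *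
        (4 * (∏ P ∈ S, (q ^ P.natDegree - 1)) ^ 2) := by
        refine mul_le_mul_of_nonneg_left ?_ (by positivity)
        linarith
    _ = _ := by ring

/-- the number of the primes `p ≡ - h` modulo `g ^ 2` -/
theorem prime_count (n : ℕ) (hn : 1 ≤ n) (h g : K[X]) (hg : g.Monic) (hgn : g.natDegree < n) :
    (n : ℝ) * (((Irn K n).filter (fun p => g ^ 2 ∣ p + h)).card : ℝ) ≤
      (Fintype.card K : ℝ) ^ n / (Phi (g ^ 2) 0 : ℝ) +
        (4 * (g.natDegree : ℝ) + 4) * (√(Fintype.card K : ℝ)) ^ n := by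
  rcases ((Irn K n).filter (fun p => g ^ 2 ∣ p + h)).eq_empty_or_nonempty with hemp | ⟨p₀, hp₀⟩
  · rw [hemp, card_empty, Nat.cast_zero, mul_zero]
    positivity
  · rw [mem_filter, mem_Irn] at hp₀
    obtain ⟨⟨hm₀, hd₀, hi₀⟩, hdv₀⟩ := hp₀
    have hcop : IsCoprime p₀ (g ^ 2) := by
      refine (hi₀.coprime_iff_not_dvd.2 ?_)
      intro hdvd
      have h1 := hi₀.prime.dvd_of_dvd_pow hdvd
      have h2 := natDegree_le_of_dvd h1 hg.ne_zero
      omega
    have hpnt := pnt (hg.pow 2) 0 n hn (Nat.zero_le n) (mem_Mon.2 ⟨hm₀, hd₀⟩) hcop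
    have hsub : (Irn K n).filter (fun p => g ^ 2 ∣ p + h) ⊆ (Ir K n).filter
        (fun P => g ^ 2 ∣ P - p₀ ∧ (P - p₀).degree < ((n - 0 : ℕ) : WithBot ℕ)) := by
      intro p hp
      rw [mem_filter, mem_Irn] at hp
      obtain ⟨⟨hm, hd, hi⟩, hdv⟩ := hp
      rw [mem_filter, mem_Ir]
      refine ⟨⟨hm, hi, hd⟩, ?_, ?_⟩
      · have := dvd_sub hdv hdv₀
        have e : p + h - (p₀ + h) = p - p₀ := by ring
        rwa [e] at this
      · have h3 := degree_sub_lt_left (p := p) (q := p₀)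
          (by rw [degree_eq_natDegree hm.ne_zero, degree_eq_natDegree hm₀.ne_zero, hd, hd₀])
          hm.ne_zero (by rw [hm.leadingCoeff, hm₀.leadingCoeff])
        rw [degree_eq_natDegree hm.ne_zero, hd] at h3
        exact h3
    have hle : (((Irn K n).filter (fun p => g ^ 2 ∣ p + h)).card : ℝ) ≤
        (((Ir K n).filter
        (fun P => g ^ 2 ∣ P - p₀ ∧ (P - p₀).degree < ((n - 0 : ℕ) : WithBot ℕ))).card : ℝ) := by
      exact_mod_cast card_le_card hsub
    have h4 := mul_le_mul_of_nonneg_left hle (Nat.cast_nonneg (α := ℝ) n)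
    have h5 := (abs_le.1 hpnt).2
    rw [hg.natDegree_pow] at h5
    push_cast at h5
    have e : (2 * (2 * (g.natDegree : ℝ)) + 0 + 4) = 4 * (g.natDegree : ℝ) + 4 := by ring
    rw [e] at h5
    linarith

/-- geometric sums -/
theorem geo_r {r : ℝ} (hr0 : 0 ≤ r) (hr : 4 * r ≤ 3) (y m : ℕ) :
    ∑ d ∈ Ioc y m, r ^ d ≤ 3 * r ^ y := by
  by_cases hm : y ≤ m
  · have key : ∑ d ∈ Ioc y m, r ^ d ≤ 3 * (r ^ y - r ^ m) := by
      induction m, hm using Nat.le_induction with
      | base => simp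
      | succ m hm ih =>
        rw [sum_Ioc_succ_top hm]
        have h1 : r ^ (m + 1) = r * r ^ m := by ring
        have h2 : 0 ≤ r ^ m := by positivity
        have h3 : 4 * r * r ^ m ≤ 3 * r ^ m := mul_le_mul_of_nonneg_right hr h2
        rw [h1]
        linarith
    have h2 : 0 ≤ r ^ m := by positivity
    linarith
  · rw [Ioc_eq_empty_of_le (by omega), sum_empty]
    positivity

/-- the primes `p` such that `p + h` has a large square divisor -/
theorem tail (y n : ℕ) (hn : 1 ≤ n) (h : K[X]) (hh : h.natDegree < n) :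
    (n : ℝ) * (((Irn K n).filter (fun p => ∃ g : K[X], g.Monic ∧ y < g.natDegree ∧
      g ^ 2 ∣ p + h)).card : ℝ) ≤ (Fintype.card K : ℝ) ^ n *
        (6 * ((√2)⁻¹) ^ y + 2 * ((n : ℝ) + 4) * ((√2)⁻¹) ^ (n / 2) + n * (1 / 2) ^ (n / 4)) := by
  set q : ℝ := (Fintype.card K : ℝ) with hq
  have hq2 : (2 : ℝ) ≤ q := two_le_card (F := K)
  set s : ℝ := √q with hs
  have hs0 : 0 < s := Real.sqrt_pos.2 (by linarith)
  have hss : s ^ 2 = q := Real.sq_sqrt (by linarith)
  set r : ℝ := (√2)⁻¹ with hr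
  have h2p : (0 : ℝ) < √2 := Real.sqrt_pos.2 (by norm_num)
  have hr0 : 0 < r := inv_pos.2 h2p
  have hsr : 1 / s ≤ r := by
    rw [hr, one_div]
    exact inv_anti₀ h2p (Real.sqrt_le_sqrt hq2)
  have hr4 : 4 * r ≤ 3 := by
    rw [hr, ← div_eq_mul_inv, div_le_iff₀ h2p]
    have h1 : (4 / 3 : ℝ) ≤ √2 := by
      apply Real.le_sqrt_of_sq_le
      norm_num
    linarith
  have hr1 : r ≤ 1 := by linarith
  have hpow : ∀ d : ℕ, 1 / s ^ d ≤ r ^ d := by
    intro d
    rw [← one_div_pow]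
    exact pow_le_pow_left₀ (by positivity) hsr d
  -- splitting
  have hsub : (Irn K n).filter (fun p => ∃ g : K[X], g.Monic ∧ y < g.natDegree ∧ g ^ 2 ∣ p + h) ⊆
      ((Ioc y (n / 4)).biUnion fun d => (Mn K d).biUnion fun g =>
        (Irn K n).filter fun p => g ^ 2 ∣ p + h) ∪
      (Mn K n).filter fun f => ∃ g : K[X], g.Monic ∧ n / 4 < g.natDegree ∧ g ^ 2 ∣ f + h := by
    intro p hp
    rw [mem_filter] at hp
    obtain ⟨hp, g, hg, hyg, hdv⟩ := hp
    rw [mem_union]
    by_cases hgn : g.natDegree ≤ n / 4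
    · left
      rw [mem_biUnion]
      refine ⟨g.natDegree, mem_Ioc.2 ⟨hyg, hgn⟩, ?_⟩
      rw [mem_biUnion]
      exact ⟨g, mem_Mn.2 ⟨hg, rfl⟩, mem_filter.2 ⟨hp, hdv⟩⟩
    · right
      have hp' := mem_Irn.1 hp
      exact mem_filter.2 ⟨mem_Mn.2 ⟨hp'.1, hp'.2.1⟩, g, hg, by omega, hdv⟩
  have hlast : (((Mn K n).filter fun f => ∃ g : K[X], g.Monic ∧ n / 4 < g.natDegree ∧
      g ^ 2 ∣ f + h).card : ℝ) ≤ q ^ n * (1 / 2) ^ (n / 4) := by
    have h1 := Pool.Agent.H524.Ext.sum_shift (K := K) hh (fun f => if ∃ g : K[X], g.Monic ∧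
      n / 4 < g.natDegree ∧ g ^ 2 ∣ f then (1 : ℝ) else 0)
    rw [card_filter]
    push_cast
    rw [h1]
    have h2 := sq_bound (k := K) n (n / 4)
    rw [card_filter] at h2
    push_cast at h2
    exact h2
  have hone : ∀ d ∈ Ioc y (n / 4), ∀ g ∈ Mn K d,
      (n : ℝ) * (((Irn K n).filter fun p => g ^ 2 ∣ p + h).card : ℝ) ≤
        2 * q ^ n / s ^ (3 * d) + ((n : ℝ) + 4) * s ^ n := by
    intro d hd g hg
    rw [mem_Mn] at hg
    rw [mem_Ioc] at hd
    have h1 := prime_count n hn h g hg.1 (by omega)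
    have h2 := Phi_sq g hg.1
    rw [← hq] at h1 h2
    rw [hg.2] at h1 h2
    have h3 : s ^ (3 * d) ≤ 2 * (Phi (g ^ 2) 0 : ℝ) := by
      refine abs_le_of_sq_le_sq' ?_ (by positivity) |>.2
      rw [← pow_mul, mul_comm (3 * d) 2, pow_mul, hss]
      linarith
    have hsd : 0 < s ^ (3 * d) := by positivity
    have hPhi : 0 < (Phi (g ^ 2) 0 : ℝ) := by linarith
    have h4 : q ^ n / (Phi (g ^ 2) 0 : ℝ) ≤ 2 * q ^ n / s ^ (3 * d) := by
      rw [div_le_div_iff₀ hPhi hsd]
      have := mul_le_mul_of_nonneg_left h3 (by positivity : 0 ≤ q ^ n)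
      linarith
    have h5 : 4 * (d : ℝ) ≤ n := by
      exact_mod_cast (by omega : 4 * d ≤ n)
    have h6 : (4 * (d : ℝ) + 4) * s ^ n ≤ ((n : ℝ) + 4) * s ^ n :=
      mul_le_mul_of_nonneg_right (by linarith) (by positivity)
    linarith
  have hfirst : (n : ℝ) * ((((Ioc y (n / 4)).biUnion fun d => (Mn K d).biUnion fun g =>
        (Irn K n).filter fun p => g ^ 2 ∣ p + h)).card : ℝ) ≤
      q ^ n * (6 * r ^ y + 2 * ((n : ℝ) + 4) * r ^ (n / 2)) := by
    have h1 : ((((Ioc y (n / 4)).biUnion fun d => (Mn K d).biUnion fun g =>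
        (Irn K n).filter fun p => g ^ 2 ∣ p + h)).card : ℝ) ≤
        ∑ d ∈ Ioc y (n / 4), ∑ g ∈ Mn K d,
          (((Irn K n).filter fun p => g ^ 2 ∣ p + h).card : ℝ) := by
      have h2 : (((Ioc y (n / 4)).biUnion fun d => (Mn K d).biUnion fun g =>
        (Irn K n).filter fun p => g ^ 2 ∣ p + h)).card ≤
        ∑ d ∈ Ioc y (n / 4), ∑ g ∈ Mn K d,
          ((Irn K n).filter fun p => g ^ 2 ∣ p + h).card :=
        card_biUnion_le.trans (sum_le_sum fun d _ => card_biUnion_le)
      exact_mod_cast h2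
    calc (n : ℝ) * ((((Ioc y (n / 4)).biUnion fun d => (Mn K d).biUnion fun g =>
        (Irn K n).filter fun p => g ^ 2 ∣ p + h)).card : ℝ)
        ≤ (n : ℝ) * ∑ d ∈ Ioc y (n / 4), ∑ g ∈ Mn K d,
          (((Irn K n).filter fun p => g ^ 2 ∣ p + h).card : ℝ) :=
          mul_le_mul_of_nonneg_left h1 (Nat.cast_nonneg _)
      _ = ∑ d ∈ Ioc y (n / 4), ∑ g ∈ Mn K d,
          ((n : ℝ) * (((Irn K n).filter fun p => g ^ 2 ∣ p + h).card : ℝ)) := by
          simp only [mul_sum]
      _ ≤ ∑ d ∈ Ioc y (n / 4), ∑ _g ∈ Mn K d,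
          (2 * q ^ n / s ^ (3 * d) + ((n : ℝ) + 4) * s ^ n) :=
          sum_le_sum fun d hd => sum_le_sum fun g hg => hone d hd g hg
      _ = ∑ d ∈ Ioc y (n / 4), (2 * q ^ n * (1 / s ^ d) + ((n : ℝ) + 4) * s ^ n * q ^ d) := by
          refine sum_congr rfl fun d _ => ?_
          rw [sum_const, card_Mn, nsmul_eq_mul]
          push_cast
          rw [← hq]
          have h3 : q ^ d = s ^ (2 * d) := by rw [pow_mul, hss]
          have h4 : s ^ (3 * d) = s ^ (2 * d) * s ^ d := by rw [← pow_add]; congr 1; ring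
          rw [h4, h3]
          have h5 : s ^ (2 * d) ≠ 0 := by positivity
          have h6 : s ^ d ≠ 0 := by positivity
          field_simp
      _ = 2 * q ^ n * ∑ d ∈ Ioc y (n / 4), (1 / s ^ d) +
          ((n : ℝ) + 4) * s ^ n * ∑ d ∈ Ioc y (n / 4), q ^ d := by
          rw [sum_add_distrib, mul_sum, mul_sum]
      _ ≤ 2 * q ^ n * (3 * r ^ y) + ((n : ℝ) + 4) * s ^ n * (2 * q ^ (n / 4)) := by
          refine add_le_add ?_ ?_
          · refine mul_le_mul_of_nonneg_left ?_ (by positivity)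
            exact (sum_le_sum fun d _ => hpow d).trans (geo_r hr0.le hr4 y (n / 4))
          · refine mul_le_mul_of_nonneg_left ?_ (by positivity)
            refine le_trans ?_ (Pool.Agent.H523.RH.geom2 q hq2 (n / 4))
            refine sum_le_sum_of_subset_of_nonneg ?_ fun _ _ _ => by positivity
            intro d hd
            rw [mem_Ioc] at hd
            rw [mem_range]
            omega
      _ ≤ q ^ n * (6 * r ^ y + 2 * ((n : ℝ) + 4) * r ^ (n / 2)) := by
          have h3 : s ^ n * q ^ (n / 4) ≤ q ^ n * r ^ (n / 2) := by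
            have hs1 : 1 ≤ s := by
              rw [hs, Real.one_le_sqrt]
              linarith
            calc s ^ n * q ^ (n / 4) = s ^ (n + 2 * (n / 4)) := by
                  rw [pow_add, pow_mul, hss]
              _ ≤ s ^ (2 * n - n / 2) := pow_le_pow_right₀ hs1 (by omega)
              _ = q ^ n * (1 / s ^ (n / 2)) := by
                  rw [← hss, ← pow_mul, pow_sub₀ _ hs0.ne' (by omega), one_div]
              _ ≤ q ^ n * r ^ (n / 2) := mul_le_mul_of_nonneg_left (hpow _) (by positivity)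
          have h4 := mul_le_mul_of_nonneg_left h3 (by positivity : 0 ≤ 2 * ((n : ℝ) + 4))
          linarith
  have hcard : (((Irn K n).filter (fun p => ∃ g : K[X], g.Monic ∧ y < g.natDegree ∧
      g ^ 2 ∣ p + h)).card : ℝ) ≤
      ((((Ioc y (n / 4)).biUnion fun d => (Mn K d).biUnion fun g =>
        (Irn K n).filter fun p => g ^ 2 ∣ p + h)).card : ℝ) +
      (((Mn K n).filter fun f => ∃ g : K[X], g.Monic ∧ n / 4 < g.natDegree ∧
      g ^ 2 ∣ f + h).card : ℝ) := by
    exact_mod_cast (card_le_card hsub).trans (card_union_le _ _)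
  have h1 := mul_le_mul_of_nonneg_left hcard (Nat.cast_nonneg (α := ℝ) n)
  have h2 := mul_le_mul_of_nonneg_left hlast (Nat.cast_nonneg (α := ℝ) n)
  rw [mul_add] at h1
  calc _ ≤ _ := h1
    _ ≤ q ^ n * (6 * r ^ y + 2 * ((n : ℝ) + 4) * r ^ (n / 2)) +
        n * (q ^ n * (1 / 2) ^ (n / 4)) := add_le_add hfirst h2
    _ = _ := by ring

theorem msq_eq (g F : K[X]) : msq g F = mobg g F := by
  unfold msq mobg
  by_cases h : g ^ 2 ∣ F
  · rw [if_pos h]
  · rw [if_neg h]

/-- the elementary limits -/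
theorem limits (δ : ℝ) (hδ : 0 < δ) : ∀ᶠ n : ℕ in atTop,
    2 * ((n : ℝ) + 4) * ((√2)⁻¹) ^ (n / 2) + n * (1 / 2) ^ (n / 4) ≤ δ := by
  set r : ℝ := (√2)⁻¹ with hr
  have h2p : (0 : ℝ) < √2 := Real.sqrt_pos.2 (by norm_num)
  have hr0 : 0 < r := inv_pos.2 h2p
  have hr1 : r < 1 := by
    rw [hr]
    apply inv_lt_one_of_one_lt₀
    rw [Real.lt_sqrt (by norm_num)]
    norm_num
  have hA : ∀ x : ℝ, 0 ≤ x → x < 1 → ∀ k : ℕ, 0 < k → ∀ η : ℝ, 0 < η →
      ∀ᶠ n : ℕ in atTop, ((n : ℝ) + 4) * x ^ (n / k) ≤ η := by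
    intro x hx0 hx1 k hk η hη
    have h1 : Tendsto (fun m : ℕ => (k : ℝ) * ((m : ℝ) * x ^ m) + (k + 4) * x ^ m) atTop
        (𝓝 ((k : ℝ) * 0 + (k + 4) * 0)) :=
      ((tendsto_self_mul_const_pow_of_lt_one hx0 hx1).const_mul _).add
        ((tendsto_pow_atTop_nhds_zero_of_lt_one hx0 hx1).const_mul _)
    rw [mul_zero, mul_zero, add_zero] at h1
    have h2 := (h1.comp (Nat.tendsto_div_const_atTop hk.ne')).eventually (ge_mem_nhds hη)
    filter_upwards [h2] with n hn
    refine le_trans ?_ hn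
    simp only [Function.comp]
    have h3 : (n : ℝ) ≤ k * ((n / k : ℕ) : ℝ) + k := by
      have h4 : n ≤ k * (n / k) + k := by
        have h5 := Nat.div_add_mod n k
        have h6 := Nat.mod_lt n hk
        omega
      exact_mod_cast h4
    have h5 : 0 ≤ x ^ (n / k) := pow_nonneg hx0 _
    calc ((n : ℝ) + 4) * x ^ (n / k) ≤ (k * ((n / k : ℕ) : ℝ) + k + 4) * x ^ (n / k) :=
          mul_le_mul_of_nonneg_right (by linarith) h5
      _ = _ := by ring
  filter_upwards [hA r hr0.le hr1 2 (by norm_num) (δ / 4) (by positivity),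
    hA (1 / 2) (by norm_num) (by norm_num) 4 (by norm_num) (δ / 2) (by positivity)] with n h1 h2
  have h3 : (n : ℝ) * (1 / 2) ^ (n / 4) ≤ ((n : ℝ) + 4) * (1 / 2) ^ (n / 4) :=
    mul_le_mul_of_nonneg_right (by linarith) (by positivity)
  linarith

end Lam

open Lam in
/-- **Task LAM.** -/
theorem lam_of_sp (hsp : S_sp) : S_lam := by
  intro K _ _ _ Q ε hQ hε
  set r : ℝ := (√2)⁻¹ with hr
  have h2p : (0 : ℝ) < √2 := Real.sqrt_pos.2 (by norm_num)
  have hr0 : 0 < r := inv_pos.2 h2p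
  have hr1 : r < 1 := by
    rw [hr]
    apply inv_lt_one_of_one_lt₀
    rw [Real.lt_sqrt (by norm_num)]
    norm_num
  obtain ⟨y, hy⟩ := exists_pow_lt_of_lt_one (show (0 : ℝ) < ε / 24 by positivity) hr1
  set c : ℝ := ε / (2 * ((ML K y).card + 1)) with hc
  have hc0 : 0 < c := by positivity
  have hev : ∀ᶠ n : ℕ in atTop, ∀ g ∈ ML K y, ∀ h r : K[X], h ≠ 0 → h.natDegree < n →
      |∑ p ∈ (Irn K n).filter (fun p => Q ∣ p - r), (mobg g (p + h) : ℝ)| ≤
        c * (Fintype.card K : ℝ) ^ n / n := by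
    rw [Filter.eventually_all_finset]
    intro g hg
    obtain ⟨n₀, hn₀⟩ := hsp K g Q c (mem_ML.1 hg).1 hQ hc0
    filter_upwards [eventually_ge_atTop n₀] with n hn
    exact hn₀ n hn
  have hall := hev.and ((limits (ε / 4) (by positivity)).and (eventually_ge_atTop 1))
  obtain ⟨n₀, hn₀⟩ := Filter.eventually_atTop.1 hall
  refine ⟨n₀, fun n hn h r' hh0 hh => ?_⟩
  obtain ⟨hsum, hlim, hn1⟩ := hn₀ n hn
  set q : ℝ := (Fintype.card K : ℝ) with hq
  have hq2 : (2 : ℝ) ≤ q := two_le_card (F := K)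
  have hnpos : (0 : ℝ) < n := by exact_mod_cast hn1
  set A : Finset K[X] := (Irn K n).filter (fun p => Q ∣ p - r') with hA
  have hAmon : ∀ p ∈ A, (p + h).Monic := by
    intro p hp
    rw [hA, mem_filter] at hp
    have hp' := mem_Irn.1 hp.1
    have := Pool.Agent.H524.Cw.Mn_add hh (mem_Mn.2 ⟨hp'.1, hp'.2.1⟩)
    exact (mem_Mn.1 this).1
  have hlam : ∀ p ∈ A, (lam (p + h) : ℝ) = (lamD y (p + h) : ℝ) +
      ((lio (p + h) : ℝ) - (lamD y (p + h) : ℝ)) := by
    intro p hp
    have h1 : lam (p + h) = lio (p + h) := by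
      rw [lio_ne (hAmon p hp).ne_zero]
      rfl
    rw [h1]
    ring
  rw [sum_congr rfl hlam, sum_add_distrib]
  have hpart1 : |∑ p ∈ A, (lamD y (p + h) : ℝ)| ≤ (ML K y).card * (c * q ^ n / n) := by
    have h1 : ∑ p ∈ A, (lamD y (p + h) : ℝ) =
        ∑ g ∈ ML K y, ∑ p ∈ A, (mobg g (p + h) : ℝ) := by
      rw [sum_comm]
      refine sum_congr rfl fun p _ => ?_
      unfold lamD
      push_cast
      exact sum_congr rfl fun g _ => by rw [msq_eq]
    rw [h1]
    refine (abs_sum_le_sum_abs _ _).trans ?_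
    refine (sum_le_sum fun g hg => hsum g hg h r' hh0 hh).trans ?_
    rw [sum_const, nsmul_eq_mul]
  have hpart2 : |∑ p ∈ A, ((lio (p + h) : ℝ) - (lamD y (p + h) : ℝ))| ≤
      (((Irn K n).filter (fun p => ∃ g : K[X], g.Monic ∧ y < g.natDegree ∧
        g ^ 2 ∣ p + h)).card : ℝ) := by
    refine (abs_sum_le_sum_abs _ _).trans ?_
    refine (sum_le_sum fun p hp => lamD_diff y (hAmon p hp)).trans ?_
    rw [← sum_filter, sum_const, nsmul_eq_mul, mul_one]
    have : A.filter (fun p => ∃ g : K[X], g.Monic ∧ y < g.natDegree ∧ g ^ 2 ∣ p + h) ⊆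
        (Irn K n).filter (fun p => ∃ g : K[X], g.Monic ∧ y < g.natDegree ∧ g ^ 2 ∣ p + h) := by
      refine filter_subset_filter _ ?_
      rw [hA]
      exact filter_subset _ _
    exact_mod_cast card_le_card this
  have htail := tail y n hn1 h hh
  rw [← hq, ← hr] at htail
  have hfin1 : (ML K y).card * (c * q ^ n / n) ≤ ε / 2 * q ^ n / n := by
    have h1 : ((ML K y).card : ℝ) * c ≤ ε / 2 := by
      rw [hc]
      have h2 : (0 : ℝ) ≤ (ML K y).card := Nat.cast_nonneg _
      rw [mul_div_assoc', div_le_div_iff₀ (by positivity) (by norm_num)]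
      nlinarith
    have h3 : ((ML K y).card : ℝ) * (c * q ^ n / n) = ((ML K y).card * c) * q ^ n / n := by ring
    rw [h3]
    have h4 : 0 ≤ q ^ n := by positivity
    exact div_le_div_of_nonneg_right (mul_le_mul_of_nonneg_right h1 h4) hnpos.le
  have hfin2 : (((Irn K n).filter (fun p => ∃ g : K[X], g.Monic ∧ y < g.natDegree ∧
        g ^ 2 ∣ p + h)).card : ℝ) ≤ ε / 2 * q ^ n / n := by
    rw [le_div_iff₀ hnpos, mul_comm]
    refine htail.trans ?_
    have h1 : 6 * r ^ y + 2 * ((n : ℝ) + 4) * r ^ (n / 2) + n * (1 / 2) ^ (n / 4) ≤ ε / 2 := by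
      rw [← hr] at hlim
      linarith
    have h4 : 0 ≤ q ^ n := by positivity
    calc q ^ n * (6 * r ^ y + 2 * ((n : ℝ) + 4) * r ^ (n / 2) + n * (1 / 2) ^ (n / 4))
        ≤ q ^ n * (ε / 2) := mul_le_mul_of_nonneg_left h1 h4
      _ = _ := mul_comm _ _
  calc |∑ p ∈ A, (lamD y (p + h) : ℝ) + ∑ p ∈ A, ((lio (p + h) : ℝ) - (lamD y (p + h) : ℝ))|
      ≤ _ := abs_add_le _ _
    _ ≤ ε / 2 * q ^ n / n + ε / 2 * q ^ n / n :=
        add_le_add (hpart1.trans hfin1) (hpart2.trans hfin2)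
    _ = ε * q ^ n / n := by ring

end Pool.Agent.H251.SP
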