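import Mathlib
import Pool.Agent.H604.FC.Final
import Pool.Agent.H251.SP.SCAL
import Pool.Agent.H251.SP.Fbc
import Pool.Agent.H251.SP.FB
import Pool.Agent.H251.SP.Bf
import Pool.Agent.H251.SP.LS
import Pool.Agent.H251.SP.WM1
import Pool.Agent.H251.SP.Wm2
import Pool.Agent.H251.SP.WM
import Pool.Agent.H251.SP.TII
import Pool.Agent.H251.SP.WMP
import Pool.Agent.H251.SP.PS
import Pool.Agent.H251.SP.MOB
import Pool.Agent.H251.SP.Tail
import Pool.Agent.H251.SP.Ti
import Pool.Agent.H251.SP.TW
import Pool.Agent.H251.SP.BUCH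
import Pool.Agent.H251.SP.Comb
import Pool.Agent.H251.SP.FEW
import Pool.Agent.H251.SP.Asm
import Pool.Agent.H251.SP.Lam

/-!
# Shifted primes over `F_q[X]`, `q` even: final assembly (helper251)
-/

namespace Pool.Agent.H251.SP

theorem s_fb : S_fb :=
  fb (fbc (Pool.Agent.H985.FC.winF Pool.Agent.H985.Chow.s_key) Pool.Agent.H604.FC.s_win4 scal)

theorem s_ps : S_ps := ps s_fb bf wmp

theorem s_tii : S_tii := tii s_fb bf (wm (wm1 ls1) (wm2 ls2))

theorem s_ti : S_ti := ti mob_prog tail

theorem s_tw : S_tw := tw s_ps tail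

/-- **The Moebius function at shifted primes.** -/
theorem s_sp : S_sp := asm s_ti s_tw s_tii buch comb few

/-- **The Liouville function at shifted primes.** -/
theorem s_lam : S_lam := lam_of_sp s_sp

end Pool.Agent.H251.SP
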