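import Mathlib
import Pool.Agent.H251.SP.Final
import Pool.Agent.H524.Cw.Lio

/-!
# Power-saving correlations of the Liouville function in residue classes (helper251)

The proof is helper985's (`Pool/Agent/H985/Gc/Liou.lean`), with a residue class.
-/

set_option autoImplicit false
set_option linter.all false

namespace Pool.Agent.H251.SP

open Polynomial Finset Filter Topology
open scoped Classical
open Pool.Agent.H985.Chow (mob)
open Pool.Agent.H985.KP (mobg)
open Pool.Agent.H524.Cw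
open Pool.Agent.H694.Typ (Mn mem_Mn card_Mn)

namespace PSL

theorem msq_mobg {K : Type} [Field K] (d F : K[X]) : msq d F = mobg d F := by
  unfold msq mobg
  split_ifs <;> rfl

theorem half_pow (q : ℝ) (hq : 1 < q) (δ : ℝ) (n D : ℕ) (hD : δ * n ≤ D + 1) :
    (1 / 2 : ℝ) ^ D ≤ 2 * q ^ (-(δ * (Real.log 2 / Real.log q)) * n) := by
  have hlq : 0 < Real.log q := Real.log_pos hq
  have hl2 : 0 < Real.log 2 := Real.log_pos one_lt_two
  rw [Real.rpow_def_of_pos (by linarith)]
  have e1 : Real.log q * (-(δ * (Real.log 2 / Real.log q)) * n) = -(δ * n * Real.log 2) := by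
    field_simp
  have e3 : Real.exp ((D + 1 : ℝ) * Real.log 2) = 2 ^ (D + 1) := by
    rw [mul_comm, ← Real.rpow_def_of_pos two_pos]
    exact_mod_cast Real.rpow_natCast 2 (D + 1)
  have e2 : (1 / 2 : ℝ) ^ D = 2 * Real.exp (-((D + 1 : ℝ) * Real.log 2)) := by
    rw [Real.exp_neg, e3, pow_succ, one_div, inv_pow]
    field_simp
  rw [e1, e2]
  have : Real.exp (-((D + 1 : ℝ) * Real.log 2)) ≤ Real.exp (-(δ * n * Real.log 2)) := by
    apply Real.exp_le_exp.2
    have := mul_le_mul_of_nonneg_right hD hl2.le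
    linarith
  linarith

theorem card_ML (K : Type) [Field K] [Fintype K] (D : ℕ) :
    ((ML K D).card : ℝ) ≤ (Fintype.card K : ℝ) ^ (D + 1) := by
  have hq : 2 ≤ Fintype.card K := Fintype.one_lt_card
  have h1 : (ML K D).card ≤ ∑ j ∈ range (D + 1), Fintype.card K ^ j := by
    unfold ML
    refine Finset.card_biUnion_le.trans ?_
    refine Finset.sum_le_sum fun j _ => ?_
    rw [card_Mn]
  have h2 : ∑ j ∈ range (D + 1), Fintype.card K ^ j < Fintype.card K ^ (D + 1) :=
    Nat.geomSum_lt hq fun j hj => mem_range.1 hj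
  exact_mod_cast (h1.trans h2.le)

end PSL

open PSL in
/-- Chowla for the Liouville function with a power saving, uniform shifts, residue classes. -/
theorem psl (hps : S_ps) (K : Type) [Field K] [Fintype K] [CharP K 2] (k : ℕ) (hk : 1 ≤ k) :
    ∃ c : ℝ, 0 < c ∧ ∃ n₀ : ℕ, ∀ n : ℕ, n₀ ≤ n → ∀ (h : Fin k → K[X]) (Q r : K[X]),
      Function.Injective h → (∀ i, (h i).natDegree < n) → Q.Monic → (Q.natDegree : ℝ) ≤ c * n →
      |∑ f ∈ (Mn K n).filter (fun f => Q ∣ f - r), ∏ i, (lio (f + h i) : ℝ)| ≤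
        (Fintype.card K : ℝ) ^ ((n : ℝ) - c * n) := by
  obtain ⟨c, hc, n₀, hn₀⟩ := hps K k hk
  set q : ℝ := (Fintype.card K : ℝ) with hqdef
  have hq1 : 1 < q := by
    rw [hqdef]
    exact_mod_cast (Fintype.one_lt_card : 1 < Fintype.card K)
  have hq0 : 0 < q := by linarith
  have hlq : 0 < Real.log q := Real.log_pos hq1
  have hl2 : 0 < Real.log 2 := Real.log_pos one_lt_two
  have hk0 : (0 : ℝ) < k := by exact_mod_cast hk
  have hk1 : (1 : ℝ) ≤ k := by exact_mod_cast hk
  set δ : ℝ := c / (2 * k) with hδ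
  have hδ0 : 0 < δ := by positivity
  have hδc : δ ≤ c := by
    rw [hδ, div_le_iff₀ (by positivity)]
    nlinarith
  have hδk : δ * k = c / 2 := by
    rw [hδ]
    field_simp
  set δ' : ℝ := δ * (Real.log 2 / Real.log q) with hδ'
  have hδ'0 : 0 < δ' := by positivity
  set cf : ℝ := min (c / 2) δ' / 2 with hcf
  have hcf0 : 0 < cf := by
    rw [hcf]
    have : 0 < min (c / 2) δ' := lt_min (by linarith) hδ'0
    linarith
  have hcf1 : 2 * cf ≤ c / 2 := by
    rw [hcf]
    have := min_le_left (c / 2) δ'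
    linarith
  have hcf2 : 2 * cf ≤ δ' := by
    rw [hcf]
    have := min_le_right (c / 2) δ'
    linarith
  have hbase : 1 < q ^ cf := Real.one_lt_rpow hq1 hcf0
  obtain ⟨n₁, hn₁⟩ := (tendsto_pow_atTop_atTop_of_one_lt hbase).eventually_ge_atTop
    (q ^ (k : ℝ) + 2 * k) |>.exists_forall_of_atTop
  refine ⟨cf, hcf0, max n₀ n₁, fun n hn h Q r hinj hdeg hQ hQd => ?_⟩
  have hnn₀ : n₀ ≤ n := (le_max_left _ _).trans hn
  have hnn₁ : n₁ ≤ n := (le_max_right _ _).trans hn
  set D : ℕ := ⌊δ * n⌋₊ with hD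
  have hD1 : (D : ℝ) ≤ δ * n := Nat.floor_le (by positivity)
  have hD2 : δ * n ≤ D + 1 := (Nat.lt_floor_add_one _).le
  have hn0 : (0 : ℝ) ≤ n := Nat.cast_nonneg n
  have hQd' : (Q.natDegree : ℝ) ≤ c * n :=
    hQd.trans (mul_le_mul_of_nonneg_right (by linarith) hn0)
  set S : Finset K[X] := (Mn K n).filter (fun f => Q ∣ f - r) with hS
  have hSsub : S ⊆ Mn K n := Finset.filter_subset _ _
  -- the truncated sum
  have htr : |∑ f ∈ S, ∏ i, (lamD D (f + h i) : ℝ)| ≤ q ^ (k : ℝ) * q ^ ((n : ℝ) - 2 * cf * n) := by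
    have h1 : ∀ f : K[X], ∏ i, (lamD D (f + h i) : ℝ) =
        ∑ g ∈ Fintype.piFinset (fun _ : Fin k => ML K D), ∏ i, (mobg (g i) (f + h i) : ℝ) := by
      intro f
      have h2 := Finset.prod_univ_sum (fun _ : Fin k => ML K D)
        (fun i d => ((mobg d (f + h i) : ℤ) : ℝ))
      rw [← h2]
      refine Finset.prod_congr rfl fun i _ => ?_
      unfold lamD
      push_cast
      refine Finset.sum_congr rfl fun d _ => ?_
      rw [msq_mobg]
    rw [Finset.sum_congr rfl fun f _ => h1 f, Finset.sum_comm]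
    refine (Finset.abs_sum_le_sum_abs _ _).trans ?_
    have h3 : ∀ g ∈ Fintype.piFinset (fun _ : Fin k => ML K D),
        |∑ f ∈ S, ∏ i, (mobg (g i) (f + h i) : ℝ)| ≤ q ^ ((n : ℝ) - c * n) := by
      intro g hg
      refine hn₀ n hnn₀ h g Q r hinj hdeg (fun i => ?_) hQ hQd'
      have h5 := mem_ML.1 (Fintype.mem_piFinset.1 hg i)
      refine ⟨h5.1, ?_⟩
      have h6 : ((g i).natDegree : ℝ) ≤ D := by exact_mod_cast h5.2
      exact h6.trans (hD1.trans (mul_le_mul_of_nonneg_right hδc hn0))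
    refine (Finset.sum_le_sum h3).trans ?_
    rw [Finset.sum_const, nsmul_eq_mul, Fintype.card_piFinset, Finset.prod_const, Finset.card_univ,
      Fintype.card_fin]
    push_cast
    have h7 : ((ML K D).card : ℝ) ^ k ≤ q ^ ((k : ℝ) + c / 2 * n) := by
      calc ((ML K D).card : ℝ) ^ k ≤ (q ^ (D + 1)) ^ k :=
            pow_le_pow_left₀ (Nat.cast_nonneg _) (card_ML K D) k
        _ = q ^ (((D + 1) * k : ℕ) : ℝ) := by
            rw [← pow_mul, Real.rpow_natCast]
        _ ≤ q ^ ((k : ℝ) + c / 2 * n) := by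
            refine Real.rpow_le_rpow_of_exponent_le hq1.le ?_
            push_cast
            have := mul_le_mul_of_nonneg_right hD1 hk0.le
            nlinarith
    calc ((ML K D).card : ℝ) ^ k * q ^ ((n : ℝ) - c * n) ≤
        q ^ ((k : ℝ) + c / 2 * n) * q ^ ((n : ℝ) - c * n) :=
          mul_le_mul_of_nonneg_right h7 (Real.rpow_nonneg hq0.le _)
      _ = q ^ (k : ℝ) * q ^ ((n : ℝ) - c / 2 * n) := by
          rw [← Real.rpow_add hq0, ← Real.rpow_add hq0]
          congr 1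
          ring
      _ ≤ q ^ (k : ℝ) * q ^ ((n : ℝ) - 2 * cf * n) := by
          refine mul_le_mul_of_nonneg_left ?_ (Real.rpow_nonneg hq0.le _)
          refine Real.rpow_le_rpow_of_exponent_le hq1.le ?_
          have := mul_le_mul_of_nonneg_right hcf1 hn0
          linarith
  -- the tail
  have htail : |∑ f ∈ S, (∏ i, (lio (f + h i) : ℝ) - ∏ i, (lamD D (f + h i) : ℝ))| ≤
      2 * k * q ^ ((n : ℝ) - 2 * cf * n) := by
    refine (Finset.abs_sum_le_sum_abs _ _).trans ?_
    refine (Finset.sum_le_sum_of_subset_of_nonneg hSsub fun f _ _ => abs_nonneg _).trans ?_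
    calc ∑ f ∈ Mn K n, |∏ i, (lio (f + h i) : ℝ) - ∏ i, (lamD D (f + h i) : ℝ)| ≤
        ∑ f ∈ Mn K n, ∑ i, |(lio (f + h i) : ℝ) - (lamD D (f + h i) : ℝ)| := by
          refine Finset.sum_le_sum fun f hf => ?_
          exact abs_prod_sub' univ _ _ (fun i _ => abs_lio _)
            (fun i _ => abs_lamD D (mem_Mn.1 (Mn_add (hdeg i) hf)).1)
      _ = ∑ i, ∑ f ∈ Mn K n, |(lio (f + h i) : ℝ) - (lamD D (f + h i) : ℝ)| := Finset.sum_comm
      _ ≤ ∑ i : Fin k, q ^ n * (1 / 2) ^ D := Finset.sum_le_sum fun i _ => tail_lio D (hdeg i)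
      _ = k * (q ^ n * (1 / 2) ^ D) := by
          rw [Finset.sum_const, Finset.card_univ, nsmul_eq_mul, Fintype.card_fin]
      _ ≤ k * (q ^ n * (2 * q ^ (-δ' * n))) := by
          refine mul_le_mul_of_nonneg_left ?_ hk0.le
          exact mul_le_mul_of_nonneg_left (half_pow q hq1 δ n D hD2) (by positivity)
      _ = 2 * k * q ^ ((n : ℝ) - δ' * n) := by
          rw [sub_eq_add_neg, Real.rpow_add hq0, Real.rpow_natCast, neg_mul]
          ring
      _ ≤ 2 * k * q ^ ((n : ℝ) - 2 * cf * n) := by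
          refine mul_le_mul_of_nonneg_left ?_ (by positivity)
          refine Real.rpow_le_rpow_of_exponent_le hq1.le ?_
          have := mul_le_mul_of_nonneg_right hcf2 hn0
          linarith
  have hsplit : ∑ f ∈ S, ∏ i, (lio (f + h i) : ℝ) =
      ∑ f ∈ S, (∏ i, (lio (f + h i) : ℝ) - ∏ i, (lamD D (f + h i) : ℝ)) +
        ∑ f ∈ S, ∏ i, (lamD D (f + h i) : ℝ) := by
    rw [← Finset.sum_add_distrib]
    exact Finset.sum_congr rfl fun f _ => by ring
  rw [hsplit]
  refine (abs_add_le _ _).trans ?_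
  have hX : q ^ (k : ℝ) + 2 * k ≤ q ^ (cf * n) := by
    rw [Real.rpow_mul_natCast hq0.le]
    exact hn₁ n hnn₁
  calc |∑ f ∈ S, (∏ i, (lio (f + h i) : ℝ) - ∏ i, (lamD D (f + h i) : ℝ))| +
      |∑ f ∈ S, ∏ i, (lamD D (f + h i) : ℝ)| ≤
      (q ^ (k : ℝ) + 2 * k) * q ^ ((n : ℝ) - 2 * cf * n) := by linarith
    _ ≤ q ^ (cf * n) * q ^ ((n : ℝ) - 2 * cf * n) :=
        mul_le_mul_of_nonneg_right hX (Real.rpow_nonneg hq0.le _)
    _ = q ^ ((n : ℝ) - cf * n) := by
        rw [← Real.rpow_add hq0]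
        congr 1
        ring

end Pool.Agent.H251.SP
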