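import Mathlib
import Pool.Agent.H251.SP.Final
import Pool.Agent.H524.Cw.Lio

/-!
# From primes to the von Mangoldt function (helper251)
-/

set_option autoImplicit false

namespace Pool.Agent.H251.SP

open Polynomial Finset
open scoped Classical
open Pool.Agent.H694.Typ (Mn Irn mem_Mn mem_Irn card_Mn)
open Pool.Agent.H985.Chow (mob)
open Pool.Agent.H985.KP (mobg)
open Pool.Agent.H524.Cw (lio)

/-- The von Mangoldt function of `K[X]`: `deg P` at the powers `P ^ k`, `k ≥ 1`, of the monic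
irreducible polynomials `P`, and `0` elsewhere. -/
noncomputable def vm {K : Type} [Field K] (f : K[X]) : ℕ :=
  if h : ∃ P : K[X], P.Monic ∧ Irreducible P ∧ ∃ k : ℕ, 1 ≤ k ∧ f = P ^ k then
    h.choose.natDegree else 0

theorem charTwo {K : Type} [Field K] [Fintype K] (hK : Even (Fintype.card K)) : CharP K 2 := by
  obtain ⟨p, hp⟩ := CharP.exists K
  have hprime : p.Prime := CharP.char_is_prime K p
  obtain ⟨n, hprime', hn⟩ := FiniteField.card K p
  have h2 : 2 ∣ p ^ (n : ℕ) := by rw [← hn]; exact hK.two_dvd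
  have h3 : 2 ∣ p := Nat.prime_two.dvd_of_dvd_pow h2
  have h4 : 2 = p := (Nat.prime_dvd_prime_iff_eq Nat.prime_two hprime).1 h3
  rw [h4]
  exact hp

namespace VM

variable {K : Type} [Field K]

theorem vm_irr {p : K[X]} (hm : p.Monic) (hp : Irreducible p) : vm p = p.natDegree := by
  have h : ∃ P : K[X], P.Monic ∧ Irreducible P ∧ ∃ k : ℕ, 1 ≤ k ∧ p = P ^ k :=
    ⟨p, hm, hp, 1, le_rfl, (pow_one p).symm⟩
  unfold vm
  rw [dif_pos h]
  obtain ⟨h1, h2, k, hk, hpk⟩ := h.choose_spec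
  have hk1 : k = 1 := by
    rw [hpk] at hp
    by_contra hne
    exact (not_irreducible_pow hne) hp
  rw [hk1, pow_one] at hpk
  exact congrArg natDegree hpk.symm

theorem vm_le (f : K[X]) : vm f ≤ f.natDegree := by
  unfold vm
  split_ifs with h
  · obtain ⟨h1, h2, k, hk, hpk⟩ := h.choose_spec
    conv_rhs => rw [hpk]
    rw [natDegree_pow]
    exact Nat.le_mul_of_pos_left _ hk
  · exact Nat.zero_le _

/-- A non-irreducible `f` with `vm f ≠ 0` is a power of a polynomial of degree at most `n / 2`. -/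
theorem vm_pow {f : K[X]} (hf : ¬ Irreducible f) (h0 : vm f ≠ 0) :
    ∃ P : K[X], P.Monic ∧ 2 * P.natDegree ≤ f.natDegree ∧ 1 ≤ P.natDegree ∧
      f = P ^ (f.natDegree / P.natDegree) := by
  unfold vm at h0
  split_ifs at h0 with h
  · obtain ⟨P, hP1, hP2, k, hk, hpk⟩ := h
    have hd : 1 ≤ P.natDegree := hP2.natDegree_pos
    have hk2 : 2 ≤ k := by
      by_contra hlt
      have : k = 1 := by omega
      rw [this, pow_one] at hpk
      exact hf (hpk ▸ hP2)
    have hdeg : f.natDegree = k * P.natDegree := by rw [hpk, natDegree_pow]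
    refine ⟨P, hP1, ?_, hd, ?_⟩
    · rw [hdeg]; exact Nat.mul_le_mul_right _ hk2
    · rw [hdeg, Nat.mul_div_cancel _ (by omega)]
      exact hpk
  · exact absurd rfl h0

variable [Fintype K]

theorem sum_pow (n : ℕ) :
    ∑ f ∈ (Mn K n).filter (fun f => ¬ Irreducible f), (vm f : ℝ) ≤
      n * (Fintype.card K : ℝ) ^ (n / 2 + 1) := by
  have hq : 2 ≤ Fintype.card K := Fintype.one_lt_card
  -- the support injects into the monic polynomials of degree at most `n / 2`
  set S : Finset K[X] := ((Mn K n).filter (fun f => ¬ Irreducible f)).filter (fun f => vm f ≠ 0)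
    with hS
  have h1 : ∑ f ∈ (Mn K n).filter (fun f => ¬ Irreducible f), (vm f : ℝ) =
      ∑ f ∈ S, (vm f : ℝ) := by
    rw [hS]
    refine (Finset.sum_filter_of_ne (p := fun f => vm f ≠ 0) ?_).symm
    intro f _ hne h0
    apply hne
    rw [h0, Nat.cast_zero]
  rw [h1]
  have h2 : ∀ f ∈ S, (vm f : ℝ) ≤ n := by
    intro f hf
    rw [hS, mem_filter, mem_filter, mem_Mn] at hf
    have := vm_le f
    rw [hf.1.1.2] at this
    exact_mod_cast this
  refine (Finset.sum_le_card_nsmul S _ _ h2).trans ?_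
  rw [nsmul_eq_mul, mul_comm]
  refine mul_le_mul_of_nonneg_left ?_ (Nat.cast_nonneg _)
  have h3 : S ⊆ ((range (n / 2 + 1)).biUnion (fun j => Mn K j)).image
      (fun P => P ^ (n / P.natDegree)) := by
    intro f hf
    rw [hS, mem_filter, mem_filter, mem_Mn] at hf
    obtain ⟨P, hP1, hP2, hP3, hP4⟩ := vm_pow hf.1.2 hf.2
    rw [hf.1.1.2] at hP2 hP4
    rw [mem_image]
    refine ⟨P, ?_, hP4.symm⟩
    rw [mem_biUnion]
    exact ⟨P.natDegree, mem_range.2 (by omega), mem_Mn.2 ⟨hP1, rfl⟩⟩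
  have h4 : S.card ≤ ∑ j ∈ range (n / 2 + 1), Fintype.card K ^ j := by
    refine (card_le_card h3).trans (card_image_le.trans (card_biUnion_le.trans ?_))
    exact Finset.sum_le_sum fun j _ => (card_Mn j).le
  have h5 : ∑ j ∈ range (n / 2 + 1), Fintype.card K ^ j < Fintype.card K ^ (n / 2 + 1) :=
    Nat.geomSum_lt hq fun j hj => mem_range.1 hj
  exact_mod_cast (h4.trans h5.le)

/-- A bound for the primes gives a bound for the von Mangoldt function. -/
theorem of_primes (a : K[X] → ℝ) (ha : ∀ f, |a f| ≤ 1) (Q : K[X])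
    (H : ∀ ε : ℝ, 0 < ε → ∃ n₀ : ℕ, ∀ n : ℕ, n₀ ≤ n → ∀ h r : K[X], h ≠ 0 → h.natDegree < n →
      |∑ p ∈ (Irn K n).filter (fun p => Q ∣ p - r), a (p + h)| ≤
        ε * (Fintype.card K : ℝ) ^ n / n) (ε : ℝ) (hε : 0 < ε) :
    ∃ n₀ : ℕ, ∀ n : ℕ, n₀ ≤ n → ∀ h r : K[X], h ≠ 0 → h.natDegree < n →
      |∑ f ∈ (Mn K n).filter (fun f => Q ∣ f - r), (vm f : ℝ) * a (f + h)| ≤
        ε * (Fintype.card K : ℝ) ^ n := by
  obtain ⟨n₀, hn₀⟩ := H (ε / 2) (by positivity)
  have hq1 : (1 : ℝ) < (Fintype.card K : ℝ) := by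
    exact_mod_cast (Fintype.one_lt_card : 1 < Fintype.card K)
  have hq0 : (0 : ℝ) < (Fintype.card K : ℝ) := by linarith
  set q : ℝ := (Fintype.card K : ℝ) with hqdef
  -- `n q ^ (n / 2 + 1) ≤ (ε / 2) q ^ n` for large `n`
  obtain ⟨n₁, hn₁⟩ : ∃ n₁ : ℕ, ∀ n : ℕ, n₁ ≤ n → (n : ℝ) * q ^ (n / 2 + 1) ≤ ε / 2 * q ^ n := by
    have hsq : 1 < Real.sqrt q := by
      rw [show (1 : ℝ) = Real.sqrt 1 by simp]
      exact Real.sqrt_lt_sqrt (by norm_num) hq1
    have h1 := tendsto_pow_const_div_const_pow_of_one_lt 1 hsq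
    have h2 := (Metric.tendsto_atTop.1 h1) (ε / (2 * q)) (by positivity)
    obtain ⟨N, hN⟩ := h2
    refine ⟨max N 1, fun n hn => ?_⟩
    have h3 := hN n ((le_max_left _ _).trans hn)
    have hsn : 0 < Real.sqrt q ^ n := by positivity
    rw [Real.dist_0_eq_abs, abs_of_nonneg (by positivity), pow_one, div_lt_iff₀ hsn] at h3
    have h4 : q ^ (n / 2 + 1) ≤ q * Real.sqrt q ^ n := by
      rw [pow_succ, mul_comm]
      refine mul_le_mul_of_nonneg_left ?_ hq0.le
      calc q ^ (n / 2) = Real.sqrt q ^ (2 * (n / 2)) := by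
            rw [pow_mul, Real.sq_sqrt hq0.le]
        _ ≤ Real.sqrt q ^ n := pow_le_pow_right₀ hsq.le (by omega)
    have h5 : Real.sqrt q ^ n * Real.sqrt q ^ n = q ^ n := by
      rw [← mul_pow, Real.mul_self_sqrt hq0.le]
    calc (n : ℝ) * q ^ (n / 2 + 1) ≤ (ε / (2 * q) * Real.sqrt q ^ n) * (q * Real.sqrt q ^ n) :=
          mul_le_mul h3.le h4 (by positivity) (by positivity)
      _ = ε / 2 * (Real.sqrt q ^ n * Real.sqrt q ^ n) := by field_simp
      _ = ε / 2 * q ^ n := by rw [h5]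
  refine ⟨max (max n₀ n₁) 1, fun n hn h r hh hd => ?_⟩
  have hn0 : n₀ ≤ n := (le_max_left _ _).trans ((le_max_left _ _).trans hn)
  have hn1 : n₁ ≤ n := (le_max_right _ _).trans ((le_max_left _ _).trans hn)
  have hn2 : 1 ≤ n := (le_max_right _ _).trans hn
  have hnpos : (0 : ℝ) < n := by exact_mod_cast hn2
  -- split into irreducible and other `f`
  have hs1 : ∑ f ∈ (Mn K n).filter (fun f => Q ∣ f - r), (vm f : ℝ) * a (f + h) =
      ∑ f ∈ ((Mn K n).filter (fun f => Q ∣ f - r)).filter (fun f => Irreducible f),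
        (vm f : ℝ) * a (f + h) +
      ∑ f ∈ ((Mn K n).filter (fun f => Q ∣ f - r)).filter (fun f => ¬ Irreducible f),
        (vm f : ℝ) * a (f + h) := (Finset.sum_filter_add_sum_filter_not _ _ _).symm
  have hs2 : ∑ f ∈ ((Mn K n).filter (fun f => Q ∣ f - r)).filter (fun f => Irreducible f),
        (vm f : ℝ) * a (f + h) = n * ∑ p ∈ (Irn K n).filter (fun p => Q ∣ p - r), a (p + h) := by
    rw [Finset.mul_sum]
    refine Finset.sum_congr ?_ ?_
    · ext f
      simp only [mem_filter, mem_Mn, mem_Irn]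
      tauto
    · intro f hf
      simp only [mem_filter, mem_Irn] at hf
      rw [vm_irr hf.1.1 hf.1.2.2, hf.1.2.1]
  have hs3 : |∑ f ∈ ((Mn K n).filter (fun f => Q ∣ f - r)).filter (fun f => ¬ Irreducible f),
        (vm f : ℝ) * a (f + h)| ≤ n * q ^ (n / 2 + 1) := by
    refine (Finset.abs_sum_le_sum_abs _ _).trans (le_trans ?_ (sum_pow (K := K) n))
    refine (Finset.sum_le_sum (g := fun f => (vm f : ℝ)) fun f _ => ?_).trans
      (Finset.sum_le_sum_of_subset_of_nonneg ?_ fun f _ _ => Nat.cast_nonneg _)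
    · rw [abs_mul, abs_of_nonneg (Nat.cast_nonneg _)]
      exact mul_le_of_le_one_right (Nat.cast_nonneg _) (ha _)
    · intro f hf
      simp only [mem_filter] at hf ⊢
      exact ⟨hf.1.1, hf.2⟩
  have hp := hn₀ n hn0 h r hh hd
  have hp' : n * |∑ p ∈ (Irn K n).filter (fun p => Q ∣ p - r), a (p + h)| ≤ ε / 2 * q ^ n := by
    have := mul_le_mul_of_nonneg_left hp hnpos.le
    rwa [mul_div_cancel₀ _ hnpos.ne'] at this
  rw [hs1, hs2]
  refine (abs_add_le _ _).trans ?_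
  rw [abs_mul, abs_of_nonneg hnpos.le]
  have := hn₁ n hn1
  linarith

theorem mn_set (n : ℕ) (Q r : K[X]) :
    {f : K[X] | f.Monic ∧ f.natDegree = n ∧ Q ∣ f - r} =
      ↑((Mn K n).filter (fun f => Q ∣ f - r)) := by
  ext f
  simp only [Set.mem_ofPred_eq, coe_filter, mem_Mn]
  tauto

theorem irn_set (n : ℕ) (Q r : K[X]) :
    {p : K[X] | p.Monic ∧ Irreducible p ∧ p.natDegree = n ∧ Q ∣ p - r} =
      ↑((Irn K n).filter (fun p => Q ∣ p - r)) := by
  ext f
  simp only [Set.mem_ofPred_eq, coe_filter, mem_Irn]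
  tauto

omit [Fintype K] in
/-- normalisation of the modulus -/
theorem monic_mod {Q : K[X]} (hQ : Q ≠ 0) : ∃ Q' : K[X], Q'.Monic ∧
    Q'.natDegree = Q.natDegree ∧ ∀ x : K[X], Q ∣ x ↔ Q' ∣ x := by
  have hc : Q.leadingCoeff ≠ 0 := leadingCoeff_ne_zero.2 hQ
  refine ⟨Q * C Q.leadingCoeff⁻¹, monic_mul_leadingCoeff_inv hQ,
    natDegree_mul_leadingCoeff_inv Q hQ, fun x => ?_⟩
  have hu : IsUnit (C Q.leadingCoeff⁻¹ : K[X]) := isUnit_C.2 (IsUnit.mk0 _ (inv_ne_zero hc))
  exact (hu.mul_right_dvd).symm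

omit [Fintype K] in
theorem abs_mobg_le (g f : K[X]) : |(mobg g f : ℝ)| ≤ 1 := by
  unfold mobg mob
  split_ifs
  · push_cast
    rw [abs_pow]
    simp
  · simp
  · simp

end VM

end Pool.Agent.H251.SP
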